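import Mathlib

/-! # Project NC, module NC-35: the parameters -/

set_option autoImplicit false

namespace Pool.Agent.Helper84.NC

private lemma params_div (a c : ℕ) (hc : 0 < c) (h : c ≤ a) :
    ∃ q, q * c ≤ a ∧ a ≤ 2 * (q * c) := by
  refine ⟨a / c, Nat.div_mul_le_self a c, ?_⟩
  have h1 : 1 ≤ a / c := (Nat.one_le_div_iff hc).2 h
  have h2 : a < c * (a / c + 1) := Nat.lt_mul_div_succ a hc
  nlinarith

/-- All parameters. -/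
theorem exists_params {Λ k : ℕ} (hΛ : 1 ≤ Λ) (hk : 2 ^ 200 * (Λ + 1) ^ 20 ≤ k) :
    ∃ B E σ ρ Mn D Z ρ' T M μ₀ : ℕ, Λ * k ≤ E * B ∧ 100 * E + 100 * Λ + 100 ≤ σ ∧
      64 * σ * (2 * Λ + E + 2) ≤ B ∧ 100 * B ≤ k ∧ 64 * (Λ + 1) ≤ ρ ∧
      100 * (ρ + D + M + T + ρ' + Mn + Z) ≤ σ ∧ 2 * Λ * k ≤ σ * B ∧ Λ * k + 1 ≤ Mn * σ ∧
      4 * (ρ + Λ + 1) ≤ D ∧ 2 * ρ + 2 * Λ + 4 ≤ T ∧
      D + 2 * ρ + 2 * ρ' + 2 * T + 2 * Λ + 8 ≤ M ∧ 4 * ρ + 2 * M + 4 ≤ Z ∧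
      8 * (Λ * k + 1) + ρ' * (E + 12 * (T + Mn + 2) ^ 2 + M + Mn + 8) ≤ ρ' * μ₀ ∧
      4 * μ₀ * D < 12 * σ ∧
      64 * (ρ + Λ + 4) * ((2 * ρ + 2 * Λ + 2) ^ 2 +
        (2 * ρ + 2 * Λ + 4) * (2 * B + 2 * ρ) + μ₀ * (8 * ρ + 4 * D)) ≤ k ∧
      64 * (2 * μ₀ + 2 * ρ + 2 * Λ + 2) ≤ k := by
  obtain ⟨l, hl⟩ : ∃ l, l = Λ + 1 := ⟨_, rfl⟩
  rw [← hl] at hk
  have hl2 : 2 ≤ l := by omega
  have hl1 : 1 ≤ l := by omega
  have hΛl : Λ ≤ l := by omega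
  have pw : ∀ {a b : ℕ}, a ≤ b → l ^ a ≤ l ^ b := fun h => Nat.pow_le_pow_right hl1 h
  have pos : ∀ a : ℕ, 1 ≤ l ^ a := fun a => Nat.one_le_pow _ _ hl1
  -- B
  have hB0 : 2 ^ 22 * l ^ 2 ≤ k := by
    refine le_trans ?_ hk
    exact Nat.mul_le_mul (Nat.pow_le_pow_right (by norm_num) (by norm_num)) (pw (by norm_num))
  obtain ⟨B, hB1, hB2⟩ := params_div k (2 ^ 22 * l ^ 2) (by positivity) hB0
  have hBlow : 2 ^ 177 * l ^ 18 ≤ B := by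
    have h1 : (2 ^ 23 * l ^ 2) * (2 ^ 177 * l ^ 18) ≤ (2 ^ 23 * l ^ 2) * B := by
      calc (2 ^ 23 * l ^ 2) * (2 ^ 177 * l ^ 18) = 2 ^ 200 * l ^ 20 := by ring
        _ ≤ k := hk
        _ ≤ 2 * (B * (2 ^ 22 * l ^ 2)) := hB2
        _ = (2 ^ 23 * l ^ 2) * B := by ring
    exact Nat.le_of_mul_le_mul_left h1 (by positivity)
  -- sigma
  have hs0 : 2 ^ 30 * l ^ 3 ≤ B := by
    refine le_trans ?_ hBlow
    exact Nat.mul_le_mul (Nat.pow_le_pow_right (by norm_num) (by norm_num)) (pw (by norm_num))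
  obtain ⟨σ, hs1, hs2⟩ := params_div B (2 ^ 30 * l ^ 3) (by positivity) hs0
  have hslow : 2 ^ 146 * l ^ 15 ≤ σ := by
    have h1 : (2 ^ 31 * l ^ 3) * (2 ^ 146 * l ^ 15) ≤ (2 ^ 31 * l ^ 3) * σ := by
      calc (2 ^ 31 * l ^ 3) * (2 ^ 146 * l ^ 15) = 2 ^ 177 * l ^ 18 := by ring
        _ ≤ B := hBlow
        _ ≤ 2 * (σ * (2 ^ 30 * l ^ 3)) := hs2
        _ = (2 ^ 31 * l ^ 3) * σ := by ring
    exact Nat.le_of_mul_le_mul_left h1 (by positivity)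
  -- mu
  have hm0 : 2 ^ 8 * l ≤ σ := by
    refine le_trans ?_ hslow
    have := pw (a := 1) (b := 15) (by norm_num)
    rw [pow_one] at this
    exact Nat.mul_le_mul (Nat.pow_le_pow_right (by norm_num) (by norm_num)) this
  obtain ⟨μ, hm1, hm2⟩ := params_div σ (2 ^ 8 * l) (by positivity) hm0
  have hmlow : 2 ^ 137 * l ^ 14 ≤ μ := by
    have h1 : (2 ^ 9 * l) * (2 ^ 137 * l ^ 14) ≤ (2 ^ 9 * l) * μ := by
      calc (2 ^ 9 * l) * (2 ^ 137 * l ^ 14) = 2 ^ 146 * l ^ 15 := by ring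
        _ ≤ σ := hslow
        _ ≤ 2 * (μ * (2 ^ 8 * l)) := hm2
        _ = (2 ^ 9 * l) * μ := by ring
    exact Nat.le_of_mul_le_mul_left h1 (by positivity)
  -- comparison of powers
  have q1 : l ≤ l ^ 3 := by simpa using pw (a := 1) (b := 3) (by norm_num)
  have q2 : l ^ 3 ≤ l ^ 6 := pw (by norm_num)
  have q3 : l ^ 6 ≤ l ^ 7 := pw (by norm_num)
  have q4 : l ^ 7 ≤ l ^ 12 := pw (by norm_num)
  have q5 : l ^ 12 ≤ l ^ 14 := pw (by norm_num)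
  have q6 : l ^ 14 ≤ l ^ 15 := pw (by norm_num)
  have q7 : l ^ 15 ≤ l ^ 20 := pw (by norm_num)
  -- k in terms of sigma and mu
  have hkB : k ≤ 2 ^ 23 * l ^ 2 * B := by
    calc k ≤ 2 * (B * (2 ^ 22 * l ^ 2)) := hB2
      _ = 2 ^ 23 * l ^ 2 * B := by ring
  have hkσ : k ≤ 2 ^ 54 * l ^ 5 * σ := by
    calc k ≤ 2 ^ 23 * l ^ 2 * B := hkB
      _ ≤ 2 ^ 23 * l ^ 2 * (2 * (σ * (2 ^ 30 * l ^ 3))) := Nat.mul_le_mul_left _ hs2
      _ = 2 ^ 54 * l ^ 5 * σ := by ring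
  have hkμ : k ≤ 2 ^ 63 * l ^ 6 * μ := by
    calc k ≤ 2 ^ 54 * l ^ 5 * σ := hkσ
      _ ≤ 2 ^ 54 * l ^ 5 * (2 * (μ * (2 ^ 8 * l))) := Nat.mul_le_mul_left _ hm2
      _ = 2 ^ 63 * l ^ 6 * μ := by ring
  have hk1 : 1 ≤ k := le_trans (Nat.one_le_iff_ne_zero.2 (by positivity)) hk
  have hlk : Λ * k + 1 ≤ l * k := by
    rw [hl, Nat.add_mul, one_mul]
    omega
  refine ⟨B, 2 ^ 23 * l ^ 3, σ, 64 * l, 2 ^ 55 * l ^ 6, 260 * l,
    4 * (64 * l) + 2 * (260 * l + 2 * (64 * l) + 2 * (2 ^ 70 * l ^ 7) + 2 * (132 * l) + 2 * Λ + 8)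
      + 4, 2 ^ 70 * l ^ 7, 132 * l,
    260 * l + 2 * (64 * l) + 2 * (2 ^ 70 * l ^ 7) + 2 * (132 * l) + 2 * Λ + 8, μ,
    ?_, ?_, ?_, ?_, ?_, ?_, ?_, ?_, ?_, ?_, le_refl _, le_refl _, ?_, ?_, ?_, ?_⟩
  · calc Λ * k ≤ l * (2 ^ 23 * l ^ 2 * B) := Nat.mul_le_mul hΛl hkB
      _ = 2 ^ 23 * l ^ 3 * B := by ring
  · generalize l ^ 3 = p3 at *
    generalize l ^ 6 = p6 at *
    generalize l ^ 7 = p7 at *
    generalize l ^ 12 = p12 at *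
    generalize l ^ 14 = p14 at *
    generalize l ^ 15 = p15 at *
    norm_num at hslow ⊢
    omega
  · refine le_trans ?_ hs1
    calc 64 * σ * (2 * Λ + 2 ^ 23 * l ^ 3 + 2) ≤ 64 * σ * (2 ^ 24 * l ^ 3) := by
          refine Nat.mul_le_mul_left _ ?_
          generalize l ^ 3 = p3 at *
          norm_num
          omega
      _ = σ * (2 ^ 30 * l ^ 3) := by ring
  · refine le_trans ?_ hB1
    rw [mul_comm]
    refine Nat.mul_le_mul_left _ ?_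
    have := pos 2
    omega
  · rw [hl]
  · generalize l ^ 3 = p3 at *
    generalize l ^ 6 = p6 at *
    generalize l ^ 7 = p7 at *
    generalize l ^ 12 = p12 at *
    generalize l ^ 14 = p14 at *
    generalize l ^ 15 = p15 at *
    norm_num at hslow ⊢
    omega
  · calc 2 * Λ * k ≤ 2 * l * (2 ^ 23 * l ^ 2 * B) := Nat.mul_le_mul (by omega) hkB
      _ = (2 ^ 24 * l ^ 3) * B := by ring
      _ ≤ σ * B := by
        refine Nat.mul_le_mul_right _ ?_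
        generalize l ^ 3 = p3 at *
        generalize l ^ 6 = p6 at *
        generalize l ^ 7 = p7 at *
        generalize l ^ 12 = p12 at *
        generalize l ^ 14 = p14 at *
        generalize l ^ 15 = p15 at *
        norm_num at hslow ⊢
        omega
  · calc Λ * k + 1 ≤ l * k := hlk
      _ ≤ l * (2 ^ 54 * l ^ 5 * σ) := Nat.mul_le_mul_left _ hkσ
      _ = 2 ^ 54 * l ^ 6 * σ := by ring
      _ ≤ 2 ^ 55 * l ^ 6 * σ := by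
        refine Nat.mul_le_mul_right _ (Nat.mul_le_mul_right _ (by norm_num))
  · omega
  · omega
  · have h1 : 8 * (Λ * k + 1) ≤ 2 ^ 66 * l ^ 7 * μ := by
      calc 8 * (Λ * k + 1) ≤ 8 * (l * (2 ^ 63 * l ^ 6 * μ)) :=
            Nat.mul_le_mul_left _ (hlk.trans (Nat.mul_le_mul_left _ hkμ))
        _ = 2 ^ 66 * l ^ 7 * μ := by ring
    have h2 : (132 * l + 2 ^ 55 * l ^ 6 + 2) ^ 2 ≤ 2 ^ 112 * l ^ 12 := by
      calc (132 * l + 2 ^ 55 * l ^ 6 + 2) ^ 2 ≤ (2 ^ 56 * l ^ 6) ^ 2 := by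
            refine Nat.pow_le_pow_left ?_ 2
            generalize l ^ 3 = p3 at *
            generalize l ^ 6 = p6 at *
            norm_num
            omega
        _ = 2 ^ 112 * l ^ 12 := by ring
    have h3 : 2 * (2 ^ 23 * l ^ 3 + 12 * (132 * l + 2 ^ 55 * l ^ 6 + 2) ^ 2 +
        (260 * l + 2 * (64 * l) + 2 * (2 ^ 70 * l ^ 7) + 2 * (132 * l) + 2 * Λ + 8) +
        2 ^ 55 * l ^ 6 + 8) ≤ μ := by
      generalize (132 * l + 2 ^ 55 * l ^ 6 + 2) ^ 2 = y at *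
      generalize l ^ 3 = p3 at *
      generalize l ^ 6 = p6 at *
      generalize l ^ 7 = p7 at *
      generalize l ^ 12 = p12 at *
      generalize l ^ 14 = p14 at *
      norm_num at h2 hmlow ⊢
      omega
    generalize 2 ^ 23 * l ^ 3 + 12 * (132 * l + 2 ^ 55 * l ^ 6 + 2) ^ 2 +
        (260 * l + 2 * (64 * l) + 2 * (2 ^ 70 * l ^ 7) + 2 * (132 * l) + 2 * Λ + 8) +
        2 ^ 55 * l ^ 6 + 8 = y at h3 ⊢
    have h4 : 2 ^ 69 * l ^ 7 * (2 * y) ≤ 2 ^ 69 * l ^ 7 * μ := Nat.mul_le_mul_left _ h3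
    calc 8 * (Λ * k + 1) + 2 ^ 70 * l ^ 7 * y ≤ 2 ^ 66 * l ^ 7 * μ + 2 ^ 69 * l ^ 7 * μ := by
          refine Nat.add_le_add h1 ?_
          calc 2 ^ 70 * l ^ 7 * y = 2 ^ 69 * l ^ 7 * (2 * y) := by ring
            _ ≤ _ := h4
      _ = (2 ^ 66 + 2 ^ 69) * (l ^ 7 * μ) := by ring
      _ ≤ 2 ^ 70 * (l ^ 7 * μ) := Nat.mul_le_mul_right _ (by norm_num)
      _ = 2 ^ 70 * l ^ 7 * μ := by ring
  · have h1 : 256 * (μ * l) ≤ σ := by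
      calc 256 * (μ * l) = μ * (2 ^ 8 * l) := by ring
        _ ≤ σ := hm1
    have h2 : 4 * μ * (260 * l) = 1040 * (μ * l) := by ring
    have h3 : 1 ≤ σ := le_trans (Nat.one_le_iff_ne_zero.2 (by positivity)) hslow
    rw [h2]
    omega
  · have h1 : 2 ^ 22 * (l ^ 2 * B) ≤ k := by
      calc 2 ^ 22 * (l ^ 2 * B) = B * (2 ^ 22 * l ^ 2) := by ring
        _ ≤ k := hB1
    have h2 : 2 ^ 38 * (l ^ 2 * μ) ≤ l ^ 2 * B := by
      calc 2 ^ 38 * (l ^ 2 * μ) = 2 ^ 30 * l ^ 2 * (μ * (2 ^ 8 * 1)) := by ring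
        _ ≤ 2 ^ 30 * l ^ 2 * (μ * (2 ^ 8 * l)) :=
          Nat.mul_le_mul_left _ (Nat.mul_le_mul_left _ (Nat.mul_le_mul_left _ hl1))
        _ ≤ 2 ^ 30 * l ^ 2 * σ := Nat.mul_le_mul_left _ hm1
        _ = l ^ 2 * (σ * (2 ^ 30 * 1)) := by ring
        _ ≤ l ^ 2 * (σ * (2 ^ 30 * l ^ 3)) :=
          Nat.mul_le_mul_left _ (Nat.mul_le_mul_left _ (Nat.mul_le_mul_left _ (pos 3)))
        _ ≤ l ^ 2 * B := Nat.mul_le_mul_left _ hs1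
    have h3 : 2 ^ 200 * l ^ 3 ≤ k :=
      le_trans (Nat.mul_le_mul_left _ (pw (by norm_num))) hk
    have a1 : 64 * (64 * l + Λ + 4) ≤ 4288 * l := by omega
    have a2 : 2 * (64 * l) + 2 * Λ + 2 ≤ 130 * l := by omega
    have a3 : 2 * (64 * l) + 2 * Λ + 4 ≤ 131 * l := by omega
    have a4 : (2 * (64 * l) + 2 * Λ + 2) ^ 2 ≤ (130 * l) ^ 2 := Nat.pow_le_pow_left a2 2
    have a5 : (2 * (64 * l) + 2 * Λ + 4) * (2 * B + 2 * (64 * l)) ≤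
        131 * l * (2 * B + 2 * (64 * l)) := Nat.mul_le_mul_right _ a3
    calc 64 * (64 * l + Λ + 4) * ((2 * (64 * l) + 2 * Λ + 2) ^ 2 +
        (2 * (64 * l) + 2 * Λ + 4) * (2 * B + 2 * (64 * l)) + μ * (8 * (64 * l) + 4 * (260 * l)))
        ≤ 4288 * l * ((130 * l) ^ 2 + 131 * l * (2 * B + 2 * (64 * l)) +
          μ * (8 * (64 * l) + 4 * (260 * l))) :=
          Nat.mul_le_mul a1 (Nat.add_le_add_right (Nat.add_le_add a4 a5) _)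
      _ = 4288 * (33668 * l ^ 3 + 262 * (l ^ 2 * B) + 1552 * (l ^ 2 * μ)) := by ring
      _ ≤ k := by
        generalize l ^ 2 * B = u at *
        generalize l ^ 2 * μ = v at *
        generalize l ^ 3 = w at *
        norm_num at h1 h2 h3 ⊢
        omega
  · have h1 : 2 ^ 22 * B ≤ k := by
      calc 2 ^ 22 * B = B * (2 ^ 22 * 1) := by ring
        _ ≤ B * (2 ^ 22 * l ^ 2) :=
          Nat.mul_le_mul_left _ (Nat.mul_le_mul_left _ (pos 2))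
        _ ≤ k := hB1
    have h2 : 2 ^ 38 * μ ≤ B := by
      calc 2 ^ 38 * μ = 2 ^ 30 * (μ * (2 ^ 8 * 1)) := by ring
        _ ≤ 2 ^ 30 * (μ * (2 ^ 8 * l)) :=
          Nat.mul_le_mul_left _ (Nat.mul_le_mul_left _ (Nat.mul_le_mul_left _ hl1))
        _ ≤ 2 ^ 30 * σ := Nat.mul_le_mul_left _ hm1
        _ = σ * (2 ^ 30 * 1) := by ring
        _ ≤ σ * (2 ^ 30 * l ^ 3) :=
          Nat.mul_le_mul_left _ (Nat.mul_le_mul_left _ (pos 3))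
        _ ≤ B := hs1
    have h3 : 2 ^ 200 * l ≤ k :=
      le_trans (Nat.mul_le_mul_left _ (by simpa using pw (a := 1) (b := 20) (by norm_num))) hk
    norm_num at h1 h2 h3 ⊢
    omega

end Pool.Agent.Helper84.NC
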