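import Pool.Agent.Helper84.NC.Basic
import Pool.Agent.Helper64.FB.Metric

/-! # Project NC, module NC-02: trees have a tree metric and a centre -/

set_option autoImplicit false

namespace Pool.Agent.Helper84.NC

variable {V : Type*}

private theorem tree_med {T : SimpleGraph V} (hT : T.IsTree) (x y z : V) :
    ∃ m, T.dist x m + T.dist m y = T.dist x y ∧ T.dist y m + T.dist m z = T.dist y z ∧
      T.dist x m + T.dist m z = T.dist x z := by
  classical
  set P : ℕ → Prop := fun t => ∃ m, T.dist x m = t ∧ T.dist x m + T.dist m y = T.dist x y ∧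
    T.dist x m + T.dist m z = T.dist x z with hP
  have h0 : P 0 := ⟨x, SimpleGraph.dist_self, by rw [SimpleGraph.dist_self, zero_add],
    by rw [SimpleGraph.dist_self, zero_add]⟩
  obtain ⟨m, hm1, hm2, hm3⟩ := Nat.findGreatest_spec (P := P) (Nat.zero_le (T.dist x y)) h0
  refine ⟨m, hm2, ?_, hm3⟩
  rcases Nat.eq_zero_or_pos (T.dist m z) with hz | hz
  · have h1 : m = z := (hT.connected.dist_eq_zero_iff).1 hz
    rw [h1, SimpleGraph.dist_self, add_zero]
  · obtain ⟨z', h1, h2⟩ := Pool.Agent.Helper64.FB.exists_between hT.connected m z (t := 1) hz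
    have hadj : T.Adj m z' := SimpleGraph.dist_eq_one_iff_adj.1 h1
    rcases hT.dist_eq_dist_add_one_of_adj y hadj with h3 | h3
    · exfalso
      have e1 : T.dist y m = T.dist m y := SimpleGraph.dist_comm
      have e2 : T.dist y z' = T.dist z' y := SimpleGraph.dist_comm
      have t1 : T.dist x y ≤ T.dist x z' + T.dist z' y := hT.connected.dist_triangle
      have t2 : T.dist x z' ≤ T.dist x m + T.dist m z' := hT.connected.dist_triangle
      have h4 : P (T.dist x z') := ⟨z', rfl, by omega, by omega⟩
      have h5 : T.dist x z' ≤ T.dist x y := by omega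
      have h6 := Nat.le_findGreatest h5 h4
      omega
    · have e1 : T.dist z m = T.dist m z := SimpleGraph.dist_comm
      have e2 : T.dist z z' = T.dist z' z := SimpleGraph.dist_comm
      have h4 := Pool.Agent.Helper64.FB.edge_cross hT (x := y) (z := z) hadj h3 (by omega)
      omega

/-- The metric of a tree. -/
theorem exists_tm {T : SimpleGraph V} (hT : T.IsTree) : ∃ X : TM V, ∀ x y, X.d x y = T.dist x y :=
  ⟨{ d := T.dist
     self := fun _ => SimpleGraph.dist_self
     eq := fun _ _ h => (hT.connected.dist_eq_zero_iff).1 h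
     symm := fun _ _ => SimpleGraph.dist_comm
     tri := fun _ _ _ => hT.connected.dist_triangle
     btw := fun x y _ ht => Pool.Agent.Helper64.FB.exists_between hT.connected x y ht
     uniq := fun _ _ _ _ h1 h2 h3 => Pool.Agent.Helper64.FB.between_unique hT h1 h2 h3
     med := fun x y z => tree_med hT x y z }, fun _ _ => rfl⟩

/-- There is a vertex in the middle of a longest path. -/
theorem exists_cen [Fintype V] [Nonempty V] (X : TM V) : ∃ r, Cen X r := by
  classical
  obtain ⟨⟨a, b⟩, -, hmax⟩ := Finset.exists_max_image (Finset.univ : Finset (V × V))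
    (fun p => X.d p.1 p.2) Finset.univ_nonempty
  have hL : ∀ u v, X.d u v ≤ X.d a b := fun u v => hmax (u, v) (Finset.mem_univ _)
  obtain ⟨r, hr1, hr2⟩ := X.btw a b ((X.d a b + 1) / 2) (by omega)
  have s1 : X.d r a = X.d a r := X.symm r a
  refine ⟨r, a, b, hr2.symm, fun v => ?_, by omega⟩
  obtain ⟨m, m1, m2, m3⟩ := X.med a b v
  have t1 := X.tri r m v
  have t2 := hL a v
  have t3 := hL b v
  have s2 : X.d r m = X.d m r := X.symm r m
  have s3 : X.d b m = X.d m b := X.symm b m
  rcases le_total (X.d a r) (X.d a m) with h | h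
  · have h1 := bt_of_bt hr2 m1 h
    omega
  · have h1 := bt_of_bt m1 hr2 h
    omega

end Pool.Agent.Helper84.NC
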