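import Pool.Agent.Helper84.NC.Count

/-! # Project NC, module NC-05: choice of the level of the legs -/

set_option autoImplicit false

namespace Pool.Agent.Helper84.NC

open Finset

variable {V : Type*} [Fintype V] {X : TM V} {r : V} {k Λ B E σ : ℕ}

theorem window_aux (f : ℕ → ℕ) (m : ℕ) (h : ∀ j < m, f (j + 1) < f j) : f m + m ≤ f 0 := by
  induction m with
  | zero => simp
  | succ m ih =>
    have h1 := ih fun j hj => h j (hj.trans (Nat.lt_succ_self m))
    have h2 := h m (Nat.lt_succ_self m)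
    omega

/-- There is a window of length `64 * σ` in `[k - 2 * B, k - B]` in which `Nh` is constant. -/
theorem exists_setup (hc : Fintype.card V ≤ k ^ 2)
    (hs : ∑ h ∈ range k, (k - Nh X r h) ≤ Λ * k) (cen : Cen X r) (hΛ : 1 ≤ Λ)
    (hE : Λ * k ≤ E * B) (hE' : 100 * E + 100 * Λ + 100 ≤ σ)
    (hσ : 64 * σ * (2 * Λ + E + 2) ≤ B) (hB : 100 * B ≤ k) :
    ∃ h₀, Setup X r k Λ B E h₀ σ := by
  obtain ⟨m, hm⟩ : ∃ m, m = 2 * Λ + E + 2 := ⟨_, rfl⟩
  rw [← hm] at hσ
  have hBpos : 0 < B := by
    have h1 : 0 < 64 * σ * m := by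
      have : 0 < σ := by omega
      have : 0 < m := by omega
      positivity
    omega
  -- the points
  set p : ℕ → ℕ := fun j => k - 2 * B + 64 * σ * j with hp
  have hp0 : p 0 = k - 2 * B := by simp [hp]
  have hpm : p m ≤ k - B := by
    simp only [hp]
    omega
  have hmono : ∀ i j, i ≤ j → p i ≤ p j := by
    intro i j hij
    simp only [hp]
    have := Nat.mul_le_mul_left (64 * σ) hij
    omega
  -- upper bound at the first point
  have h1 : Nh X r (p 0) ≤ k + 2 * Λ := by
    have h2 := Nh_low hc hs (x := p 0) (by omega)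
    have h3 : k ≤ 2 * p 0 := by omega
    have h4 : p 0 * Nh X r (p 0) ≤ p 0 * (k + 2 * Λ) := by
      calc p 0 * Nh X r (p 0) ≤ p 0 * k + Λ * k := h2
        _ ≤ p 0 * k + Λ * (2 * p 0) := Nat.add_le_add_left (Nat.mul_le_mul_left _ h3) _
        _ = p 0 * (k + 2 * Λ) := by ring
    exact Nat.le_of_mul_le_mul_left h4 (by omega)
  -- lower bound at the last point
  have h2 : k ≤ Nh X r (p m) + E := by
    have h3 := Nh_def hs (x := p m) (by omega)
    have h4 : B * (k - Nh X r (p m)) ≤ B * E := by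
      calc B * (k - Nh X r (p m)) ≤ (k - p m) * (k - Nh X r (p m)) :=
            Nat.mul_le_mul_right _ (by omega)
        _ ≤ Λ * k := h3
        _ ≤ E * B := hE
        _ = B * E := Nat.mul_comm _ _
    have h5 := Nat.le_of_mul_le_mul_left h4 hBpos
    omega
  obtain ⟨j, hj, hj'⟩ : ∃ j < m, ¬ Nh X r (p (j + 1)) < Nh X r (p j) := by
    by_contra hcon
    push Not at hcon
    have := window_aux (fun j => Nh X r (p j)) m hcon
    omega
  have hjm : p (j + 1) ≤ p m := hmono _ _ hj
  have hj0 : p 0 ≤ p (j + 1) := hmono _ _ (Nat.zero_le _)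
  have hstep : p (j + 1) = p j + 64 * σ := by
    simp only [hp]
    ring
  refine ⟨p (j + 1), hc, hs, fun h hh1 hh2 => ?_, by omega, by omega, cen, hΛ, hE, hE', ?_, hB⟩
  · have e1 := Nh_anti (X := X) (r := r) (i := p j) (j := h) (by omega)
    have e2 := Nh_anti (X := X) (r := r) (i := h) (j := p (j + 1)) hh2
    omega
  · rw [← hm]
    exact hσ

end Pool.Agent.Helper84.NC
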