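import Pool.Agent.Helper84.NC.Assembly
import Pool.Agent.Helper84.NC.Params
import Pool.Agent.Helper84.NC.Window
import Pool.Agent.Helper84.NC.Tree
import Pool.Agent.Helper64.Burn.Paths

/-! # Project NC, module NC-36: the theorem -/

set_option autoImplicit false

namespace Pool.Agent.Helper84.NC

open Finset Pool.Agent.Helper64.Burn N441b2449

variable {V : Type*} [Fintype V] {X : TM V} {r : V} {k Λ : ℕ}

/-- A tree with at most `k ^ 2` vertices, rooted at its centre, which has almost `k` vertices of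
height `h` for almost all `h < k`, is covered by balls of radii `0, ..., k - 1`. -/
theorem nc (hc : Fintype.card V ≤ k ^ 2) (hs : ∑ h ∈ range k, (k - Nh X r h) ≤ Λ * k)
    (cen : Cen X r) (hk : 2 ^ 200 * (Λ + 2) ^ 20 ≤ k) : Cov X k := by
  obtain ⟨B, E, σ, ρ, Mn, D, Z, ρ', T, M, μ₀, h1, h2, h3, h4, h5, h6, h7, h8, h9, h10, h11, h12,
    h13, h14, h15, h16⟩ := exists_params (Λ := Λ + 1) (by omega) hk
  obtain ⟨h₀, S⟩ := exists_setup (E := E) (B := B) (σ := σ) (Λ := Λ + 1) hc
    (hs.trans (Nat.mul_le_mul_right _ (by omega))) cen (by omega) h1 h2 h3 h4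
  exact main_case S h5 h6 h7 h8 h9 h10 h11 h12 h13 h14 h15 h16

/-- The same for graphs with a spanning tree. -/
theorem burn_le {G T : SimpleGraph V} (hT : T.IsTree) (hTG : T ≤ G)
    (hX : ∀ x y, X.d x y = T.dist x y) (hc : Fintype.card V ≤ k ^ 2)
    (hs : ∑ h ∈ range k, (k - Nh X r h) ≤ Λ * k) (cen : Cen X r)
    (hk : 2 ^ 200 * (Λ + 2) ^ 20 ≤ k) : burningNumber G ≤ k := by
  obtain ⟨c, hcov⟩ := nc hc hs cen hk
  have hG : G.Connected := hT.connected.mono hTG
  refine burningNumber_le_of_centers hG c fun v => ?_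
  obtain ⟨ρ, hρ, h⟩ := hcov v
  refine ⟨ρ, hρ, ?_⟩
  rw [hX] at h
  obtain ⟨w, hw⟩ := hT.connected.exists_walk_length_eq_dist (c ρ) v
  have h1 := SimpleGraph.dist_le (w.mapLe hTG)
  rw [SimpleGraph.Walk.length_map] at h1
  omega

end Pool.Agent.Helper84.NC
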