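import Pool.Agent.Helper84.NC.Legs

/-! # Project NC, module NC-26a: the path of an arm -/

set_option autoImplicit false

namespace Pool.Agent.Helper84.NC

open Finset Classical

section Seg

variable {V : Type*} (X : TM V)

/-- The first `n` vertices of the path from `x` to `y`. -/
private noncomputable def armSeg (x y : V) (n : ℕ) : Finset V := (range n).image (pt X x y)

private theorem mem_armSeg {x y w : V} {n : ℕ} :
    w ∈ armSeg X x y n ↔ ∃ j, j < n ∧ w = pt X x y j := by
  unfold armSeg
  rw [Finset.mem_image]
  constructor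
  · rintro ⟨j, hj, h⟩
    exact ⟨j, Finset.mem_range.1 hj, h.symm⟩
  · rintro ⟨j, hj, h⟩
    exact ⟨j, Finset.mem_range.2 hj, h.symm⟩

private theorem armSeg_card {x y : V} {n : ℕ} (h : n ≤ X.d x y + 1) :
    (armSeg X x y n).card = n := by
  unfold armSeg
  rw [Finset.card_image_of_injOn, Finset.card_range]
  intro i hi j hj hij
  have hi' := Finset.mem_range.1 (Finset.mem_coe.1 hi)
  have hj' := Finset.mem_range.1 (Finset.mem_coe.1 hj)
  have h1 := pt_dist X x y i
  have h2 := pt_dist X x y j
  have h3 : X.d x (pt X x y i) = X.d x (pt X x y j) := congrArg (X.d x) hij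
  omega

private theorem armSeg_cvx (x y : V) (n : ℕ) : Cvx X (armSeg X x y n) := by
  have key : ∀ i j, i < n → j < n → ∀ z, X.d x (pt X x y i) ≤ X.d x (pt X x y j) →
      X.d (pt X x y i) z + X.d z (pt X x y j) = X.d (pt X x y i) (pt X x y j) →
      z ∈ armSeg X x y n := by
    intro i j hi hj z hij hz
    have h1 := pt_dist X x y j
    have h2 := pt_bt X x y j
    have h3 := bt_of_bt (pt_bt X x y i) (pt_bt X x y j) hij
    have h4 := X.tri x (pt X x y i) z
    have h5 := X.tri z (pt X x y j) y
    have h6 := X.tri x z y
    have h7 : X.d x z + X.d z y = X.d x y := by omega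
    exact (mem_armSeg X).2 ⟨X.d x z, by omega, (pt_eq h7).symm⟩
  intro a ha b hb z hz
  obtain ⟨i, hi, rfl⟩ := (mem_armSeg X).1 ha
  obtain ⟨j, hj, rfl⟩ := (mem_armSeg X).1 hb
  unfold Bt at hz
  rcases le_total (X.d x (pt X x y i)) (X.d x (pt X x y j)) with h | h
  · exact key i j hi hj z h hz
  · have e1 := X.symm (pt X x y i) z
    have e2 := X.symm z (pt X x y j)
    have e3 := X.symm (pt X x y i) (pt X x y j)
    exact key j i hj hi z h (by omega)

end Seg

variable {V : Type*} [Fintype V] {X : TM V} {r : V} {k Λ B E h₀ σ : ℕ}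

/-- One of two directions at the root is not the one of `u`. -/
private theorem exists_end {a b u : V} (hab : X.d a b = X.d a r + X.d r b) :
    X.d u a = X.d u r + X.d r a ∨ X.d u b = X.d u r + X.d r b := by
  rcases eq_or_ne r u with h | h
  · left
    rw [← h, X.self]
    omega
  obtain ⟨c, hc1, hc2, hc3⟩ := exists_child (X := X) (bel_root u) h
  have hone : ∀ e, ¬ Bel X r c e → X.d u e = X.d u r + X.d r e := by
    intro e he
    have h1 := out_dist he hc3
    obtain ⟨m, m1, m2, m3, -⟩ := exists_lca X r e c
    have h2 : X.d r m ≤ 1 := by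
      unfold Bel at m2
      omega
    have h3 : X.d r m = 0 := by
      by_contra hcon
      have h4 : X.d r m = 1 := by omega
      have h5 : m = c := by
        refine X.eq _ _ ?_
        unfold Bel at m2
        omega
      rw [h5] at m1
      exact he m1
    have h4 : r = m := X.eq _ _ h3
    rw [← h4] at m3
    have h5 : X.d r u = X.d r c + X.d c u := by
      unfold Bel at hc3
      omega
    have e1 := X.symm u e
    have e2 := X.symm u r
    have e3 := X.symm r e
    omega
  by_cases hb : Bel X r c b
  · left
    refine hone a fun ha => ?_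
    unfold Bel at ha hb
    have h1 := X.tri a c b
    have e1 := X.symm a c
    have e2 := X.symm a r
    omega
  · right
    exact hone b hb

/-- The first `n` vertices of a path which starts at the tip of `v`, goes up to the root and, if
it is not long enough, beyond the root. -/
theorem arm_path (S : Setup X r k Λ B E h₀ σ) {v : V} (hv : v ∈ legs X r h₀) (n : ℕ) :
    ∃ P : Finset V, (∀ w ∈ P, X.d (tip X r v) w < n ∧
        (Bel X r w (tip X r v) ∨ Bt X (tip X r v) r w)) ∧
      (∀ w ∈ P, Bel X r v w → hd X v (tip X r v) w = 0) ∧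
      (∀ l ∈ legs X r h₀, l ≠ v → ∀ w ∈ P, ¬ Bel X r l w) ∧ Cvx X P ∧
      (n ≤ X.d r (tip X r v) + 1 → (∀ j, j < n → up X r (tip X r v) j ∈ P) ∧
        (∀ w ∈ P, ∃ j, j < n ∧ w = up X r (tip X r v) j) ∧ P.card = n) ∧
      min n (h₀ + 1) ≤ P.card ∧ P.card ≤ n ∧ (n + 2 ≤ ht X r r → P.card = n) := by
  have hvh : ht X r v = h₀ := mem_legs.1 hv
  have htb := tip_bel (X := X) (r := r) v
  have htd := tip_dist (X := X) (r := r) v
  have hroot := ht_root S
  set u := tip X r v with hu
  have hD : X.d r v + h₀ = X.d r u := by
    unfold Bel at htb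
    omega
  have hur := X.symm u r
  -- vertices above the tip
  have habove : ∀ w, Bel X r w u → (Bel X r v w → hd X v u w = 0) ∧
      ∀ l ∈ legs X r h₀, l ≠ v → ¬ Bel X r l w := by
    intro w hw
    refine ⟨fun h => hd_self (bel_trans' h hw), fun l hl hlv h => ?_⟩
    exact hlv (leg_disj hl hv (bel_trans h hw) htb)
  have hupm : ∀ m w, w ∈ armSeg X u r m → ∃ j, j < m ∧ w = up X r u j := by
    intro m w hw
    exact (mem_armSeg X).1 hw
  by_cases hn : n ≤ X.d r u + 1
  · -- the path ends before the root
    have hcard : (armSeg X u r n).card = n := armSeg_card X (by omega)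
    refine ⟨armSeg X u r n, ?_, ?_, ?_, armSeg_cvx X u r n, fun _ => ⟨?_, ?_, hcard⟩, ?_, ?_, ?_⟩
    · intro w hw
      obtain ⟨j, hj, rfl⟩ := hupm n w hw
      have h1 := up_dist (X := X) (r := r) u j
      exact ⟨by omega, Or.inl (up_bel u j)⟩
    · intro w hw
      obtain ⟨j, hj, rfl⟩ := hupm n w hw
      exact (habove _ (up_bel u j)).1
    · intro l hl hlv w hw
      obtain ⟨j, hj, rfl⟩ := hupm n w hw
      exact (habove _ (up_bel u j)).2 l hl hlv
    · intro j hj
      exact (mem_armSeg X).2 ⟨j, hj, rfl⟩
    · exact hupm n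
    · rw [hcard]; exact min_le_left _ _
    · rw [hcard]
    · intro _; exact hcard
  · by_cases hr : n + 2 ≤ ht X r r
    · -- beyond the root
      obtain ⟨a, b, hab, ha, hb⟩ := S.cen
      have hra : ht X r r ≤ X.d r a := Finset.sup_le fun x _ => ha x
      obtain ⟨e, he1, he2⟩ : ∃ e, X.d u e = X.d u r + X.d r e ∧ n + 1 ≤ X.d r e := by
        rcases exists_end (X := X) (u := u) hab with h | h
        · exact ⟨a, h, by omega⟩
        · exact ⟨b, h, by omega⟩
      have hbt : X.d u r + X.d r e = X.d u e := he1.symm
      have hcard : (armSeg X u e n).card = n := armSeg_card X (by omega)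
      -- the position of a vertex of the path
      have hpos : ∀ w ∈ armSeg X u e n, X.d u w < n ∧ (Bel X r w u ∨
          (X.d u r + X.d r w = X.d u w ∧ Bel X r w e ∧ 0 < X.d r w)) := by
        intro w hw
        obtain ⟨j, hj, rfl⟩ := (mem_armSeg X).1 hw
        have h1 := pt_dist X u e j
        have h2 := pt_bt X u e j
        refine ⟨by omega, ?_⟩
        rcases le_or_gt (X.d u (pt X u e j)) (X.d u r) with h | h
        · left
          have h3 := (bt_of_bt h2 hbt h).1
          have e1 := X.symm u (pt X u e j)
          have e2 := X.symm (pt X u e j) r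
          unfold Bel
          omega
        · right
          have h3 := bt_of_bt hbt h2 h.le
          refine ⟨h3.1, h3.2, ?_⟩
          omega
      refine ⟨armSeg X u e n, ?_, ?_, ?_, armSeg_cvx X u e n, fun h => absurd h hn, ?_, ?_, ?_⟩
      · intro w hw
        obtain ⟨h1, h2⟩ := hpos w hw
        refine ⟨h1, ?_⟩
        rcases h2 with h2 | h2
        · exact Or.inl h2
        · exact Or.inr h2.1
      · intro w hw hvw
        obtain ⟨h1, h2⟩ := hpos w hw
        rcases h2 with h2 | ⟨h2, h3, h4⟩
        · exact (habove w h2).1 hvw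
        · exfalso
          have h5 : X.d r v ≠ 0 := by
            intro h0
            have h6 : r = v := X.eq _ _ h0
            rw [h6] at hroot
            rw [← h6] at hroot hvh
            omega
          have h6 := X.tri u v w
          have e1 := X.symm u v
          unfold Bel at hvw
          omega
      · intro l hl hlv w hw hlw
        obtain ⟨h1, h2⟩ := hpos w hw
        rcases h2 with h2 | ⟨h2, h3, h4⟩
        · exact (habove w h2).2 l hl hlv hlw
        · have h5 := ht_le (bel_trans hlw h3)
          rw [mem_legs.1 hl] at h5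
          have h6 := bel_trans hlw h3
          unfold Bel at h6 hlw
          omega
      · rw [hcard]; exact min_le_left _ _
      · rw [hcard]
      · intro _; exact hcard
    · -- the whole path to the root
      have hcard : (armSeg X u r (X.d r u + 1)).card = X.d r u + 1 := armSeg_card X (by omega)
      refine ⟨armSeg X u r (X.d r u + 1), ?_, ?_, ?_, armSeg_cvx X u r _, fun h => absurd h hn,
        ?_, ?_, fun h => absurd h hr⟩
      · intro w hw
        obtain ⟨j, hj, rfl⟩ := hupm _ w hw
        have h1 := up_dist (X := X) (r := r) u j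
        exact ⟨by omega, Or.inl (up_bel u j)⟩
      · intro w hw
        obtain ⟨j, hj, rfl⟩ := hupm _ w hw
        exact (habove _ (up_bel u j)).1
      · intro l hl hlv w hw
        obtain ⟨j, hj, rfl⟩ := hupm _ w hw
        exact (habove _ (up_bel u j)).2 l hl hlv
      · rw [hcard]
        exact (min_le_right _ _).trans (by omega)
      · rw [hcard]
        omega

end Pool.Agent.Helper84.NC
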