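import Pool.Agent.Helper84.NC.RegA

/-! # Project NC, module NC-18: mass of the far regions, strong form -/

set_option autoImplicit false

namespace Pool.Agent.Helper84.NC

open Finset Classical

variable {V : Type*} [Fintype V] {X : TM V} {r : V} {k Λ B E h₀ σ : ℕ}

set_option linter.unusedVariables false
set_option linter.unusedSectionVars false

theorem mem_sh {w : V} : w ∈ Sh X r k h₀ σ ↔ ∃ v ∈ legs X r h₀, Bel X r v w ∨
    (X.d (tip X r v) w ≤ k + 4 * σ ∧ (Bel X r w (tip X r v) ∨ Bt X (tip X r v) r w)) := by
  simp [Sh]

/-- The part of the shadow of `v` outside of the leg `v` is far from all vertices which are far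
from the base of `v`. -/
theorem sh_dist (S : Setup X r k Λ B E h₀ σ) {v w x : V} (hv : v ∈ legs X r h₀)
    (hw : ¬ Bel X r v w) (h1 : X.d (tip X r v) w ≤ k + 4 * σ)
    (h2 : Bel X r w (tip X r v) ∨ Bt X (tip X r v) r w)
    (hx : Out X r h₀ x) (hx' : k < X.d (bt X r k v) x + 16 * σ) :
    h₀ < X.d x w + 20 * σ := by
  have hhi := S.hi
  have hv' : ht X r v = h₀ := mem_legs.1 hv
  have t1 := tip_bel (X := X) (r := r) v
  have t2 := tip_dist (X := X) (r := r) v
  have e1 := X.tri (bt X r k v) w x
  have e2 := X.symm w x
  rcases h2 with h2 | h2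
  · -- an ancestor of the tip
    have a1 : X.d r w < X.d r v := by
      by_contra hcon
      exact hw (bel_chain t1 h2 (by omega))
    have a2 := up_eq h2
    have a3 := up_up_le (X := X) (r := r) (tip X r v) k (X.d w (tip X r v))
    rw [a2] at a3
    have a4 : X.d w (tip X r v) = X.d (tip X r v) w := X.symm _ _
    have a5 : h₀ < X.d w (tip X r v) := by
      unfold Bel at t1 h2
      omega
    have a6 : X.d (bt X r k v) w ≤ (k - X.d w (tip X r v)) + (X.d w (tip X r v) - k) := a3
    omega
  · -- beyond the root
    unfold Bt at h2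
    have b1 : X.d (tip X r v) r = X.d r (tip X r v) := X.symm _ _
    have b2 : h₀ ≤ X.d r (tip X r v) := by
      unfold Bel at t1
      omega
    have b3 := X.tri (bt X r k v) r w
    have b4 := up_bel (X := X) (r := r) (tip X r v) k
    have b5 := up_depth (X := X) (r := r) (tip X r v) k
    have b6 : X.d (bt X r k v) r = X.d r (tip X r v) - k := by
      rw [X.symm]
      exact b5
    omega

/-- The path from `a` to `b` lies in the union of the paths from `x` to `a` and to `b`. -/
theorem regb_fork {a b x z : V} (h : X.d a z + X.d z b = X.d a b) :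
    X.d x z + X.d z a = X.d x a ∨ X.d x z + X.d z b = X.d x b := by
  obtain ⟨m, h1, h2, h3⟩ := X.med a b x
  rcases le_total (X.d a z) (X.d a m) with h4 | h4
  · left
    have h5 := bt_of_bt h h1 h4
    have e1 := X.tri x z a
    have e2 := X.tri z m x
    have e3 := X.symm x z
    have e4 := X.symm z a
    have e5 := X.symm x a
    omega
  · right
    have h5 := bt_of_bt h1 h h4
    have e1 := X.tri x z b
    have e2 := X.tri z m x
    have e3 := X.symm x z
    have e4 := X.symm x b
    have e5 := X.symm z m
    have e6 := X.symm b m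
    have e7 := X.symm b z
    omega

/-- A vertex of large height is reached from `x` through `y`. -/
theorem regb_via {x y z : V} (hy : Bel X r y x)
    (hno : ∀ w, Bel X r y w → Bel X r w x → w ≠ y → ¬ Bel X r w z) :
    X.d x z = X.d x y + X.d y z := by
  obtain ⟨m, h1, h2, h3, -⟩ := exists_lca X r x z
  have e1 := X.tri x y z
  rcases le_total (X.d r m) (X.d r y) with h4 | h4
  · have h5 := bel_chain h1 hy h4
    have h6 := bel_trans' h5 hy
    have e2 := X.tri y m z
    have e3 := X.symm y m
    have e4 := X.symm x m
    have e5 := X.symm y x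
    omega
  · have h5 := bel_chain hy h1 h4
    by_cases h6 : m = y
    · rw [h6] at h3
      omega
    · exact absurd h2 (hno m h5 h1 h6)

/-- A vertex which is far from the bases of all legs has a large neighbourhood outside of the
shadows of all legs. -/
theorem reg_strong (S : Setup X r k Λ B E h₀ σ) {x : V} (hx : x ∈ Wset X r k h₀ σ ∅) :
    ∃ M : Finset V, (∀ w ∈ M, X.d x w + 32 * σ ≤ k) ∧ Disjoint M (Sh X r k h₀ σ) ∧
      k + 12 * σ ≤ M.card ∧ Cvx X M := by
  have hhi := S.hi
  have hlo := S.lo
  have hBσ : 256 * σ ≤ B := by
    have h1 := S.hσ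
    have h2 := S.hΛ
    have h3 : 64 * σ * 4 ≤ 64 * σ * (2 * Λ + E + 2) := Nat.mul_le_mul_left _ (by omega)
    omega
  have hBk := S.hB
  have hσ1 := S.hE'
  simp only [Wset, Finset.mem_filter, Finset.mem_univ, true_and, Finset.notMem_empty,
    not_false_eq_true, forall_const] at hx
  obtain ⟨hxo, hxf⟩ := hx
  obtain ⟨y, hy1, hy2, hy3, hy4⟩ := out_core S hxo
  obtain ⟨j, hj, j', hj', hjj, hyj, hyjj⟩ := two_legs S hy2
  have hyx : X.d y x = X.d x y := X.symm _ _
  -- vertices of height at least `h₀` are reached through `y`
  have via : ∀ z, h₀ ≤ ht X r z → X.d x z = X.d x y + X.d y z := by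
    intro z hz
    refine regb_via hy1 ?_
    intro w w1 w2 w3 w4
    have w5 := hy4 w w1 w2 w3
    have w6 := ht_bel w4
    omega
  have viat : ∀ i ∈ legs X r h₀, X.d x (tip X r i) = X.d x y + X.d y (tip X r i) := by
    intro i hi
    refine regb_via hy1 ?_
    intro w w1 w2 w3 w4
    have w5 := hy4 w w1 w2 w3
    have w6 : ht X r i = h₀ := mem_legs.1 hi
    have w7 := tip_bel (X := X) (r := r) i
    rcases le_total (X.d r w) (X.d r i) with h | h
    · have w8 := ht_bel (bel_chain w4 w7 h)
      omega
    · exact hxo i hi (bel_trans (bel_chain w7 w4 h) w2)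
  -- claim 1
  have claim : ∀ i ∈ legs X r h₀, Bel X r y i → Bel X r y (bt X r k i) ∧ y ≠ bt X r k i ∧
      X.d (bt X r k i) (tip X r i) = k := by
    intro i hi hyi
    have w6 : ht X r i = h₀ := mem_legs.1 hi
    have c1 := tip_bel (X := X) (r := r) i
    have c2 := tip_dist (X := X) (r := r) i
    have c3 := bel_trans hyi c1
    have c4 : Bel X r (bt X r k i) (tip X r i) := up_bel _ _
    have c5 := hxf i hi
    have c6 : X.d (bt X r k i) (tip X r i) ≤ k := up_dist_le _ _
    have c7 := bel_trans' hyi c1
    have c8 : ¬ Bel X r (bt X r k i) y := by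
      intro h
      have c9 := bel_trans' h c3
      have c10 := X.tri (bt X r k i) y x
      omega
    have c9 : X.d r y < X.d r (bt X r k i) := by
      by_contra h
      exact c8 (bel_chain c4 c3 (by omega))
    refine ⟨bel_chain c3 c4 c9.le, ?_, ?_⟩
    · intro h
      rw [← h] at c9
      exact lt_irrefl _ c9
    · refine up_dist' ?_
      by_contra h
      have c10 : bt X r k i = r := up_root (by omega)
      rw [c10, X.self] at c9
      omega
  have hjh : ht X r j = h₀ := mem_legs.1 hj
  have hjh' : ht X r j' = h₀ := mem_legs.1 hj'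
  have hbt := bt_out S hj
  have hb1 := via (bt X r k j) hbt.le
  have hb2 : k < X.d x (bt X r k j) + 16 * σ := by
    have h := hxf j hj
    rw [X.symm] at h
    exact h
  have hb3 := bt_bel S hj
  obtain ⟨hb4, hb5, hb6⟩ := claim j hj hyj
  have hq1 := viat j' hj'
  have hq2 := leg_dist hj' (hxo j' hj')
  set p := bt X r k j with hp
  set q := tip X r j' with hq
  set e := X.d x y with he
  have hyp : X.d y p + X.d p j = X.d y j := by
    exact bel_trans' hb4 hb3.1
  refine ⟨univ.filter fun w => (X.d x w + X.d w p = X.d x p ∧ X.d x w + 32 * σ ≤ k) ∨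
    (X.d x w + X.d w q = X.d x q ∧ X.d x w + 20 * σ ≤ h₀), ?_, ?_, ?_, ?_⟩
  · intro w hw
    simp only [Finset.mem_filter, Finset.mem_univ, true_and] at hw
    rcases hw with hw | hw
    · exact hw.2
    · omega
  · rw [Finset.disjoint_left]
    intro w hw hsh
    simp only [Finset.mem_filter, Finset.mem_univ, true_and] at hw
    rw [mem_sh] at hsh
    obtain ⟨v, hv, hsh⟩ := hsh
    have hvh : ht X r v = h₀ := mem_legs.1 hv
    have hv1 := hxf v hv
    have hv2 := bt_bel S hv
    -- not in a leg
    have nl : ¬ Bel X r v w := by
      intro hvw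
      rcases hw with hw | hw
      · exact out_path hxo (out_of_ht hbt) hw.1 v hv hvw
      · have h1 := out_dist (hxo v hv) hvw
        have h2 := X.tri (bt X r k v) v x
        have h3 := X.symm v x
        omega
    rcases hsh with hsh | ⟨hs1, hs2⟩
    · exact nl hsh
    have hsd := sh_dist S hv nl hs1 hs2 hxo hv1
    rcases hw with hw | hw
    swap
    · omega
    -- `w` is on the path from `y` to the base of `j`
    have w1 : X.d x y ≤ X.d x w := by omega
    have w2 := bt_of_bt (X := X) (x := x) (y := p) (z := y) (w := w) (by omega) hw.1 w1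
    have w3 := bel_bt hb4 w2.2
    rcases hs2 with hs2 | hs2
    · -- an ancestor of the tip of `v`
      have v1 := bel_trans w3.1 hs2
      have v2 := tip_bel (X := X) (r := r) v
      have v3 : Bel X r y v := by
        refine bel_chain v1 v2 ?_
        by_contra h
        have v4 := ht_bel (bel_chain v2 v1 (by omega))
        omega
      obtain ⟨v4, v5, v6⟩ := claim v hv v3
      have v7 : Bel X r (bt X r k v) (tip X r v) := up_bel _ _
      rcases le_total (X.d r w) (X.d r (bt X r k v)) with h | h
      · have v8 := bel_trans' (bel_chain hs2 v7 h) v7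
        have v9 := X.tri x w (bt X r k v)
        have v10 := X.symm w (tip X r v)
        have v11 := X.symm x (bt X r k v)
        omega
      · have v8 := bel_chain v7 hs2 h
        have v9 : ¬ Bel X r (bt X r k v) x := by
          intro h'
          have v10 := hy4 _ v4 h' (Ne.symm v5)
          have v11 := bt_out S hv
          omega
        have v10 := out_dist v9 v8
        have v11 := X.symm x (bt X r k v)
        omega
    · -- beyond the root
      unfold Bt at hs2
      have v2 := tip_bel (X := X) (r := r) v
      have v3 := tip_dist (X := X) (r := r) v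
      have v4 : X.d (tip X r v) r = X.d r (tip X r v) := X.symm _ _
      have v5 := X.tri (bt X r k v) r x
      have v6 : X.d (bt X r k v) r = X.d r (tip X r v) - k := by
        rw [X.symm]
        exact up_depth _ _
      have v7 := w3.1
      unfold Bel at v2 v7 hy1
      omega
  · -- the number of elements
    have hinj1 : Set.InjOn (fun t => pt X x p t) (range (k - 32 * σ + 1) : Set ℕ) := by
      intro t ht' t' ht'' htt
      simp only [Finset.coe_range, Set.mem_Iio] at ht' ht''
      have h1 := pt_dist X x p t
      have h2 := pt_dist X x p t'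
      simp only at htt
      rw [htt] at h1
      omega
    have hinj2 : Set.InjOn (fun t => pt X x q t) (Ico (e + 1) (h₀ - 20 * σ + 1) : Set ℕ) := by
      intro t ht' t' ht'' htt
      simp only [Finset.coe_Ico, Set.mem_Ico] at ht' ht''
      have h1 := pt_dist X x q t
      have h2 := pt_dist X x q t'
      simp only at htt
      rw [htt] at h1
      omega
    have hc1 := Finset.card_image_of_injOn hinj1
    have hc2 := Finset.card_image_of_injOn hinj2
    rw [Finset.card_range] at hc1
    rw [Nat.card_Ico] at hc2
    have hdis : Disjoint ((range (k - 32 * σ + 1)).image fun t => pt X x p t)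
        ((Ico (e + 1) (h₀ - 20 * σ + 1)).image fun t => pt X x q t) := by
      rw [Finset.disjoint_left]
      intro w hw hw'
      rw [Finset.mem_image] at hw hw'
      obtain ⟨t, ht1, ht2⟩ := hw
      obtain ⟨t', ht1', ht2'⟩ := hw'
      rw [Finset.mem_range] at ht1
      rw [Finset.mem_Ico] at ht1'
      have h1 := pt_dist X x p t
      have h2 := pt_bt X x p t
      have h3 := pt_dist X x q t'
      have h4 := pt_bt X x q t'
      rw [ht2] at h1 h2
      rw [ht2'] at h3 h4
      have w1 : X.d x y ≤ X.d x w := by omega
      have w2 := bt_of_bt (X := X) (x := x) (y := p) (z := y) (w := w) (by omega) h2 w1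
      have w3 := bt_of_bt (X := X) (x := x) (y := q) (z := y) (w := w) (by omega) h4 w1
      have w4 : X.d y w = X.d x w - e := by omega
      -- the distance from `j` to `q`
      have nj : ¬ Bel X r j' j := by
        intro h
        exact hjj (eq_of_ht (by omega) (bel_refl j) h)
      have d1 := leg_dist hj' nj
      have d2 := X.tri j w q
      have d3 := X.tri w p j
      have d4 := X.symm j w
      have ny : ¬ Bel X r j' y := by
        intro h
        have h5 := ht_bel h
        omega
      have d5 := leg_dist hj' ny
      have d6 := X.symm j y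
      rw [← hq] at d1 d5
      omega
    have hsub : ((range (k - 32 * σ + 1)).image fun t => pt X x p t) ∪
        ((Ico (e + 1) (h₀ - 20 * σ + 1)).image fun t => pt X x q t) ⊆
        univ.filter fun w => (X.d x w + X.d w p = X.d x p ∧ X.d x w + 32 * σ ≤ k) ∨
          (X.d x w + X.d w q = X.d x q ∧ X.d x w + 20 * σ ≤ h₀) := by
      intro w hw
      simp only [Finset.mem_union, Finset.mem_image, Finset.mem_range, Finset.mem_Ico] at hw
      simp only [Finset.mem_filter, Finset.mem_univ, true_and]
      rcases hw with ⟨t, ht1, ht2⟩ | ⟨t, ht1, ht2⟩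
      · left
        have h1 := pt_dist X x p t
        have h2 := pt_bt X x p t
        rw [ht2] at h1 h2
        omega
      · right
        have h1 := pt_dist X x q t
        have h2 := pt_bt X x q t
        rw [ht2] at h1 h2
        omega
    have hcard := Finset.card_le_card hsub
    rw [Finset.card_union_of_disjoint hdis, hc1, hc2] at hcard
    refine le_trans ?_ hcard
    omega
  · -- convexity
    intro a ha b hb z hz
    simp only [Finset.mem_filter, Finset.mem_univ, true_and] at ha hb ⊢
    have key : ∀ c, ((X.d x c + X.d c p = X.d x p ∧ X.d x c + 32 * σ ≤ k) ∨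
        (X.d x c + X.d c q = X.d x q ∧ X.d x c + 20 * σ ≤ h₀)) →
        X.d x z + X.d z c = X.d x c →
        ((X.d x z + X.d z p = X.d x p ∧ X.d x z + 32 * σ ≤ k) ∨
        (X.d x z + X.d z q = X.d x q ∧ X.d x z + 20 * σ ≤ h₀)) := by
      intro c hc hzc
      rcases hc with hc | hc
      · left
        have h1 := X.tri z c p
        have h2 := X.tri x z p
        omega
      · right
        have h1 := X.tri z c q
        have h2 := X.tri x z q
        omega
    rcases regb_fork (x := x) hz with h | h
    · exact key a ha h
    · exact key b hb h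

end Pool.Agent.Helper84.NC
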