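import Pool.Agent.Helper84.NC.Height

/-! # Project NC, module NC-08: balls which cover the low levels of a leg -/

set_option autoImplicit false

namespace Pool.Agent.Helper84.NC

open Finset

variable {V : Type*} [Fintype V] {X : TM V} {r : V} {h₀ : ℕ}

theorem fix_zero (v : V) (hv : v ∈ legs X r h₀) (n : ℕ) : Fix X r h₀ v 0 n := by
  rw [mem_legs] at hv
  refine ⟨v, fun x hx h => ?_⟩
  have := ht_le hx
  omega

theorem fix_mono {v : V} {m m' n n' : ℕ} (h : Fix X r h₀ v m n) (hm : m' ≤ m) (hn : n ≤ n') :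
    Fix X r h₀ v m' n' := by
  obtain ⟨z, hz⟩ := h
  refine ⟨z, fun x hx h => ?_⟩
  have := hz x hx (by omega)
  omega

/-- distances from an ancestor of the tip -/
theorem fix_core {v x : V} (hv : v ∈ legs X r h₀) (hx : Bel X r v x) (n : ℕ) :
    X.d (up X r (tip X r v) n) x + h₀ ≤ n + X.d v x ∨
      X.d (up X r (tip X r v) n) x + n + X.d v x ≤ h₀ + 2 * hd X v (tip X r v) x ∨
      X.d (up X r (tip X r v) n) x ≤ hd X v (tip X r v) x := by
  rw [mem_legs] at hv
  have ht := tip_dist (X := X) (r := r) v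
  have htb := tip_bel (X := X) (r := r) v
  obtain ⟨p, h1, h2, h3, h4⟩ := hd_med (X := X) v (tip X r v) x
  obtain ⟨hp1, hp2⟩ := bel_bt htb h1
  have hz1 := up_bel (X := X) (r := r) (tip X r v) n
  have hz2 := up_dist_le (X := X) (r := r) (tip X r v) n
  have hz3 := up_depth (X := X) (r := r) (tip X r v) n
  have e1 := X.symm x v
  have e2 := X.symm p v
  have e3 := X.symm x p
  have e4 := X.tri (up X r (tip X r v) n) p x
  rcases le_total (X.d r (up X r (tip X r v) n)) (X.d r p) with h | h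
  · have h5 := bel_chain hz1 hp2 h
    have h6 := bel_trans' h5 hp2
    left
    omega
  · have h5 := bel_chain hp2 hz1 h
    have h6 := bel_trans' h5 hz1
    have e5 := X.symm p (up X r (tip X r v) n)
    rcases Nat.lt_or_ge (X.d r (tip X r v)) n with h7 | h7
    · right; right
      unfold Bel at *
      omega
    · right; left
      have h8 := up_dist' (X := X) h7
      omega

theorem fix_hd {v : V} (hv : v ∈ legs X r h₀) {m h : ℕ}
    (H : ∀ x, Bel X r v x → h₀ < X.d v x + m → hd X v (tip X r v) x ≤ h) :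
    Fix X r h₀ v m (m / 2 + h + 1) := by
  refine ⟨up X r (tip X r v) (m / 2 + h), fun x hx hl => ?_⟩
  have h1 := H x hx hl
  have h2 := fix_core hv hx (m / 2 + h)
  have h3 : X.d v x ≤ h₀ := by
    rw [mem_legs] at hv
    rw [← hv]
    exact ht_le hx
  omega

theorem hd_le_hz {v x : V} {Z : ℕ} (hx : Bel X r v x) (h : h₀ < X.d v x + Z) :
    hd X v (tip X r v) x ≤ hz X r h₀ Z v := by
  classical
  unfold hz
  refine Finset.le_sup (f := hd X v (tip X r v)) ?_
  rw [Finset.mem_filter]
  exact ⟨mem_sub.2 hx, h⟩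

theorem fix_hz {v : V} (hv : v ∈ legs X r h₀) {m Z : ℕ} (hm : m ≤ Z) :
    Fix X r h₀ v m (m / 2 + hz X r h₀ Z v + 1) :=
  fix_hd hv fun _ hx hl => hd_le_hz hx (by omega)

/-- Clean legs. -/
theorem fix_clean {v : V} (hv : v ∈ legs X r h₀) {h τ m q : ℕ} (hc : Clean X r h₀ v h τ)
    (hm : m ≤ 2 * q + 1) (hq : h = 0 ∨ m ≤ τ ∨ τ + 2 * h ≤ 2 * q) :
    Fix X r h₀ v m (q + 1) := by
  refine ⟨up X r (tip X r v) q, fun x hx hl => ?_⟩
  have h2 := fix_core hv hx q
  have h3 : X.d v x ≤ h₀ := by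
    rw [mem_legs] at hv
    rw [← hv]
    exact ht_le hx
  rcases Nat.eq_zero_or_pos (hd X v (tip X r v) x) with h4 | h4
  · omega
  · have h5 := hc x hx h4
    omega

/-- The vertices which a ball does not cover have small level. -/
theorem cover_of_fix {v c x : V} {k a m : ℕ} (h : X.d c v + h₀ + a ≤ k + m)
    (hx : X.d v x + m ≤ h₀) : X.d c x + a ≤ k := by
  have := X.tri c v x
  omega

end Pool.Agent.Helper84.NC
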