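import Pool.Agent.Helper84.NC.Defs

/-! # Project NC, module NC-21: matchings -/

set_option autoImplicit false

namespace Pool.Agent.Helper84.NC

open Finset Classical

/-- The legs which occur in the pairs of `M`. -/
noncomputable def touched {ι : Type*} (M : Finset (ι × ι)) : Finset ι :=
  M.image Prod.fst ∪ M.image Prod.snd

/-- A matching. -/
structure Mat {ι : Type*} (F : Finset ι) (R : ι → ι → Prop) (M : Finset (ι × ι)) : Prop where
  left : ∀ e ∈ M, e.1 ∈ F
  right : ∀ e ∈ M, e.2 ∈ F
  ne : ∀ e ∈ M, e.1 ≠ e.2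
  rel : ∀ e ∈ M, R e.1 e.2
  disj : ∀ e ∈ M, ∀ e' ∈ M, e ≠ e' → e.1 ≠ e'.1 ∧ e.1 ≠ e'.2 ∧ e.2 ≠ e'.1 ∧ e.2 ≠ e'.2

theorem exists_mat {ι : Type*} (F : Finset ι) (R : ι → ι → Prop) :
    ∃ M, Mat F R M ∧ ∀ i ∈ F, ∀ l ∈ F, i ∉ touched M → l ∉ touched M → i ≠ l → ¬ R i l := by
  have hempty : Mat F R (∅ : Finset (ι × ι)) :=
    ⟨fun e he => absurd he (Finset.notMem_empty e), fun e he => absurd he (Finset.notMem_empty e),
      fun e he => absurd he (Finset.notMem_empty e), fun e he => absurd he (Finset.notMem_empty e),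
      fun e he => absurd he (Finset.notMem_empty e)⟩
  obtain ⟨M, hM, hmax⟩ := Finset.exists_max_image
    ((F ×ˢ F).powerset.filter (fun M => Mat F R M)) (fun M => M.card)
    ⟨∅, by rw [Finset.mem_filter]; exact ⟨Finset.empty_mem_powerset _, hempty⟩⟩
  rw [Finset.mem_filter] at hM
  refine ⟨M, hM.2, ?_⟩
  intro i hi l hl hiM hlM hil hR
  have hi1 : ∀ e ∈ M, i ≠ e.1 ∧ i ≠ e.2 := by
    intro e he
    constructor
    · rintro rfl
      exact hiM (Finset.mem_union_left _ (Finset.mem_image_of_mem _ he))
    · rintro rfl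
      exact hiM (Finset.mem_union_right _ (Finset.mem_image_of_mem _ he))
  have hl1 : ∀ e ∈ M, l ≠ e.1 ∧ l ≠ e.2 := by
    intro e he
    constructor
    · rintro rfl
      exact hlM (Finset.mem_union_left _ (Finset.mem_image_of_mem _ he))
    · rintro rfl
      exact hlM (Finset.mem_union_right _ (Finset.mem_image_of_mem _ he))
  have hnot : (i, l) ∉ M := fun h => (hi1 _ h).1 rfl
  have hMat : Mat F R (insert (i, l) M) := by
    refine ⟨?_, ?_, ?_, ?_, ?_⟩
    · intro e he
      rcases Finset.mem_insert.1 he with rfl | he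
      · exact hi
      · exact hM.2.left e he
    · intro e he
      rcases Finset.mem_insert.1 he with rfl | he
      · exact hl
      · exact hM.2.right e he
    · intro e he
      rcases Finset.mem_insert.1 he with rfl | he
      · exact hil
      · exact hM.2.ne e he
    · intro e he
      rcases Finset.mem_insert.1 he with rfl | he
      · exact hR
      · exact hM.2.rel e he
    · intro e he e' he' hne
      rcases Finset.mem_insert.1 he with rfl | he
      · rcases Finset.mem_insert.1 he' with rfl | he'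
        · exact absurd rfl hne
        · exact ⟨(hi1 _ he').1, (hi1 _ he').2, (hl1 _ he').1, (hl1 _ he').2⟩
      · rcases Finset.mem_insert.1 he' with rfl | he'
        · exact ⟨(hi1 _ he).1.symm, (hl1 _ he).1.symm, (hi1 _ he).2.symm, (hl1 _ he).2.symm⟩
        · exact hM.2.disj e he e' he' hne
  have hsub : insert (i, l) M ∈ (F ×ˢ F).powerset.filter (fun M => Mat F R M) := by
    rw [Finset.mem_filter]
    refine ⟨?_, hMat⟩
    rw [Finset.mem_powerset]
    intro e he
    rw [Finset.mem_product]
    exact ⟨hMat.left e he, hMat.right e he⟩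
  have h1 := hmax _ hsub
  rw [Finset.card_insert_of_notMem hnot] at h1
  omega

theorem card_touched {ι : Type*} (M : Finset (ι × ι)) : (touched M).card ≤ 2 * M.card := by
  have h1 := Finset.card_union_le (M.image Prod.fst) (M.image Prod.snd)
  have h2 : (M.image Prod.fst).card ≤ M.card := Finset.card_image_le
  have h3 : (M.image Prod.snd).card ≤ M.card := Finset.card_image_le
  unfold touched
  omega

end Pool.Agent.Helper84.NC
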