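import Pool.Agent.Helper84.NC.Legs
import Pool.Agent.Helper84.NC.Fix
import Pool.Agent.Helper84.NC.Matching

/-! # Project NC, module NC-22: a ball which serves two related legs -/

set_option autoImplicit false

namespace Pool.Agent.Helper84.NC

open Finset Classical

variable {V : Type*} [Fintype V] {X : TM V} {r : V} {k Λ B E h₀ σ : ℕ}

/-- The relation used for the matchings. -/
def Rel' (X : TM V) (r : V) (h₀ Z κ : ℕ) (g l : V) : Prop :=
  Rel X r h₀ Z κ g l ∧ hz X r h₀ Z l ≤ hz X r h₀ Z g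

theorem rel_or {Z κ : ℕ} {i l : V} (h : ¬ Rel' X r h₀ Z κ i l) (h' : ¬ Rel' X r h₀ Z κ l i) :
    2 * κ ≤ X.d (tip X r i) (tip X r l) + hz X r h₀ Z i + hz X r h₀ Z l := by
  by_contra hc
  have e := X.symm (tip X r i) (tip X r l)
  rcases le_total (hz X r h₀ Z l) (hz X r h₀ Z i) with h1 | h1
  · refine h ⟨?_, h1⟩
    unfold Rel
    omega
  · refine h' ⟨?_, h1⟩
    unfold Rel
    omega

/-- `home` is the leg whose base is close to the centres. -/
theorem pair_serve (S : Setup X r k Λ B E h₀ σ) {D Z κ A : ℕ} {F : Finset V}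
    (hF : Far X r k h₀ D F) {g l : V} (hg : g ∈ F) (hl : l ∈ F) (hne : g ≠ l)
    (hR : Rel' X r h₀ Z κ g l) (hD : 100 * (D + A) ≤ σ) (hκ : κ ≤ k + σ)
    (hZ : 2 * κ + 2 * A ≤ 2 * k + Z) :
    ∃ home, (home = g ∨ home = l) ∧ ∀ a, 1 ≤ a → a ≤ A → ∃ c,
      Sv X r k h₀ g c a 0 ∧ Sv X r k h₀ l c a (κ + a - k) ∧
      X.d c (bt X r k home) ≤ 2 * (D + (κ - k) + a) := by
  have hgL := hF.sub hg
  have hlL := hF.sub hl
  have htt := tip_tip hgL hlL hne
  have hfar := hF.far g hg l hl hne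
  obtain ⟨hR1, hR2⟩ := hR
  unfold Rel at hR1
  have hB : 128 * σ ≤ B := by
    have h1 := S.hσ
    have h2 : 64 * σ * 2 ≤ 64 * σ * (2 * Λ + E + 2) := Nat.mul_le_mul_left _ (by omega)
    omega
  have hhi := S.hi
  have hgt : X.d g (tip X r g) = h₀ := by
    rw [tip_dist]; exact mem_legs.1 hgL
  have hlt : X.d l (tip X r l) = h₀ := by
    rw [tip_dist]; exact mem_legs.1 hlL
  obtain ⟨m0, hm1, hm2, hm3, -⟩ := exists_lca X r (tip X r g) (tip X r l)
  -- the centre
  have key : ∀ a, 1 ≤ a → a ≤ A → ∃ c, X.d g c + h₀ + a = k ∧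
      X.d (tip X r g) c + a = k ∧
      X.d (tip X r g) c + X.d c (tip X r l) = X.d (tip X r g) (tip X r l) ∧
      X.d c (tip X r l) = X.d c l + h₀ := by
    intro a ha1 ha2
    have h1 := pt_dist X g l (k - a - h₀)
    have h2 := pt_bt X g l (k - a - h₀)
    refine ⟨pt X g l (k - a - h₀), ?_, ?_, ?_, ?_⟩
    · omega
    · have h3 := X.tri (tip X r g) g (pt X g l (k - a - h₀))
      have h4 := X.symm g (tip X r g)
      have h5 := X.tri (pt X g l (k - a - h₀)) l (tip X r l)
      have h6 := X.tri (tip X r g) (pt X g l (k - a - h₀)) (tip X r l)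
      omega
    · have h3 := X.tri (tip X r g) g (pt X g l (k - a - h₀))
      have h4 := X.symm g (tip X r g)
      have h5 := X.tri (pt X g l (k - a - h₀)) l (tip X r l)
      have h6 := X.tri (tip X r g) (pt X g l (k - a - h₀)) (tip X r l)
      omega
    · have h3 := X.tri (tip X r g) g (pt X g l (k - a - h₀))
      have h4 := X.symm g (tip X r g)
      have h5 := X.tri (pt X g l (k - a - h₀)) l (tip X r l)
      have h6 := X.tri (tip X r g) (pt X g l (k - a - h₀)) (tip X r l)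
      omega
  have serve : ∀ a c, 1 ≤ a → a ≤ A → X.d g c + h₀ + a = k →
      X.d (tip X r g) c + a = k →
      X.d (tip X r g) c + X.d c (tip X r l) = X.d (tip X r g) (tip X r l) →
      X.d c (tip X r l) = X.d c l + h₀ →
      Sv X r k h₀ g c a 0 ∧ Sv X r k h₀ l c a (κ + a - k) := by
    intro a c ha1 ha2 h1 h2 h3 h4
    refine ⟨⟨0, ?_, fix_zero g hgL 0⟩, ?_⟩
    · have := X.symm g c
      omega
    · refine ⟨X.d (tip X r g) (tip X r l) + 2 * a - 2 * k, by omega, ?_⟩
      rcases Nat.eq_zero_or_pos (X.d (tip X r g) (tip X r l) + 2 * a - 2 * k) with h0 | h0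
      · rw [h0]
        exact fix_zero l hlL _
      · exact fix_mono (fix_hz hlL (m := X.d (tip X r g) (tip X r l) + 2 * a - 2 * k) (Z := Z)
          (by omega)) le_rfl (by omega)
  by_cases hcase : k ≤ X.d (tip X r g) m0
  · refine ⟨g, Or.inl rfl, ?_⟩
    intro a ha1 ha2
    obtain ⟨c, h1, h2, h3, h4⟩ := key a ha1 ha2
    obtain ⟨s1, s2⟩ := serve a c ha1 ha2 h1 h2 h3 h4
    refine ⟨c, s1, s2, ?_⟩
    have h5 := bt_of_bt h3 hm3 (by omega)
    have e1 := X.symm (tip X r g) c
    have e2 := X.symm (tip X r g) m0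
    have e3 := X.symm c m0
    have h6 := (bel_bt hm1 (z := c) (by omega)).2
    have h7 := up_eq h6
    have h8 := up_up_le (X := X) (r := r) (tip X r g) (X.d c (tip X r g)) k
    rw [h7] at h8
    unfold bt
    omega
  · refine ⟨l, Or.inr rfl, ?_⟩
    intro a ha1 ha2
    obtain ⟨c, h1, h2, h3, h4⟩ := key a ha1 ha2
    obtain ⟨s1, s2⟩ := serve a c ha1 ha2 h1 h2 h3 h4
    refine ⟨c, s1, s2, ?_⟩
    rcases le_total (X.d (tip X r g) c) (X.d (tip X r g) m0) with hc | hc
    · have h5 := bt_of_bt h3 hm3 hc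
      have h7 := up_eq hm2
      have h8 := up_up_le (X := X) (r := r) (tip X r l) (X.d m0 (tip X r l)) k
      rw [h7] at h8
      have h9 := X.tri c m0 (up X r (tip X r l) k)
      unfold bt
      omega
    · have h5 := bt_of_bt hm3 h3 hc
      have h6 := (bel_bt hm2 (z := c) (by omega)).2
      have h7 := up_eq h6
      have h8 := up_up_le (X := X) (r := r) (tip X r l) (X.d c (tip X r l)) k
      rw [h7] at h8
      unfold bt
      omega

end Pool.Agent.Helper84.NC
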