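import Pool.Agent.Helper84.NC.HairSet
import Pool.Agent.Helper84.NC.ArmPath
import Pool.Agent.Helper84.NC.Serve
import Pool.Agent.Helper84.NC.RegB

/-! # Project NC, module NC-26: the arms -/

set_option autoImplicit false

namespace Pool.Agent.Helper84.NC

open Finset Classical

variable {V : Type*} [Fintype V] {X : TM V} {r : V} {k Λ B E h₀ σ : ℕ}

/-- `N` is the set of matched legs; the arm `A i` of an unmatched leg `i ∈ F` has `κ` vertices. -/
structure ArmSys (X : TM V) (r : V) (k h₀ σ Z κ : ℕ) (F N : Finset V) (A : V → Finset V) :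
    Prop where
  sh : ∀ i ∈ legs X r h₀, A i ⊆ Sh X r k h₀ σ
  disj : ∀ i ∈ legs X r h₀, ∀ l ∈ legs X r h₀, i ≠ l → Disjoint (A i) (A l)
  cvx : ∀ l ∈ legs X r h₀, l ∉ F ∨ l ∈ N → Cvx X (A l)
  adj : ∀ i ∈ F, ∀ l ∈ F, i ∉ N → l ∉ N → i ≠ l → ∀ w ∈ A i, ∀ w' ∈ A l, X.d w w' ≠ 1
  top : ∀ i ∈ F, i ∉ N → κ ≤ X.d r (tip X r i) + hz X r h₀ Z i → hz X r h₀ Z i + h₀ < κ →
    ∀ l ∈ legs X r h₀, up X r (tip X r i) (κ - hz X r h₀ Z i) ∉ A l
  mem : ∀ i ∈ F, i ∉ N → κ ≤ X.d r (tip X r i) + hz X r h₀ Z i → hz X r h₀ Z i + h₀ < κ →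
    ∀ j, j < κ - hz X r h₀ Z i → up X r (tip X r i) j ∈ A i
  eqv : ∀ i ∈ F, i ∉ N → κ ≤ X.d r (tip X r i) + hz X r h₀ Z i → hz X r h₀ Z i + h₀ < κ →
    ∃ τ, ∀ w ∈ A i, (∃ j, j < κ - hz X r h₀ Z i ∧ w = up X r (tip X r i) j) ∨
      (Bel X r i w ∧ 0 < hd X i (tip X r i) w ∧ hd X i (tip X r i) w ≤ hz X r h₀ Z i ∧
        h₀ + hd X i (tip X r i) w = X.d i w + τ + hz X r h₀ Z i)
  root : ((F \ N).filter fun i => X.d r (tip X r i) + hz X r h₀ Z i < κ).card ≤ 1

/-- The loss of the arms. -/
noncomputable def loss (X : TM V) (r : V) (k h₀ D κ : ℕ) (F N : Finset V) : ℕ :=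
  (legs X r h₀ \ F).card * (κ - h₀) + N.card * (2 * κ + 2 * D - 2 * k)

private theorem arms_num (S : Setup X r k Λ B E h₀ σ) :
    h₀ + 128 * σ ≤ k ∧ 300 ≤ σ ∧ 12800 * σ ≤ k := by
  have h1 := S.hi
  have h2 := S.hσ
  have h3 := S.hE'
  have h4 := S.hB
  have h5 := S.hΛ
  have h6 : 64 * σ * 2 ≤ 64 * σ * (2 * Λ + E + 2) := Nat.mul_le_mul_left _ (by omega)
  have h7 : 1 ≤ E := by
    by_contra hcon
    have h8 : E = 0 := by omega
    have h9 := S.hE
    rw [h8, Nat.zero_mul] at h9
    have h10 : 0 < Λ * k := Nat.mul_pos (by omega) (by omega)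
    omega
  omega

private theorem arms_hz (S : Setup X r k Λ B E h₀ σ) {i : V} (hi : i ∈ legs X r h₀) (Z : ℕ) :
    hz X r h₀ Z i + 64 * σ ≤ h₀ := by
  have h1 := hair_bound S hi (tip_bel (X := X) (r := r) i)
  have h2 : hz X r h₀ Z i ≤ h₀ - 64 * σ := by
    unfold hz
    refine Finset.sup_le fun x hx => ?_
    rw [Finset.mem_filter, mem_sub] at hx
    have h3 := hair_bound S hi hx.1
    omega
  omega

theorem exists_arms (S : Setup X r k Λ B E h₀ σ) {D Z κ : ℕ} {F N : Finset V}
    (hF : Far X r k h₀ D F) (hN : N ⊆ F) (hD : 100 * (D + Z) ≤ σ) (hκ1 : κ ≤ k + σ)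
    (hκ2 : k ≤ κ + D)
    (hun : ∀ i ∈ F, ∀ l ∈ F, i ∉ N → l ∉ N → i ≠ l →
      2 * κ ≤ X.d (tip X r i) (tip X r l) + hz X r h₀ Z i + hz X r h₀ Z l) :
    ∃ A : V → Finset V, ArmSys X r k h₀ σ Z κ F N A ∧
      (legs X r h₀).card * κ ≤ (∑ i ∈ legs X r h₀, (A i).card) + loss X r k h₀ D κ F N +
        2 * (κ - h₀) ∧
      (κ + 2 ≤ ht X r r →
        (legs X r h₀).card * κ ≤ (∑ i ∈ legs X r h₀, (A i).card) + loss X r k h₀ D κ F N) := by
  obtain ⟨hnum1, hnum2, hnum3⟩ := arms_num S
  have hhz : ∀ i ∈ legs X r h₀, hz X r h₀ Z i + 64 * σ ≤ h₀ := fun i hi => arms_hz S hi Z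
  have hFl : ∀ i ∈ F, i ∈ legs X r h₀ := fun i hi => hF.sub hi
  set n : V → ℕ := fun i => if i ∈ F then (if i ∈ N then 2 * (k - D) - κ else κ - hz X r h₀ Z i)
    else h₀ + 1 with hn
  have hn1 : ∀ i ∈ F, i ∉ N → n i = κ - hz X r h₀ Z i := by
    intro i hi hi'
    simp only [hn]
    rw [if_pos hi, if_neg hi']
  have hn2 : ∀ i ∈ N, n i = 2 * (k - D) - κ := by
    intro i hi
    simp only [hn]
    rw [if_pos (hN hi), if_pos hi]
  have hn3 : ∀ i, i ∉ F → n i = h₀ + 1 := by
    intro i hi
    simp only [hn]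
    rw [if_neg hi]
  have hPex : ∀ i, ∃ P : Finset V, i ∈ legs X r h₀ → (∀ w ∈ P, X.d (tip X r i) w < n i ∧
        (Bel X r w (tip X r i) ∨ Bt X (tip X r i) r w)) ∧
      (∀ w ∈ P, Bel X r i w → hd X i (tip X r i) w = 0) ∧
      (∀ l ∈ legs X r h₀, l ≠ i → ∀ w ∈ P, ¬ Bel X r l w) ∧ Cvx X P ∧
      (n i ≤ X.d r (tip X r i) + 1 → (∀ j, j < n i → up X r (tip X r i) j ∈ P) ∧
        (∀ w ∈ P, ∃ j, j < n i ∧ w = up X r (tip X r i) j) ∧ P.card = n i) ∧
      min (n i) (h₀ + 1) ≤ P.card ∧ P.card ≤ n i ∧ (n i + 2 ≤ ht X r r → P.card = n i) := by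
    intro i
    by_cases hi : i ∈ legs X r h₀
    · obtain ⟨P, hP⟩ := arm_path S hi (n i)
      exact ⟨P, fun _ => hP⟩
    · exact ⟨∅, fun h => absurd h hi⟩
  choose P hP using hPex
  have hHex : ∀ i, ∃ (H : Finset V) (τ : ℕ), i ∈ legs X r h₀ → H.card = hz X r h₀ Z i ∧
      ∀ w ∈ H, Bel X r i w ∧
      0 < hd X i (tip X r i) w ∧ hd X i (tip X r i) w ≤ hz X r h₀ Z i ∧
      h₀ + hd X i (tip X r i) w = X.d i w + τ + hz X r h₀ Z i := by
    intro i
    by_cases hi : i ∈ legs X r h₀
    · obtain ⟨H, τ, hH⟩ := exists_hair hi Z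
      exact ⟨H, τ, fun _ => hH⟩
    · exact ⟨∅, 0, fun h => absurd h hi⟩
  choose H τ hH using hHex
  set A : V → Finset V := fun i => if i ∈ F ∧ i ∉ N then P i ∪ H i else P i with hA
  have hA1 : ∀ i ∈ F, i ∉ N → A i = P i ∪ H i := by
    intro i hi hi'
    simp only [hA]
    rw [if_pos ⟨hi, hi'⟩]
  have hA2 : ∀ i, i ∉ F ∨ i ∈ N → A i = P i := by
    intro i hi
    simp only [hA]
    rw [if_neg]
    rintro ⟨h1, h2⟩
    rcases hi with hi | hi
    · exact hi h1
    · exact h2 hi
  have hmem : ∀ i w, w ∈ A i → w ∈ P i ∨ (i ∈ F ∧ i ∉ N ∧ w ∈ H i) := by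
    intro i w hw
    by_cases hi : i ∈ F ∧ i ∉ N
    · rw [hA1 i hi.1 hi.2, Finset.mem_union] at hw
      rcases hw with hw | hw
      · exact Or.inl hw
      · exact Or.inr ⟨hi.1, hi.2, hw⟩
    · refine Or.inl ?_
      rwa [hA2 i] at hw
      by_contra hcon
      push Not at hcon
      exact hi hcon
  have htipd : ∀ i ∈ legs X r h₀, X.d i (tip X r i) = h₀ := fun i hi => by
    rw [tip_dist]
    exact mem_legs.1 hi
  have hdep : ∀ i ∈ legs X r h₀, h₀ ≤ X.d r (tip X r i) := by
    intro i hi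
    have h1 := tip_bel (X := X) (r := r) i
    have h2 := htipd i hi
    unfold Bel at h1
    omega
  -- a leg outside of `F`
  have hPout : ∀ i ∈ legs X r h₀, i ∉ F → ∀ w ∈ P i, Bel X r i w := by
    intro i hi hiF w hw
    have h1 := hP i hi
    have h2 := hdep i hi
    obtain ⟨j, hj, rfl⟩ := (h1.2.2.2.2.1 (by rw [hn3 i hiF]; omega)).2.1 w hw
    rw [hn3 i hiF] at hj
    exact (ht_up_tip (by rw [mem_legs.1 hi]; omega)).1
  -- two legs of `F`
  have hpair : ∀ i ∈ F, ∀ l ∈ F, i ≠ l → n i + n l ≤ X.d (tip X r i) (tip X r l) := by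
    intro i hi l hl hil
    have h1 := hF.far i hi l hl hil
    have h2 := hhz i (hFl i hi)
    have h3 := hhz l (hFl l hl)
    by_cases hiN : i ∈ N
    · by_cases hlN : l ∈ N
      · rw [hn2 i hiN, hn2 l hlN]
        omega
      · rw [hn2 i hiN, hn1 l hl hlN]
        omega
    · by_cases hlN : l ∈ N
      · rw [hn1 i hi hiN, hn2 l hlN]
        omega
      · rw [hn1 i hi hiN, hn1 l hl hlN]
        have h4 := hun i hi l hl hiN hlN hil
        omega
  have hnκ : ∀ i ∈ F, n i ≤ κ := by
    intro i hi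
    by_cases hiN : i ∈ N
    · rw [hn2 i hiN]
      omega
    · rw [hn1 i hi hiN]
      omega
  have hHne : ∀ i ∈ legs X r h₀, ∀ w ∈ H i, 0 < X.d i w := by
    intro i hi w hw
    have h1 := (hH i hi).2 w hw
    refine dist_pos ?_
    rintro rfl
    have h2 := hd_self (X := X) (v := i) (u := tip X r i) (x := i) (by rw [X.self]; omega)
    omega
  have htop : ∀ i ∈ F, i ∉ N → κ ≤ X.d r (tip X r i) + hz X r h₀ Z i →
      hz X r h₀ Z i + h₀ < κ → ∀ l ∈ legs X r h₀, up X r (tip X r i) (κ - hz X r h₀ Z i) ∉ A l := by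
    intro i hi hiN h1 h2 l hl hmemA
    have hil := hFl i hi
    have h3 : κ - hz X r h₀ Z i ≤ X.d r (tip X r i) := by omega
    have h4 := up_dist' (X := X) h3
    have h5 := up_leg S hil (j := κ - hz X r h₀ Z i) (by omega)
    have h6 : ¬ Bel X r l (up X r (tip X r i) (κ - hz X r h₀ Z i)) := by
      intro h7
      have h8 := ht_bel h7
      rw [mem_legs.1 hl] at h8
      omega
    rcases hmem l _ hmemA with h7 | ⟨-, -, h7⟩
    · have h8 := ((hP l hl).1 _ h7).1
      by_cases hlF : l ∈ F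
      · by_cases hil' : i = l
        · subst hil'
          rw [hn1 i hi hiN, X.symm] at h8
          omega
        · have h9 := hpair i hi l hlF hil'
          rw [hn1 i hi hiN] at h9
          have h10 := X.tri (tip X r i) (up X r (tip X r i) (κ - hz X r h₀ Z i)) (tip X r l)
          have h11 := X.symm (tip X r i) (up X r (tip X r i) (κ - hz X r h₀ Z i))
          have h12 := X.symm (tip X r l) (up X r (tip X r i) (κ - hz X r h₀ Z i))
          omega
      · exact h6 (hPout l hl hlF _ h7)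
    · exact h6 ((hH l hl).2 _ h7).1
  have hroot : ((F \ N).filter fun i => X.d r (tip X r i) + hz X r h₀ Z i < κ).card ≤ 1 := by
    rw [Finset.card_le_one]
    intro i hi l hl
    rw [Finset.mem_filter, Finset.mem_sdiff] at hi hl
    by_contra hil
    have h1 := hun i hi.1.1 l hl.1.1 hi.1.2 hl.1.2 hil
    have h2 := X.tri (tip X r i) r (tip X r l)
    have h3 := X.symm (tip X r i) r
    omega
  have hsys : ArmSys X r k h₀ σ Z κ F N A := by
    refine ⟨?_, ?_, ?_, ?_, htop, ?_, ?_, hroot⟩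
    · intro i hi w hw
      rw [mem_sh]
      refine ⟨i, hi, ?_⟩
      rcases hmem i w hw with h1 | ⟨-, -, h1⟩
      · refine Or.inr ⟨?_, ((hP i hi).1 w h1).2⟩
        have h2 := ((hP i hi).1 w h1).1
        by_cases hiF : i ∈ F
        · have h3 := hnκ i hiF
          omega
        · rw [hn3 i hiF] at h2
          omega
      · exact Or.inl ((hH i hi).2 w h1).1
    · intro i hi l hl hil
      rw [Finset.disjoint_left]
      intro w hwi hwl
      rcases hmem i w hwi with h1 | ⟨-, -, h1⟩
      · rcases hmem l w hwl with h2 | ⟨-, -, h2⟩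
        · by_cases hlF : l ∈ F
          · by_cases hiF : i ∈ F
            · have h3 := hpair i hiF l hlF hil
              have h4 := ((hP i hi).1 w h1).1
              have h5 := ((hP l hl).1 w h2).1
              have h6 := X.tri (tip X r i) w (tip X r l)
              have h7 := X.symm w (tip X r l)
              omega
            · exact (hP l hl).2.2.1 i hi hil w h2 (hPout i hi hiF w h1)
          · exact (hP i hi).2.2.1 l hl (Ne.symm hil) w h1 (hPout l hl hlF w h2)
        · exact (hP i hi).2.2.1 l hl (Ne.symm hil) w h1 ((hH l hl).2 w h2).1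
      · have h3 := ((hH i hi).2 w h1).1
        rcases hmem l w hwl with h2 | ⟨-, -, h2⟩
        · exact (hP l hl).2.2.1 i hi hil w h2 h3
        · exact hil (leg_disj hi hl h3 ((hH l hl).2 w h2).1)
    · intro l hl hl'
      rw [hA2 l hl']
      exact (hP l hl).2.2.2.1
    · intro i hiF l hlF hiN hlN hil w hw w' hw' hd1
      have hi := hFl i hiF
      have hl := hFl l hlF
      have hs : X.d w' w = 1 := by rw [X.symm]; exact hd1
      rcases hmem i w hw with h1 | ⟨-, -, h1⟩
      · rcases hmem l w' hw' with h2 | ⟨-, -, h2⟩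
        · have h3 := hpair i hiF l hlF hil
          have h4 := ((hP i hi).1 w h1).1
          have h5 := ((hP l hl).1 w' h2).1
          have h6 := X.tri (tip X r i) w (tip X r l)
          have h7 := X.tri w w' (tip X r l)
          have h8 := X.symm w' (tip X r l)
          omega
        · have h3 := ((hH l hl).2 w' h2).1
          have h4 := (hP i hi).2.2.1 l hl (Ne.symm hil) w h1
          have h5 := out_dist h4 h3
          have h6 := hHne l hl w' h2
          have h7 := X.eq w l (by omega)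
          rw [h7] at h4
          exact h4 (bel_refl l)
      · have h3 := ((hH i hi).2 w h1).1
        have h6 := hHne i hi w h1
        have h4 : ¬ Bel X r i w' := by
          rcases hmem l w' hw' with h2 | ⟨-, -, h2⟩
          · exact (hP l hl).2.2.1 i hi hil w' h2
          · intro h5
            exact hil (leg_disj hi hl h5 ((hH l hl).2 w' h2).1)
        have h5 := out_dist h4 h3
        have h7 := X.eq w' i (by omega)
        rw [h7] at h4
        exact h4 (bel_refl i)
    · intro i hiF hiN h1 h2 j hj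
      rw [hA1 i hiF hiN, Finset.mem_union]
      refine Or.inl ?_
      have h3 := (hP i (hFl i hiF)).2.2.2.2.1
      rw [hn1 i hiF hiN] at h3
      exact (h3 (by omega)).1 j hj
    · intro i hiF hiN h1 h2
      refine ⟨τ i, fun w hw => ?_⟩
      rcases hmem i w hw with h4 | ⟨-, -, h4⟩
      · have h3 := (hP i (hFl i hiF)).2.2.2.2.1
        rw [hn1 i hiF hiN] at h3
        exact Or.inl ((h3 (by omega)).2.1 w h4)
      · exact Or.inr ((hH i (hFl i hiF)).2 w h4)
  -- cardinalities
  have hcardA : ∀ i ∈ F, i ∉ N → (A i).card = (P i).card + hz X r h₀ Z i := by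
    intro i hiF hiN
    have hi := hFl i hiF
    rw [hA1 i hiF hiN, Finset.card_union_of_disjoint, (hH i hi).1]
    rw [Finset.disjoint_left]
    intro w hw hw'
    have h1 := (hH i hi).2 w hw'
    have h2 := (hP i hi).2.1 w hw h1.1
    omega
  -- the truncated arms
  set Tr : V → Prop := fun i => i ∈ F ∧ X.d r (tip X r i) + 1 < n i with hTr
  set c : V → ℕ := fun i => if Tr i ∧ ht X r r < κ + 2 then κ - h₀ else 0 with hc
  have hterm : ∀ i ∈ legs X r h₀, κ ≤ (A i).card + ((if i ∈ F then 0 else κ - h₀) +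
      (if i ∈ N then 2 * κ + 2 * D - 2 * k else 0) + c i) := by
    intro i hi
    have h1 := hP i hi
    have h2 := h1.2.2.2.2.1
    have h3 := h1.2.2.2.2.2.1
    have h4 := h1.2.2.2.2.2.2.2
    have h5 := hhz i hi
    by_cases hiF : i ∈ F
    · rw [if_pos hiF]
      -- the number of vertices of the path
      have hcard : (P i).card = n i ∨ (c i = κ - h₀ ∧ h₀ + 1 ≤ (P i).card) ∨
          n i ≤ (P i).card := by
        by_cases h6 : n i ≤ X.d r (tip X r i) + 1
        · exact Or.inl (h2 h6).2.2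
        · by_cases h7 : κ + 2 ≤ ht X r r
          · have h8 := hnκ i hiF
            exact Or.inl (h4 (by omega))
          · have h8 : c i = κ - h₀ := by
              simp only [hc, hTr]
              rw [if_pos]
              exact ⟨⟨hiF, by omega⟩, by omega⟩
            rcases le_total (n i) (h₀ + 1) with h9 | h9
            · rw [min_eq_left h9] at h3
              exact Or.inr (Or.inr h3)
            · rw [min_eq_right h9] at h3
              exact Or.inr (Or.inl ⟨h8, h3⟩)
      by_cases hiN : i ∈ N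
      · rw [if_pos hiN, hA2 i (Or.inr hiN)]
        have h6 := hn2 i hiN
        rcases hcard with h7 | ⟨h7, h8⟩ | h7
        · omega
        · omega
        · omega
      · rw [if_neg hiN, hcardA i hiF hiN]
        have h6 := hn1 i hiF hiN
        rcases hcard with h7 | ⟨h7, h8⟩ | h7
        · omega
        · omega
        · omega
    · rw [if_neg hiF, hA2 i (Or.inl hiF)]
      have h6 := hn3 i hiF
      rw [h6, min_self] at h3
      omega
  have hsum1 : (legs X r h₀).card * κ ≤ (∑ i ∈ legs X r h₀, (A i).card) +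
      loss X r k h₀ D κ F N + ∑ i ∈ legs X r h₀, c i := by
    have h1 := Finset.sum_le_sum hterm
    rw [Finset.sum_const, smul_eq_mul, Finset.sum_add_distrib, Finset.sum_add_distrib,
      Finset.sum_add_distrib] at h1
    have h2 : ∑ i ∈ legs X r h₀, (if i ∈ F then 0 else κ - h₀) =
        (legs X r h₀ \ F).card * (κ - h₀) := by
      rw [Finset.sum_ite, Finset.sum_const_zero, zero_add, Finset.sum_const, smul_eq_mul]
      congr 2
      ext i
      simp only [Finset.mem_filter, Finset.mem_sdiff]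
    have h3 : ∑ i ∈ legs X r h₀, (if i ∈ N then 2 * κ + 2 * D - 2 * k else 0) =
        N.card * (2 * κ + 2 * D - 2 * k) := by
      rw [← Finset.sum_filter, Finset.sum_const, smul_eq_mul]
      congr 2
      ext i
      simp only [Finset.mem_filter]
      exact ⟨fun h => h.2, fun h => ⟨hFl i (hN h), h⟩⟩
    rw [h2, h3] at h1
    unfold loss
    omega
  refine ⟨A, hsys, ?_, fun hht => ?_⟩
  · have h1 : ∑ i ∈ legs X r h₀, c i ≤ 2 * (κ - h₀) := by
      have h2 : ((legs X r h₀).filter fun i => Tr i ∧ ht X r r < κ + 2).card ≤ 2 := by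
        have h3 : ((legs X r h₀).filter fun i => Tr i ∧ ht X r r < κ + 2) ⊆
            ((F \ N).filter fun i => X.d r (tip X r i) + hz X r h₀ Z i < κ) ∪
              (N.filter fun i => X.d r (tip X r i) + 1 < n i) := by
          intro i hi
          rw [Finset.mem_filter] at hi
          obtain ⟨h4, ⟨h5, h6⟩, -⟩ := hi
          rw [Finset.mem_union, Finset.mem_filter, Finset.mem_filter, Finset.mem_sdiff]
          by_cases hiN : i ∈ N
          · exact Or.inr ⟨hiN, h6⟩
          · refine Or.inl ⟨⟨h5, hiN⟩, ?_⟩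
            rw [hn1 i h5 hiN] at h6
            omega
        have h4 : (N.filter fun i => X.d r (tip X r i) + 1 < n i).card ≤ 1 := by
          rw [Finset.card_le_one]
          intro i hi l hl
          rw [Finset.mem_filter] at hi hl
          by_contra hil
          have h5 := hpair i (hN hi.1) l (hN hl.1) hil
          have h6 := X.tri (tip X r i) r (tip X r l)
          have h7 := X.symm (tip X r i) r
          omega
        have h5 := Finset.card_le_card h3
        have h6 := Finset.card_union_le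
          ((F \ N).filter fun i => X.d r (tip X r i) + hz X r h₀ Z i < κ)
          (N.filter fun i => X.d r (tip X r i) + 1 < n i)
        omega
      have h3 : ∑ i ∈ legs X r h₀, c i =
          ((legs X r h₀).filter fun i => Tr i ∧ ht X r r < κ + 2).card * (κ - h₀) := by
        simp only [hc]
        rw [← Finset.sum_filter, Finset.sum_const, smul_eq_mul]
      rw [h3]
      exact Nat.mul_le_mul_right _ h2
    omega
  · have h1 : ∑ i ∈ legs X r h₀, c i = 0 := by
      refine Finset.sum_eq_zero fun i _ => ?_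
      simp only [hc]
      rw [if_neg]
      rintro ⟨-, h2⟩
      omega
    omega

/-- Sets outside of the shadows. -/
theorem arms_mass (S : Setup X r k Λ B E h₀ σ) {Z κ sl : ℕ} {F N : Finset V}
    {A : V → Finset V} (hA : ArmSys X r k h₀ σ Z κ F N A)
    (hsum : (legs X r h₀).card * κ ≤ (∑ i ∈ legs X r h₀, (A i).card) + sl) {M : Finset V}
    (hM : Disjoint M (Sh X r k h₀ σ)) : M.card + (legs X r h₀).card * κ ≤ k ^ 2 + sl := by
  have h1 : ((legs X r h₀).biUnion A).card = ∑ i ∈ legs X r h₀, (A i).card :=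
    Finset.card_biUnion fun i hi l hl hil => hA.disj i hi l hl hil
  have h2 : Disjoint M ((legs X r h₀).biUnion A) := by
    refine Disjoint.mono_right ?_ hM
    intro w hw
    rw [Finset.mem_biUnion] at hw
    obtain ⟨i, hi, hw⟩ := hw
    exact hA.sh i hi hw
  have h3 := Finset.card_union_of_disjoint h2
  have h4 : (M ∪ (legs X r h₀).biUnion A).card ≤ Fintype.card V := Finset.card_le_univ _
  have h5 := S.card
  omega

end Pool.Agent.Helper84.NC
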