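import Mathlib

/-! # Project NC, module NC-12: selection of group centres -/

set_option autoImplicit false

namespace Pool.Agent.Helper84.NC

open Finset Classical

/-- enumeration of a finite set -/
theorem groups_enum {κ : Type*} [Nonempty κ] (S : Finset κ) :
    ∃ c : ℕ → κ, (∀ j, j < S.card → c j ∈ S) ∧
      (∀ i, i < S.card → ∀ j, j < S.card → c i = c j → i = j) ∧
      (∀ x ∈ S, ∃ j, j < S.card ∧ c j = x) := by
  refine ⟨fun j => if h : j < S.card then (S.equivFin.symm ⟨j, h⟩ : κ) else
    Classical.arbitrary κ, ?_, ?_, ?_⟩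
  · intro j hj
    simp only [hj, dite_true]
    exact (S.equivFin.symm ⟨j, hj⟩).2
  · intro i hi j hj h
    simp only [hi, hj, dite_true] at h
    have h2 := S.equivFin.symm.injective (Subtype.ext h)
    exact congrArg Fin.val h2
  · intro x hx
    refine ⟨(S.equivFin ⟨x, hx⟩).1, (S.equivFin ⟨x, hx⟩).2, ?_⟩
    simp only [Fin.is_lt, dite_true, Fin.eta, Equiv.symm_apply_apply]

/-- One leg in each of at most `A` cells with at least eight legs: the chosen cells contain at
least seven other legs each; if there are less than `A` such cells, almost all legs are in them. -/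
theorem select_groups {ι κ : Type*} [Nonempty ι] (I : Finset ι) (cell : ι → κ) (A nc : ℕ)
    (hnc : (I.image cell).card ≤ nc) :
    ∃ (A' : ℕ) (γ : ℕ → ι), A' ≤ A ∧ (∀ j, j < A' → γ j ∈ I) ∧
      (∀ i, i < A' → ∀ j, j < A' → cell (γ i) = cell (γ j) → i = j) ∧
      (∀ J, J ≤ A' → 7 * J ≤ (I.filter fun i => (∃ j, j < J ∧ cell i = cell (γ j)) ∧
        ∀ j, j < A' → i ≠ γ j).card) ∧
      (A' < A → I.card ≤ (I.filter fun i => (∃ j, j < A' ∧ cell i = cell (γ j)) ∧
        ∀ j, j < A' → i ≠ γ j).card + 8 * nc) := by
  have hκ : Nonempty κ := ⟨cell (Classical.arbitrary ι)⟩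
  set rich : Finset κ :=
    (I.image cell).filter (fun c => 8 ≤ (I.filter (fun i => cell i = c)).card) with hrich
  have hrep : ∀ c ∈ rich, ∃ i ∈ I, cell i = c := by
    intro c hc
    exact mem_image.mp (mem_filter.mp hc).1
  choose! rep hrepI hrepc using hrep
  obtain ⟨c, hc1, hc2, hc3⟩ := groups_enum rich
  set A' := min A rich.card with hA'
  have hA'R : A' ≤ rich.card := min_le_right _ _
  have hcell : ∀ j, j < A' → cell (rep (c j)) = c j := fun j hj =>
    hrepc _ (hc1 j (lt_of_lt_of_le hj hA'R))
  have hinj : ∀ i, i < A' → ∀ j, j < A' → cell (rep (c i)) = cell (rep (c j)) → i = j := by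
    intro i hi j hj h
    rw [hcell i hi, hcell j hj] at h
    exact hc2 i (lt_of_lt_of_le hi hA'R) j (lt_of_lt_of_le hj hA'R) h
  -- all members of the first J cells
  have hG : ∀ J, J ≤ A' → 8 * J ≤
      (I.filter fun i => ∃ j, j < J ∧ cell i = cell (rep (c j))).card := by
    intro J hJ
    have h1 : (I.filter fun i => ∃ j, j < J ∧ cell i = cell (rep (c j))) =
        (range J).biUnion (fun j => I.filter (fun i => cell i = c j)) := by
      ext i
      simp only [mem_filter, mem_biUnion, mem_range]
      constructor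
      · rintro ⟨hi, j, hj, h⟩
        exact ⟨j, hj, hi, by rw [h, hcell j (lt_of_lt_of_le hj hJ)]⟩
      · rintro ⟨j, hj, hi, h⟩
        exact ⟨hi, j, hj, by rw [h, hcell j (lt_of_lt_of_le hj hJ)]⟩
    rw [h1, card_biUnion]
    · calc 8 * J = ∑ j ∈ range J, 8 := by simp [mul_comm]
        _ ≤ _ := sum_le_sum (fun j hj => by
          have := hc1 j (lt_of_lt_of_le (mem_range.mp hj) (hJ.trans hA'R))
          exact (mem_filter.mp this).2)
    · intro i hi j hj hij
      rw [Function.onFun, disjoint_left]
      intro x hx hx'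
      apply hij
      have e1 := (mem_filter.mp hx).2
      have e2 := (mem_filter.mp hx').2
      exact hc2 i (lt_of_lt_of_le (mem_range.mp (mem_coe.mp hi)) (hJ.trans hA'R)) j
        (lt_of_lt_of_le (mem_range.mp (mem_coe.mp hj)) (hJ.trans hA'R)) (e1.symm.trans e2)
  -- removing the centres
  have hrem : ∀ J, J ≤ A' →
      (I.filter fun i => ∃ j, j < J ∧ cell i = cell (rep (c j))).card ≤
      (I.filter fun i => (∃ j, j < J ∧ cell i = cell (rep (c j))) ∧
        ∀ j, j < A' → i ≠ rep (c j)).card + J := by
    intro J hJ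
    have hsub : (I.filter fun i => ∃ j, j < J ∧ cell i = cell (rep (c j))) ⊆
        (I.filter fun i => (∃ j, j < J ∧ cell i = cell (rep (c j))) ∧
        ∀ j, j < A' → i ≠ rep (c j)) ∪ (range J).image (fun j => rep (c j)) := by
      intro i hi
      obtain ⟨hiI, j, hj, h⟩ := mem_filter.mp hi
      by_cases hx : ∀ l, l < A' → i ≠ rep (c l)
      · exact mem_union_left _ (mem_filter.mpr ⟨hiI, ⟨j, hj, h⟩, hx⟩)
      · push Not at hx
        obtain ⟨l, hl, hil⟩ := hx
        apply mem_union_right
        rw [mem_image]
        refine ⟨l, ?_, hil.symm⟩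
        rw [hil] at h
        have := hinj l hl j (lt_of_lt_of_le hj hJ) h
        rw [this]
        exact mem_range.mpr hj
    refine (card_le_card hsub).trans ((card_union_le _ _).trans ?_)
    have := card_image_le (s := range J) (f := fun j => rep (c j))
    rw [card_range] at this
    omega
  refine ⟨A', fun j => rep (c j), min_le_left _ _, fun j hj =>
    hrepI _ (hc1 j (lt_of_lt_of_le hj hA'R)), hinj, ?_, ?_⟩
  · intro J hJ
    have h1 := hG J hJ
    have h2 := hrem J hJ
    show 7 * J ≤ (I.filter fun i => (∃ j, j < J ∧ cell i = cell (rep (c j))) ∧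
        ∀ j, j < A' → i ≠ rep (c j)).card
    omega
  · intro hlt
    have hA'eq : A' = rich.card := by
      rcases min_choice A rich.card with h | h
      · omega
      · exact h
    have h2 := hrem A' le_rfl
    -- poor cells
    set poor : Finset κ :=
      (I.image cell).filter (fun c => ¬ 8 ≤ (I.filter (fun i => cell i = c)).card) with hpoor
    have hsplit : rich.card + poor.card = (I.image cell).card :=
      card_filter_add_card_filter_not _
    have hpc : (I.filter (fun i => cell i ∈ poor)).card ≤ 7 * poor.card := by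
      have h1 : (I.filter (fun i => cell i ∈ poor)) ⊆
          poor.biUnion (fun c => I.filter (fun i => cell i = c)) := by
        intro i hi
        obtain ⟨hiI, h⟩ := mem_filter.mp hi
        exact mem_biUnion.mpr ⟨cell i, h, mem_filter.mpr ⟨hiI, rfl⟩⟩
      refine (card_le_card h1).trans ((card_biUnion_le).trans ?_)
      calc ∑ c ∈ poor, (I.filter (fun i => cell i = c)).card ≤ ∑ c ∈ poor, 7 :=
            sum_le_sum (fun c hc => by
              have := (mem_filter.mp hc).2
              omega)
        _ = 7 * poor.card := by simp [mul_comm]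
    have hcov : I ⊆ (I.filter fun i => ∃ j, j < A' ∧ cell i = cell (rep (c j))) ∪
        (I.filter (fun i => cell i ∈ poor)) := by
      intro i hi
      have himg : cell i ∈ I.image cell := mem_image_of_mem _ hi
      by_cases h8 : 8 ≤ (I.filter (fun i' => cell i' = cell i)).card
      · apply mem_union_left
        have hr : cell i ∈ rich := mem_filter.mpr ⟨himg, h8⟩
        obtain ⟨j, hj, hcj⟩ := hc3 _ hr
        rw [← hA'eq] at hj
        exact mem_filter.mpr ⟨hi, j, hj, by rw [hcell j hj, hcj]⟩
      · apply mem_union_right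
        exact mem_filter.mpr ⟨hi, mem_filter.mpr ⟨himg, h8⟩⟩
    have h3 := (card_le_card hcov).trans (card_union_le _ _)
    show I.card ≤ (I.filter fun i => (∃ j, j < A' ∧ cell i = cell (rep (c j))) ∧
        ∀ j, j < A' → i ≠ rep (c j)).card + 8 * nc
    omega

end Pool.Agent.Helper84.NC
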