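import Pool.Agent.Helper84.NC.Legs

/-! # Project NC, module NC-07: the hair of the legs -/

set_option autoImplicit false

namespace Pool.Agent.Helper84.NC

open Finset Classical

variable {V : Type*} [Fintype V] {X : TM V} {r : V} {k Λ B E h₀ σ : ℕ}

/-- The first vertex off the path from `v` to its tip on the way to a vertex `x`. -/
theorem nc07_child {v x : V} (hx : Bel X r v x) (h0 : 0 < hd X v (tip X r v) x) :
    ∃ z, Bel X r v z ∧ hd X v (tip X r v) x ≤ ht X r z + 1 ∧ ht X r z + 1 ≤ ht X r v ∧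
      ¬ Bel X r z (tip X r v) := by
  obtain ⟨m, h1, h2, h3, h4⟩ := hd_med (X := X) v (tip X r v) x
  have e1 := X.symm x m
  have e2 := X.symm m v
  have e3 := X.symm x v
  obtain ⟨h5, h6⟩ := bel_bt (r := r) (z := m) hx (by omega)
  have hne : m ≠ x := by
    intro hmx
    rw [hmx, X.self] at h2
    omega
  obtain ⟨z, h7, h8, h9⟩ := exists_child h6 hne
  have h10 : X.d z x + 1 = hd X v (tip X r v) x := by
    have h11 := bel_trans' h8 h9
    omega
  have h12 := ht_le h9
  have h13 := ht_bel h8
  have h14 := ht_bel h5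
  refine ⟨z, bel_trans h5 h8, by omega, by omega, ?_⟩
  intro hz
  have h15 := bel_trans' h8 hz
  have h16 := X.tri x z (tip X r v)
  have e4 := X.symm x z
  omega

theorem nc07_win_le (S : Setup X r k Λ B E h₀ σ) : 64 * σ ≤ h₀ := by
  have h1 := S.hσ
  have h2 := S.hB
  have h3 := S.lo
  have h4 : 64 * σ * 1 ≤ 64 * σ * (2 * Λ + E + 2) := Nat.mul_le_mul_left _ (by omega)
  omega

/-- The hair of a leg is shorter than the window allows. -/
theorem hair_bound (S : Setup X r k Λ B E h₀ σ) {v x : V} (hv : v ∈ legs X r h₀)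
    (hx : Bel X r v x) : hd X v (tip X r v) x + 64 * σ ≤ h₀ := by
  rcases Nat.eq_zero_or_pos (hd X v (tip X r v) x) with h0 | h0
  · have h1 := nc07_win_le S
    omega
  · obtain ⟨z, h1, h2, h3, h4⟩ := nc07_child hx h0
    have hv' := mem_legs.1 hv
    by_contra hcon
    obtain ⟨v', h5, h6, h7⟩ := leg_win S (w := z) (by omega) (by omega)
    have h8 : v' = v := leg_disj h5 hv h6 h1
    subst h8
    apply h4
    rw [h7]
    exact up_bel _ _

/-- Few legs have long hair. -/
theorem hair_count (S : Setup X r k Λ B E h₀ σ) {η : ℕ} (hη : 1 ≤ η) :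
    η * ((legs X r h₀).filter fun v => ∃ x, Bel X r v x ∧ η < hd X v (tip X r v) x).card ≤
      Λ * k + E * η := by
  set bad := (legs X r h₀).filter fun v => ∃ x, Bel X r v x ∧ η < hd X v (tip X r v) x with hbad
  rcases bad.eq_empty_or_nonempty with hb | ⟨v0, hv0⟩
  · rw [hb]
    simp
  rw [hbad, Finset.mem_filter] at hv0
  obtain ⟨hv1, x0, hx0, hx1⟩ := hv0
  have hb0 := hair_bound S hv1 hx0
  have hhi := S.hi
  have hηh : η ≤ h₀ := by omega
  have hηk : η ≤ k := by omega
  -- the vertices of height `η` off the paths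
  have key : ∀ v : V, ∃ w : V, v ∈ bad → Bel X r v w ∧ ht X r w = η ∧ ¬ Bel X r w (tip X r v) := by
    intro v
    by_cases hv : v ∈ bad
    · rw [hbad, Finset.mem_filter] at hv
      obtain ⟨hv1, x, hx, hx'⟩ := hv
      obtain ⟨z, h1, h2, h3, h4⟩ := nc07_child hx (by omega)
      obtain ⟨h5, h6, h7⟩ := ht_up_tip (X := X) (r := r) (v := z) (j := η) (by omega)
      refine ⟨up X r (tip X r z) η, fun _ => ⟨bel_trans h1 h5, h6, ?_⟩⟩
      intro h8
      exact h4 (bel_trans h5 h8)
    · exact ⟨v, fun h => absurd h hv⟩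
  choose g hg using key
  have hA : ∀ v ∈ legs X r h₀, Bel X r v (up X r (tip X r v) η) ∧
      ht X r (up X r (tip X r v) η) = η := by
    intro v hv
    have hv' := mem_legs.1 hv
    have h1 := ht_up_tip (X := X) (r := r) (v := v) (j := η) (by omega)
    exact ⟨h1.1, h1.2.1⟩
  have hsubl : bad ⊆ legs X r h₀ := Finset.filter_subset _ _
  have hc1 : ((legs X r h₀).image fun v => up X r (tip X r v) η).card = (legs X r h₀).card := by
    refine Finset.card_image_of_injOn ?_
    intro v hv v' hv' hvv
    simp only at hvv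
    have h1 := (hA v hv).1
    have h2 := (hA v' hv').1
    rw [← hvv] at h2
    exact leg_disj hv hv' h1 h2
  have hc2 : (bad.image g).card = bad.card := by
    refine Finset.card_image_of_injOn ?_
    intro v hv v' hv' hvv
    have h1 := (hg v hv).1
    have h2 := (hg v' hv').1
    rw [← hvv] at h2
    exact leg_disj (hsubl hv) (hsubl hv') h1 h2
  have hdis : Disjoint ((legs X r h₀).image fun v => up X r (tip X r v) η) (bad.image g) := by
    rw [Finset.disjoint_left]
    intro w hw hw'
    rw [Finset.mem_image] at hw hw'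
    obtain ⟨v, hv, hvw⟩ := hw
    obtain ⟨v', hv', hvw'⟩ := hw'
    have h1 := (hA v hv).1
    have h2 := (hg v' hv')
    rw [hvw] at h1
    rw [hvw'] at h2
    have h3 : v = v' := leg_disj hv (hsubl hv') h1 h2.1
    subst h3
    apply h2.2.2
    rw [← hvw]
    exact up_bel _ _
  have hN : (legs X r h₀).card + bad.card ≤ Nh X r η := by
    rw [← hc1, ← hc2, ← Finset.card_union_of_disjoint hdis]
    unfold Nh
    refine Finset.card_le_card ?_
    intro w hw
    rw [Finset.mem_union, Finset.mem_image, Finset.mem_image] at hw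
    rw [Finset.mem_filter]
    refine ⟨Finset.mem_univ _, ?_⟩
    rcases hw with ⟨v, hv, rfl⟩ | ⟨v, hv, rfl⟩
    · exact (hA v hv).2
    · exact (hg v hv).2.1
  have h1 := Nh_low S.card S.sum hηk
  have h2 := card_legs_lo S
  have h3 : η * (legs X r h₀).card + η * bad.card ≤ η * Nh X r η := by
    rw [← Nat.mul_add]
    exact Nat.mul_le_mul_left _ hN
  have h4 : η * k ≤ η * (legs X r h₀).card + E * η := by
    have h5 := Nat.mul_le_mul_left η h2
    rw [Nat.mul_add] at h5
    rw [Nat.mul_comm E η]
    exact h5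
  omega

end Pool.Agent.Helper84.NC
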