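import Pool.Agent.Helper84.NC.Legs

/-! # Project NC, module NC-09: nets of the bases of the legs -/

set_option autoImplicit false

namespace Pool.Agent.Helper84.NC

open Finset Classical

variable {V : Type*} [Fintype V] {X : TM V} {r : V} {k Λ B E h₀ σ : ℕ}

/-- A maximal set of legs whose bases are at distance more than `t`. -/
theorem exists_net (S : Setup X r k Λ B E h₀ σ) {I : Finset V} (hI : I ⊆ legs X r h₀) (t : ℕ) :
    ∃ G, G ⊆ I ∧ (∀ v ∈ I, ∃ g ∈ G, X.d (bt X r k v) (bt X r k g) ≤ t) ∧
      (G.card - 1) * (t / 2 + 1) ≤ Λ * k + 1 := by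
  let P : Finset V → Prop := fun G =>
    ∀ g ∈ G, ∀ g' ∈ G, g ≠ g' → t < X.d (bt X r k g) (bt X r k g')
  have hne : ((I.powerset).filter P).Nonempty := ⟨∅, by simp [P]⟩
  obtain ⟨G, hG, hmax⟩ := Finset.exists_max_image _ Finset.card hne
  rw [Finset.mem_filter, Finset.mem_powerset] at hG
  obtain ⟨hGI, hGP⟩ := hG
  refine ⟨G, hGI, ?_, ?_⟩
  · intro v hv
    by_contra hcon
    push Not at hcon
    have hvG : v ∉ G := fun h => by
      have h1 := hcon v h
      rw [X.self] at h1
      omega
    have h1 : insert v G ∈ (I.powerset).filter P := by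
      rw [Finset.mem_filter, Finset.mem_powerset]
      refine ⟨Finset.insert_subset hv hGI, ?_⟩
      intro g hg g' hg' hgg
      rw [Finset.mem_insert] at hg hg'
      rcases hg with rfl | hg
      · rcases hg' with rfl | hg'
        · exact absurd rfl hgg
        · exact hcon g' hg'
      · rcases hg' with rfl | hg'
        · rw [X.symm]
          exact hcon g hg
        · exact hGP g hg g' hg' hgg
    have h2 := hmax _ h1
    rw [Finset.card_insert_of_notMem hvG] at h2
    omega
  · let C : Finset V := insert r (univ.filter fun v => k ≤ ht X r v)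
    have hC : C.card ≤ Λ * k + 1 := by
      have h1 := card_high S.card S.sum
      have h2 : C.card ≤ (univ.filter fun v => k ≤ ht X r v).card + 1 :=
        Finset.card_insert_le _ _
      omega
    have hbase : ∀ v ∈ legs X r h₀, bt X r k v ∈ C := by
      intro v hv
      rcases ht_bt S hv with h1 | h1
      · exact Finset.mem_insert_of_mem (by simp [h1])
      · rw [h1]
        exact Finset.mem_insert_self _ _
    have hup : ∀ x ∈ C, ∀ y, Bel X r y x → y ∈ C := by
      intro x hx y hy
      rw [Finset.mem_insert] at hx
      rcases hx with rfl | hx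
      · rw [bel_root_iff hy]
        exact Finset.mem_insert_self _ _
      · refine Finset.mem_insert_of_mem ?_
        simp only [Finset.mem_filter, Finset.mem_univ, true_and] at hx ⊢
        have h1 := ht_bel hy
        omega
    let G' := G.filter fun g => t / 2 ≤ X.d r (bt X r k g)
    have hsame : ∀ g ∈ G, ∀ g' ∈ G, ∀ w, X.d (bt X r k g) w ≤ t / 2 →
        X.d (bt X r k g') w ≤ t / 2 → g = g' := by
      intro g hg g' hg' w h1 h2
      by_contra hcon
      have h3 := hGP g hg g' hg' hcon
      have h4 := X.tri (bt X r k g) w (bt X r k g')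
      have h5 := X.symm w (bt X r k g')
      omega
    have h3 : G'.card * (t / 2 + 1) ≤ C.card := by
      have h4 : G'.card * (t / 2 + 1) = (G' ×ˢ Finset.range (t / 2 + 1)).card := by
        rw [Finset.card_product, Finset.card_range]
      rw [h4]
      refine Finset.card_le_card_of_injOn (fun p => up X r (bt X r k p.1) p.2) ?_ ?_
      · rintro ⟨g, j⟩ hp
        rw [Finset.mem_coe, Finset.mem_product] at hp
        have hg : g ∈ G := (Finset.mem_filter.1 hp.1).1
        exact hup _ (hbase g (hI (hGI hg))) _ (up_bel _ _)
      · rintro ⟨g, i⟩ hp ⟨g', j⟩ hp' hpp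
        rw [Finset.mem_coe, Finset.mem_product] at hp hp'
        simp only [Finset.mem_range] at hp hp'
        simp only at hpp
        have hg := Finset.mem_filter.1 hp.1
        have hg' := Finset.mem_filter.1 hp'.1
        have e1 := up_dist_le (X := X) (r := r) (bt X r k g) i
        have e2 := up_dist_le (X := X) (r := r) (bt X r k g') j
        have e3 := X.symm (up X r (bt X r k g) i) (bt X r k g)
        have e4 := X.symm (up X r (bt X r k g') j) (bt X r k g')
        have h5 : g = g' := by
          refine hsame g hg.1 g' hg'.1 (up X r (bt X r k g) i) (by omega) ?_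
          rw [hpp]
          omega
        subst h5
        have e5 := up_depth (X := X) (r := r) (bt X r k g) i
        have e6 := up_depth (X := X) (r := r) (bt X r k g) j
        rw [hpp] at e5
        have e7 := hg.2
        have h6 : i = j := by omega
        rw [h6]
    have h4 : G.card ≤ G'.card + 1 := by
      have h5 : (G.filter fun g => ¬ t / 2 ≤ X.d r (bt X r k g)).card ≤ 1 := by
        rw [Finset.card_le_one]
        intro a ha b hb
        rw [Finset.mem_filter] at ha hb
        have e1 := X.symm r (bt X r k a)
        have e2 := X.symm r (bt X r k b)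
        exact hsame a ha.1 b hb.1 r (by omega) (by omega)
      have h6 := Finset.card_filter_add_card_filter_not (s := G)
        (fun g => t / 2 ≤ X.d r (bt X r k g))
      have h7 : G'.card = (G.filter fun g => t / 2 ≤ X.d r (bt X r k g)).card := rfl
      omega
    calc (G.card - 1) * (t / 2 + 1) ≤ G'.card * (t / 2 + 1) :=
          Nat.mul_le_mul_right _ (by omega)
      _ ≤ C.card := h3
      _ ≤ Λ * k + 1 := hC

/-- Cells: legs in the same cell have bases at distance at most `2 * ρ`. -/
theorem exists_cells (S : Setup X r k Λ B E h₀ σ) (ρ : ℕ) :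
    ∃ cell : V → V, (∀ v ∈ legs X r h₀, ∀ w ∈ legs X r h₀, cell v = cell w →
      X.d (bt X r k v) (bt X r k w) ≤ 2 * ρ) ∧
      (((legs X r h₀).image cell).card - 1) * (ρ / 2 + 1) ≤ Λ * k + 1 := by
  obtain ⟨G, -, hG2, hG3⟩ := exists_net S (I := legs X r h₀) (Finset.Subset.refl _) ρ
  let cell : V → V := fun v => if h : v ∈ legs X r h₀ then (hG2 v h).choose else v
  have hcell : ∀ v ∈ legs X r h₀, cell v ∈ G ∧ X.d (bt X r k v) (bt X r k (cell v)) ≤ ρ := by
    intro v hv
    simp only [cell, dif_pos hv]
    exact (hG2 v hv).choose_spec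
  refine ⟨cell, ?_, ?_⟩
  · intro v hv w hw hvw
    have h1 := (hcell v hv).2
    have h2 := (hcell w hw).2
    rw [← hvw] at h2
    have h3 := X.tri (bt X r k v) (bt X r k (cell v)) (bt X r k w)
    have h4 := X.symm (bt X r k (cell v)) (bt X r k w)
    omega
  · have h1 : ((legs X r h₀).image cell).card ≤ G.card := by
      refine Finset.card_le_card ?_
      intro x hx
      rw [Finset.mem_image] at hx
      obtain ⟨v, hv, rfl⟩ := hx
      exact (hcell v hv).1
    calc (((legs X r h₀).image cell).card - 1) * (ρ / 2 + 1) ≤ (G.card - 1) * (ρ / 2 + 1) :=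
          Nat.mul_le_mul_right _ (by omega)
      _ ≤ Λ * k + 1 := hG3

end Pool.Agent.Helper84.NC
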