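import Pool.Agent.Helper84.NC.Cover
import Pool.Agent.Helper84.NC.Groups
import Pool.Agent.Helper84.NC.Hair
import Pool.Agent.Helper84.NC.Sep

/-! # Project NC, module NC-14: group centres -/

set_option autoImplicit false

namespace Pool.Agent.Helper84.NC

open Finset Classical

variable {V : Type*} [Fintype V] {X : TM V} {r : V} {k Λ B E h₀ σ : ℕ}

theorem asmA_num (S : Setup X r k Λ B E h₀ σ) : 192 * σ ≤ B ∧ 100 * E + 200 ≤ σ := by
  have h1 := S.hσ
  have h2 := S.hE'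
  have h3 := S.hΛ
  have h4 : 64 * σ * 3 ≤ 64 * σ * (2 * Λ + E + 2) := Nat.mul_le_mul_left _ (by omega)
  omega

/-- The service of a group centre. -/
theorem group_serve (S : Setup X r k Λ B E h₀ σ) {γ v : V} (hγ : γ ∈ legs X r h₀)
    (hv : v ∈ legs X r h₀) {ρ a : ℕ} (ha : 1 ≤ a) (haσ : a ≤ 8 * σ)
    (hd1 : X.d (bt X r k γ) (bt X r k v) ≤ 2 * ρ)
    (hn : ∀ x, Bel X r v x → hd X v (tip X r v) x ≤ ρ) :
    Sv X r k h₀ v (up X r (tip X r γ) (k - a)) a (a + 2 * ρ + 1) := by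
  obtain ⟨n1, n2⟩ := asmA_num S
  have h1 := S.hi
  have h2 := bt_bel S hv
  have h3 : X.d (up X r (tip X r γ) (k - a)) (bt X r k γ) ≤ (k - a - k) + (k - (k - a)) :=
    up_up_le _ _ _
  have h4 := X.tri (up X r (tip X r γ) (k - a)) (bt X r k γ) v
  have h5 := X.tri (bt X r k γ) (bt X r k v) v
  refine ⟨2 * a + 2 * ρ, by omega, ?_⟩
  have h6 := fix_hd hv (m := 2 * a + 2 * ρ) (h := ρ) fun x hx _ => hn x hx
  have h7 : (2 * a + 2 * ρ) / 2 + ρ + 1 = a + 2 * ρ + 1 := by omega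
  rwa [h7] at h6

/-- A leg is covered by its own large ball. -/
theorem self_serve (S : Setup X r k Λ B E h₀ σ) {γ : V} (hγ : γ ∈ legs X r h₀) {a : ℕ}
    (haσ : a ≤ 8 * σ) : Sv X r k h₀ γ (up X r (tip X r γ) (k - a)) a 0 := by
  obtain ⟨n1, n2⟩ := asmA_num S
  have h1 := S.hi
  have h2 := up_leg S hγ (j := k - a) (by omega)
  exact ⟨0, by omega, fix_zero γ hγ 0⟩

/-- Nice legs and cells: the choice of group centres. -/
theorem exists_groups (S : Setup X r k Λ B E h₀ σ) {ρ : ℕ} (hρ : 64 * (Λ + 1) ≤ ρ)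
    (hρσ : 100 * ρ ≤ σ) {K : Finset V} (hK : K ⊆ legs X r h₀) (hK' : 16 * K.card ≤ k) (A : ℕ) :
    ∃ (A' : ℕ) (γ : ℕ → V), A' ≤ A ∧
      (∀ j, j < A' → γ j ∈ legs X r h₀ ∧ γ j ∉ K) ∧
      (∀ i, i < A' → ∀ j, j < A' → γ i = γ j → i = j) ∧
      (∀ J, J ≤ A' → ∃ I ⊆ legs X r h₀, 7 * J ≤ I.card ∧ ∀ v ∈ I, v ∉ K ∧
        (∀ j, j < A' → v ≠ γ j) ∧ (∀ x, Bel X r v x → hd X v (tip X r v) x ≤ ρ) ∧
        ∃ j, j < J ∧ X.d (bt X r k (γ j)) (bt X r k v) ≤ 2 * ρ) ∧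
      (A' < A → ∃ I ⊆ legs X r h₀, k ≤ 2 * I.card ∧ ∀ v ∈ I, v ∉ K ∧
        (∀ j, j < A' → v ≠ γ j) ∧ (∀ x, Bel X r v x → hd X v (tip X r v) x ≤ ρ) ∧
        ∃ j, j < A' ∧ X.d (bt X r k (γ j)) (bt X r k v) ≤ 2 * ρ) := by
  obtain ⟨n1, n2⟩ := asmA_num S
  have n3 := S.hi
  have n4 := S.hB
  -- the bad legs
  set bad := (legs X r h₀).filter fun v => ∃ x, Bel X r v x ∧ ρ < hd X v (tip X r v) x with hbad
  have c1 : ρ * bad.card ≤ Λ * k + E * ρ := hair_count S (by omega)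
  have c2 : 64 * bad.card ≤ k + 64 * E := by
    have e1 : ρ * (64 * bad.card) ≤ ρ * (k + 64 * E) := by
      have e2 : 64 * Λ * k ≤ ρ * k := Nat.mul_le_mul_right _ (by omega)
      calc ρ * (64 * bad.card) = 64 * (ρ * bad.card) := by ring
        _ ≤ 64 * (Λ * k + E * ρ) := Nat.mul_le_mul_left _ c1
        _ = 64 * Λ * k + 64 * (E * ρ) := by ring
        _ ≤ ρ * k + 64 * (E * ρ) := Nat.add_le_add_right e2 _
        _ = ρ * (k + 64 * E) := by ring
    exact Nat.le_of_mul_le_mul_left e1 (by omega)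
  set I := ((legs X r h₀) \ K) \ bad with hI
  have hIl : I ⊆ legs X r h₀ := fun x hx => by
    rw [hI, Finset.mem_sdiff, Finset.mem_sdiff] at hx
    exact hx.1.1
  have hIK : ∀ v ∈ I, v ∉ K := fun x hx => by
    rw [hI, Finset.mem_sdiff, Finset.mem_sdiff] at hx
    exact hx.1.2
  have hIn : ∀ v ∈ I, ∀ x, Bel X r v x → hd X v (tip X r v) x ≤ ρ := fun v hv x hx => by
    have hv' := hIl hv
    rw [hI, Finset.mem_sdiff, hbad, Finset.mem_filter] at hv
    by_contra hcon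
    exact hv.2 ⟨hv', x, hx, by omega⟩
  have hIc : k ≤ I.card + K.card + bad.card + E := by
    have e1 : ((legs X r h₀) \ K).card + K.card = (legs X r h₀).card :=
      Finset.card_sdiff_add_card_eq_card hK
    have e2 : ((legs X r h₀) \ K).card ≤ I.card + bad.card := by
      rw [hI]
      have := Finset.le_card_sdiff bad ((legs X r h₀) \ K)
      omega
    have e3 := card_legs_lo S
    omega
  -- the cells
  obtain ⟨cell, hcell, hnc⟩ := exists_cells S ρ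
  set nc := ((legs X r h₀).image cell).card with hncd
  have c3 : 32 * (nc - 1) ≤ k := by
    have e1 : (nc - 1) * (32 * (Λ + 1)) ≤ (nc - 1) * (ρ / 2 + 1) :=
      Nat.mul_le_mul_left _ (by omega)
    have e2 : Λ * k + 1 ≤ (Λ + 1) * k := by
      have : 1 ≤ k := by omega
      calc Λ * k + 1 ≤ Λ * k + k := by omega
        _ = (Λ + 1) * k := by ring
    have e3 : (Λ + 1) * (32 * (nc - 1)) ≤ (Λ + 1) * k := by
      calc (Λ + 1) * (32 * (nc - 1)) = (nc - 1) * (32 * (Λ + 1)) := by ring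
        _ ≤ (nc - 1) * (ρ / 2 + 1) := e1
        _ ≤ Λ * k + 1 := hnc
        _ ≤ (Λ + 1) * k := e2
    exact Nat.le_of_mul_le_mul_left e3 (by omega)
  have hnc' : (I.image cell).card ≤ nc := Finset.card_le_card (Finset.image_subset_image hIl)
  haveI : Nonempty V := ⟨r⟩
  obtain ⟨A', γ, hA', hγI, hγinj, hJ, hlast⟩ := select_groups I cell A nc hnc'
  refine ⟨A', γ, hA', fun j hj => ⟨hIl (hγI j hj), hIK _ (hγI j hj)⟩,
    fun i hi j hj hij => hγinj i hi j hj (by rw [hij]), ?_, ?_⟩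
  · intro J hJA
    refine ⟨_, ?_, hJ J hJA, ?_⟩
    · intro x hx
      rw [Finset.mem_filter] at hx
      exact hIl hx.1
    · intro v hv
      rw [Finset.mem_filter] at hv
      obtain ⟨hv1, ⟨j, hj, hjc⟩, hv3⟩ := hv
      exact ⟨hIK v hv1, hv3, hIn v hv1, j, hj,
        hcell _ (hIl (hγI j (by omega))) _ (hIl hv1) hjc.symm⟩
  · intro hAA
    refine ⟨I.filter fun i => (∃ j, j < A' ∧ cell i = cell (γ j)) ∧
        ∀ j, j < A' → i ≠ γ j, ?_, ?_, ?_⟩
    rotate_left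
    · have := hlast hAA
      have h8 : 8 * nc ≤ 8 * (nc - 1) + 8 := by omega
      omega
    · intro v hv
      rw [Finset.mem_filter] at hv
      obtain ⟨hv1, ⟨j, hj, hjc⟩, hv3⟩ := hv
      exact ⟨hIK v hv1, hv3, hIn v hv1, j, hj,
        hcell _ (hIl (hγI j hj)) _ (hIl hv1) hjc.symm⟩
    · intro x hx
      rw [Finset.mem_filter] at hx
      exact hIl hx.1

end Pool.Agent.Helper84.NC
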