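import Pool.Agent.Helper84.NC.AsmA

/-! # Project NC, module NC-15: first assembly -/

set_option autoImplicit false

namespace Pool.Agent.Helper84.NC

open Finset Classical

variable {V : Type*} [Fintype V] {X : TM V} {r : V} {k Λ B E h₀ σ : ℕ}

/-- Counting the free radii. -/
theorem asmB_free (U : Finset ℕ) (k n : ℕ) :
    k ≤ n + U.card + ((range k).filter fun ρ => k - ρ ∉ U ∧ n ≤ ρ).card := by
  have h1 : Finset.Ico n k ⊆ ((range k).filter fun ρ => k - ρ ∉ U ∧ n ≤ ρ) ∪
      U.image fun a => k - a := by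
    intro x hx
    rw [Finset.mem_Ico] at hx
    rw [Finset.mem_union, Finset.mem_filter, Finset.mem_range, Finset.mem_image]
    by_cases h : k - x ∈ U
    · right
      exact ⟨k - x, h, by omega⟩
    · left
      exact ⟨hx.2, h, hx.1⟩
  have h2 := Finset.card_le_card h1
  have h3 := Finset.card_union_le ((range k).filter fun ρ => k - ρ ∉ U ∧ n ≤ ρ)
    (U.image fun a => k - a)
  have h4 : (U.image fun a => k - a).card ≤ U.card := Finset.card_image_le
  rw [Nat.card_Ico] at h2
  omega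

/-- Large balls with indices in `U` (radius `k - a` for the index `a`); the indices
`M₁ + 1, M₁ + 3, ...` are free for group centres. `K` contains the legs which may not be used as
group centres. -/
theorem asm0 (S : Setup X r k Λ B E h₀ σ) {ρ M₁ : ℕ} (hρ : 64 * (Λ + 1) ≤ ρ)
    (hρσ : 100 * ρ + 100 * M₁ ≤ σ) (hΛσ : 2 * Λ * k ≤ σ * B)
    {U : Finset ℕ} {b : ℕ → V}
    (hU : ∀ a ∈ U, 1 ≤ a ∧ a ≤ 2 * σ ∧ (a ≤ M₁ ∨ ∃ j, a = M₁ + 2 * j))
    {K : Finset V} (hK : K ⊆ legs X r h₀) (hK' : 16 * K.card ≤ k) {ν : V → ℕ}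
    (hν : ∀ v ∈ K, ∃ a ∈ U, Sv X r k h₀ v (b a) a (ν v))
    (hcov : ∀ x, Out X r h₀ x → ∃ a ∈ U, X.d (b a) x + a ≤ k)
    (hnear : ∀ v ∈ legs X r h₀, ∃ a ∈ U, X.d (b a) v + h₀ + a ≤ k + 8 * σ)
    (hSC : ∀ n, n ≤ M₁ + 2 * ρ + 1 →
      n + U.card + (legs X r h₀).card ≤ k + (K.filter fun v => ν v ≤ n).card) :
    Cov X k := by
  obtain ⟨n1, n2⟩ := asmA_num S
  have n3 := S.hi
  have n4 := S.hB
  have n5 := S.lo
  have hne : Nonempty V := ⟨r⟩
  obtain ⟨A', γ, hA', hγ, hγinj, hJ, hlast⟩ :=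
    exists_groups S hρ (by omega) hK hK' (3 * σ)
  -- the indices of the groups
  set G : Finset ℕ := (range A').image fun j => M₁ + 2 * j + 1 with hG
  have hGU : ∀ j, M₁ + 2 * j + 1 ∉ U := by
    intro j hj
    obtain ⟨h1, h2, h3⟩ := hU _ hj
    rcases h3 with h3 | ⟨j', h3⟩ <;> omega
  set b' : ℕ → V := fun a => if a ∈ U then b a else
    up X r (tip X r (γ ((a - M₁ - 1) / 2))) (k - a) with hb'
  have hb1 : ∀ a ∈ U, b' a = b a := by
    intro a ha
    simp only [hb', if_pos ha]
  have hb2 : ∀ j, b' (M₁ + 2 * j + 1) =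
      up X r (tip X r (γ j)) (k - (M₁ + 2 * j + 1)) := by
    intro j
    simp only [hb', if_neg (hGU j)]
    have : (M₁ + 2 * j + 1 - M₁ - 1) / 2 = j := by omega
    rw [this]
  have hmG : ∀ j, j < A' → M₁ + 2 * j + 1 ∈ U ∪ G := by
    intro j hj
    rw [Finset.mem_union, hG, Finset.mem_image]
    exact Or.inr ⟨j, Finset.mem_range.2 hj, rfl⟩
  have hU' : ∀ a ∈ U ∪ G, 1 ≤ a ∧ a ≤ 7 * σ := by
    intro a ha
    rw [Finset.mem_union, hG, Finset.mem_image] at ha
    rcases ha with ha | ⟨j, hj, rfl⟩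
    · have := hU a ha
      omega
    · rw [Finset.mem_range] at hj
      omega
  have hUc : (U ∪ G).card = U.card + A' := by
    rw [Finset.card_union_of_disjoint, hG, Finset.card_image_of_injOn, Finset.card_range]
    · intro i _ j _ hij
      simp only at hij
      omega
    · rw [Finset.disjoint_left]
      intro a ha ha'
      rw [Finset.mem_image] at ha'
      obtain ⟨j, -, rfl⟩ := ha'
      exact hGU j ha
  have hU7 : (U ∪ G).card ≤ 7 * σ := by
    have h1 : U ∪ G ⊆ Finset.Icc 1 (7 * σ) := fun a ha => Finset.mem_Icc.2 (hU' a ha)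
    have h2 := Finset.card_le_card h1
    rw [Nat.card_Icc] at h2
    omega
  -- the least second radius
  have hnear' : ∀ v ∈ legs X r h₀, ∀ n, (∀ x, Bel X r v x → hd X v (tip X r v) x + 4 * σ < n) →
      ∃ a ∈ U ∪ G, Sv X r k h₀ v (b' a) a n := by
    intro v hv n hn
    obtain ⟨a, ha, hd⟩ := hnear v hv
    refine ⟨a, Finset.mem_union_left _ ha, ?_⟩
    rw [hb1 a ha]
    refine ⟨8 * σ, hd, ?_⟩
    have h0 := hn v (bel_refl v)
    refine fix_mono (fix_hd hv (m := 8 * σ) (h := n - 4 * σ - 1) fun x hx _ => ?_) le_rfl (by omega)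
    have := hn x hx
    omega
  have hex : ∀ v, ∃ n, v ∈ legs X r h₀ → ∃ a ∈ U ∪ G, Sv X r k h₀ v (b' a) a n := by
    intro v
    by_cases hv : v ∈ legs X r h₀
    · refine ⟨h₀ + 4 * σ + 1, fun _ => hnear' v hv _ fun x hx => ?_⟩
      have := hair_bound S hv hx
      omega
    · exact ⟨0, fun h => absurd h hv⟩
  set ν' : V → ℕ := fun v => Nat.find (hex v) with hν'
  have hle' : ∀ (v : V) (n n' : ℕ), n' ≤ n → (∃ a ∈ U ∪ G, Sv X r k h₀ v (b' a) a n') →
      ν' v ≤ n := fun v n n' h hs => (Nat.find_min' (hex v) (fun _ => hs)).trans h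
  have hνspec : ∀ v ∈ legs X r h₀, ∃ a ∈ U ∪ G, Sv X r k h₀ v (b' a) a (ν' v) := fun v hv =>
    Nat.find_spec (hex v) hv
  -- the legs which are served at level `n`
  have hKν : ∀ v ∈ K, ν' v ≤ ν v := by
    intro v hv
    obtain ⟨a, ha, hs⟩ := hν v hv
    refine hle' v _ _ le_rfl ⟨a, Finset.mem_union_left _ ha, ?_⟩
    rw [hb1 a ha]
    exact hs
  have hγν : ∀ j, j < A' → ν' (γ j) ≤ 0 := by
    intro j hj
    refine hle' _ _ 0 le_rfl ⟨M₁ + 2 * j + 1, hmG j hj, ?_⟩
    rw [hb2 j]
    exact self_serve S (hγ j hj).1 (by omega)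
  set Γ : Finset V := (range A').image γ with hΓ
  have hΓc : Γ.card = A' := by
    rw [hΓ, Finset.card_image_of_injOn, Finset.card_range]
    intro i hi j hj hij
    rw [Finset.coe_range, Set.mem_Iio] at hi hj
    exact hγinj i hi j hj hij
  have hΓK : Disjoint K Γ := by
    rw [Finset.disjoint_left]
    intro v hv hv'
    rw [hΓ, Finset.mem_image] at hv'
    obtain ⟨j, hj, rfl⟩ := hv'
    exact (hγ j (Finset.mem_range.1 hj)).2 hv
  -- the count
  have hcount : ∀ (n n₀ : ℕ) (I : Finset V), n₀ ≤ n → I ⊆ legs X r h₀ →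
      (∀ v ∈ I, v ∉ K ∧ (∀ j, j < A' → v ≠ γ j) ∧ ν' v ≤ n) →
      (K.filter fun v => ν v ≤ n₀).card + A' + I.card ≤
        ((legs X r h₀).filter fun v => ν' v ≤ n).card := by
    intro n n₀ I hn hI hI'
    have h1 : Disjoint (K.filter fun v => ν v ≤ n₀) Γ :=
      Finset.disjoint_of_subset_left (Finset.filter_subset _ _) hΓK
    have h2 : Disjoint ((K.filter fun v => ν v ≤ n₀) ∪ Γ) I := by
      rw [Finset.disjoint_right]
      intro v hv hv'
      rw [Finset.mem_union, Finset.mem_filter, hΓ, Finset.mem_image] at hv'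
      obtain ⟨g1, g2, -⟩ := hI' v hv
      rcases hv' with ⟨h, -⟩ | ⟨j, hj, h⟩
      · exact g1 h
      · exact g2 j (Finset.mem_range.1 hj) h.symm
    rw [← hΓc, ← Finset.card_union_of_disjoint h1, ← Finset.card_union_of_disjoint h2]
    refine Finset.card_le_card ?_
    intro v hv
    rw [Finset.mem_union, Finset.mem_union, Finset.mem_filter, hΓ, Finset.mem_image] at hv
    rw [Finset.mem_filter]
    rcases hv with (⟨h, h'⟩ | ⟨j, hj, rfl⟩) | h
    · exact ⟨hK h, ((hKν v h).trans h').trans hn⟩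
    · exact ⟨(hγ j (Finset.mem_range.1 hj)).1, (hγν j (Finset.mem_range.1 hj)).trans (Nat.zero_le _)⟩
    · exact ⟨hI h, (hI' v h).2.2⟩
  have hserve : ∀ (n : ℕ) (v : V), v ∈ legs X r h₀ →
      (∀ x, Bel X r v x → hd X v (tip X r v) x ≤ ρ) → ∀ j, j < A' →
      M₁ + 2 * j + 2 + 2 * ρ ≤ n → X.d (bt X r k (γ j)) (bt X r k v) ≤ 2 * ρ → ν' v ≤ n := by
    intro n v hv hnice j hj hjn hd
    refine hle' v n (M₁ + 2 * j + 1 + 2 * ρ + 1) (by omega) ⟨M₁ + 2 * j + 1, hmG j hj, ?_⟩
    rw [hb2 j]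
    exact group_serve S (hγ j hj).1 hv (by omega) (by omega) hd hnice
  refine cov_of_hall (U := U ∪ G) (b := b') (ν := ν') (fun a ha => ?_) (fun x hx => ?_) hνspec ?_
  · have := hU' a ha
    omega
  · obtain ⟨a, ha, hd⟩ := hcov x hx
    exact ⟨a, Finset.mem_union_left _ ha, by rw [hb1 a ha]; exact hd⟩
  intro n
  have hfree := asmB_free (U ∪ G) k n
  have hsplit := Finset.card_filter_add_card_filter_not (s := legs X r h₀) (fun v => ν' v ≤ n)
  have hsplit' : ((legs X r h₀).filter fun v => ¬ ν' v ≤ n) =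
      (legs X r h₀).filter fun v => n < ν' v := by
    refine Finset.filter_congr fun v _ => ?_
    exact not_le
  rw [hsplit'] at hsplit
  rcases Nat.lt_or_ge n (6 * σ) with hn | hn
  · -- small `n`
    have hC : n + (U ∪ G).card + (legs X r h₀).card ≤
        k + ((legs X r h₀).filter fun v => ν' v ≤ n).card := by
      rw [hUc]
      rcases Nat.lt_or_ge (M₁ + 2 * ρ + 1) n with h1 | h1
      · have h2 := hSC (M₁ + 2 * ρ + 1) le_rfl
        set t := n - M₁ - 2 * ρ with ht
        rcases Nat.lt_or_ge A' (t / 2) with h3 | h3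
        · obtain ⟨I, hI, hIc, hI'⟩ := hlast (by omega)
          have h4 := hcount n (M₁ + 2 * ρ + 1) I h1.le hI (fun v hv => by
            obtain ⟨g1, g2, g3, j, g4, g5⟩ := hI' v hv
            exact ⟨g1, g2, hserve n v (hI hv) g3 j g4 (by omega) g5⟩)
          omega
        · obtain ⟨I, hI, hIc, hI'⟩ := hJ (t / 2) h3
          have h4 := hcount n (M₁ + 2 * ρ + 1) I h1.le hI (fun v hv => by
            obtain ⟨g1, g2, g3, j, g4, g5⟩ := hI' v hv
            exact ⟨g1, g2, hserve n v (hI hv) g3 j (by omega) (by omega) g5⟩)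
          omega
      · have h2 := hSC n h1
        have h4 := hcount n n ∅ le_rfl (Finset.empty_subset _) (by simp)
        rw [Finset.card_empty] at h4
        omega
    omega
  · -- large `n`
    rcases Nat.lt_or_ge (h₀ - 60 * σ) n with h1 | h1
    · -- no leg is left
      have h2 : (legs X r h₀).filter (fun v => n < ν' v) = ∅ := by
        rw [Finset.filter_eq_empty_iff]
        intro v hv
        rw [not_lt]
        refine hle' v n n le_rfl (hnear' v hv n fun x hx => ?_)
        have := hair_bound S hv hx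
        omega
      rw [h2]
      simp
    · have h2 := hair_count S (η := 2 * σ - 1) (by omega)
      have h3 : ((legs X r h₀).filter fun v => n < ν' v).card ≤
          ((legs X r h₀).filter fun v => ∃ x, Bel X r v x ∧
            2 * σ - 1 < hd X v (tip X r v) x).card := by
        refine Finset.card_le_card ?_
        intro v hv
        rw [Finset.mem_filter] at hv ⊢
        refine ⟨hv.1, ?_⟩
        by_contra hcon
        push Not at hcon
        have h4 := hle' v n n le_rfl (hnear' v hv.1 n fun x hx => by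
          have := hcon x hx
          omega)
        omega
      set c := ((legs X r h₀).filter fun v => ∃ x, Bel X r v x ∧
            2 * σ - 1 < hd X v (tip X r v) x).card with hc
      have h4 : σ * (2 * c) ≤ σ * (B + 4 * E) := by
        have e1 : σ * c ≤ (2 * σ - 1) * c := Nat.mul_le_mul_right _ (by omega)
        have e2 : E * (2 * σ - 1) ≤ E * (2 * σ) := Nat.mul_le_mul_left _ (by omega)
        calc σ * (2 * c) = 2 * (σ * c) := by ring
          _ ≤ 2 * (Λ * k + E * (2 * σ)) := Nat.mul_le_mul_left _ (by omega)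
          _ = 2 * Λ * k + 4 * (E * σ) := by ring
          _ ≤ σ * B + 4 * (E * σ) := Nat.add_le_add_right hΛσ _
          _ = σ * (B + 4 * E) := by ring
      have h5 : 2 * c ≤ B + 4 * E := Nat.le_of_mul_le_mul_left h4 (by omega)
      omega

end Pool.Agent.Helper84.NC
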