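import Pool.Agent.Helper84.NC.AsmB

/-! # Project NC, module NC-16: second assembly (nets and pure balls) -/

set_option autoImplicit false

namespace Pool.Agent.Helper84.NC

open Finset Classical

variable {V : Type*} [Fintype V] {X : TM V} {r : V} {k Λ B E h₀ σ : ℕ}

theorem mem_wset {Q : Finset V} {x : V} : x ∈ Wset X r k h₀ σ Q ↔
    Out X r h₀ x ∧ ∀ v ∈ legs X r h₀, v ∉ Q → k < X.d (bt X r k v) x + 16 * σ := by
  simp [Wset]

/-- an enumeration of a finite set -/
private theorem asmC_enum (s : Finset V) (r : V) :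
    ∃ f : ℕ → V, (∀ i, i < s.card → f i ∈ s) ∧ ∀ x ∈ s, ∃ i, i < s.card ∧ f i = x := by
  refine ⟨fun i => if h : i < s.card then (s.equivFin.symm ⟨i, h⟩ : V) else r, ?_, ?_⟩
  · intro i hi
    simp only [hi, dite_true]
    exact (s.equivFin.symm ⟨i, hi⟩).2
  · intro x hx
    refine ⟨(s.equivFin ⟨x, hx⟩).1, (s.equivFin ⟨x, hx⟩).2, ?_⟩
    simp

/-- Given: large balls `b a` of radius `k - a`, `a ∈ U`; a set `K` of legs with needs `ν`; a set
`Q ⊆ K` of legs whose bases may be far from everything; a set `P` of centres of balls of radius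
`k - 8 * σ` which cover the vertices far from the bases of the legs not in `Q`. -/
theorem asm1 (S : Setup X r k Λ B E h₀ σ) {ρ M₁ t Mn : ℕ} (hρ : 64 * (Λ + 1) ≤ ρ)
    (hρσ : 100 * ρ + 100 * M₁ ≤ σ) (hΛσ : 2 * Λ * k ≤ σ * B) (hMn : Λ * k + 1 ≤ Mn * σ)
    {U : Finset ℕ} {b : ℕ → V}
    (hU : ∀ a ∈ U, 1 ≤ a ∧ a ≤ t ∧ (a ≤ M₁ ∨ ∃ j, a = M₁ + 2 * j))
    {K Q P : Finset V} (hK : K ⊆ legs X r h₀) (hQK : Q ⊆ K) {ν : V → ℕ}
    (hν : ∀ v ∈ K, ∃ a ∈ U, Sv X r k h₀ v (b a) a (ν v))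
    (hnear : ∀ v ∈ K, v ∉ Q →
      (∃ w ∈ legs X r h₀, w ∉ K ∧ X.d (bt X r k v) (bt X r k w) ≤ 2 * σ) ∨
      ∃ a ∈ U, X.d (bt X r k v) (b a) ≤ 2 * σ)
    (hQ : ∀ v ∈ Q, ∃ a ∈ U, X.d (b a) v + h₀ + a ≤ k + 8 * σ)
    (hP : ∀ x ∈ Wset X r k h₀ σ Q, ∃ c ∈ P, X.d c x + 8 * σ ≤ k)
    (hsz : M₁ + 2 * t + 2 * (Mn + P.card) + 4 ≤ 2 * σ)
    (hKsz : 16 * (K.card + Mn + 1) ≤ k)
    (hSC : ∀ n, n ≤ M₁ + 2 * ρ + 1 →
      n + U.card + P.card + (legs X r h₀).card ≤ k + (K.filter fun v => ν v ≤ n).card) :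
    Cov X k := by
  have hQK' := hQK
  -- the net
  obtain ⟨G, hG, hGnet, hGc⟩ := exists_net S (I := legs X r h₀ \ K) sdiff_subset (2 * σ)
  have hGleg : ∀ g ∈ G, g ∈ legs X r h₀ := fun g hg => (mem_sdiff.1 (hG hg)).1
  have hGK : ∀ g ∈ G, g ∉ K := fun g hg => (mem_sdiff.1 (hG hg)).2
  have hGcard : G.card ≤ Mn + 1 := by
    by_contra hcon
    have h1 : Mn + 1 ≤ G.card - 1 := by omega
    have h2 : (Mn + 1) * (2 * σ / 2 + 1) ≤ (G.card - 1) * (2 * σ / 2 + 1) :=
      Nat.mul_le_mul_right _ h1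
    have h3 : 2 * σ / 2 = σ := by omega
    rw [h3] at h2 hGc
    have h4 : (Mn + 1) * (σ + 1) = Mn * σ + Mn + σ + 1 := by ring
    have h5 := h2.trans hGc
    have h6 : 1 ≤ σ := by have := S.hE'; omega
    omega
  obtain ⟨g, hg1, hg2⟩ := asmC_enum G r
  obtain ⟨p, hp1, hp2⟩ := asmC_enum P r
  have hσk : 100 * (2 * σ) ≤ k := by
    have h1 := S.hσ
    have h2 := S.hB
    have h3 : 64 * σ * 2 ≤ 64 * σ * (2 * Λ + E + 2) := Nat.mul_le_mul_left _ (by omega)
    omega
  -- the new indices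
  obtain ⟨ix, hix⟩ : ∃ ix : ℕ → ℕ, ix = fun i => M₁ + 2 * (t + 1 + i) := ⟨_, rfl⟩
  have hixi : ∀ i, ix i = M₁ + 2 * (t + 1 + i) := fun i => by rw [hix]
  obtain ⟨b', hb'⟩ : ∃ b' : ℕ → V, b' = fun a => if a ≤ t then b a else
      if (a - M₁) / 2 - (t + 1) < G.card then
        up X r (tip X r (g ((a - M₁) / 2 - (t + 1)))) (k - a)
      else p ((a - M₁) / 2 - (t + 1) - G.card) := ⟨_, rfl⟩
  have hb1 : ∀ a ∈ U, b' a = b a := by
    intro a ha
    rw [hb']
    simp only [(hU a ha).2.1, if_true]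
  have hsub : ∀ i, (ix i - M₁) / 2 - (t + 1) = i := by
    intro i
    rw [hixi]
    omega
  have hixt : ∀ i, ¬ ix i ≤ t := by
    intro i
    rw [hixi]
    omega
  have hb2 : ∀ i, i < G.card → b' (ix i) = up X r (tip X r (g i)) (k - ix i) := by
    intro i hi
    rw [hb']
    simp only [hsub, hixt, hi, if_true, if_false]
  have hb3 : ∀ j, b' (ix (G.card + j)) = p j := by
    intro j
    rw [hb']
    have h1 : ¬ G.card + j < G.card := by omega
    simp only [hsub, hixt, h1, if_false]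
    rw [Nat.add_sub_cancel_left]
  have hixinj : Function.Injective ix := by
    intro i j hij
    rw [hixi, hixi] at hij
    omega
  obtain ⟨N, hN⟩ : ∃ N, N = G.card + P.card := ⟨_, rfl⟩
  have hixle : ∀ i, i < N → ix i ≤ 2 * σ := by
    intro i hi
    rw [hixi]
    omega
  obtain ⟨U', hU'⟩ : ∃ U' : Finset ℕ, U' = U ∪ (range N).image ix := ⟨_, rfl⟩
  have hmU : ∀ a ∈ U, a ∈ U' := fun a ha => by rw [hU']; exact mem_union_left _ ha
  have hmN : ∀ i, i < N → ix i ∈ U' := fun i hi => by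
    rw [hU']
    exact mem_union_right _ (mem_image_of_mem _ (mem_range.2 hi))
  have hU'card : U'.card = U.card + (G.card + P.card) := by
    rw [hU', card_union_of_disjoint, card_image_of_injective _ hixinj, card_range, hN]
    rw [disjoint_left]
    intro a ha hb
    obtain ⟨i, -, rfl⟩ := mem_image.1 hb
    exact hixt i (hU _ ha).2.1
  -- distance of the centres of the net to the bases
  have hbase : ∀ i, i < G.card → X.d (b' (ix i)) (bt X r k (g i)) ≤ ix i := by
    intro i hi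
    rw [hb2 i hi]
    have h1 := up_up_le (X := X) (r := r) (tip X r (g i)) (k - ix i) k
    have h2 := hixle i (by omega)
    unfold bt
    omega
  -- the net serves all legs outside of `K`
  have hnet : ∀ v ∈ legs X r h₀, v ∉ K → ∃ a ∈ U', a ≤ 2 * σ ∧
      X.d (b' a) (bt X r k v) ≤ a + 2 * σ := by
    intro v hv hvK
    obtain ⟨g', hg', h1⟩ := hGnet v (mem_sdiff.2 ⟨hv, hvK⟩)
    obtain ⟨i, hi, rfl⟩ := hg2 g' hg'
    refine ⟨ix i, hmN i (by omega), hixle i (by omega), ?_⟩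
    have h2 := hbase i hi
    have h3 := X.tri (b' (ix i)) (bt X r k (g i)) (bt X r k v)
    have h4 := X.symm (bt X r k v) (bt X r k (g i))
    omega
  have hnet' : ∀ v ∈ legs X r h₀, v ∉ Q → ∃ a ∈ U', a ≤ 2 * σ ∧
      X.d (b' a) (bt X r k v) + a ≤ 8 * σ := by
    intro v hv hvQ
    by_cases hvK : v ∈ K
    · rcases hnear v hvK hvQ with ⟨w, hw, hwK, hd⟩ | ⟨a, ha, hd⟩
      · obtain ⟨a, ha, ha2, hd2⟩ := hnet w hw hwK
        refine ⟨a, ha, ha2, ?_⟩
        have h3 := X.tri (b' a) (bt X r k w) (bt X r k v)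
        have h4 := X.symm (bt X r k v) (bt X r k w)
        omega
      · refine ⟨a, hmU a ha, ?_, ?_⟩
        · have := (hU a ha).2.1
          omega
        · have h1 := (hU a ha).2.1
          rw [hb1 a ha, X.symm]
          omega
    · obtain ⟨a, ha, ha2, hd2⟩ := hnet v hv hvK
      exact ⟨a, ha, ha2, by omega⟩
  obtain ⟨ν', hν'⟩ : ∃ ν' : V → ℕ, ν' = fun v => if v ∈ K then ν v else 0 := ⟨_, rfl⟩
  have hKG : Disjoint K G := by
    rw [disjoint_left]
    intro v hv hvG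
    exact hGK v hvG hv
  refine asm0 S (U := U') (b := b') (K := K ∪ G) (ν := ν') hρ hρσ hΛσ ?_ ?_ ?_ ?_ ?_ ?_ ?_
  · intro a ha
    rw [hU', mem_union] at ha
    rcases ha with ha | ha
    · obtain ⟨h1, h2, h3⟩ := hU a ha
      exact ⟨h1, by omega, h3⟩
    · obtain ⟨i, hi, rfl⟩ := mem_image.1 ha
      have h1 := hixle i (mem_range.1 hi)
      have h2 := hixi i
      exact ⟨by omega, h1, Or.inr ⟨t + 1 + i, h2⟩⟩
  · intro v hv
    rcases mem_union.1 hv with hv | hv
    · exact hK hv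
    · exact hGleg v hv
  · rw [card_union_of_disjoint hKG]
    omega
  · intro v hv
    by_cases hvK : v ∈ K
    · obtain ⟨a, ha, h1⟩ := hν v hvK
      refine ⟨a, hmU a ha, ?_⟩
      rw [hb1 a ha, hν']
      simp only [hvK, if_true]
      exact h1
    · have hvG : v ∈ G := by
        rcases mem_union.1 hv with h | h
        · exact absurd h hvK
        · exact h
      obtain ⟨i, hi, rfl⟩ := hg2 v hvG
      refine ⟨ix i, hmN i (by omega), ?_⟩
      rw [hb2 i hi, hν']
      simp only [hvK, if_false]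
      exact self_serve S (hGleg _ hvG) (by have := hixle i (by omega); omega)
  · intro x hx
    by_cases hxW : x ∈ Wset X r k h₀ σ Q
    · obtain ⟨c, hc, h1⟩ := hP x hxW
      obtain ⟨j, hj, rfl⟩ := hp2 c hc
      refine ⟨ix (G.card + j), hmN _ (by omega), ?_⟩
      rw [hb3]
      have h2 := hixle (G.card + j) (by omega)
      omega
    · rw [mem_wset] at hxW
      push Not at hxW
      obtain ⟨v, hv, hvQ, hd⟩ := hxW hx
      obtain ⟨a, ha, ha2, hd2⟩ := hnet' v hv hvQ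
      refine ⟨a, ha, ?_⟩
      have h3 := X.tri (b' a) (bt X r k v) x
      omega
  · intro v hv
    by_cases hvQ : v ∈ Q
    · obtain ⟨a, ha, h1⟩ := hQ v hvQ
      refine ⟨a, hmU a ha, ?_⟩
      rw [hb1 a ha]
      exact h1
    · obtain ⟨a, ha, ha2, hd2⟩ := hnet' v hv hvQ
      refine ⟨a, ha, ?_⟩
      have h3 := X.tri (b' a) (bt X r k v) v
      have h4 := (bt_bel S hv).2
      omega
  · intro n hn
    have h1 := hSC n hn
    have h2 : ((K ∪ G).filter fun v => ν' v ≤ n).card =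
        (K.filter fun v => ν v ≤ n).card + G.card := by
      rw [filter_union, card_union_of_disjoint (disjoint_filter_filter hKG)]
      congr 1
      · congr 1
        refine filter_congr fun v hv => ?_
        rw [hν']
        simp only [hv, if_true]
      · congr 1
        refine filter_true_of_mem fun v hv => ?_
        rw [hν']
        simp only [hGK v hv, if_false]
        omega
    rw [h2, hU'card]
    omega

end Pool.Agent.Helper84.NC
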