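import Pool.Agent.Helper84.NC.RegA

/-! # Project NC, module NC-20: the easy cases -/

set_option autoImplicit false

namespace Pool.Agent.Helper84.NC

open Finset Classical

variable {V : Type*} [Fintype V] {X : TM V} {r : V} {k Λ B E h₀ σ : ℕ}

private theorem caseT_sigma_le (S : Setup X r k Λ B E h₀ σ) : σ ≤ B := by
  have h1 := S.hσ
  have h2 : 64 * σ * 1 ≤ 64 * σ * (2 * Λ + E + 2) := Nat.mul_le_mul_left _ (by omega)
  omega

omit [Fintype V] in
/-- An enumeration of a finite set. -/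
private theorem caseT_enum (T : Finset V) (r : V) :
    ∃ γ : ℕ → V, (∀ j, j < T.card → γ j ∈ T) ∧ ∀ g ∈ T, ∃ j, j < T.card ∧ γ j = g := by
  refine ⟨fun j => if h : j < T.card then (T.equivFin.symm ⟨j, h⟩ : V) else r, ?_, ?_⟩
  · intro j hj
    simp only [dif_pos hj]
    exact (T.equivFin.symm ⟨j, hj⟩).2
  · intro g hg
    refine ⟨(T.equivFin ⟨g, hg⟩ : ℕ), (T.equivFin ⟨g, hg⟩).2, ?_⟩
    simp

/-- Many spare balls. -/
theorem case_top (S : Setup X r k Λ B E h₀ σ) {ρ Mn : ℕ} (hρ : 64 * (Λ + 1) ≤ ρ)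
    (hρσ : 100 * ρ ≤ σ) (hΛσ : 2 * Λ * k ≤ σ * B) (hMn : Λ * k + 1 ≤ Mn * σ)
    (hMσ : 100 * Mn ≤ σ) {P Y : Finset V} (R : Reg X r k h₀ σ ∅ P Y)
    (h : (legs X r h₀).card + Y.card + 2 * ρ + 1 ≤ k) : Cov X k := by
  have h1 := card_legs_lo S
  have h2 := R.le
  have h3 := S.hE'
  have h4 := S.hB
  have h5 : σ ≤ B := caseT_sigma_le S
  refine asm1 S (ρ := ρ) (M₁ := 0) (t := 0) (Mn := Mn) hρ (by omega) hΛσ hMn (U := ∅)
    (b := fun _ => r) (by simp) (K := ∅) (Q := ∅) (P := P) (by simp) (by simp)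
    (ν := fun _ => 0) (by simp) (by simp) (by simp) R.cov (by omega) ?_ ?_
  · rw [card_empty]
    omega
  · intro n hn
    rw [card_empty, filter_empty, card_empty]
    omega

/-- Many legs with tips close to the tip of a deeper leg. -/
theorem case_drop (S : Setup X r k Λ B E h₀ σ) {ρ Mn D : ℕ} (hρ : 64 * (Λ + 1) ≤ ρ)
    (hρσ : 100 * ρ + 100 * D ≤ σ) (hΛσ : 2 * Λ * k ≤ σ * B) (hMn : Λ * k + 1 ≤ Mn * σ)
    (hMσ : 100 * Mn ≤ σ) (hD : 4 * (ρ + Λ + 1) ≤ D) {F : Finset V} (hF : Far X r k h₀ D F)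
    (h : 2 * ρ + 2 * Λ + 2 ≤ (legs X r h₀ \ F).card) : Cov X k := by
  obtain ⟨L, hL, hLc⟩ := exists_subset_card_eq h
  have hLl : ∀ l ∈ L, l ∈ legs X r h₀ ∧ l ∉ F := fun l hl => mem_sdiff.1 (hL hl)
  -- the partners
  have hp : ∀ l, ∃ g, l ∈ L → g ∈ F ∧ X.d r (tip X r l) ≤ X.d r (tip X r g) ∧
      X.d (tip X r g) (tip X r l) + 2 * D ≤ 2 * k := by
    intro l
    by_cases hl : l ∈ L
    · obtain ⟨g, h1, h2, h3⟩ := hF.dom l (hLl l hl).1 (hLl l hl).2
      exact ⟨g, fun _ => ⟨h1, h2, h3⟩⟩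
    · exact ⟨l, fun h => absurd h hl⟩
  choose p hp using hp
  set T : Finset V := L.image p with hT
  obtain ⟨γ, hγ1, hγ2⟩ := caseT_enum T r
  have hTF : ∀ g ∈ T, g ∈ F := by
    intro g hg
    obtain ⟨l, hl, rfl⟩ := mem_image.1 hg
    exact (hp l hl).1
  have hTl : ∀ g ∈ T, g ∈ legs X r h₀ := fun g hg => hF.sub (hTF g hg)
  have hTc : T.card ≤ 2 * ρ + 2 * Λ + 2 := by
    rw [← hLc]
    exact card_image_le
  have hdisj : Disjoint L T := by
    rw [disjoint_left]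
    intro l hl hl'
    exact (hLl l hl).2 (hTF l hl')
  have s1 := caseT_sigma_le S
  have s2 := S.hE'
  have s3 := S.hB
  have s4 := S.hi
  obtain ⟨P, Y, R⟩ := exists_reg S L
  have hY : (legs X r h₀).card + Y.card ≤ k + 2 * Λ + 1 := by
    refine reg_weak S (Q := L) ?_ R.sub R.far
    obtain ⟨l, hl⟩ : L.Nonempty := by
      rw [← card_pos]
      omega
    have h1 := (hp l hl).1
    exact ⟨p l, hF.sub h1, fun h2 => (hLl _ h2).2 h1⟩
  have hlo := card_legs_lo S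
  have hle := R.le
  set U : Finset ℕ := (range T.card).image fun j => 2 * (j + 1) with hU
  have hUc : U.card = T.card := by
    rw [hU, card_image_of_injective _ (fun i j hij => by simpa using hij), card_range]
  have hUm : ∀ j, j < T.card → 2 * (j + 1) ∈ U := fun j hj =>
    mem_image.2 ⟨j, mem_range.2 hj, rfl⟩
  set b : ℕ → V := fun a => up X r (tip X r (γ (a / 2 - 1))) (k - a) with hb
  have hbj : ∀ j, b (2 * (j + 1)) = up X r (tip X r (γ j)) (k - 2 * (j + 1)) := by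
    intro j
    have : 2 * (j + 1) / 2 - 1 = j := by omega
    simp only [hb, this]
  -- the legs of `L` are covered by the balls of their partners
  have hcovL : ∀ v ∈ L, ∃ a ∈ U, X.d (b a) v + h₀ + a ≤ k := by
    intro v hv
    obtain ⟨h1, h2, h3⟩ := hp v hv
    obtain ⟨j, hj, hjg⟩ := hγ2 (p v) (mem_image_of_mem p hv)
    refine ⟨2 * (j + 1), hUm j hj, ?_⟩
    rw [hbj, hjg]
    have h4 := up_centre (X := X) (r := r) (R := k - 2 * (j + 1)) h2 (by omega)
    have h5 := (up_leg S (hF.sub h1) (j := k - 2 * (j + 1)) (by omega)).1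
    have h6 := leg_dist (hLl v hv).1 (out_of_ht h5 v (hLl v hv).1)
    omega
  refine asm1 S (ρ := ρ) (M₁ := 0) (t := 2 * T.card) (Mn := Mn) hρ (by omega) hΛσ hMn (U := U)
    (b := b) ?_ (K := L ∪ T) (Q := L) (P := P) ?_ subset_union_left
    (ν := fun _ => 0) ?_ ?_ ?_ R.cov ?_ ?_ ?_
  · intro a ha
    obtain ⟨j, hj, rfl⟩ := mem_image.1 ha
    have hj' := mem_range.1 hj
    exact ⟨by omega, by omega, Or.inr ⟨j + 1, by omega⟩⟩
  · intro v hv
    rcases mem_union.1 hv with hv | hv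
    · exact (hLl v hv).1
    · exact hTl v hv
  · intro v hv
    rcases mem_union.1 hv with hv | hv
    · obtain ⟨a, ha, h1⟩ := hcovL v hv
      exact ⟨a, ha, 0, by omega, fix_zero v (hLl v hv).1 0⟩
    · obtain ⟨j, hj, rfl⟩ := hγ2 v hv
      refine ⟨2 * (j + 1), hUm j hj, ?_⟩
      rw [hbj]
      exact self_serve S (hTl _ hv) (by omega)
  · intro v hv hvL
    right
    have hv' : v ∈ T := (mem_union.1 hv).resolve_left hvL
    obtain ⟨j, hj, rfl⟩ := hγ2 v hv'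
    refine ⟨2 * (j + 1), hUm j hj, ?_⟩
    rw [hbj]
    have h1 := up_up_le (X := X) (r := r) (tip X r (γ j)) k (k - 2 * (j + 1))
    unfold bt
    omega
  · intro v hv
    obtain ⟨a, ha, h1⟩ := hcovL v hv
    exact ⟨a, ha, by omega⟩
  · omega
  · rw [card_union_of_disjoint hdisj]
    omega
  · intro n hn
    have h1 : ((L ∪ T).filter fun v => (fun _ : V => 0) v ≤ n) = L ∪ T :=
      filter_true_of_mem fun _ _ => Nat.zero_le n
    rw [h1, card_union_of_disjoint hdisj, hUc]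
    omega

theorem exists_far {D : ℕ} (hD : D ≤ k) : ∃ F, Far X r k h₀ D F := by
  obtain ⟨F, h1, h2, h3⟩ := exists_greedy X r (legs X r h₀) (tip X r) (k - D)
  refine ⟨F, h1, ?_, ?_⟩
  · intro g hg l hl hgl
    have := h2 g hg l hl hgl
    omega
  · intro l hl hlF
    obtain ⟨g, hg, hg1, hg2⟩ := h3 l hl hlF
    exact ⟨g, hg, hg1, by omega⟩

end Pool.Agent.Helper84.NC
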