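import Pool.Agent.Helper84.NC.StarAsm
import Pool.Agent.Helper84.NC.CaseT

/-! # Project NC, module NC-29: no spare ball, a leg close to a deeper one -/

set_option autoImplicit false

namespace Pool.Agent.Helper84.NC

open Finset Classical

variable {V : Type*} [Fintype V] {X : TM V} {r : V} {k Λ B E h₀ σ : ℕ}

theorem case_nonF (S : Setup X r k Λ B E h₀ σ) {ρ Mn Z D : ℕ} (hρ : 64 * (Λ + 1) ≤ ρ)
    (hρσ : 100 * (ρ + Mn) ≤ σ) (hΛσ : 2 * Λ * k ≤ σ * B) (hMn : Λ * k + 1 ≤ Mn * σ)
    {P Y : Finset V} (R : Reg X r k h₀ σ ∅ P Y) (hN : (legs X r h₀).card + Y.card = k)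
    {F : Finset V} (hD : 2 ≤ D) (hDk : D ≤ k) (hF : Far X r k h₀ D F) {l : V}
    (hl : l ∈ legs X r h₀) (hlF : l ∉ F) {z : V} {A : Finset V}
    (hA : Star X r h₀ Z k ρ z A) (h0 : ∀ i ∈ A, hz X r h₀ Z i = 0)
    (hA' : 8 * (ρ + Λ + 4) ≤ A.card) {sl : ℕ}
    (hm : ∀ M : Finset V, Disjoint M (Sh X r k h₀ σ) →
      M.card + (legs X r h₀).card * k ≤ k ^ 2 + sl) (hsl : 4 * sl ≤ k) : Cov X k := by
  obtain ⟨g, hgF, hg1, hg2⟩ := hF.dom l hl hlF
  have hgL := hF.sub hgF
  have hgl : g ≠ l := fun h => hlF (h ▸ hgF)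
  obtain ⟨P', Y', R', hP'⟩ := reg_one S R hN hm hsl l
  have hσ1 : 1 ≤ σ := by
    have := S.hE'
    omega
  have hB : 128 * σ ≤ B := by
    have h1 := S.hσ
    have h2 : 64 * σ * 2 ≤ 64 * σ * (2 * Λ + E + 2) := Nat.mul_le_mul_left _ (by omega)
    omega
  have hhi := S.hi
  -- an element of the star different from `g` and `l`
  obtain ⟨g0, hg0A, hg0g, hg0l⟩ : ∃ g0 ∈ A, g0 ≠ g ∧ g0 ≠ l := by
    by_contra hc
    push Not at hc
    have hsub : A ⊆ {g, l} := by
      intro x hx
      by_cases hxg : x = g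
      · simp [hxg]
      · simp [hc x hx hxg]
    have h1 := card_le_card hsub
    have h2 : ({g, l} : Finset V).card ≤ 2 := card_le_two
    omega
  have hg0L := hA.sub hg0A
  -- the centres
  have sl2 : X.d (up X r (tip X r g) (k - 2)) l + h₀ + 2 ≤ k := by
    have h1 : X.d (up X r (tip X r g) (k - 2)) (tip X r l) ≤ k - 2 :=
      up_centre hg1 (by omega)
    have h2 := (up_leg S hgL (j := k - 2) (by omega)).1
    have h3 := out_of_ht h2 l hl
    have h4 := leg_dist hl h3
    omega
  have sg2 : X.d (up X r (tip X r g) (k - 2)) g + h₀ + 2 ≤ k := by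
    have h2 := (up_leg S hgL (j := k - 2) (by omega)).2.2
    omega
  have sg1 : X.d (up X r (tip X r g0) (k - 1)) g0 + h₀ + 1 ≤ k := by
    have h2 := (up_leg S hg0L (j := k - 1) (by omega)).2.2
    omega
  have hserve := (hA.serve S (by omega) (by omega)).2
  let b : ℕ → V := fun a => if a = 1 then up X r (tip X r g0) (k - 1)
    else up X r (tip X r g) (k - 2)
  have hb1 : b 1 = up X r (tip X r g0) (k - 1) := by simp [b]
  have hb2 : b 2 = up X r (tip X r g) (k - 2) := by simp [b]
  have hcardK : ({g, l, g0} : Finset V).card = 3 := by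
    rw [card_insert_of_notMem, card_insert_of_notMem, card_singleton]
    · simp only [mem_singleton]
      exact fun h => hg0l h.symm
    · simp only [mem_insert, mem_singleton, not_or]
      exact ⟨hgl, fun h => hg0g h.symm⟩
  refine star_asm S hρ hρσ hΛσ hMn (Z := Z) (κ := k) (t := 2) (n₁ := 2) (b := b)
    (K := {g, l, g0}) (Q := {l}) (P := P') (ν := fun _ => 0) (by omega) (by omega) hA (by omega)
    le_rfl ?_ (by omega) ?_ ?_ ?_ ?_ ?_ R'.cov (by omega) ?_
  · intro x hx
    simp only [mem_insert, mem_singleton] at hx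
    rcases hx with rfl | rfl | rfl
    · exact hgL
    · exact hl
    · exact hg0L
  · intro x hx
    simp only [mem_singleton] at hx
    simp [hx]
  · intro v hv
    simp only [mem_insert, mem_singleton] at hv
    rcases hv with rfl | rfl | rfl
    · refine ⟨2, by omega, le_rfl, 0, ?_, fix_zero v hgL 0⟩
      rw [hb2]
      omega
    · refine ⟨2, by omega, le_rfl, 0, ?_, fix_zero v hl 0⟩
      rw [hb2]
      omega
    · refine ⟨1, le_rfl, by omega, 0, ?_, fix_zero v hg0L 0⟩
      rw [hb1]
      omega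
  · intro j hj hjK
    simp only [mem_insert, mem_singleton, not_or] at hjK
    obtain ⟨τ, hτ⟩ := hA.clean j hj
    refine ⟨1, le_rfl, by omega, 2, ?_, ?_⟩
    · rw [hb1]
      have h1 := hserve g0 hg0A j hj (fun h => hjK.2.2 h.symm) (k - 1) (by omega)
        (by rw [h0 g0 hg0A]; omega)
      rw [h0 g0 hg0A, h0 j hj] at h1
      omega
    · exact fix_clean (hA.sub hj) hτ (q := 1) (by omega) (Or.inl (h0 j hj))
  · intro v hv hvQ
    simp only [mem_insert, mem_singleton] at hv hvQ
    rcases hv with rfl | rfl | rfl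
    · refine ⟨2, by omega, le_rfl, ?_⟩
      rw [hb2]
      unfold bt
      have h1 := up_up_le (X := X) (r := r) (tip X r v) k (k - 2)
      omega
    · exact absurd rfl hvQ
    · refine ⟨1, le_rfl, by omega, ?_⟩
      rw [hb1]
      unfold bt
      have h1 := up_up_le (X := X) (r := r) (tip X r v) k (k - 1)
      omega
  · intro v hv
    simp only [mem_singleton] at hv
    subst hv
    refine ⟨2, by omega, le_rfl, ?_⟩
    rw [hb2]
    omega
  · intro n hn
    have h1 : (({g, l, g0} : Finset V).filter fun _ => 0 ≤ n) = {g, l, g0} := by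
      rw [filter_true_of_mem]
      intro x _
      exact Nat.zero_le n
    have h2 : (({g, l, g0} : Finset V).filter fun _ => 0 ≤ n).card = 3 := by
      rw [h1, hcardK]
    omega

end Pool.Agent.Helper84.NC
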