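import Pool.Agent.Helper84.NC.PigeonA

/-! # Project NC, module NC-27b: many clean arms at one vertex -/

set_option autoImplicit false

namespace Pool.Agent.Helper84.NC

open Finset Classical

variable {V : Type*} [Fintype V] {X : TM V} {r : V} {k Λ B E h₀ σ : ℕ}

theorem pig_sq {k κ c x sl n y : ℕ} (h : n + y + κ = 2 * k) (h1 : κ ≤ k + c) (h2 : k ≤ κ + c)
    (hx : x + (n * κ + y * κ) ≤ k ^ 2 + sl) : x ≤ c ^ 2 + sl := by
  zify at *
  have e : ((n : ℤ) + y) * κ = (2 * k - κ) * κ := by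
    have : (n : ℤ) + y = 2 * k - κ := by linarith
    rw [this]
  nlinarith

theorem pig_bad {k Λ E ρ b : ℕ} (hρ : 64 * (Λ + 1) ≤ ρ) (h : ρ * b ≤ Λ * k + E * ρ) :
    64 * b ≤ k + 64 * E := by
  by_contra hc
  push Not at hc
  obtain ⟨d, rfl⟩ : ∃ d, b = E + d := ⟨b - E, by omega⟩
  have h1 : ρ * d ≤ Λ * k := by nlinarith
  have h2 : k < 64 * d := by omega
  have h3 : 64 * (Λ + 1) * d ≤ ρ * d := Nat.mul_le_mul_right _ hρ
  nlinarith

omit [Fintype V] in
theorem pig_parent {p q w : V} (h1 : X.d p w = 1) (h2 : X.d q w = 1) (b1 : Bel X r p w)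
    (b2 : Bel X r q w) : p = q := by
  refine bel_eq b1 b2 ?_
  unfold Bel at b1 b2
  omega

theorem exists_star (S : Setup X r k Λ B E h₀ σ) {ρ D Z κ R₁ sl : ℕ}
    (hρ : 64 * (Λ + 1) ≤ ρ) (hρσ : 100 * (ρ + D + Z) ≤ σ) {P Y : Finset V}
    (R : Reg X r k h₀ σ ∅ P Y) (hκ : (legs X r h₀).card + Y.card + κ = 2 * k)
    (hκ1 : κ ≤ k + 2 * ρ) {F N : Finset V} (hF : Far X r k h₀ D F) (hN : N ⊆ F)
    {A : V → Finset V} (hA : ArmSys X r k h₀ σ Z κ F N A)
    (hsum : (legs X r h₀).card * κ ≤ (∑ i ∈ legs X r h₀, (A i).card) + sl)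
    (h1 : 4 * R₁ * ((2 * ρ + 2 * Λ + 2) ^ 2 + sl) ≤ k)
    (h2 : 64 * (N.card + (legs X r h₀ \ F).card) ≤ k) (hR₁ : 1 ≤ R₁) :
    ∃ z A', Star X r h₀ Z κ ρ z A' ∧ R₁ ≤ A'.card := by
  have hlo := card_legs_lo S
  have hE' := S.hE'
  have hB := S.hB
  have hhi := S.hi
  have hσB : 256 * σ ≤ B := by
    have h3 := S.hσ
    have h4 : 4 ≤ 2 * Λ + E + 2 ∨ 2 * Λ + E + 2 < 4 := le_or_gt _ _
    have h5 := S.hΛ
    have h6 : 4 ≤ 2 * Λ + E + 2 := by omega
    calc 256 * σ = 64 * σ * 4 := by ring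
      _ ≤ 64 * σ * (2 * Λ + E + 2) := Nat.mul_le_mul_left _ h6
      _ ≤ B := h3
  have hLn : (legs X r h₀).Nonempty := by
    rw [← Finset.card_pos]
    omega
  have hYc : (legs X r h₀).card + Y.card ≤ k + 2 * Λ + 1 := by
    refine reg_weak S (Q := ∅) ?_ R.sub R.far
    obtain ⟨v, hv⟩ := hLn
    exact ⟨v, hv, Finset.notMem_empty v⟩
  have hκ2 : k ≤ κ + 2 * Λ + 1 := by omega
  -- the sets around the points of `Y`
  have hex : ∀ x : V, ∃ M : Finset V, x ∈ Y → ((∀ w ∈ M, X.d x w + 32 * σ ≤ k) ∧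
      Disjoint M (Sh X r k h₀ σ) ∧ k + 12 * σ ≤ M.card ∧ Cvx X M) := by
    intro x
    by_cases hx : x ∈ Y
    · obtain ⟨M, hM⟩ := reg_strong S (R.sub hx)
      exact ⟨M, fun _ => hM⟩
    · exact ⟨∅, fun h => absurd h hx⟩
  choose M hM using hex
  have hAdisj : ((legs X r h₀ : Finset V) : Set V).PairwiseDisjoint A := fun i hi l hl hne =>
    hA.disj i hi l hl hne
  have hMdisj : ((Y : Finset V) : Set V).PairwiseDisjoint M := by
    intro x hx y hy hne
    change Disjoint (M x) (M y)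
    rw [Finset.disjoint_left]
    intro w hw hw'
    have e1 := (hM x hx).1 w hw
    have e2 := (hM y hy).1 w hw'
    have e3 := R.far x hx y hy hne
    have e4 := X.tri x w y
    have e5 := X.symm w y
    omega
  have hUA := Finset.card_biUnion hAdisj
  have hUM := Finset.card_biUnion hMdisj
  have hUAM : Disjoint ((legs X r h₀).biUnion A) (Y.biUnion M) := by
    rw [Finset.disjoint_left]
    intro w hw hw'
    rw [Finset.mem_biUnion] at hw hw'
    obtain ⟨i, hi, hw⟩ := hw
    obtain ⟨x, hx, hw'⟩ := hw'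
    exact Finset.disjoint_left.1 (hM x hx).2.1 hw' (hA.sh i hi hw)
  set U : Finset V := (legs X r h₀).biUnion A ∪ Y.biUnion M with hU
  set X' : Finset V := Uᶜ with hX'
  have hUc : U.card = (∑ i ∈ legs X r h₀, (A i).card) + ∑ x ∈ Y, (M x).card := by
    rw [hU, Finset.card_union_of_disjoint hUAM, hUA, hUM]
  have hXc : U.card + X'.card ≤ k ^ 2 := by
    rw [hX', Finset.card_add_card_compl]
    exact S.card
  have hMs : Y.card * κ ≤ ∑ x ∈ Y, (M x).card := by
    rw [← smul_eq_mul, ← Finset.sum_const]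
    refine Finset.sum_le_sum fun x hx => ?_
    have := (hM x hx).2.2.1
    omega
  have hX'c : X'.card ≤ (2 * ρ + 2 * Λ + 2) ^ 2 + sl :=
    pig_sq (k := k) (κ := κ) (n := (legs X r h₀).card) (y := Y.card) hκ (by omega) (by omega)
      (by omega)
  have hX'4 : 4 * (X'.card * R₁) ≤ k := by
    refine le_trans ?_ h1
    have := Nat.mul_le_mul_left (4 * R₁) hX'c
    calc 4 * (X'.card * R₁) = 4 * R₁ * X'.card := by ring
      _ ≤ _ := this
  have hX'1 : 4 * X'.card ≤ k := by
    refine le_trans ?_ hX'4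
    have := Nat.mul_le_mul_left X'.card hR₁
    omega
  -- good arms
  set G : Finset V := (F \ N).filter fun i =>
    κ ≤ X.d r (tip X r i) + hz X r h₀ Z i ∧ hz X r h₀ Z i ≤ ρ with hG
  set bad : Finset V := (legs X r h₀).filter fun v =>
    ∃ x, Bel X r v x ∧ ρ < hd X v (tip X r v) x with hbad
  set rt : Finset V := (F \ N).filter fun i => X.d r (tip X r i) + hz X r h₀ Z i < κ with hrt
  have hbadc : 64 * bad.card ≤ k + 64 * E := by
    refine pig_bad hρ (hair_count S (η := ρ) (by omega))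
  have hGF : ∀ i ∈ G, i ∈ F ∧ i ∉ N ∧ κ ≤ X.d r (tip X r i) + hz X r h₀ Z i ∧
      hz X r h₀ Z i ≤ ρ := by
    intro i hi
    rw [hG, Finset.mem_filter, Finset.mem_sdiff] at hi
    exact ⟨hi.1.1, hi.1.2, hi.2.1, hi.2.2⟩
  have hGL : ∀ i ∈ G, i ∈ legs X r h₀ := fun i hi => hF.sub (hGF i hi).1
  have hcov : (legs X r h₀) ⊆ G ∪ ((legs X r h₀ \ F) ∪ (N ∪ (rt ∪ bad))) := by
    intro i hi
    simp only [Finset.mem_union]
    by_cases hiF : i ∈ F
    · by_cases hiN : i ∈ N
      · exact Or.inr (Or.inr (Or.inl hiN))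
      · by_cases hir : X.d r (tip X r i) + hz X r h₀ Z i < κ
        · refine Or.inr (Or.inr (Or.inr (Or.inl ?_)))
          rw [hrt, Finset.mem_filter, Finset.mem_sdiff]
          exact ⟨⟨hiF, hiN⟩, hir⟩
        · by_cases hiz : hz X r h₀ Z i ≤ ρ
          · refine Or.inl ?_
            rw [hG, Finset.mem_filter, Finset.mem_sdiff]
            exact ⟨⟨hiF, hiN⟩, by omega, hiz⟩
          · refine Or.inr (Or.inr (Or.inr (Or.inr ?_)))
            rw [hbad, Finset.mem_filter]
            refine ⟨hi, ?_⟩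
            push Not at hiz
            unfold hz at hiz
            rw [Finset.lt_sup_iff] at hiz
            obtain ⟨x, hx, hx'⟩ := hiz
            rw [Finset.mem_filter] at hx
            exact ⟨x, mem_sub.1 hx.1, hx'⟩
    · exact Or.inr (Or.inl (Finset.mem_sdiff.2 ⟨hi, hiF⟩))
  have hGc : (legs X r h₀).card ≤ G.card + ((legs X r h₀ \ F).card + (N.card + (1 + bad.card))) := by
    have e1 := Finset.card_le_card hcov
    have e2 := Finset.card_union_le G ((legs X r h₀ \ F) ∪ (N ∪ (rt ∪ bad)))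
    have e3 := Finset.card_union_le (legs X r h₀ \ F) (N ∪ (rt ∪ bad))
    have e4 := Finset.card_union_le N (rt ∪ bad)
    have e5 := Finset.card_union_le rt bad
    have e6 : rt.card ≤ 1 := hA.root
    omega
  -- the top vertices
  have hzh : ∀ i ∈ G, hz X r h₀ Z i + h₀ < κ := by
    intro i hi
    have := (hGF i hi).2.2.2
    omega
  have htop : ∀ i ∈ G, up X r (tip X r i) (κ - hz X r h₀ Z i) ∈ X' := by
    intro i hi
    obtain ⟨hiF, hiN, hi1, hi2⟩ := hGF i hi
    rw [hX', Finset.mem_compl, hU, Finset.mem_union, not_or, Finset.mem_biUnion,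
      Finset.mem_biUnion]
    refine ⟨?_, ?_⟩
    · rintro ⟨l, hl, hl'⟩
      exact hA.top i hiF hiN hi1 (hzh i hi) l hl hl'
    · rintro ⟨x, hx, hx'⟩
      refine Finset.disjoint_left.1 (hM x hx).2.1 hx' ?_
      rw [mem_sh]
      refine ⟨i, hGL i hi, Or.inr ⟨?_, Or.inl (up_bel _ _)⟩⟩
      have e1 := up_dist_le (X := X) (r := r) (tip X r i) (κ - hz X r h₀ Z i)
      have e2 := X.symm (tip X r i) (up X r (tip X r i) (κ - hz X r h₀ Z i))
      omega
  -- exits
  set NF : Finset V := G.filter fun i => ¬ Full X r h₀ Z κ A i with hNF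
  set FG : Finset V := G.filter fun i => Full X r h₀ Z κ A i with hFG
  have hsplit : FG.card + NF.card = G.card := Finset.card_filter_add_card_filter_not _
  have hexit : ∀ i : V, ∃ w' w : V, i ∈ NF → (w' ∈ A i ∧ w ∉ A i ∧ X.d w' w = 1 ∧
      Bel X r w' w) := by
    intro i
    by_cases hi : i ∈ NF
    · rw [hNF, Finset.mem_filter] at hi
      obtain ⟨hiF, hiN, hi1, hi2⟩ := hGF i hi.1
      obtain ⟨w', hw', w, hw, hd, hb⟩ := exists_exit (hGL i hi.1)
        (hA.mem i hiF hiN hi1 (hzh i hi.1)) (hzh i hi.1) hi.2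
      exact ⟨w', w, fun _ => ⟨hw', hw, hd, hb⟩⟩
    · exact ⟨r, r, fun h => absurd h hi⟩
  choose p w hpw using hexit
  have hNFG : ∀ i ∈ NF, i ∈ G := fun i hi => by
    rw [hNF, Finset.mem_filter] at hi
    exact hi.1
  have hinj : ∀ i ∈ NF, ∀ j ∈ NF, w i = w j → i = j := by
    intro i hi j hj hij
    by_contra hne
    obtain ⟨a1, -, a3, a4⟩ := hpw i hi
    obtain ⟨b1, -, b3, b4⟩ := hpw j hj
    rw [← hij] at b3 b4
    have e := pig_parent a3 b3 a4 b4
    rw [← e] at b1
    exact Finset.disjoint_left.1 (hA.disj i (hGL i (hNFG i hi)) j (hGL j (hNFG j hj)) hne) a1 b1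
  set N1 : Finset V := NF.filter fun i => w i ∈ X' with hN1
  set N2 : Finset V := NF.filter fun i => ∃ x ∈ Y, w i ∈ M x with hN2
  set N3 : Finset V := NF.filter fun i => ∃ l ∈ N ∪ (legs X r h₀ \ F), w i ∈ A l with hN3
  have c1 : N1.card ≤ X'.card := by
    refine Finset.card_le_card_of_injOn w ?_ ?_
    · intro i hi
      rw [Finset.mem_coe, hN1, Finset.mem_filter] at hi
      exact hi.2
    · intro i hi j hj hij
      rw [Finset.mem_coe, hN1, Finset.mem_filter] at hi hj
      exact hinj i hi.1 j hj.1 hij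
  have c2 : N2.card ≤ Y.card := by
    refine Finset.card_le_card_of_forall_subsingleton (fun i x => w i ∈ M x) ?_ ?_
    · intro i hi
      rw [hN2, Finset.mem_filter] at hi
      obtain ⟨x, hx, hx'⟩ := hi.2
      exact ⟨x, hx, hx'⟩
    · intro x hx i hi j hj
      obtain ⟨hi1, hi2⟩ := hi
      obtain ⟨hj1, hj2⟩ := hj
      rw [hN2, Finset.mem_filter] at hi1 hj1
      have hi3 := hpw i hi1.1
      have hj3 := hpw j hj1.1
      have nm : ∀ l ∈ NF, p l ∉ M x := fun l hl hl' =>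
        Finset.disjoint_left.1 (hM x hx).2.1 hl' (hA.sh l (hGL l (hNFG l hl)) (hpw l hl).1)
      exact hinj i hi1.1 j hj1.1 (exit_unique (hM x hx).2.2.2 hi2 hj2 (nm i hi1.1) (nm j hj1.1)
        hi3.2.2.1 hj3.2.2.1 hi3.2.2.2 hj3.2.2.2)
  have c3 : N3.card ≤ N.card + (legs X r h₀ \ F).card := by
    refine le_trans ?_ (Finset.card_union_le N (legs X r h₀ \ F))
    refine Finset.card_le_card_of_forall_subsingleton (fun i l => w i ∈ A l) ?_ ?_
    · intro i hi
      rw [hN3, Finset.mem_filter] at hi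
      obtain ⟨x, hx, hx'⟩ := hi.2
      exact ⟨x, hx, hx'⟩
    · intro l hl i hi j hj
      obtain ⟨hi1, hi2⟩ := hi
      obtain ⟨hj1, hj2⟩ := hj
      rw [hN3, Finset.mem_filter] at hi1 hj1
      have hi3 := hpw i hi1.1
      have hj3 := hpw j hj1.1
      have hlL : l ∈ legs X r h₀ := by
        rw [Finset.mem_union, Finset.mem_sdiff] at hl
        rcases hl with hl | hl
        · exact hF.sub (hN hl)
        · exact hl.1
      have hl' : l ∉ F ∨ l ∈ N := by
        rw [Finset.mem_union, Finset.mem_sdiff] at hl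
        rcases hl with hl | hl
        · exact Or.inr hl
        · exact Or.inl hl.2
      have nm : ∀ m ∈ NF, p m ∉ A l := fun m hm hm' => by
        have hne : m ≠ l := by
          rintro rfl
          obtain ⟨q1, q2, -, -⟩ := hGF m (hNFG m hm)
          rcases hl' with h | h
          · exact h q1
          · exact q2 h
        exact Finset.disjoint_left.1 (hA.disj m (hGL m (hNFG m hm)) l hlL hne) (hpw m hm).1 hm'
      exact hinj i hi1.1 j hj1.1 (exit_unique (hA.cvx l hlL hl') hi2 hj2 (nm i hi1.1)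
        (nm j hj1.1) hi3.2.2.1 hj3.2.2.1 hi3.2.2.2 hj3.2.2.2)
  have hNFc : NF.card ≤ X'.card + (Y.card + (N.card + (legs X r h₀ \ F).card)) := by
    have e0 : NF ⊆ N1 ∪ (N2 ∪ N3) := by
      intro i hi
      simp only [Finset.mem_union]
      by_cases hx : w i ∈ X'
      · exact Or.inl (by rw [hN1, Finset.mem_filter]; exact ⟨hi, hx⟩)
      · rw [hX', Finset.mem_compl, not_not, hU, Finset.mem_union, Finset.mem_biUnion,
          Finset.mem_biUnion] at hx
        rcases hx with ⟨l, hl, hl'⟩ | hx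
        · refine Or.inr (Or.inr ?_)
          rw [hN3, Finset.mem_filter]
          refine ⟨hi, l, ?_, hl'⟩
          rw [Finset.mem_union, Finset.mem_sdiff]
          by_contra hc
          push Not at hc
          have hlF : l ∈ F := hc.2 hl
          obtain ⟨q1, q2, -, -⟩ := hGF i (hNFG i hi)
          obtain ⟨a1, a2, a3, -⟩ := hpw i hi
          have hne : i ≠ l := by
            rintro rfl
            exact a2 hl'
          exact hA.adj i q1 l hlF q2 hc.1 hne _ a1 _ hl' a3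
        · refine Or.inr (Or.inl ?_)
          rw [hN2, Finset.mem_filter]
          exact ⟨hi, hx⟩
    have e1 := Finset.card_le_card e0
    have e2 := Finset.card_union_le N1 (N2 ∪ N3)
    have e3 := Finset.card_union_le N2 N3
    omega
  have hFGc : X'.card * R₁ < FG.card := by omega
  obtain ⟨z, hz, hz'⟩ := Finset.exists_lt_card_fiber_of_mul_lt_card_of_maps_to
    (f := fun i => up X r (tip X r i) (κ - NC.hz X r h₀ Z i)) (s := FG) (t := X') (n := R₁)
    (fun i hi => htop i (by rw [hFG, Finset.mem_filter] at hi; exact hi.1)) hFGc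
  refine ⟨z, _, star_of_full S (ρ := ρ) (by omega) (by omega) hF.sub hA ?_, hz'.le⟩
  intro i hi
  rw [Finset.mem_filter, hFG, Finset.mem_filter] at hi
  obtain ⟨q1, q2, q3, q4⟩ := hGF i hi.1.1
  exact ⟨⟨q1, q2, q3, q4⟩, hi.1.2, hi.2⟩

end Pool.Agent.Helper84.NC
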