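import Pool.Agent.Helper84.NC.StarAsm

/-! # Project NC, module NC-30: exactly `k` legs, two close tips -/

set_option autoImplicit false

namespace Pool.Agent.Helper84.NC

open Finset Classical

variable {V : Type*} [Fintype V] {X : TM V} {r : V} {k Λ B E h₀ σ : ℕ}

theorem seven_pair (S : Setup X r k Λ B E h₀ σ) {ρ Mn Z : ℕ} (hρ : 64 * (Λ + 1) ≤ ρ)
    (hρσ : 100 * (ρ + Mn) ≤ σ) (hΛσ : 2 * Λ * k ≤ σ * B) (hMn : Λ * k + 1 ≤ Mn * σ)
    (hN : (legs X r h₀).card = k)
    (hW : ∀ Q : Finset V, Q.card ≤ 3 → Wset X r k h₀ σ Q = ∅) {z : V} {A : Finset V}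
    (hA : Star X r h₀ Z k ρ z A) (h0 : ∀ i ∈ A, hz X r h₀ Z i = 0)
    (hA' : 8 * (ρ + Λ + 4) ≤ A.card) (hZ : 4 ≤ Z) {g l : V} (hg : g ∈ legs X r h₀)
    (hl : l ∈ legs X r h₀) (hne : g ≠ l)
    (h : X.d (tip X r g) (tip X r l) + 2 * hz X r h₀ Z l + 3 ≤ 2 * k) : Cov X k := by
  have hB : 128 * σ ≤ B := by
    have h1 := S.hσ
    have h2 : 64 * σ * 2 ≤ 64 * σ * (2 * Λ + E + 2) := Nat.mul_le_mul_left _ (by omega)
    omega
  have hhi := S.hi
  have hE' := S.hE'
  -- the leg `g0`
  obtain ⟨g0, hg0A, hg0⟩ : ∃ g0 ∈ A, g0 ∉ ({g, l} : Finset V) := by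
    by_contra hc
    push Not at hc
    have h1 : A ⊆ ({g, l} : Finset V) := hc
    have h2 := Finset.card_le_card h1
    have h3 := Finset.card_le_two (a := g) (b := l)
    omega
  rw [Finset.mem_insert, Finset.mem_singleton, not_or] at hg0
  have hg0L := hA.sub hg0A
  -- the centres
  obtain ⟨b1, hb1⟩ : ∃ b1, b1 = up X r (tip X r g0) (k - 1) := ⟨_, rfl⟩
  obtain ⟨b2, hb2⟩ : ∃ b2, b2 = pt X g l (k - 2 - h₀) := ⟨_, rfl⟩
  have htt := tip_tip hg hl hne
  have p1 := pt_dist X g l (k - 2 - h₀)
  have p2 := pt_bt X g l (k - 2 - h₀)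
  rw [← hb2] at p1 p2
  have e1 := X.symm b2 g
  obtain ⟨m, hm⟩ : ∃ m, m = X.d (tip X r g) (tip X r l) + 4 - 2 * k := ⟨_, rfl⟩
  have sg : Sv X r k h₀ g b2 2 0 := ⟨0, by omega, fix_zero g hg 0⟩
  have sl1 : X.d b2 l + h₀ + 2 ≤ k + m := by omega
  have sl : Sv X r k h₀ l b2 2 1 := by
    refine ⟨m, sl1, ?_⟩
    rcases Nat.eq_zero_or_pos m with h1 | h1
    · rw [h1]
      exact fix_zero l hl 1
    · exact fix_mono (fix_hz hl (m := m) (Z := Z) (by omega)) le_rfl (by omega)
  have sg0 : Sv X r k h₀ g0 b1 1 0 := by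
    rw [hb1]
    exact self_serve S hg0L (by omega)
  obtain ⟨-, hserve⟩ := Star.serve S hA (by omega) (by omega)
  have hgl : ({g, l} : Finset V) ⊆ {g, l, g0} := by
    intro x hx
    rw [Finset.mem_insert, Finset.mem_singleton] at hx
    rw [Finset.mem_insert, Finset.mem_insert, Finset.mem_singleton]
    tauto
  refine star_asm S (t := 2) (n₁ := 2) hρ hρσ hΛσ hMn (κ := k) (by omega) (by omega) hA
    (by omega) le_rfl (b := fun a => if a = 1 then b1 else b2) (K := {g, l, g0}) (Q := {g, l})
    (P := ∅) ?_ ?_ hgl (ν := fun v => if v = l then 1 else 0) ?_ ?_ ?_ ?_ ?_ ?_ ?_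
  · intro x hx
    rw [Finset.mem_insert, Finset.mem_insert, Finset.mem_singleton] at hx
    rcases hx with rfl | rfl | rfl
    · exact hg
    · exact hl
    · exact hg0L
  · exact (Finset.card_le_three).trans (by omega)
  · intro v hv
    rw [Finset.mem_insert, Finset.mem_insert, Finset.mem_singleton] at hv
    rcases hv with rfl | rfl | rfl
    · refine ⟨2, by omega, by omega, ?_⟩
      simp only [if_neg hne]
      exact sg
    · refine ⟨2, by omega, by omega, ?_⟩
      simp only [if_true]
      exact sl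
    · refine ⟨1, by omega, by omega, ?_⟩
      simp only [if_true, if_neg hg0.2]
      exact sg0
  · intro j hj hjK
    rw [Finset.mem_insert, Finset.mem_insert, Finset.mem_singleton, not_or, not_or] at hjK
    refine ⟨1, by omega, by omega, 2, ?_, ?_⟩
    · have h1 := hserve g0 hg0A j hj (fun hh => hjK.2.2 hh.symm) (k - 1) (by omega)
        (by rw [h0 g0 hg0A]; omega)
      rw [h0 g0 hg0A, h0 j hj, ← hb1] at h1
      simp only [if_true]
      omega
    · have h1 := fix_hz (hA.sub hj) (m := 2) (Z := Z) (by omega)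
      rw [h0 j hj] at h1
      exact h1
  · intro v hv hvQ
    rw [Finset.mem_insert, Finset.mem_singleton, not_or] at hvQ
    rw [Finset.mem_insert, Finset.mem_insert, Finset.mem_singleton] at hv
    have hv' : v = g0 := by tauto
    subst hv'
    refine ⟨1, by omega, by omega, ?_⟩
    simp only [if_true]
    have h1 := up_up_le (X := X) (r := r) (tip X r v) k (k - 1)
    rw [hb1]
    unfold bt
    omega
  · intro v hv
    rw [Finset.mem_insert, Finset.mem_singleton] at hv
    refine ⟨2, by omega, by omega, ?_⟩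
    have h21 : ¬ (2 = 1) := by omega
    simp only [if_neg h21]
    rcases hv with rfl | rfl
    · omega
    · omega
  · intro x hx
    rw [hW {g, l} (Finset.card_le_two.trans (by omega))] at hx
    exact absurd hx (Finset.notMem_empty x)
  · rw [hN, Finset.card_empty]
    omega
  · intro n hn
    rw [hN, Finset.card_empty]
    rcases Nat.eq_zero_or_pos n with h1 | h1
    · subst h1
      have h2 : ({g, g0} : Finset V) ⊆ ({g, l, g0} : Finset V).filter
          (fun v => (if v = l then 1 else 0) ≤ 0) := by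
        intro x hx
        rw [Finset.mem_insert, Finset.mem_singleton] at hx
        rw [Finset.mem_filter, Finset.mem_insert, Finset.mem_insert, Finset.mem_singleton]
        rcases hx with rfl | rfl
        · exact ⟨Or.inl rfl, by rw [if_neg hne]⟩
        · exact ⟨Or.inr (Or.inr rfl), by rw [if_neg hg0.2]⟩
      have h3 := Finset.card_le_card h2
      rw [Finset.card_pair (fun hh => hg0.1 hh.symm)] at h3
      omega
    · have h1' : n = 1 := by omega
      subst h1'
      have h2 : ({g, l, g0} : Finset V) ⊆ ({g, l, g0} : Finset V).filter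
          (fun v => (if v = l then 1 else 0) ≤ 1) := by
        intro x hx
        rw [Finset.mem_filter]
        refine ⟨hx, ?_⟩
        split_ifs <;> omega
      have h3 := Finset.card_le_card h2
      have h4 : ({g, l, g0} : Finset V).card = 3 := by
        rw [Finset.card_insert_of_notMem, Finset.card_pair (fun hh => hg0.2 hh.symm)]
        rw [Finset.mem_insert, Finset.mem_singleton, not_or]
        exact ⟨hne, fun hh => hg0.1 hh.symm⟩
      omega

end Pool.Agent.Helper84.NC
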