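import Pool.Agent.Helper84.NC.StarAsm

/-! # Project NC, module NC-31: exactly `k` legs, a tip close to the centre of the star -/

set_option autoImplicit false

namespace Pool.Agent.Helper84.NC

open Finset Classical

variable {V : Type*} [Fintype V] {X : TM V} {r : V} {k Λ B E h₀ σ : ℕ}

theorem seven_near (S : Setup X r k Λ B E h₀ σ) {ρ Mn Z : ℕ} (hρ : 64 * (Λ + 1) ≤ ρ)
    (hρσ : 100 * (ρ + Mn) ≤ σ) (hΛσ : 2 * Λ * k ≤ σ * B) (hMn : Λ * k + 1 ≤ Mn * σ)
    (hN : (legs X r h₀).card = k)
    (hW : ∀ Q : Finset V, Q.card ≤ 3 → Wset X r k h₀ σ Q = ∅) {z : V} {A : Finset V}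
    (hA : Star X r h₀ Z k ρ z A) (h0 : ∀ i ∈ A, hz X r h₀ Z i = 0)
    (hA' : 8 * (ρ + Λ + 4) ≤ A.card) {l : V} (hl : l ∈ legs X r h₀)
    (h : X.d z (tip X r l) < k) : Cov X k := by
  have hserve := (Star.serve S hA (by omega) (by omega)).1
  have hAne : A.Nonempty := by
    rw [← Finset.card_pos]
    omega
  obtain ⟨i0, hi0⟩ := hAne
  have hzt : h₀ < ht X r z := (hserve i0 hi0).1
  have hlh : ht X r l = h₀ := mem_legs.1 hl
  have hnb : ¬ Bel X r l z := by
    intro hb
    have h1 := ht_bel hb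
    omega
  have hdl : X.d z l + h₀ + 1 ≤ k := by
    have h1 := out_dist hnb (tip_bel (X := X) (r := r) l)
    have h2 := tip_dist (X := X) (r := r) l
    omega
  refine star_asm (κ := k) (t := 1) (n₁ := 1) S hρ hρσ hΛσ hMn (by omega) (by omega) hA
    (by omega) (by omega) (b := fun _ => z) (K := {l}) (Q := {l}) (P := ∅) ?_ ?_ ?_
    (ν := fun _ => 0) ?_ ?_ ?_ ?_ ?_ ?_ ?_
  · intro v hv
    rw [Finset.mem_singleton] at hv
    rw [hv]
    exact hl
  · simp
  · exact Finset.Subset.refl _
  · intro v hv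
    rw [Finset.mem_singleton] at hv
    subst hv
    refine ⟨1, le_refl _, le_refl _, 0, by omega, v, ?_⟩
    intro x hx hx2
    have h1 := ht_le hx
    omega
  · intro j hj _
    obtain ⟨h1, h2, h3⟩ := hserve j hj
    have h4 := h0 j hj
    refine ⟨1, le_refl _, le_refl _, 1, by omega, tip X r j, ?_⟩
    intro x hx hx2
    obtain ⟨τ, hcl⟩ := hA.clean j hj
    rw [h4] at hcl
    have hjh : ht X r j = h₀ := mem_legs.1 (hA.sub hj)
    have h5 := ht_le hx
    have h6 : hd X j (tip X r j) x = 0 := by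
      by_contra hne
      have h7 := (hcl x hx (Nat.pos_of_ne_zero hne)).1
      omega
    obtain ⟨w, hw1, hw2, hw3, hw4⟩ := hd_med (X := X) j (tip X r j) x
    rw [h6] at hw2
    have h8 : x = w := X.eq _ _ hw2
    subst h8
    have h9 := tip_dist (X := X) (r := r) j
    have h10 := X.symm (tip X r j) x
    omega
  · intro v hv hv2
    exact absurd hv hv2
  · intro v hv
    rw [Finset.mem_singleton] at hv
    subst hv
    exact ⟨1, le_refl _, le_refl _, by omega⟩
  · intro x hx
    rw [hW {l} (by simp)] at hx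
    simp at hx
  · simp only [Finset.card_empty]
    omega
  · intro n hn
    have hn0 : n = 0 := by omega
    subst hn0
    have h1 : (({l} : Finset V).filter fun v => (fun _ => 0 : V → ℕ) v ≤ 0).card = 1 := by
      rw [Finset.filter_true_of_mem (fun _ _ => le_refl 0)]
      simp
    rw [Finset.card_empty, h1]
    omega

end Pool.Agent.Helper84.NC
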