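import Pool.Agent.Helper84.NC.SevenC2

/-! # Project NC, module NC-33c: exactly `k` legs, the counting argument -/

set_option autoImplicit false

namespace Pool.Agent.Helper84.NC

open Finset Classical

variable {V : Type*} [Fintype V] {X : TM V} {r : V} {k Λ B E h₀ σ : ℕ}

omit [Fintype V] in
/-- Two paths which overlap in the part from `c` to `w`. -/
theorem core_glue (X : TM V) {x c w z : V} (h1 : X.d x c + X.d c w = X.d x w)
    (h2 : X.d c w + X.d w z = X.d c z) (h3 : c ≠ w) : X.d x c + X.d c z = X.d x z := by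
  obtain ⟨m, a1, a2, a3⟩ := X.med x c z
  have h4 := dist_pos (X := X) h3
  have e1 := X.symm m c
  have e2 := X.symm m w
  have e3 := X.tri x m w
  rcases le_total (X.d c w) (X.d c m) with h | h
  · have h5 := bt_of_bt h2 a2 h
    omega
  · have h5 := bt_of_bt a2 h2 h
    have h6 : X.d c m = 0 := by omega
    have h7 := X.eq c m h6
    subst h7
    omega

omit [Fintype V] in
/-- The two sides of an edge. -/
theorem core_side (X : TM V) {c w : V} (h : X.d c w = 1) (x : V) :
    X.d c x = X.d w x + 1 ∨ X.d w x = X.d c x + 1 := by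
  obtain ⟨m, a1, a2, a3⟩ := X.med c w x
  have e := X.symm m w
  rcases Nat.eq_zero_or_pos (X.d c m) with h0 | h0
  · have h1 := X.eq c m h0
    subst h1
    right
    omega
  · have h1 : X.d m w = 0 := by omega
    have h2 := X.eq m w h1
    subst h2
    left
    omega

/-- The neighbour `w` of the common centre `c` of two legs. -/
theorem core_w (S : Setup X r k Λ B E h₀ σ) {Z : ℕ} (hZ : 4 ≤ Z) {z : V}
    (H : Seven X r k h₀ Z z) (hT : ¬ Triple X r k h₀ σ) {i l : V} (hi : i ∈ legs X r h₀)
    (hl : l ∈ legs X r h₀) (hil : i ≠ l) {c w : V} (hci : cc X r k h₀ Z z i = c)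
    (hcl : cc X r k h₀ Z z l = c) (hwc : pt X c z 1 = w) :
    X.d c w = 1 ∧ X.d c w + X.d w z = X.d c z ∧ ∀ m ∈ legs X r h₀,
      (2 * k ≤ X.d (tip X r i) (tip X r m) + 1 ∧
        2 * k + 2 ≤ X.d (tip X r i) (tip X r m) + 2 * hz X r h₀ Z m ∧
        X.d (tip X r i) (tip X r m) + hz X r h₀ Z i = k + X.d w (tip X r m)) ∨
      (X.d (tip X r m) w = X.d (tip X r m) c + 1 ∧
        X.d (tip X r m) c + X.d c z = X.d (tip X r m) z ∧
        k < X.d (tip X r m) c + hz X r h₀ Z m + 2) := by
  obtain ⟨c1, c2, c3, c4, -⟩ := cc_mem S H hi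
  obtain ⟨d1, d2, -, -, -⟩ := cc_mem S H hl
  rw [hci] at c1 c2 c3 c4
  rw [hcl] at d1 d2
  unfold Bt at c2 d2
  have h1 := pt_dist X c z 1
  have h2 := pt_bt X c z 1
  rw [hwc] at h1 h2
  have h3 := dist_pos (X := X) c3
  have hcw : X.d c w = 1 := by omega
  have hne : c ≠ w := by
    rintro rfl
    rw [X.self] at hcw
    omega
  have hwi : X.d w (tip X r i) = X.d c (tip X r i) + 1 := by
    have e1 := X.tri (tip X r i) w z
    have e2 := X.tri (tip X r i) c w
    have e3 := X.symm (tip X r i) w
    have e4 := X.symm (tip X r i) c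
    omega
  have hwl : X.d w (tip X r l) = X.d c (tip X r l) + 1 := by
    have e1 := X.tri (tip X r l) w z
    have e2 := X.tri (tip X r l) c w
    have e3 := X.symm (tip X r l) w
    have e4 := X.symm (tip X r l) c
    omega
  refine ⟨hcw, h2, ?_⟩
  intro m hm
  rcases core_side X hcw (tip X r m) with h | h
  · left
    have him : i ≠ m := by
      rintro rfl
      omega
    have hlm : l ≠ m := by
      rintro rfl
      omega
    have h4 := core_serve S hZ H hi hl hm hil him hlm (hci.trans hcl.symm) (w := w)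
      (by rw [hci]; exact hcw) (by rw [hci]; exact hwi) (by rw [hci]; exact hwl)
      (by rw [hci]; exact h)
    rcases h4 with h4 | h4
    · exact absurd h4 hT
    · exact h4
  · right
    have e3 := X.symm (tip X r m) w
    have e4 := X.symm (tip X r m) c
    have h5 : X.d (tip X r m) c + X.d c z = X.d (tip X r m) z :=
      core_glue X (by omega) h2 hne
    exact ⟨by omega, h5, c4 m hm h5⟩

theorem seven_core (S : Setup X r k Λ B E h₀ σ) {Z : ℕ} (hZ : 4 ≤ Z) {z : V}
    (H : Seven X r k h₀ Z z) {J : Finset V} (hJ : J ⊆ legs X r h₀) (hJ3 : 3 ≤ J.card)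
    (hJ0 : ∀ j ∈ J, hz X r h₀ Z j = 0 ∧ X.d z (tip X r j) = k) : Triple X r k h₀ σ := by
  by_contra hT
  obtain ⟨Rest, hR, hRest⟩ := core_rest S H
  -- no three legs with the same centre
  have hno3 : ∀ i ∈ legs X r h₀, ∀ l ∈ legs X r h₀, ∀ l' ∈ legs X r h₀, i ≠ l → i ≠ l' →
      l ≠ l' → cc X r k h₀ Z z i = cc X r k h₀ Z z l → cc X r k h₀ Z z i ≠ cc X r k h₀ Z z l' := by
    intro i hi l hl l' hl' h1 h2 h3 h4 h5
    exact hT (core_three S H hi hl hl' h1 h2 h3 h4 h5)
  have hfib : ∀ c, ((legs X r h₀).filter fun i => cc X r k h₀ Z z i = c).card ≤ 2 := by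
    intro c
    by_contra hcon
    obtain ⟨i, h1, l, h2, l', h3, h4, h5, h6⟩ := Finset.two_lt_card.1 (not_le.1 hcon)
    rw [Finset.mem_filter] at h1 h2 h3
    exact hno3 i h1.1 l h2.1 l' h3.1 h4 h5 h6 (h1.2.trans h2.2.symm) (h1.2.trans h3.2.symm)
  obtain ⟨C, hC⟩ : ∃ C, C = (legs X r h₀).image (cc X r k h₀ Z z) := ⟨_, rfl⟩
  obtain ⟨C2, hC2⟩ : ∃ C2, C2 = C.filter
      (fun c => 2 ≤ ((legs X r h₀).filter fun i => cc X r k h₀ Z z i = c).card) := ⟨_, rfl⟩
  have hk : (legs X r h₀).card ≤ C.card + C2.card := by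
    have h1 : (legs X r h₀).card = ∑ c ∈ C,
        ((legs X r h₀).filter fun i => cc X r k h₀ Z z i = c).card := by
      refine Finset.card_eq_sum_card_fiberwise (f := cc X r k h₀ Z z) (t := C) ?_
      intro i hi
      rw [hC]
      exact Finset.mem_coe.2 (Finset.mem_image_of_mem _ hi)
    have h2 : ∑ c ∈ C, ((legs X r h₀).filter fun i => cc X r k h₀ Z z i = c).card ≤
        ∑ c ∈ C, (1 + if 2 ≤ ((legs X r h₀).filter fun i => cc X r k h₀ Z z i = c).card
          then 1 else 0) := by
      refine Finset.sum_le_sum ?_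
      intro c _
      have h3 := hfib c
      split_ifs <;> omega
    have h4 : ∑ c ∈ C, (1 + if 2 ≤ ((legs X r h₀).filter fun i => cc X r k h₀ Z z i = c).card
          then 1 else 0) = C.card + C2.card := by
      rw [Finset.sum_add_distrib, hC2, Finset.card_filter]
      simp
    omega
  have hpair : ∀ c ∈ C2, ∃ i ∈ legs X r h₀, ∃ l ∈ legs X r h₀, i ≠ l ∧
      cc X r k h₀ Z z i = c ∧ cc X r k h₀ Z z l = c := by
    intro c hc
    rw [hC2, Finset.mem_filter] at hc
    obtain ⟨i, hi, l, hl, hil⟩ := Finset.one_lt_card.1 (Nat.lt_of_succ_le hc.2)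
    rw [Finset.mem_filter] at hi hl
    exact ⟨i, hi.1, l, hl.1, hil, hi.2, hl.2⟩
  -- the centres are in the rest
  have hCR : ∀ i ∈ legs X r h₀, cc X r k h₀ Z z i ∈ Rest ∧ cc X r k h₀ Z z i ≠ z := by
    intro i hi
    obtain ⟨-, -, c3, c4, c5⟩ := cc_mem S H hi
    exact ⟨hRest _ c4 fun l hl hb => (c5 l hl hb).2, c3⟩
  have hzR : z ∈ Rest := by
    refine hRest z ?_ ?_
    · intro l hl _
      have h1 := H.near l hl
      have h2 := X.symm z (tip X r l)
      omega
    · intro l hl hb
      have h1 := ht_bel hb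
      have h2 := mem_legs.1 hl
      have h3 := H.out
      omega
  -- the neighbours of the common centres
  have hW : ∀ c ∈ C2, pt X c z 1 ∈ Rest ∧ pt X c z 1 ≠ z ∧ pt X c z 1 ∉ C ∧
      ∀ c' ∈ C2, pt X c z 1 = pt X c' z 1 → c = c' := by
    intro c hc
    obtain ⟨i, hi, l, hl, hil, hci, hcl⟩ := hpair c hc
    obtain ⟨w, hw⟩ : ∃ w, w = pt X c z 1 := ⟨_, rfl⟩
    rw [← hw]
    obtain ⟨a1, a2, a3⟩ := core_w S hZ H hT hi hl hil hci hcl hw.symm
    obtain ⟨b1, b2, b3⟩ := core_pair S H hi hl hil (hci.trans hcl.symm)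
    rw [hci] at b3
    refine ⟨hRest w ?_ ?_, ?_, ?_, ?_⟩
    · intro m hm _
      have e := X.symm w (tip X r m)
      rcases a3 m hm with h | h
      · omega
      · omega
    · intro m hm hb
      have h1 := out_dist (b3 m hm) hb
      have h2 : c ≠ m := by
        rintro rfl
        exact b3 _ hm (bel_refl _)
      have h3 := dist_pos (X := X) h2
      have h4 := X.eq m w (by omega)
      subst h4
      refine hd_self ?_
      rw [X.self]
      omega
    · intro hwz
      -- a leg of `J` which is different from `i` and `l`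
      obtain ⟨j, hj, hj2⟩ : ∃ j ∈ J, j ∉ ({i, l} : Finset V) := by
        by_contra hcon
        push Not at hcon
        have h5 : J ⊆ ({i, l} : Finset V) := hcon
        have h6 := Finset.card_le_card h5
        have h7 : ({i, l} : Finset V).card ≤ 2 := Finset.card_le_two
        omega
      rw [Finset.mem_insert, Finset.mem_singleton, not_or] at hj2
      obtain ⟨j1, j2⟩ := hJ0 j hj
      have hjL := hJ hj
      have e1 := X.symm z (tip X r j)
      rcases a3 j hjL with h | h
      · rw [hwz] at h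
        omega
      · obtain ⟨c1, c2, -, -, -⟩ := cc_mem S H hjL
        unfold Bt at c2
        rw [hwz] at h
        have h8 : cc X r k h₀ Z z j = c := by
          refine X.uniq (tip X r j) z _ _ c2 h.2.1 ?_
          omega
        exact hno3 i hi l hl j hjL hil (fun h => hj2.1 h.symm) (fun h => hj2.2 h.symm)
          (hci.trans hcl.symm) (hci.trans h8.symm)
    · intro hwC
      rw [hC, Finset.mem_image] at hwC
      obtain ⟨m, hm, hmw⟩ := hwC
      obtain ⟨c1, -, -, -, -⟩ := cc_mem S H hm
      rw [hmw] at c1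
      have e1 := X.symm w (tip X r m)
      rcases a3 m hm with h | h
      · omega
      · omega
    · intro c' hc' hww
      by_contra hcc
      obtain ⟨i', hi', l', hl', hil', hci', hcl'⟩ := hpair c' hc'
      obtain ⟨a1', a2', a3'⟩ := core_w S hZ H hT hi' hl' hil' hci' hcl' hww.symm
      obtain ⟨c1, c2, -, -, -⟩ := cc_mem S H hi'
      rw [hci'] at c1 c2
      unfold Bt at c2
      have e1 := X.symm w (tip X r i')
      -- the path from the tip of `i'` to `w` passes `c'`
      have h9 : X.d (tip X r i') w = X.d (tip X r i') c' + 1 := by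
        have f1 := X.tri (tip X r i') w z
        have f2 := X.tri (tip X r i') c' w
        omega
      rcases a3 i' hi' with h | h
      · omega
      · apply hcc
        refine X.uniq (tip X r i') z _ _ h.2.1 c2 ?_
        omega
  -- counting
  have hinj : (C2.image fun c => pt X c z 1).card = C2.card := by
    refine Finset.card_image_of_injOn ?_
    intro c hc c' hc' hcc
    exact (hW c hc).2.2.2 c' hc' hcc
  have hdis : Disjoint C (C2.image fun c => pt X c z 1) := by
    rw [Finset.disjoint_left]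
    intro x hx hx'
    rw [Finset.mem_image] at hx'
    obtain ⟨c, hc, rfl⟩ := hx'
    exact (hW c hc).2.2.1 hx
  have hzn : z ∉ C ∪ (C2.image fun c => pt X c z 1) := by
    rw [Finset.mem_union, not_or]
    constructor
    · intro h
      rw [hC, Finset.mem_image] at h
      obtain ⟨i, hi, hiz⟩ := h
      exact (hCR i hi).2 hiz
    · intro h
      rw [Finset.mem_image] at h
      obtain ⟨c, hc, hcz⟩ := h
      exact (hW c hc).2.1 hcz
  have hsub : insert z (C ∪ (C2.image fun c => pt X c z 1)) ⊆ Rest := by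
    intro x hx
    rw [Finset.mem_insert, Finset.mem_union, Finset.mem_image] at hx
    rcases hx with rfl | hx | ⟨c, hc, rfl⟩
    · exact hzR
    · rw [hC, Finset.mem_image] at hx
      obtain ⟨i, hi, rfl⟩ := hx
      exact (hCR i hi).1
    · exact (hW c hc).1
  have hfin := Finset.card_le_card hsub
  rw [Finset.card_insert_of_notMem hzn, Finset.card_union_of_disjoint hdis, hinj] at hfin
  have hkk := H.card
  omega

end Pool.Agent.Helper84.NC
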