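import Pool.Agent.Helper84.NC.StarAsm

/-! # Project NC, module NC-32: exactly `k` legs, a ball which serves three of them -/

set_option autoImplicit false

namespace Pool.Agent.Helper84.NC

open Finset Classical

variable {V : Type*} [Fintype V] {X : TM V} {r : V} {k Λ B E h₀ σ : ℕ}

theorem seven_triple (S : Setup X r k Λ B E h₀ σ) {ρ Mn Z : ℕ} (hρ : 64 * (Λ + 1) ≤ ρ)
    (hρσ : 100 * (ρ + Mn) ≤ σ) (hΛσ : 2 * Λ * k ≤ σ * B) (hMn : Λ * k + 1 ≤ Mn * σ)
    (hN : (legs X r h₀).card = k)
    (hW : ∀ Q : Finset V, Q.card ≤ 3 → Wset X r k h₀ σ Q = ∅) {z : V} {A : Finset V}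
    (hA : Star X r h₀ Z k ρ z A) (h0 : ∀ i ∈ A, hz X r h₀ Z i = 0)
    (hA' : 8 * (ρ + Λ + 4) ≤ A.card) {i l l' c : V} (hi : i ∈ legs X r h₀)
    (hl : l ∈ legs X r h₀) (hl' : l' ∈ legs X r h₀) (hil : i ≠ l) (hil' : i ≠ l')
    (hll' : l ≠ l') (h1 : X.d c i + h₀ + 1 ≤ k) (h2 : X.d c l + h₀ + 1 ≤ k)
    (h3 : Sv X r k h₀ l' c 1 2) (h4 : X.d c l' + h₀ + 1 ≤ k + 8 * σ) : Cov X k := by
  have hσB := S.hσ
  have hhi := S.hi
  have hE' := S.hE'
  have hB1 : 64 * σ ≤ B := by
    refine le_trans ?_ hσB
    have : 1 ≤ 2 * Λ + E + 2 := by omega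
    exact Nat.le_mul_of_pos_right _ (by omega)
  have hσ1 : 100 ≤ σ := by omega
  -- a further leg of the star
  obtain ⟨g, hgA, hgQ⟩ : ∃ g ∈ A, g ∉ ({i, l, l'} : Finset V) := by
    by_contra hcon
    push Not at hcon
    have h5 : A ⊆ ({i, l, l'} : Finset V) := hcon
    have h6 := card_le_card h5
    have h7 : ({i, l, l'} : Finset V).card ≤ 3 := card_le_three
    omega
  have hg := hA.sub hgA
  have hgi : i ≠ g := by
    rintro rfl
    simp at hgQ
  have hgl : l ≠ g := by
    rintro rfl
    simp at hgQ
  have hgl' : l' ≠ g := by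
    rintro rfl
    simp at hgQ
  have hQ3 : ({i, l, l'} : Finset V).card ≤ 3 := card_le_three
  obtain ⟨-, hserve⟩ := hA.serve S (by omega) (by omega)
  refine star_asm S (ρ := ρ) (Mn := Mn) (Z := Z) (κ := k) (t := 2) (n₁ := 3) hρ hρσ hΛσ hMn
    (by omega) (by omega) hA (by omega) le_rfl
    (b := fun a => if a = 1 then c else up X r (tip X r g) (k - 2))
    (K := {i, l, l', g}) (Q := {i, l, l'}) (P := ∅)
    (ν := fun v => if v = l' then 2 else 0) ?_ ?_ ?_ ?_ ?_ ?_ ?_ ?_ ?_ ?_
  · intro v hv
    simp only [mem_insert, mem_singleton] at hv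
    rcases hv with rfl | rfl | rfl | rfl
    · exact hi
    · exact hl
    · exact hl'
    · exact hg
  · exact card_le_four
  · intro v hv
    simp only [mem_insert, mem_singleton] at hv ⊢
    tauto
  · intro v hv
    simp only [mem_insert, mem_singleton] at hv
    rcases hv with rfl | rfl | rfl | rfl
    · refine ⟨1, le_rfl, by omega, 0, ?_, ?_⟩
      · simpa using h1
      · simp only [if_neg hil']
        exact fix_zero _ hi 0
    · refine ⟨1, le_rfl, by omega, 0, ?_, ?_⟩
      · simpa using h2
      · simp only [if_neg hll']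
        exact fix_zero _ hl 0
    · refine ⟨1, le_rfl, by omega, ?_⟩
      simpa using h3
    · refine ⟨2, by omega, le_rfl, ?_⟩
      have h5 := self_serve S hg (a := 2) (by omega)
      have h6 : ¬ v = l' := fun h => hgl' h.symm
      simpa [h6] using h5
  · intro j hj hjK
    have hgj : g ≠ j := by
      rintro rfl
      apply hjK
      simp
    have h5 := hserve g hgA j hj hgj (k - 2) (by omega) (by rw [h0 g hgA]; omega)
    rw [h0 g hgA, h0 j hj] at h5
    refine ⟨2, by omega, le_rfl, 4, ?_, ?_⟩
    · rw [if_neg (by omega)]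
      omega
    · obtain ⟨τ, hτ⟩ := hA.clean j hj
      exact fix_clean (hA.sub hj) hτ (q := 2) (by omega) (Or.inl (h0 j hj))
  · intro v hv hvQ
    simp only [mem_insert, mem_singleton] at hv hvQ
    push Not at hvQ
    rcases hv with rfl | rfl | rfl | rfl
    · exact absurd rfl hvQ.1
    · exact absurd rfl hvQ.2.1
    · exact absurd rfl hvQ.2.2
    · refine ⟨2, by omega, le_rfl, ?_⟩
      have h5 := up_up_le (X := X) (r := r) (tip X r v) k (k - 2)
      rw [if_neg (by omega)]
      unfold bt
      omega
  · intro v hv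
    refine ⟨1, le_rfl, by omega, ?_⟩
    simp only [if_true]
    simp only [mem_insert, mem_singleton] at hv
    rcases hv with rfl | rfl | rfl
    · omega
    · omega
    · exact h4
  · intro x hx
    rw [hW _ hQ3] at hx
    simp at hx
  · rw [hN]
    simp
    omega
  · intro n hn
    rw [hN]
    have hne1 : i ∉ ({l, g} : Finset V) := by
      simp only [mem_insert, mem_singleton]
      tauto
    have hne2 : l ∉ ({g} : Finset V) := by
      simp only [mem_singleton]
      exact hgl
    have hne3 : l' ∉ ({i, l, g} : Finset V) := by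
      simp only [mem_insert, mem_singleton]
      rintro (h | h | h)
      · exact hil' h.symm
      · exact hll' h.symm
      · exact hgl' h
    have h7 : ({i, l, g} : Finset V).card = 3 := by
      rw [card_insert_of_notMem hne1, card_insert_of_notMem hne2, card_singleton]
    rcases Nat.lt_or_ge n 2 with h8 | h8
    · have h9 : ({i, l, g} : Finset V) ⊆
          ({i, l, l', g} : Finset V).filter (fun v => (if v = l' then 2 else 0) ≤ n) := by
        intro v hv
        simp only [mem_filter, mem_insert, mem_singleton] at hv ⊢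
        have hvl : v ≠ l' := by
          rintro rfl
          exact hne3 (by simpa using hv)
        refine ⟨by tauto, ?_⟩
        rw [if_neg hvl]
        omega
      have h10 := card_le_card h9
      simp only [card_empty]
      omega
    · have h9 : insert l' ({i, l, g} : Finset V) ⊆
          ({i, l, l', g} : Finset V).filter (fun v => (if v = l' then 2 else 0) ≤ n) := by
        intro v hv
        simp only [mem_filter, mem_insert, mem_singleton] at hv ⊢
        refine ⟨by tauto, ?_⟩
        split_ifs
        · exact h8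
        · omega
      have h10 := card_le_card h9
      rw [card_insert_of_notMem hne3, h7] at h10
      simp only [card_empty]
      omega

end Pool.Agent.Helper84.NC
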