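import Pool.Agent.Helper84.NC.StarAsm

/-! # Project NC, module NC-28: a star of clean arms -/

set_option autoImplicit false

namespace Pool.Agent.Helper84.NC

open Finset Classical

variable {V : Type*} [Fintype V] {X : TM V} {r : V} {k Λ B E h₀ σ : ℕ}

theorem case_six (S : Setup X r k Λ B E h₀ σ) {ρ Mn Z κ : ℕ} (hρ : 64 * (Λ + 1) ≤ ρ)
    (hρσ : 100 * (ρ + Mn) ≤ σ) (hΛσ : 2 * Λ * k ≤ σ * B) (hMn : Λ * k + 1 ≤ Mn * σ)
    {P Y : Finset V} (R : Reg X r k h₀ σ ∅ P Y)
    (hκ : (legs X r h₀).card + Y.card + κ = 2 * k) (hκ1 : κ ≤ k + 2 * ρ) {z : V}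
    {A : Finset V} (hA : Star X r h₀ Z κ ρ z A) (hA' : 16 * (ρ + Λ + 4) ≤ A.card) :
    Cov X k ∨ (κ = k ∧ ∃ A', Star X r h₀ Z κ ρ z A' ∧ A.card ≤ 2 * A'.card ∧
      ∀ i ∈ A', hz X r h₀ Z i = 0) := by
  have hne : A.Nonempty := card_pos.1 (by omega)
  obtain ⟨j0, hj0⟩ := hne
  have hYk := reg_weak S (Q := ∅) ⟨j0, hA.sub hj0, notMem_empty _⟩ R.sub R.far
  have hPY := R.le
  have hκ2 : k ≤ κ + 2 * Λ + 1 := by omega
  have hσ1 : 100 ≤ σ := by
    have := S.hE'
    omega
  have hBσ : 64 * σ ≤ B := by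
    have h1 := S.hσ
    have h2 : 64 * σ * 1 ≤ 64 * σ * (2 * Λ + E + 2) := Nat.mul_le_mul_left _ (by omega)
    omega
  have hhi := S.hi
  have hkh : h₀ < k - 1 := by omega
  have hsv := hA.serve S (by omega) hκ2
  obtain ⟨hsv1, hsv2⟩ := hsv
  have run : ∀ (n₁ : ℕ) (c : V) (K : Finset V) (ν : V → ℕ) (A' : Finset V), A' ⊆ A →
      2 * ρ + 2 * Λ + 12 ≤ A'.card → K ⊆ legs X r h₀ → K.card ≤ 1 →
      (∀ v ∈ K, Sv X r k h₀ v c 1 (ν v)) →
      (∀ j ∈ A', j ∉ K → Sv X r k h₀ j c 1 n₁) →
      (∀ v ∈ K, X.d (bt X r k v) c ≤ 2 * σ) →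
      (∀ n, n < n₁ → n + 1 + P.card + (legs X r h₀).card ≤
        k + (K.filter fun v => ν v ≤ n).card) → Cov X k := by
    intro n₁ c K ν A' hAA hc hK hK1 h1 h2 h3 h4
    exact star_asm S (t := 1) (n₁ := n₁) (b := fun _ => c) (K := K) (Q := ∅) (P := P) (ν := ν)
      hρ hρσ hΛσ hMn hκ1 hκ2 (hA.mono hAA) hc (by omega) hK (by omega) (empty_subset _)
      (fun v hv => ⟨1, le_rfl, le_rfl, h1 v hv⟩)
      (fun j hj hjK => ⟨1, le_rfl, le_rfl, h2 j hj hjK⟩)
      (fun v hv _ => ⟨1, le_rfl, le_rfl, h3 v hv⟩)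
      (fun v hv => absurd hv (notMem_empty _)) R.cov (by omega) h4
  -- legs with a large hair
  by_cases ha : 2 * ρ + 2 * Λ + 12 ≤ (A.filter fun i => κ < k + hz X r h₀ Z i).card
  · left
    refine run 0 z ∅ (fun _ => 0) _ (filter_subset _ _) ha (empty_subset _) (by simp)
      (fun v hv => absurd hv (notMem_empty _)) ?_ (fun v hv => absurd hv (notMem_empty _))
      (fun n hn => absurd hn (Nat.not_lt_zero _))
    intro j hj _
    rw [mem_filter] at hj
    have h1 := (hsv1 j hj.1).2.2
    exact ⟨0, by omega, fix_zero j (hA.sub hj.1) 0⟩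
  push Not at ha
  set A1 := A.filter fun i => ¬ κ < k + hz X r h₀ Z i with hA1
  have hcard1 : (A.filter fun i => κ < k + hz X r h₀ Z i).card + A1.card = A.card :=
    card_filter_add_card_filter_not _
  have hA1A : A1 ⊆ A := filter_subset _ _
  have hA1m : ∀ i ∈ A1, k + hz X r h₀ Z i ≤ κ := fun i hi => not_lt.1 (mem_filter.1 hi).2
  have hne1 : A1.Nonempty := card_pos.1 (by omega)
  obtain ⟨g, hg, hgmax⟩ := exists_max_image A1 (hz X r h₀ Z) hne1
  have hgA := hA1A hg
  have hgκ := hA1m g hg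
  obtain ⟨y, hy⟩ : ∃ y, κ = k + y := ⟨κ - k, by omega⟩
  have hPk : P.card + (legs X r h₀).card + y ≤ k := by omega
  by_cases h1 : 1 ≤ hz X r h₀ Z g
  · left
    -- not exceptional
    by_cases hb : 2 * ρ + 2 * Λ + 12 ≤ (A1.filter fun i => i = g ∨
        Fix X r h₀ i (2 * y + 2 - hz X r h₀ Z g - hz X r h₀ Z i) (y + 1)).card
    · refine run (y + 1) (up X r (tip X r g) (k - 1)) {g} (fun _ => 0) _
        ((filter_subset _ _).trans hA1A) hb (singleton_subset_iff.2 (hA.sub hgA)) (by simp)
        ?_ ?_ ?_ ?_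
      · intro v hv
        rw [mem_singleton] at hv
        subst hv
        have h2 := (up_leg S (hA.sub hgA) hkh).2.2
        exact ⟨0, by omega, fix_zero _ (hA.sub hgA) 0⟩
      · intro j hj hjg
        rw [mem_singleton] at hjg
        rw [mem_filter] at hj
        have h2 := hsv2 g hgA j (hA1A hj.1) (Ne.symm hjg) (k - 1) hkh (by omega)
        have h3 := hA1m j hj.1
        have h4 := hj.2.resolve_left hjg
        exact ⟨_, by omega, h4⟩
      · intro v hv
        rw [mem_singleton] at hv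
        subst hv
        have h2 := up_up_le (X := X) (r := r) (tip X r v) k (k - 1)
        rw [bt]
        omega
      · intro n hn
        have h2 : (({g} : Finset V).filter fun _ => 0 ≤ n).card = 1 := by
          simp
        rw [h2]
        omega
    · push Not at hb
      set A2 := A1.filter fun i => ¬ (i = g ∨
        Fix X r h₀ i (2 * y + 2 - hz X r h₀ Z g - hz X r h₀ Z i) (y + 1)) with hA2
      have hcard2 : (A1.filter fun i => i = g ∨
          Fix X r h₀ i (2 * y + 2 - hz X r h₀ Z g - hz X r h₀ Z i) (y + 1)).card + A2.card =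
          A1.card := card_filter_add_card_filter_not _
      have hA2A : A2 ⊆ A1 := filter_subset _ _
      refine run y z ∅ (fun _ => 0) A2 (hA2A.trans hA1A) (by omega) (empty_subset _) (by simp)
        (fun v hv => absurd hv (notMem_empty _)) ?_ (fun v hv => absurd hv (notMem_empty _)) ?_
      · intro j hj _
        have hj1 := hA2A hj
        have hjA := hA1A hj1
        have h2 := (mem_filter.1 hj).2
        push Not at h2
        obtain ⟨τ, hτ⟩ := hA.clean j hjA
        have h3 := hA1m j hj1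
        have h4 := hgmax j hj1
        have h5 : ¬ (hz X r h₀ Z j = 0 ∨
            2 * y + 2 - hz X r h₀ Z g - hz X r h₀ Z j ≤ τ ∨
            τ + 2 * hz X r h₀ Z j ≤ 2 * y) := by
          intro h6
          exact h2.2 (fix_clean (hA.sub hjA) hτ (by omega) h6)
        push Not at h5
        obtain ⟨q, hq⟩ : ∃ q, y = q + 1 := ⟨y - 1, by omega⟩
        have h7 : Fix X r h₀ j (y + 1 - hz X r h₀ Z j) (q + 1) :=
          fix_clean (hA.sub hjA) hτ (by omega) (by omega)
        have h8 := (hsv1 j hjA).2.2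
        rw [hq]
        refine ⟨_, ?_, h7⟩
        omega
      · intro n hn
        omega
  · -- all hairs are short
    have h0 : ∀ i ∈ A1, hz X r h₀ Z i = 0 := fun i hi => by
      have := hgmax i hi
      omega
    rcases Nat.lt_or_ge y 1 with hy1 | hy1
    · right
      exact ⟨by omega, A1, hA.mono hA1A, by omega, h0⟩
    left
    rcases Nat.lt_or_ge y 2 with hy2 | hy2
    · -- y = 1
      have hk0 : h₀ < k := by omega
      refine run 2 (up X r (tip X r g) k) {g} (fun _ => 1) A1 hA1A (by omega)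
        (singleton_subset_iff.2 (hA.sub hgA)) (by simp) ?_ ?_ ?_ ?_
      · intro v hv
        rw [mem_singleton] at hv
        subst hv
        have h2 := (up_leg S (hA.sub hgA) hk0).2.2
        obtain ⟨τ, hτ⟩ := hA.clean v hgA
        exact ⟨1, by omega, fix_clean (q := 0) (hA.sub hgA) hτ (by omega)
          (Or.inl (h0 v hg))⟩
      · intro j hj hjg
        rw [mem_singleton] at hjg
        have h2 := hsv2 g hgA j (hA1A hj) (Ne.symm hjg) k hk0 (by omega)
        obtain ⟨τ, hτ⟩ := hA.clean j (hA1A hj)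
        have h3 := h0 j hj
        have h4 := h0 g hg
        exact ⟨3, by omega, fix_clean (q := 1) (hA.sub (hA1A hj)) hτ (by omega)
          (Or.inl h3)⟩
      · intro v hv
        rw [mem_singleton] at hv
        subst hv
        rw [bt, X.self]
        omega
      · intro n hn
        rcases Nat.lt_or_ge n 1 with h2 | h2
        · omega
        · have h3 : (({g} : Finset V).filter fun _ => 1 ≤ n).card = 1 := by
            rw [filter_true_of_mem fun _ _ => h2, card_singleton]
          rw [h3]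
          omega
    · -- y ≥ 2
      refine run y z ∅ (fun _ => 0) A1 hA1A (by omega) (empty_subset _) (by simp)
        (fun v hv => absurd hv (notMem_empty _)) ?_ (fun v hv => absurd hv (notMem_empty _)) ?_
      · intro j hj _
        obtain ⟨τ, hτ⟩ := hA.clean j (hA1A hj)
        obtain ⟨q, hq⟩ : ∃ q, y = q + 1 := ⟨y - 1, by omega⟩
        have h3 := h0 j hj
        have h7 : Fix X r h₀ j (y + 1) (q + 1) :=
          fix_clean (hA.sub (hA1A hj)) hτ (by omega) (Or.inl h3)
        have h8 := (hsv1 j (hA1A hj)).2.2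
        rw [hq]
        refine ⟨_, ?_, h7⟩
        omega
      · intro n hn
        omega

end Pool.Agent.Helper84.NC
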