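import Pool.Agent.Helper84.NC.CaseA
import Pool.Agent.Helper84.NC.Pigeon
import Pool.Agent.Helper84.NC.Six
import Pool.Agent.Helper84.NC.NonF
import Pool.Agent.Helper84.NC.SevenA
import Pool.Agent.Helper84.NC.SevenB
import Pool.Agent.Helper84.NC.SevenT
import Pool.Agent.Helper84.NC.SevenC

/-! # Project NC, module NC-34: assembly of the cases -/

set_option autoImplicit false

namespace Pool.Agent.Helper84.NC

open Finset Classical

variable {V : Type*} [Fintype V] {X : TM V} {r : V} {k Λ B E h₀ σ : ℕ}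

/-- Exactly `k` legs. -/
theorem case_seven (S : Setup X r k Λ B E h₀ σ) {ρ Mn Z : ℕ} (hρ : 64 * (Λ + 1) ≤ ρ)
    (hρσ : 100 * (ρ + Mn) ≤ σ) (hΛσ : 2 * Λ * k ≤ σ * B) (hMn : Λ * k + 1 ≤ Mn * σ)
    (hN : (legs X r h₀).card = k)
    (hW : ∀ Q : Finset V, Q.card ≤ 3 → Wset X r k h₀ σ Q = ∅) {z : V} {A : Finset V}
    (hA : Star X r h₀ Z k ρ z A) (h0 : ∀ i ∈ A, hz X r h₀ Z i = 0)
    (hA' : 8 * (ρ + Λ + 4) ≤ A.card) (hZ : 4 ≤ Z) : Cov X k := by
  by_cases h1 : ∃ l ∈ legs X r h₀, X.d z (tip X r l) < k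
  · obtain ⟨l, hl, h2⟩ := h1
    exact seven_near S hρ hρσ hΛσ hMn hN hW hA h0 hA' hl h2
  by_cases h2 : ∃ g ∈ legs X r h₀, ∃ l ∈ legs X r h₀, g ≠ l ∧
      X.d (tip X r g) (tip X r l) + 2 * hz X r h₀ Z l + 3 ≤ 2 * k
  · obtain ⟨g, hg, l, hl, hne, h3⟩ := h2
    exact seven_pair S hρ hρσ hΛσ hMn hN hW hA h0 hA' hZ hg hl hne h3
  push Not at h1 h2
  have hzh : h₀ < ht X r z := by
    obtain ⟨i, hi⟩ : A.Nonempty := by
      rw [← Finset.card_pos]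
      omega
    have h3 := hA.dist i hi
    have h4 := hA.bel i hi
    have h5 := ht_le h4
    have h6 := h0 i hi
    have h7 := S.hi
    have h8 := S.hσ
    have h9 := S.hE'
    have h10 : 0 < B := by
      refine lt_of_lt_of_le ?_ h8
      have : 0 < σ := by omega
      positivity
    omega
  obtain ⟨i, hi, l, hl, l', hl', hil, hil', hll', c, g1, g2, g3, g4⟩ := seven_core S hZ
    ⟨hN, hzh, h1, fun g hg l hl hne => by have := h2 g hg l hl hne; omega⟩ hA.sub (by omega)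
    (fun j hj => ⟨h0 j hj, by have := hA.dist j hj; have := h0 j hj; omega⟩)
  exact seven_triple S hρ hρσ hΛσ hMn hN hW hA h0 hA' hi hl hl' hil hil' hll' g1 g2 g3 g4

theorem main_case (S : Setup X r k Λ B E h₀ σ) {ρ Mn D Z ρ' T M μ₀ : ℕ}
    (hρ : 64 * (Λ + 1) ≤ ρ) (hρσ : 100 * (ρ + D + M + T + ρ' + Mn + Z) ≤ σ)
    (hΛσ : 2 * Λ * k ≤ σ * B) (hMn : Λ * k + 1 ≤ Mn * σ) (hD : 4 * (ρ + Λ + 1) ≤ D)
    (hT : 2 * ρ + 2 * Λ + 4 ≤ T) (hMT : D + 2 * ρ + 2 * ρ' + 2 * T + 2 * Λ + 8 ≤ M)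
    (hZ : 4 * ρ + 2 * M + 4 ≤ Z)
    (hμ : 8 * (Λ * k + 1) + ρ' * (E + 12 * (T + Mn + 2) ^ 2 + M + Mn + 8) ≤ ρ' * μ₀)
    (hμ' : 4 * μ₀ * D < 12 * σ)
    (hbig : 64 * (ρ + Λ + 4) * ((2 * ρ + 2 * Λ + 2) ^ 2 +
      (2 * ρ + 2 * Λ + 4) * (2 * B + 2 * ρ) + μ₀ * (8 * ρ + 4 * D)) ≤ k)
    (hbig' : 64 * (2 * μ₀ + 2 * ρ + 2 * Λ + 2) ≤ k) :
    Cov X k := by
  have hk1 := S.hB
  have hk2 := S.hσ
  have hk3 := S.hE'
  have hσB : 64 * σ ≤ B := by
    refine le_trans ?_ hk2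
    exact Nat.le_mul_of_pos_right _ (by omega)
  obtain ⟨P, Y, R⟩ := exists_reg S ∅
  by_cases h1 : (legs X r h₀).card + Y.card + 2 * ρ + 1 ≤ k
  · exact case_top S hρ (by omega) hΛσ hMn (by omega) R h1
  have hlo := card_legs_lo S
  have hhi := card_legs_hi S
  have hex : ∃ v ∈ legs X r h₀, v ∉ (∅ : Finset V) := by
    have h2 : 0 < (legs X r h₀).card := by omega
    obtain ⟨v, hv⟩ := Finset.card_pos.1 h2
    exact ⟨v, hv, Finset.notMem_empty v⟩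
  have hweak := reg_weak S hex R.sub R.far
  obtain ⟨κ, hκ⟩ : ∃ κ, (legs X r h₀).card + Y.card + κ = 2 * k :=
    ⟨2 * k - ((legs X r h₀).card + Y.card), by omega⟩
  have hκ1 : κ ≤ k + 2 * ρ := by omega
  have hκ2 : k ≤ κ + 2 * Λ + 1 := by omega
  obtain ⟨F, hF⟩ : ∃ F, Far X r k h₀ D F := exists_far (by omega)
  by_cases h2 : 2 * ρ + 2 * Λ + 2 ≤ (legs X r h₀ \ F).card
  · exact case_drop S hρ (by omega) hΛσ hMn (by omega) hD hF h2
  obtain ⟨𝓜, hM, hmax⟩ := exists_mat F (Rel' X r h₀ Z κ)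
  by_cases h3 : μ₀ ≤ 𝓜.card
  · exact case_alpha S hρ (by omega) hΛσ hMn hT hMT hZ R hκ hκ1 hF hM
      (hμ.trans (Nat.mul_le_mul_left _ h3))
  have hN : touched 𝓜 ⊆ F := by
    intro v hv
    simp only [touched, Finset.mem_union, Finset.mem_image] at hv
    rcases hv with ⟨e, he, rfl⟩ | ⟨e, he, rfl⟩
    · exact hM.left e he
    · exact hM.right e he
  have hNc := card_touched 𝓜
  obtain ⟨A, hA, hsum, hsum'⟩ := exists_arms S hF hN (by omega) (by omega : κ ≤ k + σ)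
    (by omega) (fun i hi l hl hiN hlN hne => rel_or (hmax i hi l hl hiN hlN hne)
      (hmax l hl i hi hlN hiN hne.symm))
  obtain ⟨nF, hnF⟩ : ∃ nF, nF = (legs X r h₀ \ F).card := ⟨_, rfl⟩
  have hlo' := S.lo
  have hloss : loss X r k h₀ D κ F (touched 𝓜) + 2 * (κ - h₀) ≤
      (2 * ρ + 2 * Λ + 4) * (2 * B + 2 * ρ) + μ₀ * (8 * ρ + 4 * D) := by
    unfold loss
    have e1 : (legs X r h₀ \ F).card * (κ - h₀) ≤ (2 * ρ + 2 * Λ + 2) * (2 * B + 2 * ρ) :=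
      Nat.mul_le_mul (by omega) (by omega)
    have e2 : (touched 𝓜).card * (2 * κ + 2 * D - 2 * k) ≤ (2 * μ₀) * (4 * ρ + 2 * D) :=
      Nat.mul_le_mul (by omega) (by omega)
    have e3 : 2 * (κ - h₀) ≤ 2 * (2 * B + 2 * ρ) := Nat.mul_le_mul_left _ (by omega)
    nlinarith
  obtain ⟨sl, hsl⟩ : ∃ sl, sl = loss X r k h₀ D κ F (touched 𝓜) + 2 * (κ - h₀) := ⟨_, rfl⟩
  rw [← hsl] at hloss
  have hsum1 : (legs X r h₀).card * κ ≤ (∑ i ∈ legs X r h₀, (A i).card) + sl := by omega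
  have hsl4 : 4 * sl ≤ k := by
    refine le_trans ?_ hbig
    have e1 : 4 * sl ≤ 64 * 4 * sl := by
      have := Nat.zero_le sl
      nlinarith
    have e2 : 64 * 4 * sl ≤ 64 * (ρ + Λ + 4) * ((2 * ρ + 2 * Λ + 2) ^ 2 +
        (2 * ρ + 2 * Λ + 4) * (2 * B + 2 * ρ) + μ₀ * (8 * ρ + 4 * D)) := by
      refine Nat.mul_le_mul (by omega) ?_
      omega
    exact e1.trans e2
  obtain ⟨z, A', hA', hA'c⟩ := exists_star S (R₁ := 16 * (ρ + Λ + 4)) (sl := sl) hρ (by omega) R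
    hκ hκ1 hF hN hA hsum1 (by
      refine le_trans ?_ hbig
      have e1 : 4 * (16 * (ρ + Λ + 4)) = 64 * (ρ + Λ + 4) := by ring
      rw [e1]
      refine Nat.mul_le_mul_left _ ?_
      omega) (by omega) (by omega)
  rcases case_six S hρ (by omega) hΛσ hMn R hκ hκ1 hA' hA'c with h4 | ⟨hκk, A'', hA'', hc, h0⟩
  · exact h4
  subst hκk
  have hNk : (legs X r h₀).card + Y.card = κ := by omega
  have hm : ∀ M : Finset V, Disjoint M (Sh X r κ h₀ σ) →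
      M.card + (legs X r h₀).card * κ ≤ κ ^ 2 + sl := fun M hM => arms_mass S hA hsum1 hM
  by_cases h5 : ∃ l ∈ legs X r h₀, l ∉ F
  · obtain ⟨l, hl, hlF⟩ := h5
    exact case_nonF S hρ (by omega) hΛσ hMn R hNk (by omega) (by omega) hF hl hlF hA'' h0
      (by omega) hm hsl4
  push Not at h5
  have hFl : legs X r h₀ \ F = ∅ := by
    rw [Finset.sdiff_eq_empty_iff_subset]
    exact h5
  have hY : Y = ∅ := by
    by_cases h6 : κ + 2 ≤ ht X r r
    · refine reg_empty S R hNk (sl := loss X r κ h₀ D κ F (touched 𝓜))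
        (fun M hM => arms_mass S hA (hsum' h6) hM) ?_
      unfold loss
      rw [hFl, Finset.card_empty, zero_mul, zero_add]
      have e1 : (touched 𝓜).card * (2 * κ + 2 * D - 2 * κ) ≤ (2 * μ₀) * (2 * D) :=
        Nat.mul_le_mul (by omega) (by omega)
      have e2 : (2 * μ₀) * (2 * D) = 4 * μ₀ * D := by ring
      omega
    · have h7 := wset_empty_of_ht S (by omega)
      have h8 := R.sub
      rw [h7] at h8
      exact Finset.subset_empty.1 h8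
  have hNk' : (legs X r h₀).card = κ := by
    rw [hY, Finset.card_empty] at hNk
    omega
  exact case_seven S hρ (by omega) hΛσ hMn hNk' (fun Q hQ => wset_three S hm hsl4 hNk' hQ) hA'' h0
    (by omega) (by omega)

end Pool.Agent.Helper84.NC
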