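import Pool.Agent.Helper84.NC.Defs

/-! # Project NC, module NC-01: basic facts on tree metrics -/

set_option autoImplicit false

namespace Pool.Agent.Helper84.NC

open Finset

variable {V : Type*} (X : TM V)

theorem pt_dist (x y : V) (j : ℕ) : X.d x (pt X x y j) = min j (X.d x y) :=
  (exists_pt X x y j).choose_spec.1

theorem pt_bt (x y : V) (j : ℕ) : X.d x (pt X x y j) + X.d (pt X x y j) y = X.d x y :=
  (exists_pt X x y j).choose_spec.2

variable {X}

theorem pt_eq {x y z : V} (h : X.d x z + X.d z y = X.d x y) : pt X x y (X.d x z) = z := by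
  have h1 := pt_dist X x y (X.d x z)
  have h2 := pt_bt X x y (X.d x z)
  refine X.uniq x y _ _ h2 h ?_
  rw [h1]
  omega

/-- Two vertices on a path: the nearer one lies on the path to the farther one. -/
theorem bt_of_bt {x y z w : V} (hz : X.d x z + X.d z y = X.d x y)
    (hw : X.d x w + X.d w y = X.d x y) (h : X.d x z ≤ X.d x w) :
    X.d x z + X.d z w = X.d x w ∧ X.d z w + X.d w y = X.d z y := by
  -- the point of the path from `x` to `w` at distance `d x z`
  obtain ⟨z', h1, h2⟩ := X.btw x w (X.d x z) h
  have h3 : X.d x z' + X.d z' y = X.d x y := by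
    have e1 := X.tri x z' y
    have e2 := X.tri z' w y
    omega
  have h4 : z' = z := X.uniq x y _ _ h3 hz h1
  subst h4
  have e2 := X.tri z' w y
  have e3 := X.tri x z' y
  omega

theorem pt_pt (x y : V) {i j : ℕ} (hij : i ≤ j) (hj : j ≤ X.d x y) :
    X.d (pt X x y i) (pt X x y j) + i = j := by
  have h1 := pt_dist X x y i
  have h2 := pt_dist X x y j
  have h3 := bt_of_bt (pt_bt X x y i) (pt_bt X x y j) (by omega)
  omega

theorem pt_pt_le (x y : V) (i j : ℕ) :
    X.d (pt X x y i) (pt X x y j) ≤ (i - j) + (j - i) := by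
  have h1 := pt_dist X x y i
  have h2 := pt_dist X x y j
  rcases le_total (X.d x (pt X x y i)) (X.d x (pt X x y j)) with h | h
  · have h3 := bt_of_bt (pt_bt X x y i) (pt_bt X x y j) h
    omega
  · have h3 := bt_of_bt (pt_bt X x y j) (pt_bt X x y i) h
    have h4 := X.symm (pt X x y i) (pt X x y j)
    omega

variable {r : V}

theorem bel_refl (v : V) : Bel X r v v := by
  unfold Bel
  rw [X.self]
  omega

theorem bel_root (x : V) : Bel X r r x := by
  unfold Bel
  rw [X.self]
  omega

theorem bel_trans {a b c : V} (h1 : Bel X r a b) (h2 : Bel X r b c) : Bel X r a c := by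
  unfold Bel at *
  have e1 := X.tri a b c
  have e2 := X.tri r a c
  omega

theorem bel_trans' {a b c : V} (h1 : Bel X r a b) (h2 : Bel X r b c) :
    X.d a b + X.d b c = X.d a c := by
  unfold Bel at *
  have e1 := X.tri a b c
  have e2 := X.tri r a c
  omega

theorem bel_antisymm {a b : V} (h1 : Bel X r a b) (h2 : Bel X r b a) : a = b := by
  unfold Bel at *
  refine X.eq a b ?_
  omega

theorem bel_eq {a b x : V} (h1 : Bel X r a x) (h2 : Bel X r b x) (h : X.d r a = X.d r b) :
    a = b := X.uniq r x a b h1 h2 h

theorem bel_chain {a b x : V} (h1 : Bel X r a x) (h2 : Bel X r b x) (h : X.d r a ≤ X.d r b) :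
    Bel X r a b := (bt_of_bt h1 h2 h).1

/-- The vertices between `v` and a vertex `x` below it. -/
theorem bel_bt {v x z : V} (h : Bel X r v x) (hz : X.d v z + X.d z x = X.d v x) :
    Bel X r v z ∧ Bel X r z x := by
  unfold Bel at *
  have e1 := X.tri r v z
  have e2 := X.tri r z x
  omega

theorem bel_root_iff {a : V} (h : Bel X r a r) : a = r := bel_antisymm h (bel_root a)

theorem up_bel (v : V) (j : ℕ) : Bel X r (up X r v j) v := by
  have h := pt_bt X v r j
  unfold Bel up
  have e1 := X.symm r v
  have e2 := X.symm r (pt X v r j)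
  have e3 := X.symm v (pt X v r j)
  omega

theorem up_dist (v : V) (j : ℕ) : X.d v (up X r v j) = min j (X.d v r) := pt_dist X v r j

theorem up_dist' {v : V} {j : ℕ} (h : j ≤ X.d r v) : X.d (up X r v j) v = j := by
  rw [X.symm, up_dist, X.symm v r]
  omega

theorem up_dist_le (v : V) (j : ℕ) : X.d (up X r v j) v ≤ j := by
  rw [X.symm, up_dist]
  omega

theorem up_depth (v : V) (j : ℕ) : X.d r (up X r v j) = X.d r v - j := by
  have h1 := up_bel (X := X) (r := r) v j
  have h2 := up_dist (X := X) (r := r) v j
  unfold Bel at h1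
  have e1 := X.symm v (up X r v j)
  have e2 := X.symm v r
  omega

theorem up_up_le (v : V) (i j : ℕ) : X.d (up X r v i) (up X r v j) ≤ (i - j) + (j - i) :=
  pt_pt_le v r i j

theorem up_root {v : V} {j : ℕ} (h : X.d r v ≤ j) : up X r v j = r := by
  have h1 := up_depth (X := X) (r := r) v j
  have h2 : X.d r (up X r v j) = 0 := by omega
  exact (X.eq _ _ h2).symm

theorem up_eq {a x : V} (h : Bel X r a x) : up X r x (X.d a x) = a := by
  refine bel_eq (up_bel x _) h ?_
  rw [up_depth]
  unfold Bel at h
  omega

theorem up_zero (v : V) : up X r v 0 = v := by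
  have h := up_dist (X := X) (r := r) v 0
  exact (X.eq _ _ (by omega)).symm

theorem up_bel_up (v : V) {i j : ℕ} (h : i ≤ j) : Bel X r (up X r v j) (up X r v i) :=
  bel_chain (up_bel v j) (up_bel v i) (by rw [up_depth, up_depth]; omega)

theorem up_up (v : V) (i j : ℕ) : up X r (up X r v i) j = up X r v (i + j) := by
  refine bel_eq (bel_trans (up_bel _ _) (up_bel v i)) (up_bel v (i + j)) ?_
  rw [up_depth, up_depth, up_depth]
  omega

/-- The last common ancestor. -/
theorem exists_lca (X : TM V) (r x y : V) : ∃ m, Bel X r m x ∧ Bel X r m y ∧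
    X.d x m + X.d m y = X.d x y ∧ ∀ a, Bel X r a x → Bel X r a y → Bel X r a m := by
  obtain ⟨m, h1, h2, h3⟩ := X.med x y r
  have e1 := X.symm r x
  have e2 := X.symm r y
  have e3 := X.symm r m
  have e4 := X.symm m x
  have e5 := X.symm m y
  have e6 := X.symm x y
  refine ⟨m, ?_, ?_, h1, ?_⟩
  · unfold Bel
    omega
  · unfold Bel
    omega
  · intro a ha hb
    refine bel_chain ha (?_ : Bel X r m x) ?_
    · unfold Bel
      omega
    · by_contra hcon
      have h4 : Bel X r m a := bel_chain (?_ : Bel X r m x) ha (by omega)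
      · unfold Bel at h4 ha hb
        have e7 := X.tri x a y
        have e8 := X.symm x a
        omega
      · unfold Bel
        omega

/-- A path which enters the part below `v` passes through `v`. -/
theorem out_dist {a v x : V} (ha : ¬ Bel X r v a) (hx : Bel X r v x) :
    X.d a x = X.d a v + X.d v x := by
  obtain ⟨m, h1, h2, h3, -⟩ := exists_lca X r a x
  have h4 : Bel X r m v := by
    rcases le_total (X.d r m) (X.d r v) with h | h
    · exact bel_chain h2 hx h
    · exact absurd (bel_trans (bel_chain hx h2 h) h1) ha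
  have h5 := bel_trans' h4 hx
  have h6 := X.tri a m v
  have h7 := X.tri a v x
  omega

/-- The median of three vertices. -/
theorem out_bt {a b v x : V} (ha : ¬ Bel X r v a) (hb : ¬ Bel X r v b) (hx : Bel X r v x)
    (h : X.d a x + X.d x b = X.d a b) : False := by
  have h1 := out_dist ha hx
  have h2 := out_dist hb hx
  have h3 := X.tri a v b
  have h4 := X.symm x b
  have h5 := X.symm v b
  have h6 : X.d v x = 0 := by omega
  have h7 := X.eq v x h6
  subst h7
  -- now `x = v` lies between `a` and `b`, both outside of the part below `v`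
  obtain ⟨m, g1, g2, g3, -⟩ := exists_lca X r a b
  rcases le_total (X.d a v) (X.d a m) with h8 | h8
  · -- `v` is an ancestor of `a`
    have h9 := bt_of_bt h g3 h8
    have h10 : Bel X r v a := by
      unfold Bel at *
      have e1 := X.symm a m
      have e2 := X.symm a v
      have e3 := X.tri r m v
      have e4 := X.tri r v a
      have e5 := X.symm m v
      omega
    exact ha h10
  · have h9 := bt_of_bt g3 h h8
    have h10 : Bel X r v b := by
      unfold Bel at *
      have e3 := X.tri r m v
      have e4 := X.tri r v b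
      omega
    exact hb h10

/-- The ancestor of the deeper vertex is a good centre. -/
theorem up_centre {x w : V} {R : ℕ} (hd : X.d r w ≤ X.d r x) (h : X.d x w ≤ 2 * R) :
    X.d (up X r x R) w ≤ R := by
  obtain ⟨m, h1, h2, h3, -⟩ := exists_lca X r x w
  have h4 := up_bel (X := X) (r := r) x R
  have h5 := up_depth (X := X) (r := r) x R
  have h6 := up_dist_le (X := X) (r := r) x R
  have e1 := X.symm x m
  rcases le_total (X.d r m) (X.d r (up X r x R)) with h | h
  · -- the centre is between `x` and `m`
    have h7 := bel_chain h1 h4 h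
    have h8 := bel_trans' h7 h4
    unfold Bel at *
    have e2 := X.tri (up X r x R) m w
    have e3 := X.symm (up X r x R) m
    omega
  · have h7 := bel_chain h4 h1 h
    have h8 := bel_trans' h7 h1
    have h9 := bel_trans' h7 h2
    unfold Bel at *
    omega

/-- A child of an ancestor. -/
theorem exists_child {v x : V} (h : Bel X r v x) (hne : v ≠ x) :
    ∃ c, X.d v c = 1 ∧ Bel X r v c ∧ Bel X r c x := by
  have h0 : 1 ≤ X.d v x := by
    rcases Nat.eq_zero_or_pos (X.d v x) with h1 | h1
    · exact absurd (X.eq _ _ h1) hne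
    · exact h1
  obtain ⟨c, h1, h2⟩ := X.btw v x 1 h0
  obtain ⟨h3, h4⟩ := bel_bt h h2
  exact ⟨c, h1, h3, h4⟩

theorem dist_pos {v x : V} (hne : v ≠ x) : 0 < X.d v x := by
  rcases Nat.eq_zero_or_pos (X.d v x) with h1 | h1
  · exact absurd (X.eq _ _ h1) hne
  · exact h1

end Pool.Agent.Helper84.NC
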