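import Pool.Agent.Helper84.NC.Basic

/-! # Project NC, module NC-10: covering and packing by balls of the same radius -/

set_option autoImplicit false

namespace Pool.Agent.Helper84.NC

open Finset

variable {V : Type*} (X : TM V) (r : V)

/-- A greedy choice, by decreasing depth. -/
theorem exists_greedy (I : Finset V) (f : V → V) (R : ℕ) :
    ∃ F, F ⊆ I ∧ (∀ g ∈ F, ∀ l ∈ F, g ≠ l → 2 * R < X.d (f g) (f l)) ∧
      ∀ l ∈ I, l ∉ F → ∃ g ∈ F, X.d r (f l) ≤ X.d r (f g) ∧ X.d (f g) (f l) ≤ 2 * R := by
  classical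
  induction I using Finset.strongInduction with
  | H I ih =>
    rcases I.eq_empty_or_nonempty with hI | hI
    · subst hI
      exact ⟨∅, Finset.Subset.refl _, by simp, by simp⟩
    · obtain ⟨g, hg, hmax⟩ := Finset.exists_max_image I (fun x => X.d r (f x)) hI
      have hss : (I.filter fun l => 2 * R < X.d (f g) (f l)) ⊂ I := by
        refine Finset.filter_ssubset.2 ⟨g, hg, ?_⟩
        rw [X.self]
        omega
      obtain ⟨F, hF1, hF2, hF3⟩ := ih _ hss
      refine ⟨insert g F, ?_, ?_, ?_⟩
      · intro x hx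
        rcases Finset.mem_insert.1 hx with rfl | hx
        · exact hg
        · exact (Finset.mem_filter.1 (hF1 hx)).1
      · intro x hx0 y hy0 hxy
        rcases Finset.mem_insert.1 hx0 with hx | hx
        · rcases Finset.mem_insert.1 hy0 with hy | hy
          · exact absurd (hx.trans hy.symm) hxy
          · rw [hx]
            exact (Finset.mem_filter.1 (hF1 hy)).2
        · rcases Finset.mem_insert.1 hy0 with hy | hy
          · rw [hy, X.symm]
            exact (Finset.mem_filter.1 (hF1 hx)).2
          · exact hF2 x hx y hy hxy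
      · intro l hl hlF
        by_cases h : 2 * R < X.d (f g) (f l)
        · obtain ⟨g', hg', h1, h2⟩ := hF3 l (Finset.mem_filter.2 ⟨hl, h⟩)
            (fun h' => hlF (Finset.mem_insert_of_mem h'))
          exact ⟨g', Finset.mem_insert_of_mem hg', h1, h2⟩
        · exact ⟨g, Finset.mem_insert_self _ _, hmax l hl, by omega⟩

/-- The least number of balls of radius `R` which cover `W` is the largest number of vertices of
`W` at mutual distance more than `2 * R`. -/
theorem cover_pack (W : Finset V) (R : ℕ) :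
    ∃ P Y : Finset V, Y ⊆ W ∧ P.card ≤ Y.card ∧
      (∀ x ∈ Y, ∀ y ∈ Y, x ≠ y → 2 * R < X.d x y) ∧ ∀ w ∈ W, ∃ c ∈ P, X.d c w ≤ R := by
  classical
  rcases W.eq_empty_or_nonempty with hW | ⟨r, hr⟩
  · subst hW
    exact ⟨∅, ∅, Finset.Subset.refl _, le_rfl, by simp, by simp⟩
  · obtain ⟨F, hF1, hF2, hF3⟩ := exists_greedy X r W id R
    refine ⟨F.image fun x => up X r x R, F, hF1, Finset.card_image_le, hF2, ?_⟩
    intro w hw
    by_cases h : w ∈ F
    · exact ⟨_, Finset.mem_image_of_mem _ h, up_dist_le w R⟩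
    · obtain ⟨g, hg, h1, h2⟩ := hF3 w hw h
      exact ⟨_, Finset.mem_image_of_mem _ hg, up_centre h1 h2⟩

end Pool.Agent.Helper84.NC
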