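import Pool.Agent.Helper84.NC.AsmC
import Pool.Agent.Helper84.NC.Pack

/-! # Project NC, module NC-17: mass of the far regions, weak form -/

set_option autoImplicit false

namespace Pool.Agent.Helper84.NC

open Finset Classical

variable {V : Type*} [Fintype V] {X : TM V} {r : V} {k Λ B E h₀ σ : ℕ}

namespace RegA

/-- the vertices of the path from a leg vertex to its tip -/
noncomputable def P (X : TM V) (r : V) (h₀ : ℕ) (v : V) : Finset V :=
  (range (h₀ + 1)).image (up X r (tip X r v))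

theorem mem_P {v w : V} (hv : v ∈ legs X r h₀) (hw : w ∈ P X r h₀ v) :
    Bel X r v w ∧ ht X r w ≤ h₀ := by
  rw [P, mem_image] at hw
  obtain ⟨j, hj, rfl⟩ := hw
  rw [mem_range] at hj
  rw [mem_legs] at hv
  have h := ht_up_tip (X := X) (r := r) (v := v) (j := j) (by omega)
  exact ⟨h.1, by rw [h.2.1]; omega⟩

theorem card_P {v : V} (hv : v ∈ legs X r h₀) : (P X r h₀ v).card = h₀ + 1 := by
  rw [P, card_image_of_injOn, card_range]
  intro i hi j hj hij
  simp only [coe_range, Set.mem_Iio] at hi hj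
  rw [mem_legs] at hv
  have h1 := ht_up_tip (X := X) (r := r) (v := v) (j := i) (by omega)
  have h2 := ht_up_tip (X := X) (r := r) (v := v) (j := j) (by omega)
  rw [← h1.2.1, ← h2.2.1, hij]

/-- the vertices of the path from `x` to `b` at distance at most `n` from `x` -/
noncomputable def Q (X : TM V) (x b : V) (n : ℕ) : Finset V :=
  (range (n + 1)).image (pt X x b)

omit [Fintype V] in
theorem mem_Q {x b w : V} {n : ℕ} (hw : w ∈ Q X x b n) :
    X.d x w ≤ n ∧ X.d x w + X.d w b = X.d x b := by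
  rw [Q, mem_image] at hw
  obtain ⟨j, hj, rfl⟩ := hw
  rw [mem_range] at hj
  have h1 := pt_dist X x b j
  exact ⟨by omega, pt_bt X x b j⟩

omit [Fintype V] in
theorem card_Q {x b : V} {n : ℕ} (h : n ≤ X.d x b) : (Q X x b n).card = n + 1 := by
  rw [Q, card_image_of_injOn, card_range]
  intro i hi j hj hij
  simp only [coe_range, Set.mem_Iio] at hi hj
  have h1 := pt_dist X x b i
  have h2 := pt_dist X x b j
  rw [hij] at h1
  omega

/-- the sets in the proof -/
noncomputable def M (X : TM V) (r : V) (k h₀ : ℕ) (x b : V) (n : ℕ) : Finset V :=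
  (Q X x b n).filter fun w => ¬ (h₀ ≤ ht X r w ∧ ht X r w < k)

/-- a vertex of the path of small height is an ancestor of `x` -/
theorem anc {x b w : V} (hb : k ≤ ht X r b ∨ b = r) (hw : X.d x w + X.d w b = X.d x b)
    (hh : ht X r w < k) : Bel X r w x := by
  obtain ⟨m, h1, h2, h3, -⟩ := exists_lca X r x b
  rcases le_total (X.d x w) (X.d x m) with h | h
  · have h4 := bt_of_bt hw h3 h
    have h5 : X.d m w + X.d w x = X.d m x := by
      have e1 := X.symm m w
      have e2 := X.symm w x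
      have e3 := X.symm m x
      omega
    exact (bel_bt h1 h5).2
  · have h4 := bt_of_bt h3 hw h
    have h5 := bel_bt h2 h4.2
    rcases hb with hb | hb
    · have h6 := ht_bel h5.2
      omega
    · subst hb
      have h6 := bel_root_iff h5.2
      rw [h6]
      exact bel_root x

theorem card_M {x b : V} {n : ℕ} (hb : k ≤ ht X r b ∨ b = r) (h : n ≤ X.d x b) :
    n + 1 ≤ (M X r k h₀ x b n).card + (k - h₀) := by
  have h1 : (Q X x b n).card = n + 1 := card_Q h
  have h2 : ((Q X x b n).filter fun w => h₀ ≤ ht X r w ∧ ht X r w < k).card ≤ k - h₀ := by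
    have h3 : ((Q X x b n).filter fun w => h₀ ≤ ht X r w ∧ ht X r w < k).card ≤
        (Ico h₀ k).card := by
      refine card_le_card_of_injOn (ht X r) ?_ ?_
      · intro w hw
        simp only [coe_filter, Set.mem_ofPred_eq] at hw
        simp only [coe_Ico, Set.mem_Ico]
        exact hw.2
      · intro w hw w' hw' hww
        simp only [coe_filter, Set.mem_ofPred_eq] at hw hw'
        exact eq_of_ht hww (anc hb (mem_Q hw.1).2 hw.2.2) (anc hb (mem_Q hw'.1).2 hw'.2.2)
    rwa [Nat.card_Ico] at h3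
  have h4 := card_filter_add_card_filter_not (s := Q X x b n)
    (fun w => h₀ ≤ ht X r w ∧ ht X r w < k)
  unfold M
  omega

theorem arith {k Λ B E h₀ σ L y b m n : ℕ} (hL : L + y = k + 2 * Λ + 2)
    (hy : y ≤ 2 * Λ + E + 2) (hle : L * (h₀ + 1) + b + m ≤ k ^ 2)
    (c2 : y * (n + 1 - (k - h₀)) ≤ b) (c3 : (k - 1 - h₀) * k ≤ m + Λ * k)
    (hσ : 64 * σ * (2 * Λ + E + 2) ≤ B) (hE' : 100 * E + 100 * Λ + 100 ≤ σ)
    (hB : 100 * B ≤ k) (hlo' : k ≤ h₀ + 2 * B) (hhi' : h₀ + B ≤ k) (hn : n = k - 16 * σ) :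
    False := by
  have hσB : 64 * σ ≤ B := by
    have : 64 * σ * 1 ≤ 64 * σ * (2 * Λ + E + 2) := Nat.mul_le_mul_left _ (by omega)
    omega
  have e1 : 16 * σ * y ≤ 16 * σ * (2 * Λ + E + 2) := Nat.mul_le_mul_left _ hy
  have e2 : 4 * (16 * σ * (2 * Λ + E + 2)) = 64 * σ * (2 * Λ + E + 2) := by ring
  have hB0 : 0 < B := by omega
  have e3 : 16 * σ * y ≤ B := by omega
  obtain ⟨a, ha⟩ : ∃ a, h₀ + 1 = 16 * σ + a := ⟨h₀ + 1 - 16 * σ, by omega⟩
  obtain ⟨q, hq⟩ : ∃ q, k = h₀ + 1 + q := ⟨k - 1 - h₀, by omega⟩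
  have e5 : n + 1 - (k - h₀) = a := by omega
  have e6 : k - 1 - h₀ = q := by omega
  rw [e5] at c2
  rw [e6] at c3
  clear e5 e6 e1 e2 hE' hσ hn hσB hy
  zify at hL hle c2 c3 hB hlo' hB0 e3 ha hq
  have f1 : (L : ℤ) * (h₀ + 1) + y * a + q * k ≤ k ^ 2 + Λ * k := by linarith
  have f2 : (y : ℤ) * a = y * (h₀ + 1) - 16 * σ * y := by
    have : (a : ℤ) = h₀ + 1 - 16 * σ := by linarith
    rw [this]
    ring
  have f3 : (q : ℤ) * k = k ^ 2 - (h₀ + 1) * k := by
    have : (q : ℤ) = k - (h₀ + 1) := by linarith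
    rw [this]
    ring
  have f4 : (L : ℤ) * (h₀ + 1) + y * (h₀ + 1) = (k + 2 * Λ + 2) * (h₀ + 1) := by
    rw [← hL]
    ring
  have f5 : (2 * (Λ : ℤ) + 2) * (h₀ + 1) ≤ Λ * k + B := by linarith
  have f7 : (2 * (Λ : ℤ) + 2) * (k - 2 * B + 1) ≤ (2 * (Λ : ℤ) + 2) * (h₀ + 1) := by
    apply mul_le_mul_of_nonneg_left _ (by positivity)
    linarith
  have f8 : (4 * (Λ : ℤ) + 5) * (100 * B) ≤ (4 * (Λ : ℤ) + 5) * k := by
    apply mul_le_mul_of_nonneg_left _ (by positivity)
    linarith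
  have f9 : (0 : ℤ) < k := by linarith
  have f10 : (0 : ℤ) ≤ Λ * k := by positivity
  have f11 : (0 : ℤ) ≤ Λ * B := by positivity
  linarith

end RegA

open RegA

/-- Far vertices at mutual distance more than `2 * (k - 8 * σ)` are few. -/
theorem reg_weak (S : Setup X r k Λ B E h₀ σ) {Q Y : Finset V}
    (hQ : ∃ v ∈ legs X r h₀, v ∉ Q) (hY : Y ⊆ Wset X r k h₀ σ Q)
    (hfar : ∀ x ∈ Y, ∀ y ∈ Y, x ≠ y → 2 * k < X.d x y + 16 * σ) :
    (legs X r h₀).card + Y.card ≤ k + 2 * Λ + 1 := by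
  by_contra hcon
  obtain ⟨j, hj, hjQ⟩ := hQ
  have hlo := card_legs_lo S
  have hhi := card_legs_hi S
  obtain ⟨Y', hY', hc'⟩ := exists_subset_card_eq (s := Y)
    (n := k + 2 * Λ + 2 - (legs X r h₀).card) (by omega)
  have hbt := ht_bt S hj
  have hbo : Out X r h₀ (bt X r k j) := out_of_ht (bt_out S hj)
  have hσ := S.hσ
  have hE' := S.hE'
  have hB := S.hB
  have hlo' := S.lo
  have hhi' := S.hi
  have hΛ := S.hΛ
  have hσB : 64 * σ ≤ B := by
    have : 64 * σ * 1 ≤ 64 * σ * (2 * Λ + E + 2) := Nat.mul_le_mul_left _ (by omega)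
    omega
  -- the three families
  set n := k - 16 * σ with hn
  have hdist : ∀ x ∈ Y', n ≤ X.d x (bt X r k j) := by
    intro x hx
    have h1 := (mem_wset.1 (hY (hY' hx))).2 j hj hjQ
    have h2 := X.symm x (bt X r k j)
    omega
  have hout : ∀ x ∈ Y', ∀ w ∈ M X r k h₀ x (bt X r k j) n, Out X r h₀ w := by
    intro x hx w hw
    rw [M, mem_filter] at hw
    exact out_path (mem_wset.1 (hY (hY' hx))).1 hbo (mem_Q hw.1).2
  have c1 : ((legs X r h₀).biUnion (P X r h₀)).card = (legs X r h₀).card * (h₀ + 1) := by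
    rw [card_biUnion]
    · rw [sum_congr rfl (fun v hv => card_P hv), sum_const, smul_eq_mul]
    · intro v hv v' hv' hvv
      rw [Function.onFun, disjoint_left]
      intro w hw hw'
      exact hvv (leg_disj hv hv' (mem_P hv hw).1 (mem_P hv' hw').1)
  have c2 : Y'.card * (n + 1 - (k - h₀)) ≤
      (Y'.biUnion fun x => M X r k h₀ x (bt X r k j) n).card := by
    rw [card_biUnion]
    · rw [← smul_eq_mul, ← sum_const]
      refine sum_le_sum fun x hx => ?_
      have := card_M (X := X) (r := r) (h₀ := h₀) hbt (hdist x hx)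
      omega
    · intro x hx y hy hxy
      rw [Function.onFun, disjoint_left]
      intro w hw hw'
      rw [M, mem_filter] at hw hw'
      have h1 := (mem_Q hw.1).1
      have h2 := (mem_Q hw'.1).1
      have h3 := hfar x (hY' hx) y (hY' hy) hxy
      have h4 := X.tri x w y
      have h5 := X.symm y w
      omega
  have c3 := card_mid S.sum (h₀ := h₀) (by omega)
  have d1 : Disjoint ((legs X r h₀).biUnion (P X r h₀))
      (Y'.biUnion fun x => M X r k h₀ x (bt X r k j) n) := by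
    rw [disjoint_left]
    intro w hw hw'
    rw [mem_biUnion] at hw hw'
    obtain ⟨v, hv, hw⟩ := hw
    obtain ⟨x, hx, hw'⟩ := hw'
    exact hout x hx w hw' v hv (mem_P hv hw).1
  have d2 : Disjoint ((legs X r h₀).biUnion (P X r h₀) ∪
      (Y'.biUnion fun x => M X r k h₀ x (bt X r k j) n))
      (univ.filter fun v => h₀ < ht X r v ∧ ht X r v < k) := by
    rw [disjoint_left]
    intro w hw hw'
    rw [mem_filter] at hw'
    rw [mem_union, mem_biUnion, mem_biUnion] at hw
    rcases hw with ⟨v, hv, hw⟩ | ⟨x, hx, hw⟩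
    · have := (mem_P hv hw).2
      omega
    · rw [M, mem_filter] at hw
      exact hw.2 ⟨by omega, hw'.2.2⟩
  have hle : (((legs X r h₀).biUnion (P X r h₀) ∪
      (Y'.biUnion fun x => M X r k h₀ x (bt X r k j) n)) ∪
      (univ.filter fun v => h₀ < ht X r v ∧ ht X r v < k)).card ≤ k ^ 2 :=
    (card_le_univ _).trans S.card
  rw [card_union_of_disjoint d2, card_union_of_disjoint d1, c1] at hle
  have hy : Y'.card ≤ 2 * Λ + E + 2 := by omega
  have hL : (legs X r h₀).card + Y'.card = k + 2 * Λ + 2 := by omega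
  exact arith hL hy hle c2 c3 hσ hE' hB hlo' hhi' hn

/-- A cover of the far vertices by balls of radius `k - 8 * σ`, and a packing. -/
structure Reg (X : TM V) (r : V) (k h₀ σ : ℕ) (Q P Y : Finset V) : Prop where
  cov : ∀ x ∈ Wset X r k h₀ σ Q, ∃ c ∈ P, X.d c x + 8 * σ ≤ k
  sub : Y ⊆ Wset X r k h₀ σ Q
  far : ∀ x ∈ Y, ∀ y ∈ Y, x ≠ y → 2 * k < X.d x y + 16 * σ
  le : P.card ≤ Y.card

theorem exists_reg (S : Setup X r k Λ B E h₀ σ) (Q : Finset V) :
    ∃ P Y, Reg X r k h₀ σ Q P Y := by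
  obtain ⟨P, Y, h1, h2, h3, h4⟩ := cover_pack X (Wset X r k h₀ σ Q) (k - 8 * σ)
  have hσ := S.hσ
  have hB := S.hB
  have hσB : 64 * σ ≤ B := by
    have : 64 * σ * 1 ≤ 64 * σ * (2 * Λ + E + 2) := Nat.mul_le_mul_left _ (by omega)
    omega
  refine ⟨P, Y, ?_, h1, ?_, h2⟩
  · intro x hx
    obtain ⟨c, hc, hcx⟩ := h4 x hx
    exact ⟨c, hc, by omega⟩
  · intro x hx y hy hxy
    have := h3 x hx y hy hxy
    omega

end Pool.Agent.Helper84.NC
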