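import Pool.Agent.Helper84.NC.Sep
import Pool.Agent.Helper84.NC.Hair
import Pool.Agent.Helper84.NC.Matching

/-! # Project NC, module NC-23: selection of pairs -/

set_option autoImplicit false

namespace Pool.Agent.Helper84.NC

open Finset Classical

namespace Sel

theorem enum {α : Type*} (d : α) (A : Finset α) (m : ℕ) (h : m ≤ A.card) :
    ∃ f : ℕ → α, (∀ a, a < m → f a ∈ A) ∧ ∀ a, a < m → ∀ a', a' < m → f a = f a' → a = a' := by
  let e := A.equivFin
  refine ⟨fun a => if h : a < A.card then (e.symm ⟨a, h⟩ : α) else d, ?_, ?_⟩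
  · intro a ha
    have h1 : a < A.card := lt_of_lt_of_le ha h
    simp only [h1, dif_pos]
    exact (e.symm ⟨a, h1⟩).2
  · intro a ha a' ha' heq
    have h1 : a < A.card := lt_of_lt_of_le ha h
    have h2 : a' < A.card := lt_of_lt_of_le ha' h
    simp only [h1, h2, dif_pos] at heq
    have h3 := e.symm.injective (Subtype.ext heq)
    simpa using h3

variable {V : Type*}

theorem hom_inj {R : V → V → Prop} {F : Finset V} {𝓜 : Finset (V × V)} (hM : Mat F R 𝓜)
    {hom : V × V → V} (hhom : ∀ e ∈ 𝓜, hom e = e.1 ∨ hom e = e.2) :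
    ∀ e ∈ 𝓜, ∀ e' ∈ 𝓜, hom e = hom e' → e = e' := by
  intro e he e' he' heq
  by_contra hne
  obtain ⟨h1, h2, h3, h4⟩ := hM.disj e he e' he' hne
  rcases hhom e he with h | h <;> rcases hhom e' he' with h' | h' <;> rw [h, h'] at heq
  · exact h1 heq
  · exact h2 heq
  · exact h3 heq
  · exact h4 heq

theorem card_touch {R : V → V → Prop} {F : Finset V} {𝓜 : Finset (V × V)} (hM : Mat F R 𝓜)
    (U : Finset V) : (𝓜.filter fun e => e.1 ∈ U ∨ e.2 ∈ U).card ≤ U.card := by
  refine Finset.card_le_card_of_injOn (fun e => if e.1 ∈ U then e.1 else e.2) ?_ ?_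
  · intro e he
    simp only [coe_filter, Set.mem_setOf_eq] at he
    by_cases h : e.1 ∈ U
    · simp [h]
    · rcases he.2 with h1 | h1
      · exact absurd h1 h
      · simp [h, h1]
  · intro e he e' he' heq
    simp only [coe_filter, Set.mem_setOf_eq] at he he'
    by_contra hne
    obtain ⟨h1, h2, h3, h4⟩ := hM.disj e he.1 e' he'.1 hne
    by_cases h : e.1 ∈ U <;> by_cases h' : e'.1 ∈ U <;> simp [h, h'] at heq
    · exact h1 heq
    · exact h2 heq
    · exact h3 heq
    · exact h4 heq

/-- the legs used by the pairs `p a`, `a < t`, and by `w a`, `a < s` -/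
noncomputable def used (p : ℕ → V × V) (w : ℕ → V) (t s : ℕ) : Finset V :=
  (range t).image (fun a => (p a).1) ∪ (range t).image (fun a => (p a).2) ∪ (range s).image w

theorem card_used (p : ℕ → V × V) (w : ℕ → V) (t s : ℕ) : (used p w t s).card ≤ 2 * t + s := by
  unfold used
  have h1 := card_union_le ((range t).image (fun a => (p a).1) ∪ (range t).image (fun a => (p a).2))
    ((range s).image w)
  have h2 := card_union_le ((range t).image (fun a => (p a).1)) ((range t).image (fun a => (p a).2))
  have h3 : ((range t).image (fun a => (p a).1)).card ≤ t := by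
    simpa using (card_image_le (s := range t) (f := fun a => (p a).1))
  have h4 : ((range t).image (fun a => (p a).2)).card ≤ t := by
    simpa using (card_image_le (s := range t) (f := fun a => (p a).2))
  have h5 : ((range s).image w).card ≤ s := by
    simpa using (card_image_le (s := range s) (f := w))
  omega

theorem mem_used {p : ℕ → V × V} {w : ℕ → V} {t s : ℕ} {v : V} : v ∈ used p w t s ↔
    (∃ a, a < t ∧ (p a).1 = v) ∨ (∃ a, a < t ∧ (p a).2 = v) ∨ ∃ a, a < s ∧ w a = v := by
  unfold used
  simp only [mem_union, mem_image, mem_range]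
  exact or_assoc

/-- a family of packages -/
structure Fam (𝓜 : Finset (V × V)) (N : Finset V) (cell : V → V) (hom : V × V → V)
    (p : ℕ → V × V) (w : ℕ → V) (t s : ℕ) : Prop where
  mem : ∀ a, a < t → p a ∈ 𝓜
  nice : ∀ a, a < s → w a ∈ N ∧ cell (w a) = cell (hom (p a))
  inj : ∀ a, a < t → ∀ a', a' < t → p a = p a' → a = a'
  winj : ∀ a, a < s → ∀ a', a' < s → w a = w a' → a = a'
  ne : ∀ a, a < s → ∀ a', a' < t → w a ≠ (p a').1 ∧ w a ≠ (p a').2

theorem step {R : V → V → Prop} {F : Finset V} {𝓜 : Finset (V × V)} (hM : Mat F R 𝓜)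
    {hom : V × V → V} (hhom : ∀ e ∈ 𝓜, hom e = e.1 ∨ hom e = e.2) (N : Finset V) (cell : V → V)
    {p : ℕ → V × V} {w : ℕ → V} {t : ℕ} (hf : Fam 𝓜 N cell hom p w t t)
    (hcard : 9 * t * (t + 1) < (𝓜.filter fun e => hom e ∈ N ∧
      3 ≤ (N.filter fun v => cell v = cell (hom e)).card).card) :
    ∃ (p' : ℕ → V × V) (w' : ℕ → V), Fam 𝓜 N cell hom p' w' (t + 1) (t + 1) := by
  set U := used p w t t with hU
  have hUc : U.card ≤ 3 * t := by
    have := card_used p w t t
    rw [hU]
    omega
  set Gd := 𝓜.filter fun e => hom e ∈ N ∧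
      3 ≤ (N.filter fun v => cell v = cell (hom e)).card with hGd
  have hex : ∃ e ∈ Gd, e.1 ∉ U ∧ e.2 ∉ U ∧ ∃ v ∈ N, cell v = cell (hom e) ∧ v ∉ U ∧ v ≠ e.1 ∧
      v ≠ e.2 := by
    by_contra hcon
    push Not at hcon
    have hsub : Gd ⊆ (𝓜.filter fun e => e.1 ∈ U ∨ e.2 ∈ U) ∪
        (𝓜.filter fun e => ∃ u ∈ U, (N.filter fun v => cell v = cell u).card ≤ U.card + 2 ∧
          hom e ∈ N.filter fun v => cell v = cell u) := by
      intro e he
      rw [mem_union]
      have he' := he
      rw [hGd, mem_filter] at he'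
      by_cases h1 : e.1 ∈ U ∨ e.2 ∈ U
      · left
        rw [mem_filter]
        exact ⟨he'.1, h1⟩
      · right
        push Not at h1
        have h2 := hcon e he h1.1 h1.2
        have h3 : (N.filter fun v => cell v = cell (hom e)) ⊆ U ∪ {e.1, e.2} := by
          intro v hv
          rw [mem_filter] at hv
          rw [mem_union, mem_insert, mem_singleton]
          by_contra h4
          push Not at h4
          exact h4.2.2 (h2 v hv.1 hv.2 h4.1 h4.2.1)
        have h5 : (N.filter fun v => cell v = cell (hom e)).card ≤ U.card + 2 :=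
          (card_le_card h3).trans ((card_union_le _ _).trans (by
            have := card_le_two (a := e.1) (b := e.2)
            omega))
        -- the cell contains a used element
        have h6 : ∃ u ∈ U, u ∈ N.filter fun v => cell v = cell (hom e) := by
          by_contra h7
          push Not at h7
          have h8 : (N.filter fun v => cell v = cell (hom e)) ⊆ {e.1, e.2} := by
            intro v hv
            have := h3 hv
            rw [mem_union] at this
            rcases this with h9 | h9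
            · exact absurd hv (h7 v h9)
            · exact h9
          have h9 := card_le_card h8
          have h10 := card_le_two (a := e.1) (b := e.2)
          have h11 := he'.2.2
          omega
        obtain ⟨u, hu, hu'⟩ := h6
        rw [mem_filter] at hu'
        rw [mem_filter]
        refine ⟨he'.1, u, hu, ?_, ?_⟩
        · rw [hu'.2]
          exact h5
        · rw [mem_filter]
          exact ⟨he'.2.1, hu'.2.symm⟩
    have c1 := card_touch hM U
    have c2 : (𝓜.filter fun e => ∃ u ∈ U, (N.filter fun v => cell v = cell u).card ≤ U.card + 2 ∧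
          hom e ∈ N.filter fun v => cell v = cell u).card ≤ U.card * (U.card + 2) := by
      have c3 : (𝓜.filter fun e => ∃ u ∈ U, (N.filter fun v => cell v = cell u).card ≤ U.card + 2 ∧
          hom e ∈ N.filter fun v => cell v = cell u).card ≤
          ((U.filter fun u => (N.filter fun v => cell v = cell u).card ≤ U.card + 2).biUnion
            fun u => N.filter fun v => cell v = cell u).card := by
        refine card_le_card_of_injOn hom ?_ ?_
        · intro e he
          simp only [coe_filter, Set.mem_setOf_eq] at he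
          obtain ⟨_, u, hu, h1, h2⟩ := he
          simp only [coe_biUnion, Set.mem_iUnion]
          refine ⟨u, ?_, ?_⟩
          · simp only [coe_filter, Set.mem_setOf_eq]
            exact ⟨hu, h1⟩
          · exact mem_coe.2 h2
        · intro e he e' he' heq
          simp only [coe_filter, Set.mem_setOf_eq] at he he'
          exact hom_inj hM hhom e he.1 e' he'.1 heq
      refine c3.trans (card_biUnion_le.trans ?_)
      calc ∑ u ∈ U.filter (fun u => (N.filter fun v => cell v = cell u).card ≤ U.card + 2),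
            (N.filter fun v => cell v = cell u).card
          ≤ ∑ _u ∈ U.filter (fun u => (N.filter fun v => cell v = cell u).card ≤ U.card + 2),
            (U.card + 2) := by
            refine sum_le_sum fun u hu => ?_
            rw [mem_filter] at hu
            exact hu.2
        _ = (U.filter (fun u => (N.filter fun v => cell v = cell u).card ≤ U.card + 2)).card *
            (U.card + 2) := by rw [sum_const, smul_eq_mul]
        _ ≤ U.card * (U.card + 2) := Nat.mul_le_mul_right _ (card_filter_le _ _)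
    have c4 : Gd.card ≤ U.card + U.card * (U.card + 2) :=
      (card_le_card hsub).trans ((card_union_le _ _).trans (by omega))
    have c5 : U.card + U.card * (U.card + 2) ≤ 3 * t + 3 * t * (3 * t + 2) := by
      gcongr
    have c6 : 3 * t + 3 * t * (3 * t + 2) = 9 * t * (t + 1) := by ring
    omega
  obtain ⟨e, he, h1, h2, v, hv, hvc, hvU, hv1, hv2⟩ := hex
  rw [hGd, mem_filter] at he
  refine ⟨Function.update p t e, Function.update w t v, ?_⟩
  have pu : ∀ a, a < t → Function.update p t e a = p a := fun a ha =>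
    Function.update_of_ne (by omega) _ _
  have wu : ∀ a, a < t → Function.update w t v a = w a := fun a ha =>
    Function.update_of_ne (by omega) _ _
  have pt' : Function.update p t e t = e := Function.update_self _ _ _
  have wt' : Function.update w t v t = v := Function.update_self _ _ _
  have U1 : ∀ a, a < t → (p a).1 ∈ U := fun a ha => mem_used.2 (Or.inl ⟨a, ha, rfl⟩)
  have U2 : ∀ a, a < t → (p a).2 ∈ U := fun a ha => mem_used.2 (Or.inr (Or.inl ⟨a, ha, rfl⟩))
  have U3 : ∀ a, a < t → w a ∈ U := fun a ha => mem_used.2 (Or.inr (Or.inr ⟨a, ha, rfl⟩))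
  constructor
  · intro a ha
    rcases Nat.lt_succ_iff_lt_or_eq.1 ha with h | h
    · rw [pu a h]; exact hf.mem a h
    · rw [h, pt']; exact he.1
  · intro a ha
    rcases Nat.lt_succ_iff_lt_or_eq.1 ha with h | h
    · rw [pu a h, wu a h]; exact hf.nice a h
    · rw [h, pt', wt']; exact ⟨hv, hvc⟩
  · intro a ha a' ha' heq
    rcases Nat.lt_succ_iff_lt_or_eq.1 ha with h | h <;>
      rcases Nat.lt_succ_iff_lt_or_eq.1 ha' with h' | h'
    · rw [pu a h, pu a' h'] at heq; exact hf.inj a h a' h' heq
    · rw [pu a h, h', pt'] at heq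
      exact absurd (heq ▸ U1 a h) h1
    · rw [pu a' h', h, pt'] at heq
      exact absurd (heq ▸ U1 a' h') h1
    · rw [h, h']
  · intro a ha a' ha' heq
    rcases Nat.lt_succ_iff_lt_or_eq.1 ha with h | h <;>
      rcases Nat.lt_succ_iff_lt_or_eq.1 ha' with h' | h'
    · rw [wu a h, wu a' h'] at heq; exact hf.winj a h a' h' heq
    · rw [wu a h, h', wt'] at heq
      exact absurd (heq ▸ U3 a h) hvU
    · rw [wu a' h', h, wt'] at heq
      exact absurd (heq ▸ U3 a' h') hvU
    · rw [h, h']
  · intro a ha a' ha'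
    rcases Nat.lt_succ_iff_lt_or_eq.1 ha with h | h <;>
      rcases Nat.lt_succ_iff_lt_or_eq.1 ha' with h' | h'
    · rw [wu a h, pu a' h']; exact hf.ne a h a' h'
    · rw [wu a h, h', pt']
      exact ⟨fun hh => h1 (hh ▸ U3 a h), fun hh => h2 (hh ▸ U3 a h)⟩
    · rw [pu a' h', h, wt']
      exact ⟨fun hh => hvU (hh ▸ U1 a' h'), fun hh => hvU (hh ▸ U2 a' h')⟩
    · rw [h, h', pt', wt']
      exact ⟨hv1, hv2⟩

theorem greedy {R : V → V → Prop} {F : Finset V} {𝓜 : Finset (V × V)} (hM : Mat F R 𝓜)
    {hom : V × V → V} (hhom : ∀ e ∈ 𝓜, hom e = e.1 ∨ hom e = e.2) (N : Finset V) (cell : V → V)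
    (d : V) (t : ℕ)
    (hcard : 9 * t * (t + 1) < (𝓜.filter fun e => hom e ∈ N ∧
      3 ≤ (N.filter fun v => cell v = cell (hom e)).card).card) :
    ∃ (p : ℕ → V × V) (w : ℕ → V), Fam 𝓜 N cell hom p w t t := by
  induction t with
  | zero =>
    exact ⟨fun _ => (d, d), fun _ => d, ⟨fun a ha => absurd ha (by omega),
      fun a ha => absurd ha (by omega), fun a ha => absurd ha (by omega),
      fun a ha => absurd ha (by omega), fun a ha => absurd ha (by omega)⟩⟩
  | succ t ih =>
    have h1 : 9 * t * (t + 1) ≤ 9 * (t + 1) * (t + 1 + 1) := by gcongr <;> omega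
    obtain ⟨p, w, hf⟩ := ih (by omega)
    exact step hM hhom N cell hf (by omega)

theorem extend {R : V → V → Prop} {F : Finset V} {𝓜 : Finset (V × V)} (hM : Mat F R 𝓜)
    {hom : V × V → V} (N : Finset V) (cell : V → V)
    (d : V) {t n : ℕ} {p : ℕ → V × V} {w : ℕ → V} (hf : Fam 𝓜 N cell hom p w t t)
    (hcard : n + 3 * t ≤ 𝓜.card) :
    ∃ p' : ℕ → V × V, Fam 𝓜 N cell hom p' w (t + n) t := by
  set U := used p w t t with hU
  have hUc : U.card ≤ 3 * t := by
    have := card_used p w t t
    rw [hU]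
    omega
  have c1 := card_touch hM U
  have c2 : n ≤ (𝓜.filter fun e => ¬ (e.1 ∈ U ∨ e.2 ∈ U)).card := by
    have := card_filter_add_card_filter_not (s := 𝓜) (fun e => e.1 ∈ U ∨ e.2 ∈ U)
    omega
  obtain ⟨f, hf1, hf2⟩ := enum (d, d) _ n c2
  have hf3 : ∀ a, a < n → f a ∈ 𝓜 ∧ (f a).1 ∉ U ∧ (f a).2 ∉ U := by
    intro a ha
    have h1 := hf1 a ha
    rw [mem_filter, not_or] at h1
    exact h1
  refine ⟨fun a => if a < t then p a else f (a - t), ?_⟩
  have U1 : ∀ a, a < t → (p a).1 ∈ U := fun a ha => mem_used.2 (Or.inl ⟨a, ha, rfl⟩)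
  have U3 : ∀ a, a < t → w a ∈ U := fun a ha => mem_used.2 (Or.inr (Or.inr ⟨a, ha, rfl⟩))
  constructor
  · intro a ha
    by_cases h : a < t
    · simp only [h, if_true]; exact hf.mem a h
    · simp only [h, if_false]; exact (hf3 _ (by omega)).1
  · intro a ha
    simp only [ha, if_true]
    exact hf.nice a ha
  · intro a ha a' ha' heq
    by_cases h : a < t <;> by_cases h' : a' < t <;> simp only [h, h', if_true, if_false] at heq
    · exact hf.inj a h a' h' heq
    · exact absurd (heq ▸ U1 a h) (hf3 (a' - t) (by omega)).2.1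
    · exact absurd (heq ▸ U1 a' h') (hf3 (a - t) (by omega)).2.1
    · have := hf2 (a - t) (by omega) (a' - t) (by omega) heq
      omega
  · exact hf.winj
  · intro a ha a' ha'
    by_cases h' : a' < t
    · simp only [h', if_true]; exact hf.ne a ha a' h'
    · simp only [h', if_false]
      have h3 := hf3 (a' - t) (by omega)
      exact ⟨fun hh => h3.2.1 (hh ▸ U3 a ha), fun hh => h3.2.2 (hh ▸ U3 a ha)⟩

/-- index sets -/
theorem pick {N T' M T : ℕ} (J : Finset ℕ) (hJ : J.card + M ≤ N) (hJ' : J.card + T ≤ T')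
    (hTM : T ≤ M) (hN : T' ≤ N) :
    ∃ f : ℕ → ℕ, (∀ a, a < M → f a < N ∧ f a ∉ J) ∧ (∀ a, a < T → f a < T') ∧
      ∀ a, a < M → ∀ a', a' < M → f a = f a' → a = a' := by
  have c1 : T ≤ (range T' \ J).card := by
    have := le_card_sdiff J (range T')
    rw [card_range] at this
    omega
  have c2 : M ≤ (range N \ J).card := by
    have := le_card_sdiff J (range N)
    rw [card_range] at this
    omega
  obtain ⟨A1, hA1, hA1c⟩ := exists_subset_card_eq c1
  have hA1' : A1 ⊆ range N \ J := hA1.trans (sdiff_subset_sdiff (range_subset_range.2 hN) le_rfl)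
  obtain ⟨f1, h1, h1'⟩ := enum 0 A1 T (by omega)
  have c3 : M - T ≤ ((range N \ J) \ A1).card := by
    rw [card_sdiff_of_subset hA1']
    omega
  obtain ⟨f2, h2, h2'⟩ := enum 0 ((range N \ J) \ A1) (M - T) c3
  have h3 : ∀ a, a < M - T → f2 a ∈ range N \ J ∧ f2 a ∉ A1 := fun a ha => mem_sdiff.1 (h2 a ha)
  refine ⟨fun a => if a < T then f1 a else f2 (a - T), ?_, ?_, ?_⟩
  · intro a ha
    by_cases h : a < T
    · simp only [h, if_true]
      have := hA1' (h1 a h)
      rw [mem_sdiff, mem_range] at this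
      exact this
    · simp only [h, if_false]
      have := (h3 (a - T) (by omega)).1
      rw [mem_sdiff, mem_range] at this
      exact this
  · intro a ha
    simp only [ha, if_true]
    have := hA1 (h1 a ha)
    rw [mem_sdiff, mem_range] at this
    exact this.1
  · intro a ha a' ha' heq
    by_cases h : a < T <;> by_cases h' : a' < T <;> simp only [h, h', if_true, if_false] at heq
    · exact h1' a h a' h' heq
    · exact absurd (heq ▸ h1 a h) (h3 (a' - T) (by omega)).2
    · exact absurd (heq ▸ h1 a' h') (h3 (a - T) (by omega)).2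
    · have := h2' (a - T) (by omega) (a' - T) (by omega) heq
      omega

end Sel

variable {V : Type*} [Fintype V] {X : TM V} {r : V} {k Λ B E h₀ σ : ℕ}

/-- From many pairs choose `M` pairs, and for the first `T` of them one more nice leg near the
leg `hom e`, such that close to each chosen leg there is another leg. -/
theorem exists_select (S : Setup X r k Λ B E h₀ σ) {R : V → V → Prop} {F : Finset V}
    (hF : F ⊆ legs X r h₀) {𝓜 : Finset (V × V)} (hM : Mat F R 𝓜) {hom : V × V → V}
    (hhom : ∀ e ∈ 𝓜, hom e = e.1 ∨ hom e = e.2) {ρ' T M Mn : ℕ} (hρ' : 1 ≤ ρ') (hTM : T ≤ M)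
    (hMn : Λ * k + 1 ≤ Mn * σ)
    (hμ : 8 * (Λ * k + 1) + ρ' * (E + 12 * (T + Mn + 2) ^ 2 + M + Mn + 8) ≤ ρ' * 𝓜.card) :
    ∃ (g l w : ℕ → V), (∀ a, a < M → (g a, l a) ∈ 𝓜) ∧
      (∀ a, a < M → ∀ a', a' < M → (g a, l a) = (g a', l a') → a = a') ∧
      (∀ a, a < T → w a ∈ legs X r h₀ ∧
        (∀ x, Bel X r (w a) x → hd X (w a) (tip X r (w a)) x ≤ ρ') ∧
        X.d (bt X r k (hom (g a, l a))) (bt X r k (w a)) ≤ 2 * ρ') ∧
      (∀ a, a < T → ∀ a', a' < T → w a = w a' → a = a') ∧
      (∀ a, a < T → ∀ a', a' < M → w a ≠ g a' ∧ w a ≠ l a') ∧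
      ∀ v ∈ (range M).image g ∪ (range M).image l ∪ (range T).image w,
        ∃ u ∈ legs X r h₀, u ∉ (range M).image g ∪ (range M).image l ∪ (range T).image w ∧
          X.d (bt X r k v) (bt X r k u) ≤ 2 * σ := by
  obtain ⟨cell, hcell, hnc⟩ := exists_cells S ρ'
  have hbad := hair_count S hρ'
  set N : Finset V := (legs X r h₀).filter fun v =>
    ∀ x, Bel X r v x → hd X v (tip X r v) x ≤ ρ' with hN
  set Bd : Finset V := (legs X r h₀).filter fun v =>
    ∃ x, Bel X r v x ∧ ρ' < hd X v (tip X r v) x with hBd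
  have hleg : ∀ e ∈ 𝓜, e.1 ∈ legs X r h₀ ∧ e.2 ∈ legs X r h₀ := fun e he =>
    ⟨hF (hM.left e he), hF (hM.right e he)⟩
  have hhl : ∀ e ∈ 𝓜, hom e ∈ legs X r h₀ := by
    intro e he
    rcases hhom e he with h | h <;> rw [h]
    · exact (hleg e he).1
    · exact (hleg e he).2
  have hNB : ∀ v ∈ legs X r h₀, v ∉ N → v ∈ Bd := by
    intro v hv h
    rw [hN, mem_filter, not_and] at h
    have h1 := h hv
    push Not at h1
    rw [hBd, mem_filter]
    exact ⟨hv, h1⟩
  set Gd := 𝓜.filter fun e => hom e ∈ N ∧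
      3 ≤ (N.filter fun v => cell v = cell (hom e)).card with hGd
  set nc := ((legs X r h₀).image cell).card with hnc'
  have hcov : 𝓜.card ≤ Gd.card + Bd.card + nc * 2 := by
    have h1 : 𝓜 ⊆ Gd ∪ ((𝓜.filter fun e => hom e ∈ Bd) ∪
        (𝓜.filter fun e => hom e ∈ N ∧
          (N.filter fun v => cell v = cell (hom e)).card ≤ 2)) := by
      intro e he
      by_cases h : hom e ∈ N
      · by_cases h' : 3 ≤ (N.filter fun v => cell v = cell (hom e)).card
        · exact mem_union_left _ (mem_filter.2 ⟨he, h, h'⟩)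
        · exact mem_union_right _ (mem_union_right _ (mem_filter.2 ⟨he, h, by omega⟩))
      · exact mem_union_right _ (mem_union_left _ (mem_filter.2 ⟨he, hNB _ (hhl e he) h⟩))
    have h2 : (𝓜.filter fun e => hom e ∈ Bd).card ≤ Bd.card := by
      refine card_le_card_of_injOn hom ?_ ?_
      · intro e he
        simp only [coe_filter, Set.mem_setOf_eq] at he
        exact mem_coe.2 he.2
      · intro e he e' he' heq
        simp only [coe_filter, Set.mem_setOf_eq] at he he'
        exact Sel.hom_inj hM hhom e he.1 e' he'.1 heq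
    have h3 : (𝓜.filter fun e => hom e ∈ N ∧
          (N.filter fun v => cell v = cell (hom e)).card ≤ 2).card ≤ nc * 2 := by
      have h4 : (𝓜.filter fun e => hom e ∈ N ∧
          (N.filter fun v => cell v = cell (hom e)).card ≤ 2).card ≤
          ((((legs X r h₀).image cell).filter fun c => (N.filter fun v => cell v = c).card ≤ 2).biUnion
            fun c => N.filter fun v => cell v = c).card := by
        refine card_le_card_of_injOn hom ?_ ?_
        · intro e he
          simp only [coe_filter, Set.mem_setOf_eq] at he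
          obtain ⟨he1, he2, he3⟩ := he
          simp only [coe_biUnion, Set.mem_iUnion]
          refine ⟨cell (hom e), ?_, ?_⟩
          · simp only [coe_filter, Set.mem_setOf_eq]
            exact ⟨mem_image_of_mem _ (hhl e he1), he3⟩
          · rw [mem_coe, mem_filter]
            exact ⟨he2, rfl⟩
        · intro e he e' he' heq
          simp only [coe_filter, Set.mem_setOf_eq] at he he'
          exact Sel.hom_inj hM hhom e he.1 e' he'.1 heq
      refine h4.trans (card_biUnion_le.trans ?_)
      calc ∑ c ∈ ((legs X r h₀).image cell).filter (fun c => (N.filter fun v => cell v = c).card ≤ 2),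
            (N.filter fun v => cell v = c).card
          ≤ ∑ _c ∈ ((legs X r h₀).image cell).filter
              (fun c => (N.filter fun v => cell v = c).card ≤ 2), 2 := by
            refine sum_le_sum fun u hu => ?_
            rw [mem_filter] at hu
            exact hu.2
        _ = (((legs X r h₀).image cell).filter
              (fun c => (N.filter fun v => cell v = c).card ≤ 2)).card * 2 := by
            rw [sum_const, smul_eq_mul]
        _ ≤ nc * 2 := Nat.mul_le_mul_right _ (card_filter_le _ _)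
    have h5 := card_le_card h1
    have h6 := card_union_le Gd ((𝓜.filter fun e => hom e ∈ Bd) ∪
        (𝓜.filter fun e => hom e ∈ N ∧
          (N.filter fun v => cell v = cell (hom e)).card ≤ 2))
    have h7 := card_union_le (𝓜.filter fun e => hom e ∈ Bd)
        (𝓜.filter fun e => hom e ∈ N ∧
          (N.filter fun v => cell v = cell (hom e)).card ≤ 2)
    omega
  -- numerics
  have hncρ : ρ' * nc ≤ ρ' + 2 * (Λ * k + 1) := by
    have h1 : ρ' ≤ 2 * (ρ' / 2 + 1) := by omega
    rcases Nat.eq_zero_or_pos nc with h0 | h0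
    · rw [h0]; omega
    · obtain ⟨m, hm⟩ : ∃ m, nc = m + 1 := ⟨nc - 1, by omega⟩
      rw [hm, Nat.add_sub_cancel] at hnc
      rw [hm]
      calc ρ' * (m + 1) = ρ' + m * ρ' := by ring
        _ ≤ ρ' + m * (2 * (ρ' / 2 + 1)) := by gcongr
        _ = ρ' + 2 * (m * (ρ' / 2 + 1)) := by ring
        _ ≤ ρ' + 2 * (Λ * k + 1) := by gcongr
  have hGdc : 12 * (T + Mn + 2) ^ 2 + M + Mn + 6 ≤ Gd.card := by
    have h1 : ρ' * 𝓜.card ≤ ρ' * (Gd.card + Bd.card + nc * 2) := Nat.mul_le_mul_left _ hcov
    have h2 : ρ' * (Gd.card + Bd.card + nc * 2) = ρ' * Gd.card + ρ' * Bd.card + 2 * (ρ' * nc) := by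
      ring
    have h3 : ρ' * (E + 12 * (T + Mn + 2) ^ 2 + M + Mn + 8) =
        ρ' * (12 * (T + Mn + 2) ^ 2 + M + Mn + 6) + E * ρ' + 2 * ρ' := by ring
    have h4 : ρ' * (12 * (T + Mn + 2) ^ 2 + M + Mn + 6) ≤ ρ' * Gd.card := by
      rw [h2] at h1
      rw [h3] at hμ
      generalize ρ' * (12 * (T + Mn + 2) ^ 2 + M + Mn + 6) = z1 at *
      generalize ρ' * 𝓜.card = z2 at *
      generalize ρ' * Gd.card = z3 at *
      generalize ρ' * Bd.card = z4 at *
      generalize ρ' * nc = z5 at *
      generalize E * ρ' = z6 at *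
      generalize Λ * k = z7 at *
      omega
    exact Nat.le_of_mul_le_mul_left h4 (by omega)
  have hGM : Gd.card ≤ 𝓜.card := card_filter_le _ _
  set T' := T + Mn + 1 with hT'
  have hsq : 9 * T' * (T' + 1) < Gd.card := by
    have h1 : 9 * T' * (T' + 1) ≤ 12 * (T + Mn + 2) ^ 2 := by
      have h2 : T + Mn + 2 = T' + 1 := by omega
      rw [h2]
      nlinarith
    omega
  obtain ⟨p, w, hf⟩ := Sel.greedy hM hhom N cell r T' hsq
  have hsz : (M - T) + 3 * T' ≤ 𝓜.card := by
    have h1 : 3 * T' ≤ 12 * (T + Mn + 2) ^ 2 := by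
      have h2 : T + Mn + 2 = T' + 1 := by omega
      rw [h2]
      nlinarith
    omega
  obtain ⟨q, hq⟩ := Sel.extend hM (hom := hom) N cell r (n := M - T) hf hsz
  have hTN : T' + (M - T) = M + Mn + 1 := by omega
  rw [hTN] at hq
  set Nn := M + Mn + 1 with hNn
  have hT'N : T' ≤ Nn := by omega
  -- the net
  have hI : Sel.used q w Nn T' ⊆ legs X r h₀ := by
    intro v hv
    rcases Sel.mem_used.1 hv with ⟨a, ha, rfl⟩ | ⟨a, ha, rfl⟩ | ⟨a, ha, rfl⟩
    · exact (hleg _ (hq.mem a ha)).1
    · exact (hleg _ (hq.mem a ha)).2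
    · exact (mem_filter.1 (hq.nice a ha).1).1
  obtain ⟨G, hGI, hGnet, hGc⟩ := exists_net S hI (2 * σ)
  have hGcard : G.card ≤ Mn + 1 := by
    by_contra hcon
    push Not at hcon
    obtain ⟨m, hm⟩ : ∃ m, G.card = m + 1 := ⟨G.card - 1, by omega⟩
    rw [hm, Nat.add_sub_cancel] at hGc
    have h1 : 2 * σ / 2 = σ := by omega
    rw [h1] at hGc
    have h2 : Mn + 1 ≤ m := by omega
    have h3 : (Mn + 1) * (σ + 1) ≤ m * (σ + 1) := Nat.mul_le_mul_right _ h2
    have h4 : Mn * σ < (Mn + 1) * (σ + 1) := by nlinarith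
    omega
  -- the indices whose package meets `G`
  set J : Finset ℕ := (range Nn).filter fun a =>
    (q a).1 ∈ G ∨ (q a).2 ∈ G ∨ (a < T' ∧ w a ∈ G) with hJ
  have hJc : J.card ≤ G.card := by
    refine card_le_card_of_injOn
      (fun a => if (q a).1 ∈ G then (q a).1 else if (q a).2 ∈ G then (q a).2 else w a) ?_ ?_
    · intro a ha
      simp only [hJ, coe_filter, Set.mem_setOf_eq] at ha
      by_cases h1 : (q a).1 ∈ G
      · simp only [h1, if_true]; exact mem_coe.2 h1
      · by_cases h2 : (q a).2 ∈ G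
        · simp only [h1, h2, if_true, if_false]; exact mem_coe.2 h2
        · simp only [h1, h2, if_false]
          rcases ha.2 with h | h | h
          · exact absurd h h1
          · exact absurd h h2
          · exact mem_coe.2 h.2
    · intro a ha a' ha' heq
      simp only [hJ, coe_filter, Set.mem_setOf_eq, mem_range] at ha ha'
      by_contra hne
      have hne' : q a ≠ q a' := fun h => hne (hq.inj a ha.1 a' ha'.1 h)
      obtain ⟨d1, d2, d3, d4⟩ := hM.disj _ (hq.mem a ha.1) _ (hq.mem a' ha'.1) hne'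
      have hw : ¬ (q a).1 ∈ G → ¬ (q a).2 ∈ G → a < T' := by
        intro h1 h2
        rcases ha.2 with h | h | h
        · exact absurd h h1
        · exact absurd h h2
        · exact h.1
      have hw' : ¬ (q a').1 ∈ G → ¬ (q a').2 ∈ G → a' < T' := by
        intro h1 h2
        rcases ha'.2 with h | h | h
        · exact absurd h h1
        · exact absurd h h2
        · exact h.1
      by_cases h1 : (q a).1 ∈ G <;> by_cases h1' : (q a').1 ∈ G <;>
        by_cases h2 : (q a).2 ∈ G <;> by_cases h2' : (q a').2 ∈ G <;>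
        simp only [h1, h1', h2, h2', if_true, if_false] at heq <;>
        first
          | exact d1 heq
          | exact d2 heq
          | exact d3 heq
          | exact d4 heq
          | exact (hq.ne a (hw h1 h2) a' ha'.1).1 heq
          | exact (hq.ne a (hw h1 h2) a' ha'.1).2 heq
          | exact (hq.ne a' (hw' h1' h2') a ha.1).1 heq.symm
          | exact (hq.ne a' (hw' h1' h2') a ha.1).2 heq.symm
          | exact hne (hq.winj a (hw h1 h2) a' (hw' h1' h2') heq)
  obtain ⟨f, hf1, hf2, hf3⟩ := Sel.pick (N := Nn) (T' := T') (M := M) (T := T) J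
    (by omega) (by omega) hTM hT'N
  have hJf : ∀ a, a < M → (q (f a)).1 ∉ G ∧ (q (f a)).2 ∉ G ∧ (a < T → w (f a) ∉ G) := by
    intro a ha
    have h1 := hf1 a ha
    have h2 := h1.2
    rw [hJ, mem_filter, mem_range, not_and, not_or, not_or] at h2
    obtain ⟨h3, h4, h5⟩ := h2 h1.1
    exact ⟨h3, h4, fun h h' => h5 ⟨hf2 a h, h'⟩⟩
  refine ⟨fun a => (q (f a)).1, fun a => (q (f a)).2, fun a => w (f a), ?_, ?_, ?_, ?_, ?_, ?_⟩
  · intro a ha
    exact hq.mem _ (hf1 a ha).1
  · intro a ha a' ha' heq
    have h1 : q (f a) = q (f a') := heq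
    exact hf3 a ha a' ha' (hq.inj _ (hf1 a ha).1 _ (hf1 a' ha').1 h1)
  · intro a ha
    have h1 := hq.nice _ (hf2 a ha)
    have h2 := mem_filter.1 h1.1
    have h3 := hq.mem _ (hf1 a (by omega)).1
    exact ⟨h2.1, h2.2, hcell _ (hhl _ h3) _ h2.1 h1.2.symm⟩
  · intro a ha a' ha' heq
    exact hf3 a (by omega) a' (by omega) (hq.winj _ (hf2 a ha) _ (hf2 a' ha') heq)
  · intro a ha a' ha'
    exact hq.ne _ (hf2 a ha) _ (hf1 a' ha').1
  · intro v hv
    have hvI : v ∈ Sel.used q w Nn T' := by
      rw [mem_union, mem_union, mem_image, mem_image, mem_image] at hv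
      rw [Sel.mem_used]
      rcases hv with (⟨a, ha, rfl⟩ | ⟨a, ha, rfl⟩) | ⟨a, ha, rfl⟩
      · exact Or.inl ⟨f a, (hf1 a (mem_range.1 ha)).1, rfl⟩
      · exact Or.inr (Or.inl ⟨f a, (hf1 a (mem_range.1 ha)).1, rfl⟩)
      · exact Or.inr (Or.inr ⟨f a, hf2 a (mem_range.1 ha), rfl⟩)
    obtain ⟨u, hu, hud⟩ := hGnet v hvI
    refine ⟨u, hI (hGI hu), ?_, hud⟩
    intro hcon
    rw [mem_union, mem_union, mem_image, mem_image, mem_image] at hcon
    rcases hcon with (⟨a, ha, rfl⟩ | ⟨a, ha, rfl⟩) | ⟨a, ha, rfl⟩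
    · exact (hJf a (mem_range.1 ha)).1 hu
    · exact (hJf a (mem_range.1 ha)).2.1 hu
    · have h1 := mem_range.1 ha
      exact (hJf a (by omega)).2.2 h1 hu

end Pool.Agent.Helper84.NC
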