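import Pool.Agent.Helper84.NC.Serve
import Pool.Agent.Helper84.NC.Select
import Pool.Agent.Helper84.NC.RegA

/-! # Project NC, module NC-24: many related pairs -/

set_option autoImplicit false

namespace Pool.Agent.Helper84.NC

open Finset Classical

variable {V : Type*} [Fintype V] {X : TM V} {r : V} {k Λ B E h₀ σ : ℕ}

omit [Fintype V] in
/-- Counting for three disjoint families. -/
theorem caseA_count {K : Finset V} {g l w : ℕ → V} {M T m t : ℕ} {p : V → Prop}
    (hm : m ≤ M) (ht : t ≤ T)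
    (hg : ∀ a, a < M → g a ∈ K ∧ p (g a)) (hl : ∀ a, a < m → l a ∈ K ∧ p (l a))
    (hw : ∀ a, a < t → w a ∈ K ∧ p (w a))
    (gi : ∀ a, a < M → ∀ a', a' < M → g a = g a' → a = a')
    (li : ∀ a, a < M → ∀ a', a' < M → l a = l a' → a = a')
    (wi : ∀ a, a < T → ∀ a', a' < T → w a = w a' → a = a')
    (gl : ∀ a, a < M → ∀ a', a' < M → g a ≠ l a')
    (wgl : ∀ a, a < T → ∀ a', a' < M → w a ≠ g a' ∧ w a ≠ l a') :
    M + m + t ≤ (K.filter p).card := by
  have h1 : ((range M).image g).card = M := by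
    rw [card_image_of_injOn, card_range]
    intro a ha a' ha' h
    simp only [coe_range, Set.mem_Iio] at ha ha'
    exact gi a ha a' ha' h
  have h2 : ((range m).image l).card = m := by
    rw [card_image_of_injOn, card_range]
    intro a ha a' ha' h
    simp only [coe_range, Set.mem_Iio] at ha ha'
    exact li a (by omega) a' (by omega) h
  have h3 : ((range t).image w).card = t := by
    rw [card_image_of_injOn, card_range]
    intro a ha a' ha' h
    simp only [coe_range, Set.mem_Iio] at ha ha'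
    exact wi a (by omega) a' (by omega) h
  have d1 : Disjoint ((range M).image g) ((range m).image l) := by
    rw [Finset.disjoint_left]
    intro x hx hx'
    simp only [mem_image, mem_range] at hx hx'
    obtain ⟨a, ha, rfl⟩ := hx
    obtain ⟨a', ha', h⟩ := hx'
    exact gl a ha a' (by omega) h.symm
  have d2 : Disjoint ((range M).image g ∪ (range m).image l) ((range t).image w) := by
    rw [Finset.disjoint_left]
    intro x hx hx'
    simp only [mem_union, mem_image, mem_range] at hx hx'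
    obtain ⟨a', ha', h⟩ := hx'
    rcases hx with ⟨a, ha, rfl⟩ | ⟨a, ha, rfl⟩
    · exact (wgl a' (by omega) a ha).1 h
    · exact (wgl a' (by omega) a (by omega)).2 h
  have h4 : (((range M).image g ∪ (range m).image l) ∪ (range t).image w).card = M + m + t := by
    rw [card_union_of_disjoint d2, card_union_of_disjoint d1, h1, h2, h3]
  rw [← h4]
  apply card_le_card
  intro x hx
  simp only [mem_union, mem_image, mem_range] at hx
  rw [mem_filter]
  rcases hx with (⟨a, ha, rfl⟩ | ⟨a, ha, rfl⟩) | ⟨a, ha, rfl⟩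
  · exact hg a ha
  · exact hl a ha
  · exact hw a ha

theorem case_alpha (S : Setup X r k Λ B E h₀ σ) {ρ Mn D Z κ ρ' T M : ℕ}
    (hρ : 64 * (Λ + 1) ≤ ρ) (hρσ : 100 * (ρ + D + M + T + ρ' + Mn) ≤ σ)
    (hΛσ : 2 * Λ * k ≤ σ * B) (hMn : Λ * k + 1 ≤ Mn * σ) (hT : 2 * ρ + 2 * Λ + 4 ≤ T)
    (hMT : D + 2 * ρ + 2 * ρ' + 2 * T + 2 * Λ + 8 ≤ M) (hZ : 4 * ρ + 2 * M + 4 ≤ Z)
    {P Y : Finset V} (R : Reg X r k h₀ σ ∅ P Y)
    (hκ : (legs X r h₀).card + Y.card + κ = 2 * k) (hκ1 : κ ≤ k + 2 * ρ)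
    {F : Finset V} (hF : Far X r k h₀ D F) {𝓜 : Finset (V × V)}
    (hM : Mat F (Rel' X r h₀ Z κ) 𝓜)
    (hμ : 8 * (Λ * k + 1) + ρ' * (E + 12 * (T + Mn + 2) ^ 2 + M + Mn + 8) ≤ ρ' * 𝓜.card) :
    Cov X k := by
  have hE' := S.hE'
  have hσ := S.hσ
  have hB := S.hB
  have hk0 : 100 * (64 * σ * (2 * Λ + E + 2)) ≤ k := by omega
  have hk1 : 100 * (64 * σ * 2) ≤ k := by
    refine le_trans ?_ hk0
    have : 64 * σ * 2 ≤ 64 * σ * (2 * Λ + E + 2) := Nat.mul_le_mul_left _ (by omega)
    omega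
  have hρ' : 1 ≤ ρ' := by
    rcases Nat.eq_zero_or_pos ρ' with h | h
    · subst h
      rw [zero_mul, zero_mul] at hμ
      omega
    · exact h
  have hleg := card_legs_lo S
  obtain ⟨v₀, hv₀⟩ : (legs X r h₀).Nonempty := Finset.card_pos.1 (by omega)
  have : Nonempty V := ⟨v₀⟩
  have hY : (legs X r h₀).card + Y.card ≤ k + 2 * Λ + 1 :=
    reg_weak S ⟨v₀, hv₀, Finset.notMem_empty v₀⟩ R.sub R.far
  have hPY := R.le
  -- the homes and centres
  have key : ∀ e : V × V, e ∈ 𝓜 → ∃ home, (home = e.1 ∨ home = e.2) ∧ ∃ c : ℕ → V,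
      ∀ a, 1 ≤ a → a ≤ M → Sv X r k h₀ e.1 (c a) a 0 ∧ Sv X r k h₀ e.2 (c a) a (κ + a - k) ∧
        X.d (c a) (bt X r k home) ≤ 2 * (D + (κ - k) + a) := by
    intro e he
    obtain ⟨home, h1, h2⟩ := pair_serve S hF (hM.left e he) (hM.right e he) (hM.ne e he)
      (hM.rel e he) (A := M) (by omega) (by omega) (by omega)
    refine ⟨home, h1, ?_⟩
    choose! c hc using h2
    exact ⟨c, hc⟩
  choose! hom hhom c hc using key
  obtain ⟨g, l, w, h1, h2, h3, h4, h5, h6⟩ :=
    exists_select S hF.sub hM hhom hρ' (by omega : T ≤ M) hMn hμ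
  -- injectivity
  have hgi : ∀ a, a < M → ∀ a', a' < M → g a = g a' → a = a' := by
    intro a ha a' ha' h
    apply h2 a ha a' ha'
    by_contra hne
    exact (hM.disj _ (h1 a ha) _ (h1 a' ha') hne).1 h
  have hli : ∀ a, a < M → ∀ a', a' < M → l a = l a' → a = a' := by
    intro a ha a' ha' h
    apply h2 a ha a' ha'
    by_contra hne
    exact (hM.disj _ (h1 a ha) _ (h1 a' ha') hne).2.2.2 h
  have hgl : ∀ a, a < M → ∀ a', a' < M → g a ≠ l a' := by
    intro a ha a' ha' h
    by_cases hne : (g a, l a) = (g a', l a')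
    · have haa := h2 a ha a' ha' hne
      subst haa
      exact hM.ne _ (h1 a ha) h
    · exact (hM.disj _ (h1 a ha) _ (h1 a' ha') hne).2.1 h
  -- the index of an element of the second family
  have hjl : ∃ jl : V → ℕ, ∀ a, a < M → jl (l a) = a := by
    refine ⟨fun v => if h : ∃ a, a < M ∧ l a = v then h.choose else 0, ?_⟩
    intro a ha
    have hex : ∃ a', a' < M ∧ l a' = l a := ⟨a, ha, rfl⟩
    simp only [hex, dif_pos]
    exact hli _ hex.choose_spec.1 a ha hex.choose_spec.2
  obtain ⟨jl, hjl⟩ := hjl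
  set Nw : ℕ := D + (κ - k) + 2 * T + 2 * ρ' + 2 with hNw
  set ν : V → ℕ := fun v => if v ∈ (range M).image g then 0 else
    if v ∈ (range M).image l then κ + jl v + 1 - k else Nw with hνdef
  set K : Finset V := (range M).image g ∪ (range M).image l ∪ (range T).image w with hKdef
  have νg : ∀ a, a < M → ν (g a) = 0 := by
    intro a ha
    simp only [hνdef]
    rw [if_pos (mem_image_of_mem g (mem_range.2 ha))]
  have νl : ∀ a, a < M → ν (l a) = κ + a + 1 - k := by
    intro a ha
    simp only [hνdef]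
    rw [if_neg, if_pos (mem_image_of_mem l (mem_range.2 ha)), hjl a ha]
    intro hmem
    obtain ⟨a', ha', h⟩ := mem_image.1 hmem
    exact hgl a' (mem_range.1 ha') a ha h
  have νw : ∀ a, a < T → ν (w a) = Nw := by
    intro a ha
    simp only [hνdef]
    rw [if_neg, if_neg]
    · intro hmem
      obtain ⟨a', ha', h⟩ := mem_image.1 hmem
      exact (h5 a ha a' (mem_range.1 ha')).2 h.symm
    · intro hmem
      obtain ⟨a', ha', h⟩ := mem_image.1 hmem
      exact (h5 a ha a' (mem_range.1 ha')).1 h.symm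
  have hgK : ∀ a, a < M → g a ∈ K := fun a ha =>
    mem_union_left _ (mem_union_left _ (mem_image_of_mem g (mem_range.2 ha)))
  have hlK : ∀ a, a < M → l a ∈ K := fun a ha =>
    mem_union_left _ (mem_union_right _ (mem_image_of_mem l (mem_range.2 ha)))
  have hwK : ∀ a, a < T → w a ∈ K := fun a ha =>
    mem_union_right _ (mem_image_of_mem w (mem_range.2 ha))
  have hKcases : ∀ v ∈ K, (∃ a, a < M ∧ v = g a) ∨ (∃ a, a < M ∧ v = l a) ∨
      ∃ a, a < T ∧ v = w a := by
    intro v hv
    simp only [hKdef, mem_union, mem_image, mem_range] at hv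
    rcases hv with (⟨a, ha, rfl⟩ | ⟨a, ha, rfl⟩) | ⟨a, ha, rfl⟩
    · exact Or.inl ⟨a, ha, rfl⟩
    · exact Or.inr (Or.inl ⟨a, ha, rfl⟩)
    · exact Or.inr (Or.inr ⟨a, ha, rfl⟩)
  have hKcard : K.card ≤ M + M + T := by
    refine (card_union_le _ _).trans ?_
    have e1 := card_union_le ((range M).image g) ((range M).image l)
    have e2 := card_image_le (s := range M) (f := g)
    have e3 := card_image_le (s := range M) (f := l)
    have e4 := card_image_le (s := range T) (f := w)
    rw [card_range] at e2 e3 e4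
    omega
  refine asm1 S (ρ := ρ) (M₁ := M) (t := M) (Mn := Mn) hρ (by omega) hΛσ hMn
    (U := Icc 1 M) (b := fun a => c (g (a - 1), l (a - 1)) a) ?_
    (K := K) (Q := ∅) (P := P) ?_ (Finset.empty_subset _) (ν := ν) ?_ ?_ ?_ R.cov ?_ ?_ ?_
  · intro a ha
    rw [mem_Icc] at ha
    exact ⟨ha.1, ha.2, Or.inl ha.2⟩
  · intro v hv
    rcases hKcases v hv with ⟨a, ha, rfl⟩ | ⟨a, ha, rfl⟩ | ⟨a, ha, rfl⟩
    · exact hF.sub (hM.left _ (h1 a ha))
    · exact hF.sub (hM.right _ (h1 a ha))
    · exact (h3 a ha).1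
  · intro v hv
    rcases hKcases v hv with ⟨a, ha, rfl⟩ | ⟨a, ha, rfl⟩ | ⟨a, ha, rfl⟩
    · refine ⟨a + 1, mem_Icc.2 ⟨by omega, by omega⟩, ?_⟩
      rw [νg a ha]
      simp only [Nat.add_sub_cancel]
      exact (hc _ (h1 a ha) (a + 1) (by omega) (by omega)).1
    · refine ⟨a + 1, mem_Icc.2 ⟨by omega, by omega⟩, ?_⟩
      rw [νl a ha]
      simp only [Nat.add_sub_cancel]
      exact (hc _ (h1 a ha) (a + 1) (by omega) (by omega)).2.1
    · have haM : a < M := by omega
      refine ⟨a + 1, mem_Icc.2 ⟨by omega, by omega⟩, ?_⟩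
      rw [νw a ha]
      simp only [Nat.add_sub_cancel]
      have f1 := (hc _ (h1 a haM) (a + 1) (by omega) (by omega)).2.2
      obtain ⟨w1, w2, w3⟩ := h3 a ha
      have f2 := (bt_bel S w1).2
      have f3 := X.tri (c (g a, l a) (a + 1)) (bt X r k (hom (g a, l a))) (bt X r k (w a))
      have f4 := X.tri (c (g a, l a) (a + 1)) (bt X r k (w a)) (w a)
      refine ⟨2 * (D + (κ - k) + (a + 1)) + 2 * ρ' + (a + 1), by omega, ?_⟩
      exact fix_mono (fix_hd w1 (m := 2 * (D + (κ - k) + (a + 1)) + 2 * ρ' + (a + 1)) (h := ρ')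
        (fun x hx _ => w2 x hx)) le_rfl (by omega)
  · intro v hv _
    exact Or.inl (h6 v hv)
  · intro v hv
    exact absurd hv (Finset.notMem_empty v)
  · omega
  · omega
  · intro n hn
    have hU : (Icc 1 M).card = M := by simp
    rw [hU]
    by_cases hcase : n + k ≤ M + κ
    · -- the first two families
      refine le_trans (?_ : _ ≤ k + (M + (n + k - κ) + 0)) (Nat.add_le_add_left ?_ k)
      · omega
      · convert caseA_count (K := K) (g := g) (l := l) (w := w) (M := M) (T := T)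
          (m := n + k - κ) (t := 0) (p := fun v => ν v ≤ n) (by omega) (by omega)
          (fun a ha => ⟨hgK a ha, by rw [νg a ha]; omega⟩)
          (fun a ha => ⟨hlK a (by omega), by rw [νl a (by omega)]; omega⟩)
          (fun a ha => absurd ha (by omega)) hgi hli h4 hgl h5
    · refine le_trans (?_ : _ ≤ k + (M + M + T)) (Nat.add_le_add_left ?_ k)
      · omega
      · convert caseA_count (K := K) (g := g) (l := l) (w := w) (M := M) (T := T)
          (m := M) (t := T) (p := fun v => ν v ≤ n) le_rfl le_rfl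
          (fun a ha => ⟨hgK a ha, by rw [νg a ha]; omega⟩)
          (fun a ha => ⟨hlK a ha, by rw [νl a ha]; omega⟩)
          (fun a ha => ⟨hwK a ha, by rw [νw a ha]; omega⟩) hgi hli h4 hgl h5

end Pool.Agent.Helper84.NC
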