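import Pool.Agent.Helper84.NC.Height

/-! # Project NC, module NC-04: counting vertices by height -/

set_option autoImplicit false

namespace Pool.Agent.Helper84.NC

open Finset Classical

variable {V : Type*} [Fintype V] {X : TM V} {r : V} {k Λ : ℕ}

/-- On every interval of heights the numbers `Nh` are large on average. -/
theorem count_Ico (hs : ∑ h ∈ range k, (k - Nh X r h) ≤ Λ * k) (a : ℕ) :
    (k - a) * k ≤ ∑ h ∈ Finset.Ico a k, Nh X r h + Λ * k := by
  have h1 : ∑ h ∈ Finset.Ico a k, (k - Nh X r h) ≤ Λ * k := by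
    refine le_trans (Finset.sum_le_sum_of_subset ?_) hs
    intro h hh
    rw [Finset.mem_Ico] at hh
    exact Finset.mem_range.2 hh.2
  have h2 : ∑ _h ∈ Finset.Ico a k, k ≤
      ∑ h ∈ Finset.Ico a k, Nh X r h + ∑ h ∈ Finset.Ico a k, (k - Nh X r h) := by
    rw [← Finset.sum_add_distrib]
    refine Finset.sum_le_sum fun h _ => ?_
    omega
  rw [Finset.sum_const, Nat.card_Ico, smul_eq_mul] at h2
  omega

/-- All vertices, split at height `k`. -/
theorem count_split (X : TM V) (r : V) (k : ℕ) :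
    ∑ h ∈ Finset.Ico 0 k, Nh X r h + (univ.filter fun v => k ≤ ht X r v).card =
      Fintype.card V := by
  rw [sum_Nh]
  have h1 := Finset.card_filter_add_card_filter_not (s := (univ : Finset V))
    (fun v => 0 ≤ ht X r v ∧ ht X r v < k)
  have h2 : (univ.filter fun v => ¬ (0 ≤ ht X r v ∧ ht X r v < k)) =
      (univ.filter fun v => k ≤ ht X r v) := by
    ext v
    simp only [Finset.mem_filter, Finset.mem_univ, true_and]
    omega
  rw [h2, Finset.card_univ] at h1
  exact h1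

/-- Few vertices have height at least `k`. -/
theorem card_high (hc : Fintype.card V ≤ k ^ 2) (hs : ∑ h ∈ range k, (k - Nh X r h) ≤ Λ * k) :
    (univ.filter fun v => k ≤ ht X r v).card ≤ Λ * k := by
  have h1 := count_Ico hs 0
  have h2 := count_split X r k
  rw [Nat.sub_zero] at h1
  rw [pow_two] at hc
  omega

theorem Nh_low (hc : Fintype.card V ≤ k ^ 2) (hs : ∑ h ∈ range k, (k - Nh X r h) ≤ Λ * k)
    {x : ℕ} (hx : x ≤ k) : x * Nh X r x ≤ x * k + Λ * k := by
  have h1 := count_Ico hs x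
  have h2 := count_split X r k
  have h3 : ∑ h ∈ Finset.Ico 0 x, Nh X r h + ∑ h ∈ Finset.Ico x k, Nh X r h =
      ∑ h ∈ Finset.Ico 0 k, Nh X r h := Finset.sum_Ico_consecutive _ (Nat.zero_le x) hx
  have h4 : x * Nh X r x ≤ ∑ h ∈ Finset.Ico 0 x, Nh X r h := by
    have h5 : ∑ _h ∈ Finset.Ico 0 x, Nh X r x ≤ ∑ h ∈ Finset.Ico 0 x, Nh X r h := by
      refine Finset.sum_le_sum fun h hh => ?_
      rw [Finset.mem_Ico] at hh
      exact Nh_anti hh.2.le
    rwa [Finset.sum_const, Nat.card_Ico, smul_eq_mul, Nat.sub_zero] at h5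
  have h6 : (k - x) * k + x * k = k ^ 2 := by
    rw [← add_mul, Nat.sub_add_cancel hx, pow_two]
  omega

theorem Nh_def (hs : ∑ h ∈ range k, (k - Nh X r h) ≤ Λ * k) {x : ℕ} (hx : x ≤ k) :
    (k - x) * (k - Nh X r x) ≤ Λ * k := by
  have h1 : ∑ h ∈ Finset.Ico x k, (k - Nh X r h) ≤ Λ * k := by
    refine le_trans (Finset.sum_le_sum_of_subset ?_) hs
    intro h hh
    rw [Finset.mem_Ico] at hh
    exact Finset.mem_range.2 hh.2
  have h2 : ∑ _h ∈ Finset.Ico x k, (k - Nh X r x) ≤ ∑ h ∈ Finset.Ico x k, (k - Nh X r h) := by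
    refine Finset.sum_le_sum fun h hh => ?_
    rw [Finset.mem_Ico] at hh
    have h3 : Nh X r h ≤ Nh X r x := Nh_anti hh.1
    omega
  rw [Finset.sum_const, Nat.card_Ico, smul_eq_mul] at h2
  exact h2.trans h1

theorem card_mid (hs : ∑ h ∈ range k, (k - Nh X r h) ≤ Λ * k) {h₀ : ℕ} (hh : h₀ < k) :
    (k - 1 - h₀) * k ≤ (univ.filter fun v => h₀ < ht X r v ∧ ht X r v < k).card + Λ * k := by
  have h1 := count_Ico hs (h₀ + 1)
  rw [sum_Nh] at h1
  have h2 : (univ.filter fun v => h₀ + 1 ≤ ht X r v ∧ ht X r v < k) =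
      (univ.filter fun v => h₀ < ht X r v ∧ ht X r v < k) := by
    ext v
    simp only [Finset.mem_filter, Finset.mem_univ, true_and]
    omega
  have h3 : k - 1 - h₀ = k - (h₀ + 1) := by omega
  rw [h3]
  rw [h2] at h1
  exact h1

end Pool.Agent.Helper84.NC
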