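import Mathlib

/-! # Project NC, module NC-11: assignment of radii -/

set_option autoImplicit false

namespace Pool.Agent.Helper84.NC

open Finset

/-- The condition of Hall for intervals. -/
theorem assign {ι : Type*} (I : Finset ι) (ν : ι → ℕ) (R : Finset ℕ)
    (h : ∀ n, (I.filter fun i => n < ν i).card ≤ (R.filter fun ρ => n ≤ ρ).card) :
    ∃ f : ι → ℕ, (∀ i ∈ I, 0 < ν i → f i ∈ R ∧ ν i ≤ f i + 1) ∧
      ∀ i ∈ I, ∀ j ∈ I, 0 < ν i → 0 < ν j → f i = f j → i = j := by
  classical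
  have key : ∃ f : {i : ι // i ∈ I ∧ 0 < ν i} → ℕ, Function.Injective f ∧
      ∀ x, f x ∈ R.filter fun ρ => ν x.1 ≤ ρ + 1 := by
    rw [← Finset.all_card_le_biUnion_card_iff_exists_injective]
    intro s
    rcases s.eq_empty_or_nonempty with rfl | hs
    · simp
    obtain ⟨i0, hi0, hmin⟩ := s.exists_min_image (fun i => ν i.1) hs
    have h0 : 0 < ν i0.1 := i0.2.2
    have h1 : s.card ≤ (I.filter fun i => ν i0.1 - 1 < ν i).card := by
      refine Finset.card_le_card_of_injOn (fun i => i.1) (fun i hi => ?_)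
        (fun i _ j _ hij => Subtype.ext hij)
      have h2 := hmin i hi
      simp only [coe_filter, Set.mem_setOf_eq]
      exact ⟨i.2.1, by omega⟩
    have h3 : (R.filter fun ρ => ν i0.1 - 1 ≤ ρ) ⊆
        s.biUnion fun x => R.filter fun ρ => ν x.1 ≤ ρ + 1 := by
      intro ρ hρ
      rw [mem_filter] at hρ
      rw [mem_biUnion]
      refine ⟨i0, hi0, ?_⟩
      rw [mem_filter]
      exact ⟨hρ.1, by omega⟩
    exact h1.trans ((h _).trans (Finset.card_le_card h3))
  obtain ⟨f, hf, hfR⟩ := key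
  refine ⟨fun i => if hi : i ∈ I ∧ 0 < ν i then f ⟨i, hi⟩ else 0, ?_, ?_⟩
  · intro i hi h0
    have h1 := hfR ⟨i, hi, h0⟩
    rw [mem_filter] at h1
    simp only [hi, h0, and_self, dif_pos]
    exact h1
  · intro i hi j hj hi0 hj0 hij
    simp only [hi, hj, hi0, hj0, and_self, dif_pos] at hij
    exact congrArg Subtype.val (hf hij)

end Pool.Agent.Helper84.NC
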