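import Pool.Agent.Helper84.NC.Legs
import Pool.Agent.Helper84.NC.Hall
import Pool.Agent.Helper84.NC.Fix

/-! # Project NC, module NC-13: Hall's condition gives a cover -/

set_option autoImplicit false

namespace Pool.Agent.Helper84.NC

open Finset Classical

variable {V : Type*} [Fintype V] {X : TM V} {r : V} {k Λ B E h₀ σ : ℕ}

/-- The balls of radii `k - a`, `a ∈ U`, cover everything outside of the legs, and one more ball
of radius less than `ν v` is needed for the leg `v` (none, if `ν v = 0`). -/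
theorem cov_of_hall [Nonempty V] {U : Finset ℕ} {b : ℕ → V} (hU : ∀ a ∈ U, 1 ≤ a ∧ a ≤ k)
    (hcov : ∀ x, Out X r h₀ x → ∃ a ∈ U, X.d (b a) x + a ≤ k) {ν : V → ℕ}
    (hν : ∀ v ∈ legs X r h₀, ∃ a ∈ U, Sv X r k h₀ v (b a) a (ν v))
    (hall : ∀ n, ((legs X r h₀).filter fun v => n < ν v).card ≤
      ((range k).filter fun ρ => k - ρ ∉ U ∧ n ≤ ρ).card) :
    Cov X k := by
  obtain ⟨f, hf1, hf2⟩ := assign (legs X r h₀) ν ((range k).filter fun ρ => k - ρ ∉ U) (by
    intro n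
    rw [filter_filter]
    exact hall n)
  -- data for every vertex
  have hdat : ∀ v, ∃ (a m : ℕ) (z : V), v ∈ legs X r h₀ →
      a ∈ U ∧ X.d (b a) v + h₀ + a ≤ k + m ∧
        ∀ x, Bel X r v x → h₀ < X.d v x + m → X.d z x < ν v := by
    intro v
    by_cases hv : v ∈ legs X r h₀
    · obtain ⟨a, ha, m, hm, z, hz⟩ := hν v hv
      exact ⟨a, m, z, fun _ => ⟨ha, hm, hz⟩⟩
    · exact ⟨0, 0, v, fun h => absurd h hv⟩
  choose A M Z hAMZ using hdat
  have hbase : ∀ (c : ℕ → V), (∀ ρ, k - ρ ∈ U → c ρ = b (k - ρ)) →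
      ∀ a ∈ U, ∀ x, X.d (b a) x + a ≤ k → ∃ ρ, ρ < k ∧ X.d (c ρ) x ≤ ρ := by
    intro c hc a ha x hx
    have h1 := hU a ha
    refine ⟨k - a, by omega, ?_⟩
    have h2 : k - (k - a) = a := by omega
    rw [hc (k - a) (by rw [h2]; exact ha), h2]
    omega
  obtain ⟨c, hc1, hc2⟩ : ∃ c : ℕ → V, (∀ ρ, k - ρ ∈ U → c ρ = b (k - ρ)) ∧
      ∀ v ∈ legs X r h₀, 0 < ν v → k - f v ∉ U → c (f v) = Z v := by
    refine ⟨fun ρ => if k - ρ ∈ U then b (k - ρ) else
      if h : ∃ v ∈ legs X r h₀, 0 < ν v ∧ f v = ρ then Z h.choose else Classical.arbitrary V,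
      ?_, ?_⟩
    · intro ρ hρ
      simp only [if_pos hρ]
    · intro v hv hv0 hfv
      have hex : ∃ w ∈ legs X r h₀, 0 < ν w ∧ f w = f v := ⟨v, hv, hv0, rfl⟩
      simp only [if_neg hfv]
      rw [dif_pos hex]
      have hs := hex.choose_spec
      rw [hf2 _ hs.1 v hv hs.2.1 hv0 hs.2.2]
  refine ⟨c, fun x => ?_⟩
  by_cases hx : Out X r h₀ x
  · obtain ⟨a, ha, hax⟩ := hcov x hx
    exact hbase c hc1 a ha x hax
  · unfold Out at hx
    push Not at hx
    obtain ⟨v, hv, hvx⟩ := hx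
    obtain ⟨ha, hm, hz⟩ := hAMZ v hv
    by_cases hd : X.d v x + M v ≤ h₀
    · exact hbase c hc1 (A v) ha x (cover_of_fix hm hd)
    · have h1 := hz x hvx (by omega)
      have h2 := hf1 v hv (by omega)
      rw [mem_filter, mem_range] at h2
      refine ⟨f v, h2.1.1, ?_⟩
      rw [hc2 v hv (by omega) h2.1.2]
      omega

end Pool.Agent.Helper84.NC
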