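import Mathlib

/-!
# Project NC (burning number, near critical trees): definitions

A finite tree is handled as a metric space `X : TM V`. All vertices of a rooted tree are described
by distances to the root `r`.
-/

set_option autoImplicit false

namespace Pool.Agent.Helper84.NC

open Finset

/-- The metric of a tree. -/
structure TM (V : Type*) where
  d : V → V → ℕ
  self : ∀ x, d x x = 0
  eq : ∀ x y, d x y = 0 → x = y
  symm : ∀ x y, d x y = d y x
  tri : ∀ x y z, d x z ≤ d x y + d y z
  btw : ∀ x y t, t ≤ d x y → ∃ z, d x z = t ∧ d x z + d z y = d x y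
  uniq : ∀ x y z z', d x z + d z y = d x y → d x z' + d z' y = d x y → d x z = d x z' → z = z'
  med : ∀ x y z, ∃ m, d x m + d m y = d x y ∧ d y m + d m z = d y z ∧ d x m + d m z = d x z

variable {V : Type*}

/-- `z` lies on the path from `x` to `y`. -/
def Bt (X : TM V) (x z y : V) : Prop := X.d x z + X.d z y = X.d x y

theorem exists_pt (X : TM V) (x y : V) (j : ℕ) :
    ∃ z, X.d x z = min j (X.d x y) ∧ Bt X x z y := by
  obtain ⟨z, h1, h2⟩ := X.btw x y (min j (X.d x y)) (min_le_right _ _)
  exact ⟨z, h1, h2⟩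

/-- The vertex at distance `min j (d x y)` from `x` on the path from `x` to `y`. -/
noncomputable def pt (X : TM V) (x y : V) (j : ℕ) : V := (exists_pt X x y j).choose

/-- `x` lies below `v` in the tree with root `r`. -/
def Bel (X : TM V) (r v x : V) : Prop := X.d r v + X.d v x = X.d r x

/-- The ancestor of `v` at distance `j` (the root, if `v` is less deep). -/
noncomputable def up (X : TM V) (r v : V) (j : ℕ) : V := pt X v r j

/-- A set of vertices which contains the paths between its elements. -/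
def Cvx (X : TM V) (S : Finset V) : Prop := ∀ a ∈ S, ∀ b ∈ S, ∀ z, Bt X a z b → z ∈ S

/-- Balls of radii `0, ..., k - 1` cover the tree. -/
def Cov (X : TM V) (k : ℕ) : Prop := ∃ c : ℕ → V, ∀ x, ∃ ρ, ρ < k ∧ X.d (c ρ) x ≤ ρ

variable [Fintype V]

open Classical in
/-- The vertices below `v`. -/
noncomputable def sub (X : TM V) (r v : V) : Finset V := univ.filter (Bel X r v)

/-- The height of `v`. -/
noncomputable def ht (X : TM V) (r v : V) : ℕ := (sub X r v).sup (X.d v)

theorem self_mem_sub (X : TM V) (r v : V) : v ∈ sub X r v := by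
  classical
  simp [sub, Bel, X.self]

theorem exists_tip (X : TM V) (r v : V) : ∃ x, Bel X r v x ∧ X.d v x = ht X r v := by
  classical
  obtain ⟨x, hx, hx'⟩ := Finset.exists_mem_eq_sup (sub X r v) ⟨v, self_mem_sub X r v⟩ (X.d v)
  refine ⟨x, ?_, hx'.symm⟩
  simpa [sub] using hx

/-- A deepest vertex below `v`. -/
noncomputable def tip (X : TM V) (r v : V) : V := (exists_tip X r v).choose

open Classical in
/-- The number of vertices of height `h`. -/
noncomputable def Nh (X : TM V) (r : V) (h : ℕ) : ℕ := (univ.filter fun v => ht X r v = h).card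

/-- The root lies in the middle of a longest path. -/
def Cen (X : TM V) (r : V) : Prop :=
  ∃ a b, X.d a b = X.d a r + X.d r b ∧ (∀ v, X.d r v ≤ X.d r a) ∧ X.d r a ≤ X.d r b + 1

open Classical in
/-- The legs: the vertices of height `h₀`. -/
noncomputable def legs (X : TM V) (r : V) (h₀ : ℕ) : Finset V :=
  univ.filter fun v => ht X r v = h₀

/-- The base of a leg: the ancestor of the tip at distance `k`. -/
noncomputable def bt (X : TM V) (r : V) (k : ℕ) (v : V) : V := up X r (tip X r v) k

/-- The distance of `x` to the path from `v` to `u`. -/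
def hd (X : TM V) (v u x : V) : ℕ := (X.d x v + X.d x u - X.d v u) / 2

open Classical in
/-- The largest distance to the path from `v` to its tip, over the vertices below `v` of level
less than `Z` (where the tip has level `0` and `v` has level `h₀`). -/
noncomputable def hz (X : TM V) (r : V) (h₀ Z : ℕ) (v : V) : ℕ :=
  ((sub X r v).filter fun x => h₀ < X.d v x + Z).sup (hd X v (tip X r v))

/-- One ball of radius less than `n` covers the vertices of level less than `m` of the leg `v`. -/
def Fix (X : TM V) (r : V) (h₀ : ℕ) (v : V) (m n : ℕ) : Prop :=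
  ∃ z, ∀ x, Bel X r v x → h₀ < X.d v x + m → X.d z x < n

/-- The ball of radius `k - a` around `c` and one ball of radius less than `n` (no ball, if
`n = 0`) cover the leg `v`. -/
def Sv (X : TM V) (r : V) (k h₀ : ℕ) (v c : V) (a n : ℕ) : Prop :=
  ∃ m, X.d c v + h₀ + a ≤ k + m ∧ Fix X r h₀ v m n

/-- `x` is in no leg. -/
def Out (X : TM V) (r : V) (h₀ : ℕ) (x : V) : Prop := ∀ v ∈ legs X r h₀, ¬ Bel X r v x

open Classical in
/-- The vertices outside of the legs which are far from the bases of all legs not in `Q`. -/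
noncomputable def Wset (X : TM V) (r : V) (k h₀ σ : ℕ) (Q : Finset V) : Finset V :=
  univ.filter fun x => Out X r h₀ x ∧
    ∀ v ∈ legs X r h₀, v ∉ Q → k < X.d (bt X r k v) x + 16 * σ

open Classical in
/-- The legs, and all vertices at distance at most `k + 4 * σ` from the tip of a leg which are
ancestors of the tip or beyond the root. -/
noncomputable def Sh (X : TM V) (r : V) (k h₀ σ : ℕ) : Finset V :=
  univ.filter fun w => ∃ v ∈ legs X r h₀, Bel X r v w ∨
    (X.d (tip X r v) w ≤ k + 4 * σ ∧ (Bel X r w (tip X r v) ∨ Bt X (tip X r v) r w))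

/-- The tree, the root and the parameters. -/
structure Setup (X : TM V) (r : V) (k Λ B E h₀ σ : ℕ) : Prop where
  card : Fintype.card V ≤ k ^ 2
  sum : ∑ h ∈ range k, (k - Nh X r h) ≤ Λ * k
  win : ∀ h, h₀ ≤ h + 64 * σ → h ≤ h₀ → Nh X r h = Nh X r h₀
  lo : k ≤ h₀ + 2 * B
  hi : h₀ + B ≤ k
  cen : Cen X r
  hΛ : 1 ≤ Λ
  hE : Λ * k ≤ E * B
  hE' : 100 * E + 100 * Λ + 100 ≤ σ
  hσ : 64 * σ * (2 * Λ + E + 2) ≤ B
  hB : 100 * B ≤ k

/-- `F` is a greedy choice of legs whose tips are at distance more than `2 * (k - D)`. -/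
structure Far (X : TM V) (r : V) (k h₀ D : ℕ) (F : Finset V) : Prop where
  sub : F ⊆ legs X r h₀
  far : ∀ g ∈ F, ∀ l ∈ F, g ≠ l → 2 * k < X.d (tip X r g) (tip X r l) + 2 * D
  dom : ∀ l ∈ legs X r h₀, l ∉ F → ∃ g ∈ F, X.d r (tip X r l) ≤ X.d r (tip X r g) ∧
    X.d (tip X r g) (tip X r l) + 2 * D ≤ 2 * k

/-- Two legs are related if one of them can be repaired by a ball which covers the other one. -/
def Rel (X : TM V) (r : V) (h₀ Z κ : ℕ) (i l : V) : Prop :=
  X.d (tip X r i) (tip X r l) + hz X r h₀ Z i + hz X r h₀ Z l < 2 * κ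

/-- All vertices off the path from `v` to its tip lie on one path, which has `h` vertices and whose
end has level `τ`. -/
def Clean (X : TM V) (r : V) (h₀ : ℕ) (v : V) (h τ : ℕ) : Prop :=
  ∀ x, Bel X r v x → 0 < hd X v (tip X r v) x →
    hd X v (tip X r v) x ≤ h ∧ h₀ + hd X v (tip X r v) x = X.d v x + τ + h

/-- `A` is a set of clean legs attached to the vertex `z` in different directions. -/
structure Star (X : TM V) (r : V) (h₀ Z κ ρ : ℕ) (z : V) (A : Finset V) : Prop where
  sub : A ⊆ legs X r h₀
  bel : ∀ i ∈ A, Bel X r z (tip X r i)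
  dist : ∀ i ∈ A, X.d z (tip X r i) + hz X r h₀ Z i = κ
  dir : ∀ i ∈ A, ∀ l ∈ A, i ≠ l → Bt X (tip X r i) z (tip X r l)
  nice : ∀ i ∈ A, hz X r h₀ Z i ≤ ρ
  clean : ∀ i ∈ A, ∃ τ, Clean X r h₀ i (hz X r h₀ Z i) τ

end Pool.Agent.Helper84.NC
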