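import Pool.Agent.Helper84.NC.Legs
import Pool.Agent.Helper84.NC.Fix

/-! # Project NC, module NC-25: the longest hair of a leg -/

set_option autoImplicit false

namespace Pool.Agent.Helper84.NC

open Finset Classical

variable {V : Type*} [Fintype V] {X : TM V} {r : V} {h₀ : ℕ}

/-- The distance to a path decreases by one with each step towards it. -/
theorem hairset_hd (X : TM V) {v u x : V} {j : ℕ} (hj : j ≤ hd X v u x) :
    hd X v u (pt X x v j) + j = hd X v u x ∧ X.d x (pt X x v j) = j ∧
      X.d v (pt X x v j) + j = X.d v x := by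
  obtain ⟨m, h1, h2, h3, h4⟩ := hd_med (X := X) v u x
  have p1 := pt_dist X x v j
  have p2 := pt_bt X x v j
  have p3 : X.d x (pt X x v j) = j := by omega
  have q := bt_of_bt (X := X) p2 h3 (by omega)
  have e1 := X.tri (pt X x v j) m u
  have e2 := X.tri x (pt X x v j) u
  have e3 : hd X v u (pt X x v j) = X.d (pt X x v j) m := by
    have e4 : X.d (pt X x v j) u = X.d (pt X x v j) m + X.d m u := by omega
    have e5 := X.symm v m
    unfold hd
    omega
  have e6 := X.symm v (pt X x v j)
  have e7 := X.symm v x
  refine ⟨?_, p3, ?_⟩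
  · rw [e3]
    omega
  · omega

/-- The vertices of the longest hair, off the path from `v` to its tip. -/
theorem exists_hair {v : V} (hv : v ∈ legs X r h₀) (Z : ℕ) :
    ∃ (H : Finset V) (τ : ℕ), H.card = hz X r h₀ Z v ∧ ∀ w ∈ H, Bel X r v w ∧
      0 < hd X v (tip X r v) w ∧ hd X v (tip X r v) w ≤ hz X r h₀ Z v ∧
      h₀ + hd X v (tip X r v) w = X.d v w + τ + hz X r h₀ Z v := by
  rcases Nat.eq_zero_or_pos (hz X r h₀ Z v) with h0 | h0
  · exact ⟨∅, 0, by simp [h0], by simp⟩
  · have hne : ((sub X r v).filter fun x => h₀ < X.d v x + Z).Nonempty := by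
      by_contra hcon
      rw [Finset.not_nonempty_iff_eq_empty] at hcon
      have : hz X r h₀ Z v = 0 := by
        unfold hz
        rw [hcon]
        rfl
      omega
    obtain ⟨x, hx, hx'⟩ := Finset.exists_mem_eq_sup _ hne (hd X v (tip X r v))
    have hx2 : hz X r h₀ Z v = hd X v (tip X r v) x := hx'
    rw [Finset.mem_filter, mem_sub] at hx
    have hht : X.d v x ≤ h₀ := by
      have := ht_le hx.1
      rw [mem_legs.1 hv] at this
      exact this
    refine ⟨(range (hz X r h₀ Z v)).image fun j => pt X x v j, h₀ - X.d v x, ?_, ?_⟩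
    · rw [Finset.card_image_of_injOn, Finset.card_range]
      intro i hi j hj hij
      rw [Finset.coe_range, Set.mem_Iio] at hi hj
      have a1 := (hairset_hd X (v := v) (u := tip X r v) (x := x) (j := i) (by omega)).2.1
      have a2 := (hairset_hd X (v := v) (u := tip X r v) (x := x) (j := j) (by omega)).2.1
      simp only at hij
      rw [hij] at a1
      omega
    · intro w hw
      rw [Finset.mem_image] at hw
      obtain ⟨j, hj, rfl⟩ := hw
      rw [Finset.mem_range] at hj
      obtain ⟨a1, a2, a3⟩ := hairset_hd X (v := v) (u := tip X r v) (x := x) (j := j) (by omega)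
      have hb : Bel X r v (pt X x v j) := by
        refine (bel_bt hx.1 ?_).1
        have e1 := X.symm x (pt X x v j)
        omega
      refine ⟨hb, by omega, by omega, by omega⟩

end Pool.Agent.Helper84.NC
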