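import Pool.Agent.Helper84.NC.Basic

/-! # Project NC, module NC-03: heights -/

set_option autoImplicit false

namespace Pool.Agent.Helper84.NC

open Finset

variable {V : Type*} [Fintype V] {X : TM V} {r : V}

theorem mem_sub {v x : V} : x ∈ sub X r v ↔ Bel X r v x := by
  classical
  simp [sub]

theorem mem_legs {h₀ : ℕ} {v : V} : v ∈ legs X r h₀ ↔ ht X r v = h₀ := by
  classical
  simp [legs]

theorem tip_bel (v : V) : Bel X r v (tip X r v) := (exists_tip X r v).choose_spec.1

theorem tip_dist (v : V) : X.d v (tip X r v) = ht X r v := (exists_tip X r v).choose_spec.2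

theorem ht_le {v x : V} (h : Bel X r v x) : X.d v x ≤ ht X r v :=
  Finset.le_sup (f := X.d v) (mem_sub.2 h)

theorem ht_bel {v w : V} (h : Bel X r v w) : X.d v w + ht X r w ≤ ht X r v := by
  have h1 := tip_bel (X := X) (r := r) w
  have h2 := ht_le (bel_trans h h1)
  have h3 := bel_trans' h h1
  have h4 := tip_dist (X := X) (r := r) w
  omega

/-- The vertices of the path from `v` to its tip. -/
theorem ht_up_tip {v : V} {j : ℕ} (h : j ≤ ht X r v) :
    Bel X r v (up X r (tip X r v) j) ∧ ht X r (up X r (tip X r v) j) = j ∧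
      X.d (up X r (tip X r v) j) (tip X r v) = j := by
  have h1 := tip_bel (X := X) (r := r) v
  have h2 := tip_dist (X := X) (r := r) v
  have h3 := up_bel (X := X) (r := r) (tip X r v) j
  have h4 : j ≤ X.d r (tip X r v) := by
    unfold Bel at h1
    omega
  have h5 := up_dist' (X := X) h4
  have h6 : Bel X r v (up X r (tip X r v) j) := by
    refine bel_chain h1 h3 ?_
    rw [up_depth]
    unfold Bel at h1
    omega
  have h7 := bel_trans' h6 h3
  have h8 := ht_bel h6
  have h9 := ht_le h3
  exact ⟨h6, by omega, h5⟩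

theorem eq_of_ht {v v' x : V} (h : ht X r v = ht X r v') (hx : Bel X r v x)
    (hx' : Bel X r v' x) : v = v' := by
  rcases le_total (X.d r v) (X.d r v') with h1 | h1
  · have h2 := ht_bel (bel_chain hx hx' h1)
    exact X.eq _ _ (by omega)
  · have h2 := ht_bel (bel_chain hx' hx h1)
    exact (X.eq _ _ (by omega)).symm

theorem Nh_anti {i j : ℕ} (h : i ≤ j) : Nh X r j ≤ Nh X r i := by
  classical
  unfold Nh
  refine Finset.card_le_card_of_injOn (fun v => up X r (tip X r v) i) ?_ ?_
  · intro v hv
    simp only [Finset.coe_filter, Finset.mem_univ, true_and, Set.mem_setOf_eq] at hv ⊢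
    exact (ht_up_tip (by omega)).2.1
  · intro v hv v' hv' hvv
    simp only [Finset.coe_filter, Finset.mem_univ, true_and, Set.mem_setOf_eq] at hv hv' hvv
    have h1 := (ht_up_tip (X := X) (r := r) (v := v) (j := i) (by omega)).1
    have h2 := (ht_up_tip (X := X) (r := r) (v := v') (j := i) (by omega)).1
    rw [hvv] at h1
    exact eq_of_ht (by omega) h1 h2

open Classical in
theorem sum_Nh (a b : ℕ) : ∑ h ∈ Finset.Ico a b, Nh X r h =
    (univ.filter fun v => a ≤ ht X r v ∧ ht X r v < b).card := by
  rw [Finset.card_eq_sum_card_fiberwise (f := ht X r) (t := Finset.Ico a b)]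
  · refine Finset.sum_congr rfl fun h hh => ?_
    unfold Nh
    congr 1
    ext v
    simp only [Finset.mem_filter, Finset.mem_univ, true_and]
    rw [Finset.mem_Ico] at hh
    constructor
    · intro hv
      exact ⟨⟨by omega, by omega⟩, hv⟩
    · intro hv
      exact hv.2
  · intro v hv
    simp only [Finset.coe_filter, Finset.mem_univ, true_and, Set.mem_setOf_eq] at hv
    simp only [Finset.coe_Ico, Set.mem_Ico]
    exact hv

/-- The point of a path next to a vertex. -/
theorem hd_med (v u x : V) : ∃ m, X.d v m + X.d m u = X.d v u ∧ X.d x m = hd X v u x ∧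
    X.d x m + X.d m v = X.d x v ∧ X.d x m + X.d m u = X.d x u := by
  obtain ⟨m, h1, h2, h3⟩ := X.med x v u
  have e1 := X.symm v m
  refine ⟨m, h2, ?_, h1, h3⟩
  unfold hd
  omega

theorem hd_self {v u x : V} (h : X.d v x + X.d x u = X.d v u) : hd X v u x = 0 := by
  unfold hd
  have e1 := X.symm v x
  omega

end Pool.Agent.Helper84.NC
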