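import Pool.Agent.Helper84.NC.Count

/-! # Project NC, module NC-06: the legs -/

set_option autoImplicit false

namespace Pool.Agent.Helper84.NC

open Finset Classical

variable {V : Type*} [Fintype V] {X : TM V} {r : V} {k Λ B E h₀ σ : ℕ}

/-- Numerical consequences of the setup. -/
theorem legs_num (S : Setup X r k Λ B E h₀ σ) :
    1 ≤ B ∧ 200 ≤ σ ∧ 64 * σ ≤ B ∧ 98 * B ≤ h₀ ∧ h₀ < k ∧ E < B ∧ k ≤ 2 * h₀ := by
  have h1 := S.hΛ
  have h2 := S.hE'
  have h3 := S.hσ
  have h4 := S.hB
  have h5 := S.lo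
  have h6 := S.hi
  have h7 : 200 ≤ σ := by omega
  have h8 : 64 * σ * 1 ≤ 64 * σ * (2 * Λ + E + 2) := Nat.mul_le_mul_left _ (by omega)
  have h9 : 64 * σ ≤ B := by omega
  exact ⟨by omega, h7, h9, by omega, by omega, by omega, by omega⟩

theorem card_legs_lo (S : Setup X r k Λ B E h₀ σ) : k ≤ (legs X r h₀).card + E := by
  obtain ⟨n1, n2, n3, n4, n5, n6, n7⟩ := (legs_num S)
  have h1 := Nh_def S.sum (x := h₀) n5.le
  have h2 := S.hE
  have h3 := S.hi
  have h4 : (legs X r h₀).card = Nh X r h₀ := rfl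
  rw [h4]
  by_contra hcon
  have h5 : E + 1 ≤ k - Nh X r h₀ := by omega
  have h6 : B ≤ k - h₀ := by omega
  have h7 : B * (E + 1) ≤ (k - h₀) * (k - Nh X r h₀) := Nat.mul_le_mul h6 h5
  have h8 : B * (E + 1) ≤ E * B := by omega
  have h9 : B * (E + 1) = E * B + B := by ring
  omega

theorem card_legs_hi (S : Setup X r k Λ B E h₀ σ) : (legs X r h₀).card ≤ k + 2 * Λ := by
  obtain ⟨n1, n2, n3, n4, n5, n6, n7⟩ := (legs_num S)
  have h1 := Nh_low S.card S.sum (x := h₀) n5.le
  have h4 : (legs X r h₀).card = Nh X r h₀ := rfl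
  rw [h4]
  have h2 : Λ * k ≤ Λ * (2 * h₀) := Nat.mul_le_mul_left _ n7
  have h3 : h₀ * Nh X r h₀ ≤ h₀ * (k + 2 * Λ) := by
    have : h₀ * (k + 2 * Λ) = h₀ * k + Λ * (2 * h₀) := by ring
    omega
  exact Nat.le_of_mul_le_mul_left h3 (by omega)

theorem leg_disj {v v' x : V} (hv : v ∈ legs X r h₀) (hv' : v' ∈ legs X r h₀) (h : Bel X r v x)
    (h' : Bel X r v' x) : v = v' := by
  rw [mem_legs] at hv hv'
  exact eq_of_ht (by omega) h h'

/-- The vertices with a height in the window lie on the paths from the legs to their tips. -/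
theorem leg_win (S : Setup X r k Λ B E h₀ σ) {w : V} (h1 : h₀ ≤ ht X r w + 64 * σ)
    (h2 : ht X r w ≤ h₀) :
    ∃ v ∈ legs X r h₀, Bel X r v w ∧ w = up X r (tip X r v) (ht X r w) := by
  have hwin := S.win (ht X r w) h1 h2
  set h := ht X r w with hh
  have himg : (legs X r h₀).image (fun v => up X r (tip X r v) h) =
      univ.filter (fun v => ht X r v = h) := by
    refine Finset.eq_of_subset_of_card_le ?_ ?_
    · intro u hu
      rw [Finset.mem_image] at hu
      obtain ⟨v, hv, rfl⟩ := hu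
      rw [mem_legs] at hv
      simp only [Finset.mem_filter, Finset.mem_univ, true_and]
      exact (ht_up_tip (by omega)).2.1
    · rw [Finset.card_image_of_injOn]
      · exact le_of_eq hwin
      · intro v hv v' hv' hvv
        simp only [Finset.mem_coe, mem_legs] at hv hv'
        have g1 := (ht_up_tip (X := X) (r := r) (v := v) (j := h) (by omega)).1
        have g2 := (ht_up_tip (X := X) (r := r) (v := v') (j := h) (by omega)).1
        have g3 : up X r (tip X r v) h = up X r (tip X r v') h := hvv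
        rw [g3] at g1
        exact eq_of_ht (by omega) g1 g2
  have hw : w ∈ univ.filter (fun v => ht X r v = h) := by
    simp only [Finset.mem_filter, Finset.mem_univ, true_and]
    exact hh.symm
  rw [← himg, Finset.mem_image] at hw
  obtain ⟨v, hv, hvw⟩ := hw
  refine ⟨v, hv, ?_, hvw.symm⟩
  rw [mem_legs] at hv
  have g1 := (ht_up_tip (X := X) (r := r) (v := v) (j := h) (by omega)).1
  rw [← hvw]
  exact g1

theorem leg_below {y : V} (h : h₀ ≤ ht X r y) : ∃ v ∈ legs X r h₀, Bel X r y v := by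
  obtain ⟨h1, h2, -⟩ := ht_up_tip h
  exact ⟨_, mem_legs.2 h2, h1⟩

theorem ht_root (S : Setup X r k Λ B E h₀ σ) : h₀ < ht X r r := by
  obtain ⟨n1, n2, n3, n4, n5, n6, n7⟩ := (legs_num S)
  have h1 := card_legs_lo S
  have h2 : 1 < (legs X r h₀).card := by omega
  obtain ⟨v, hv, hvr⟩ := Finset.exists_mem_ne h2 r
  rw [mem_legs] at hv
  have h3 := ht_bel (X := X) (bel_root (X := X) (r := r) v)
  have h4 := dist_pos (X := X) (Ne.symm hvr)
  omega

/-- A vertex outside of the legs hangs on a vertex of height more than `h₀`. -/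
theorem out_core (S : Setup X r k Λ B E h₀ σ) {x : V} (h : Out X r h₀ x) :
    ∃ y, Bel X r y x ∧ h₀ < ht X r y ∧ X.d y x + 64 * σ ≤ h₀ ∧
      ∀ w, Bel X r y w → Bel X r w x → w ≠ y → ht X r w + 64 * σ < h₀ := by
  obtain ⟨n1, n2, n3, n4, n5, n6, n7⟩ := (legs_num S)
  have hroot := ht_root S
  obtain ⟨y, hy, hmax⟩ := Finset.exists_max_image
    (univ.filter fun y => Bel X r y x ∧ h₀ ≤ ht X r y) (X.d r)
    ⟨r, by
      simp only [Finset.mem_filter, Finset.mem_univ, true_and]
      exact ⟨bel_root x, hroot.le⟩⟩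
  simp only [Finset.mem_filter, Finset.mem_univ, true_and] at hy hmax
  obtain ⟨hyx, hy0⟩ := hy
  have hy1 : h₀ < ht X r y := by
    rcases Nat.lt_or_ge h₀ (ht X r y) with g | g
    · exact g
    · exact absurd hyx (h y (mem_legs.2 (by omega)))
  have key : ∀ w, Bel X r y w → Bel X r w x → w ≠ y → ht X r w + 64 * σ < h₀ := by
    intro w hw1 hw2 hw3
    have g1 : ht X r w < h₀ := by
      by_contra hcon
      have g2 := hmax w ⟨hw2, by omega⟩
      have g3 := dist_pos (X := X) (Ne.symm hw3)
      unfold Bel at hw1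
      omega
    by_contra hcon
    obtain ⟨v, hv, hvw, -⟩ := leg_win S (w := w) (by omega) g1.le
    exact h v hv (bel_trans hvw hw2)
  refine ⟨y, hyx, hy1, ?_, key⟩
  by_cases hne : y = x
  · subst hne
    rw [X.self]
    omega
  · obtain ⟨c, hc1, hc2, hc3⟩ := exists_child hyx hne
    have hcy : c ≠ y := by
      intro e
      rw [e, X.self] at hc1
      omega
    have g1 := key c hc2 hc3 hcy
    have g2 := ht_le hc3
    have g3 := bel_trans' hc2 hc3
    omega

/-- The two branches of the root contain legs. -/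
theorem legs_two_root (S : Setup X r k Λ B E h₀ σ) :
    ∃ v ∈ legs X r h₀, ∃ v' ∈ legs X r h₀, v ≠ v' ∧ X.d v r + X.d r v' = X.d v v' := by
  obtain ⟨n1, n2, n3, n4, n5, n6, n7⟩ := (legs_num S)
  have hroot := ht_root S
  obtain ⟨a, b, hab, hmax, hra⟩ := S.cen
  have h1 := hmax (tip X r r)
  have h2 := tip_dist (X := X) (r := r) r
  have ha0 : r ≠ a := by
    intro e
    rw [← e, X.self] at h1
    omega
  have hb0 : r ≠ b := by
    intro e
    rw [← e, X.self] at hra
    omega
  obtain ⟨ca, hca1, hca2, hca3⟩ := exists_child (bel_root (X := X) (r := r) a) ha0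
  obtain ⟨cb, hcb1, hcb2, hcb3⟩ := exists_child (bel_root (X := X) (r := r) b) hb0
  have e1 := bel_trans' hca2 hca3
  have e2 := bel_trans' hcb2 hcb3
  have e3 := ht_le hca3
  have e4 := ht_le hcb3
  have hcne : ca ≠ cb := by
    intro e
    have e5 := X.tri a ca b
    have e6 := X.symm a ca
    have e7 := X.symm a r
    rw [← e] at e2 hcb1
    omega
  obtain ⟨v, hv, hcav⟩ := leg_below (X := X) (r := r) (h₀ := h₀) (y := ca) (by omega)
  have hcb : h₀ ≤ ht X r cb := by
    by_contra hcon
    obtain ⟨u, hu, huc, -⟩ := leg_win S (w := cb) (by omega) (by omega)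
    rw [mem_legs] at hu
    have hne : u ≠ cb := by
      intro e
      rw [← e] at hcon
      omega
    have g1 := dist_pos (X := X) hne
    have g2 : X.d r u = 0 := by
      unfold Bel at huc
      omega
    have g3 := X.eq _ _ g2
    rw [← g3] at hu
    omega
  obtain ⟨v', hv', hcbv⟩ := leg_below (X := X) (r := r) (h₀ := h₀) (y := cb) hcb
  obtain ⟨m, hm1, hm2, hm3, -⟩ := exists_lca X r v v'
  have hm : m = r := by
    by_contra hne
    have g1 := dist_pos (X := X) (Ne.symm hne)
    have g2 := bel_chain hcav hm1 (by omega)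
    have g3 := bel_chain hcbv hm2 (by omega)
    exact hcne (bel_eq g2 g3 (by omega))
  subst hm
  refine ⟨v, hv, v', hv', ?_, hm3⟩
  intro e
  subst e
  exact hcne (bel_eq hcav hcbv (by omega))

/-- Every vertex of height more than `h₀` lies between two legs. -/
theorem two_legs (S : Setup X r k Λ B E h₀ σ) {y : V} (h : h₀ < ht X r y) :
    ∃ v ∈ legs X r h₀, ∃ v' ∈ legs X r h₀, v ≠ v' ∧ Bel X r y v ∧
      X.d v y + X.d y v' = X.d v v' := by
  obtain ⟨v₁, hv₁, v₂, hv₂, hne, hd⟩ := legs_two_root S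
  by_cases hy : y = r
  · subst hy
    exact ⟨v₁, hv₁, v₂, hv₂, hne, bel_root _, hd⟩
  · obtain ⟨v, hv, hyv⟩ := leg_below (X := X) (r := r) (h₀ := h₀) (y := y) h.le
    have key : ∃ v' ∈ legs X r h₀, ¬ Bel X r y v' := by
      by_contra hcon
      push Not at hcon
      have g1 := hcon v₁ hv₁
      have g2 := hcon v₂ hv₂
      have g3 := X.tri v₁ y v₂
      have g4 := X.symm v₁ y
      have g5 := X.symm v₁ r
      have g6 := dist_pos (X := X) (Ne.symm hy)
      unfold Bel at g1 g2
      omega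
    obtain ⟨v', hv', hyv'⟩ := key
    have g1 := out_dist hyv' hyv
    refine ⟨v, hv, v', hv', ?_, hyv, ?_⟩
    · intro e
      rw [e] at hyv
      exact hyv' hyv
    · have g2 := X.symm v v'
      have g3 := X.symm v y
      have g4 := X.symm v' y
      omega

theorem out_of_ht {c : V} (h : h₀ < ht X r c) : Out X r h₀ c := by
  intro v hv hvc
  rw [mem_legs] at hv
  have g := ht_bel hvc
  omega

theorem leg_dist {v c : V} (hv : v ∈ legs X r h₀) (hc : ¬ Bel X r v c) :
    X.d c (tip X r v) = X.d c v + h₀ := by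
  rw [mem_legs] at hv
  have g1 := out_dist hc (tip_bel (X := X) (r := r) v)
  have g2 := tip_dist (X := X) (r := r) v
  omega

theorem tip_tip {v v' : V} (hv : v ∈ legs X r h₀) (hv' : v' ∈ legs X r h₀) (h : v ≠ v') :
    X.d (tip X r v) (tip X r v') = X.d v v' + 2 * h₀ := by
  have h1 : ¬ Bel X r v (tip X r v') := fun g =>
    h (leg_disj hv hv' g (tip_bel (X := X) (r := r) v'))
  have h2 : ¬ Bel X r v' v := fun g => h (leg_disj hv hv' (bel_refl v) g)
  have h3 := leg_dist hv h1
  have h4 := leg_dist hv' h2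
  have h5 := X.symm (tip X r v) (tip X r v')
  have h6 := X.symm (tip X r v') v
  omega

/-- A path between two vertices outside of a leg does not enter the leg. -/
theorem out_path {a b z : V} (ha : Out X r h₀ a) (hb : Out X r h₀ b)
    (hz : X.d a z + X.d z b = X.d a b) : Out X r h₀ z := by
  intro v hv hvz
  exact out_bt (ha v hv) (hb v hv) hvz hz

/-- The ancestors of the tip outside of the leg. -/
theorem up_leg (S : Setup X r k Λ B E h₀ σ) {v : V} (hv : v ∈ legs X r h₀) {j : ℕ}
    (hj : h₀ < j) : h₀ < ht X r (up X r (tip X r v) j) ∧ Bel X r (up X r (tip X r v) j) v ∧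
      X.d (up X r (tip X r v) j) v + h₀ ≤ j := by
  have hroot := ht_root S
  rw [mem_legs] at hv
  have h1 := tip_bel (X := X) (r := r) v
  have h2 := tip_dist (X := X) (r := r) v
  have h3 : up X r (tip X r v) h₀ = v := by
    have g := up_eq h1
    rw [h2, hv] at g
    exact g
  have h4 : Bel X r (up X r (tip X r v) j) v := by
    have g := up_bel_up (X := X) (r := r) (tip X r v) hj.le
    rw [h3] at g
    exact g
  refine ⟨?_, h4, ?_⟩
  · rcases Nat.le_total j (X.d r (tip X r v)) with g | g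
    · have g1 := up_dist' (X := X) g
      have g2 := ht_le (up_bel (X := X) (r := r) (tip X r v) j)
      omega
    · rw [up_root g]
      exact hroot
  · have g1 := bel_trans' h4 h1
    have g2 := up_dist_le (X := X) (r := r) (tip X r v) j
    omega

theorem ht_bt (S : Setup X r k Λ B E h₀ σ) {v : V} (hv : v ∈ legs X r h₀) :
    k ≤ ht X r (bt X r k v) ∨ bt X r k v = r := by
  rcases Nat.le_total k (X.d r (tip X r v)) with g | g
  · left
    have g1 := up_dist' (X := X) g
    have g2 := ht_le (up_bel (X := X) (r := r) (tip X r v) k)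
    unfold bt
    omega
  · right
    exact up_root g

theorem bt_out (S : Setup X r k Λ B E h₀ σ) {v : V} (hv : v ∈ legs X r h₀) :
    h₀ < ht X r (bt X r k v) := by
  obtain ⟨n1, n2, n3, n4, n5, n6, n7⟩ := (legs_num S)
  exact (up_leg S hv n5).1

theorem bt_bel (S : Setup X r k Λ B E h₀ σ) {v : V} (hv : v ∈ legs X r h₀) :
    Bel X r (bt X r k v) v ∧ X.d (bt X r k v) v + h₀ ≤ k := by
  obtain ⟨n1, n2, n3, n4, n5, n6, n7⟩ := (legs_num S)
  exact (up_leg S hv n5).2

end Pool.Agent.Helper84.NC
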