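import Pool.Agent.Helper84.NC.Arms
import Pool.Agent.Helper84.NC.Hair

/-! # Project NC, module NC-27a: clean arms -/

set_option autoImplicit false

namespace Pool.Agent.Helper84.NC

open Finset Classical

variable {V : Type*} [Fintype V] {X : TM V} {r : V} {k Λ B E h₀ σ : ℕ}

/-- `i` is an unmatched leg whose arm does not reach the root and ends outside of the leg. -/
structure GoodArm (X : TM V) (r : V) (h₀ Z κ ρ : ℕ) (F N : Finset V) (i : V) : Prop where
  mem : i ∈ F
  un : i ∉ N
  root : κ ≤ X.d r (tip X r i) + hz X r h₀ Z i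
  nice : hz X r h₀ Z i ≤ ρ

/-- The part of the tree below the top vertex of the arm is contained in the arm. -/
def Full (X : TM V) (r : V) (h₀ Z κ : ℕ) (A : V → Finset V) (i : V) : Prop :=
  ∀ x, Bel X r (up X r (tip X r i) (κ - hz X r h₀ Z i - 1)) x → x ∈ A i

/-- Otherwise there is an exit. -/
theorem exists_exit {Z κ : ℕ} {A : V → Finset V} {i : V} (hi : i ∈ legs X r h₀)
    (hmem : ∀ j, j < κ - hz X r h₀ Z i → up X r (tip X r i) j ∈ A i)
    (h : hz X r h₀ Z i + h₀ < κ) (hf : ¬ Full X r h₀ Z κ A i) :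
    ∃ w' ∈ A i, ∃ w, w ∉ A i ∧ X.d w' w = 1 ∧ Bel X r w' w := by
  unfold Full at hf
  push Not at hf
  obtain ⟨x, hx, hxA⟩ := hf
  set t := up X r (tip X r i) (κ - hz X r h₀ Z i - 1) with ht
  have htA : t ∈ A i := hmem _ (by omega)
  have hex : ∃ j, pt X t x j ∉ A i := by
    refine ⟨X.d t x, ?_⟩
    have h1 : pt X t x (X.d t x) = x := pt_eq (by rw [X.self]; omega)
    rw [h1]
    exact hxA
  have hn := Nat.find_spec hex
  have hmin : ∀ m, m < Nat.find hex → pt X t x m ∈ A i := fun m hm => by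
    have := Nat.find_min hex hm
    exact not_not.1 this
  have hle : Nat.find hex ≤ X.d t x := by
    apply Nat.find_min' hex
    have h1 : pt X t x (X.d t x) = x := pt_eq (by rw [X.self]; omega)
    rw [h1]
    exact hxA
  have hpos : 0 < Nat.find hex := by
    rcases Nat.eq_zero_or_pos (Nat.find hex) with h0 | h0
    · exfalso
      rw [h0] at hn
      have h1 : pt X t x 0 = t := by
        have h2 := pt_dist X t x 0
        have h3 : X.d t (pt X t x 0) = 0 := by omega
        exact (X.eq _ _ h3).symm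
      rw [h1] at hn
      exact hn htA
    · exact h0
  set n := Nat.find hex with hndef
  refine ⟨pt X t x (n - 1), hmin _ (by omega), pt X t x n, hn, ?_, ?_⟩
  · have h1 := pt_pt (X := X) t x (i := n - 1) (j := n) (by omega) hle
    omega
  · obtain ⟨h1, h2⟩ := bel_bt hx (pt_bt X t x (n - 1))
    obtain ⟨h3, h4⟩ := bel_bt hx (pt_bt X t x n)
    refine bel_chain h2 h4 ?_
    have h5 := pt_dist X t x (n - 1)
    have h6 := pt_dist X t x n
    unfold Bel at h1 h3
    omega

/-- Each convex set contains at most one exit. -/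
theorem exit_unique {M : Finset V} (hM : Cvx X M) {w₁ w₂ p₁ p₂ : V} (h1 : w₁ ∈ M) (h2 : w₂ ∈ M)
    (hp1 : p₁ ∉ M) (hp2 : p₂ ∉ M) (e1 : X.d p₁ w₁ = 1) (e2 : X.d p₂ w₂ = 1)
    (b1 : Bel X r p₁ w₁) (b2 : Bel X r p₂ w₂) : w₁ = w₂ := by
  obtain ⟨m, g1, g2, g3, -⟩ := exists_lca X r w₁ w₂
  have hm : m ∈ M := hM w₁ h1 w₂ h2 m g3
  have key : ∀ w p : V, w ∈ M → p ∉ M → X.d p w = 1 → Bel X r p w → Bel X r m w → w = m := by
    intro w p hw hp e b g
    by_contra hne
    apply hp
    have hpos : 0 < X.d m w := dist_pos fun h => hne h.symm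
    have h3 : Bel X r m p := by
      refine bel_chain g b ?_
      unfold Bel at g b
      omega
    have h4 := bel_trans' h3 b
    refine hM w hw m hm p ?_
    unfold Bt
    have e1 := X.symm w p
    have e2 := X.symm p m
    have e3 := X.symm w m
    omega
  rw [key w₁ p₁ h1 hp1 e1 b1 g1, key w₂ p₂ h2 hp2 e2 b2 g2]

/-- Arms with full subtrees which have the same vertex above them form a star. -/
theorem star_of_full (S : Setup X r k Λ B E h₀ σ) {ρ Z κ : ℕ} (hρ : 100 * ρ ≤ σ)
    (hκ : k ≤ κ + σ) {F N : Finset V} (hF : F ⊆ legs X r h₀) {A : V → Finset V}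
    (hA : ArmSys X r k h₀ σ Z κ F N A) {z : V} {A' : Finset V}
    (h : ∀ i ∈ A', GoodArm X r h₀ Z κ ρ F N i ∧ Full X r h₀ Z κ A i ∧
      up X r (tip X r i) (κ - hz X r h₀ Z i) = z) :
    Star X r h₀ Z κ ρ z A' := by
  have hbig : ∀ i ∈ A', hz X r h₀ Z i + h₀ < κ := by
    intro i hi
    have h1 := (h i hi).1.nice
    have h2 := S.hi
    have h3 := S.hσ
    have h4 := S.hE'
    have h5 : 64 * σ * 2 ≤ 64 * σ * (2 * Λ + E + 2) := Nat.mul_le_mul_left _ (by omega)
    omega
  have hA1 : ∀ i ∈ A', i ∈ legs X r h₀ := fun i hi => hF (h i hi).1.mem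
  have hdist : ∀ i ∈ A', X.d z (tip X r i) + hz X r h₀ Z i = κ := by
    intro i hi
    have h1 := (h i hi).2.2
    have h2 := (h i hi).1.root
    have h3 := hbig i hi
    have h4 : X.d (up X r (tip X r i) (κ - hz X r h₀ Z i)) (tip X r i) = κ - hz X r h₀ Z i :=
      up_dist' (by omega)
    rw [h1] at h4
    omega
  have hmemA : ∀ i ∈ A', ∀ j, j < κ - hz X r h₀ Z i → up X r (tip X r i) j ∈ A i := by
    intro i hi
    exact hA.mem i (h i hi).1.mem (h i hi).1.un (h i hi).1.root (hbig i hi)
  refine ⟨hA1, ?_, hdist, ?_, fun i hi => (h i hi).1.nice, ?_⟩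
  · intro i hi
    rw [← (h i hi).2.2]
    exact up_bel _ _
  · intro i hi l hl hne
    obtain ⟨m, g1, g2, g3, g4⟩ := exists_lca X r (tip X r i) (tip X r l)
    have hzi : Bel X r z (tip X r i) := by
      rw [← (h i hi).2.2]
      exact up_bel _ _
    have hzl : Bel X r z (tip X r l) := by
      rw [← (h l hl).2.2]
      exact up_bel _ _
    have hzm := g4 z hzi hzl
    have hmz : m = z := by
      by_contra hcon
      have hpos : 0 < X.d z m := dist_pos fun h => hcon h.symm
      have hbi := hbig i hi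
      have hri := (h i hi).1.root
      have ht : Bel X r (up X r (tip X r i) (κ - hz X r h₀ Z i - 1)) m := by
        refine bel_chain (up_bel _ _) g1 ?_
        rw [up_depth]
        have h1 : X.d r z = X.d r (tip X r i) - (κ - hz X r h₀ Z i) := by
          rw [← (h i hi).2.2, up_depth]
        unfold Bel at hzm
        omega
      have h2 := (h i hi).2.1 _ (bel_trans ht g2)
      have h3 : tip X r l ∈ A l := by
        have h4 := hmemA l hl 0 (by have := hbig l hl; omega)
        rwa [up_zero] at h4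
      exact (Finset.disjoint_left.1 (hA.disj i (hA1 i hi) l (hA1 l hl) hne) h2) h3
    rw [hmz] at g3
    exact g3
  · intro i hi
    obtain ⟨τ, hτ⟩ := hA.eqv i (h i hi).1.mem (h i hi).1.un (h i hi).1.root (hbig i hi)
    refine ⟨τ, fun x hx hd0 => ?_⟩
    have hbi := hbig i hi
    have h1 : X.d i (tip X r i) = h₀ := by
      rw [tip_dist]
      exact mem_legs.1 (hA1 i hi)
    have h2 : Bel X r (up X r (tip X r i) (κ - hz X r h₀ Z i - 1)) i := by
      have h3 := up_bel_up (X := X) (r := r) (tip X r i) (i := h₀)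
        (j := κ - hz X r h₀ Z i - 1) (by omega)
      have h4 := up_eq (tip_bel (X := X) (r := r) i)
      rw [h1] at h4
      rwa [h4] at h3
    have h3 := (h i hi).2.1 x (bel_trans h2 hx)
    rcases hτ x h3 with ⟨j, -, hj⟩ | ⟨-, -, h4, h5⟩
    · exfalso
      have h6 : Bel X r x (tip X r i) := by
        rw [hj]
        exact up_bel _ _
      have h7 := bel_trans' hx h6
      have h8 := hd_self h7
      omega
    · exact ⟨h4, h5⟩

end Pool.Agent.Helper84.NC
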