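import Pool.Agent.Helper84.NC.RegB

/-! # Project NC, module NC-19: far regions, exceptional legs -/

set_option autoImplicit false

namespace Pool.Agent.Helper84.NC

open Finset Classical

variable {V : Type*} [Fintype V] {X : TM V} {r : V} {k Λ B E h₀ σ : ℕ}

namespace RegC

theorem hσB (S : Setup X r k Λ B E h₀ σ) : 256 * σ ≤ B := by
  have h1 := S.hσ
  have h2 : 64 * σ * 4 ≤ 64 * σ * (2 * Λ + E + 2) := by
    refine Nat.mul_le_mul_left _ ?_
    have := S.hΛ
    omega
  omega

theorem σ_pos (S : Setup X r k Λ B E h₀ σ) : 100 ≤ σ := by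
  have := S.hE'
  omega

theorem k_pos (S : Setup X r k Λ B E h₀ σ) : 0 < k := by
  have h1 := hσB S
  have h2 := σ_pos S
  have h3 := S.hB
  omega

/-- A set of numbers of small diameter. -/
theorem card_le_diam (s : Finset ℕ) (R : ℕ) (h : ∀ i ∈ s, ∀ j ∈ s, j ≤ i + R) :
    s.card ≤ R + 1 := by
  rcases s.eq_empty_or_nonempty with rfl | hne
  · simp
  · have h1 : s ⊆ Finset.Icc (s.min' hne) (s.min' hne + R) := by
      intro j hj
      rw [Finset.mem_Icc]
      exact ⟨s.min'_le j hj, h _ (s.min'_mem hne) j hj⟩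
    have h2 := Finset.card_le_card h1
    rw [Nat.card_Icc] at h2
    omega

/-- The total mass of disjoint sets. -/
theorem mass {sl : ℕ} (hm : ∀ M : Finset V, Disjoint M (Sh X r k h₀ σ) →
      M.card + (legs X r h₀).card * k ≤ k ^ 2 + sl) {Y : Finset V} (M : V → Finset V)
    (h1 : ∀ x ∈ Y, ∀ w ∈ M x, X.d x w + 8 * σ ≤ k)
    (h2 : ∀ x ∈ Y, Disjoint (M x) (Sh X r k h₀ σ))
    (h3 : ∀ x ∈ Y, ∀ y ∈ Y, x ≠ y → 2 * k < X.d x y + 16 * σ) :
    ∑ x ∈ Y, (M x).card + (legs X r h₀).card * k ≤ k ^ 2 + sl := by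
  have hd : ∀ x ∈ Y, ∀ y ∈ Y, x ≠ y → Disjoint (M x) (M y) := by
    intro x hx y hy hxy
    rw [Finset.disjoint_left]
    intro w hw hw'
    have e1 := h1 x hx w hw
    have e2 := h1 y hy w hw'
    have e3 := h3 x hx y hy hxy
    have e4 := X.tri x w y
    have e5 := X.symm w y
    omega
  rw [← Finset.card_biUnion hd]
  refine hm _ ?_
  rw [Finset.disjoint_biUnion_left]
  exact h2

end RegC

/-- The same with at most three exceptional legs. -/
theorem reg_three (S : Setup X r k Λ B E h₀ σ) {Q : Finset V} (hQ : Q.card ≤ 3) {x : V}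
    (hx : x ∈ Wset X r k h₀ σ Q) :
    ∃ M : Finset V, (∀ w ∈ M, X.d x w + 8 * σ ≤ k) ∧ Disjoint M (Sh X r k h₀ σ) ∧
      k ≤ 2 * M.card := by
  obtain ⟨hout, hfar⟩ := mem_wset.1 hx
  have hσB := RegC.hσB S
  have hσ0 := RegC.σ_pos S
  have hB := S.hB
  have hlo := S.lo
  have hhi := S.hi
  have hcl := card_legs_lo S
  have hEσ := S.hE'
  -- a leg which is not exceptional
  obtain ⟨j, hj, hjQ⟩ : ∃ j ∈ legs X r h₀, j ∉ Q := by
    by_contra hcon
    push Not at hcon
    have := Finset.card_le_card (s := legs X r h₀) (t := Q) hcon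
    omega
  have hjd := hfar j hj hjQ
  set b := bt X r k j with hb
  have hdxb : X.d b x = X.d x b := X.symm b x
  have hbout : Out X r h₀ b := out_of_ht (bt_out S hj)
  set n := h₀ - 20 * σ + 1 with hn
  set I := (range n).filter (fun i => pt X x b i ∉ Sh X r k h₀ σ) with hI
  have hdist : ∀ i ∈ range n, X.d x (pt X x b i) = i := by
    intro i hi
    rw [Finset.mem_range] at hi
    rw [pt_dist]
    omega
  have hinj : ∀ i ∈ range n, ∀ i' ∈ range n, pt X x b i = pt X x b i' → i = i' := by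
    intro i hi i' hi' h
    have e1 := hdist i hi
    have e2 := hdist i' hi'
    rw [h] at e1
    omega
  have hcard : (I.image (pt X x b)).card = I.card := by
    refine Finset.card_image_of_injOn ?_
    intro i hi i' hi' h
    exact hinj i (Finset.mem_filter.1 hi).1 i' (Finset.mem_filter.1 hi').1 h
  -- the bad indices
  set R := 2 * B + 4 * σ with hR
  have hbad : (range n).filter (fun i => pt X x b i ∈ Sh X r k h₀ σ) ⊆
      Q.biUnion (fun v => (range n).filter (fun i => X.d (pt X x b i) v ≤ R)) := by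
    intro i hi
    rw [Finset.mem_filter] at hi
    obtain ⟨hi1, hi2⟩ := hi
    have hdi := hdist i hi1
    have hin : i < n := Finset.mem_range.1 hi1
    obtain ⟨v, hv, hv2⟩ := mem_sh.1 hi2
    have hwout : Out X r h₀ (pt X x b i) := out_path hout hbout (pt_bt X x b i)
    have hnb := hwout v hv
    rcases hv2 with hv2 | ⟨hv2, hv3⟩
    · exact absurd hv2 hnb
    · have hvQ : v ∈ Q := by
        by_contra hvQ
        have := sh_dist S hv hnb hv2 hv3 hout (hfar v hv hvQ)
        omega
      rw [Finset.mem_biUnion]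
      refine ⟨v, hvQ, Finset.mem_filter.2 ⟨hi1, ?_⟩⟩
      have e1 := leg_dist hv hnb
      have e2 := X.symm (pt X x b i) (tip X r v)
      omega
  have hcb : ((range n).filter (fun i => pt X x b i ∈ Sh X r k h₀ σ)).card ≤
      3 * (2 * R + 1) := by
    refine (Finset.card_le_card hbad).trans ?_
    refine (Finset.card_biUnion_le_card_mul _ _ (2 * R + 1) ?_).trans
      (Nat.mul_le_mul_right _ hQ)
    intro v _
    refine RegC.card_le_diam _ _ ?_
    intro i hi i' hi'
    rw [Finset.mem_filter] at hi hi'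
    have e1 := hdist i hi.1
    have e2 := hdist i' hi'.1
    have e3 := X.tri x (pt X x b i) (pt X x b i')
    have e4 := X.tri (pt X x b i) v (pt X x b i')
    have e5 := X.symm v (pt X x b i')
    omega
  have hsum : ((range n).filter (fun i => pt X x b i ∈ Sh X r k h₀ σ)).card + I.card = n := by
    rw [hI, Finset.card_filter_add_card_filter_not, Finset.card_range]
  refine ⟨I.image (pt X x b), ?_, ?_, ?_⟩
  · intro w hw
    obtain ⟨i, hi, rfl⟩ := Finset.mem_image.1 hw
    have hi1 := (Finset.mem_filter.1 hi).1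
    have e1 := hdist i hi1
    have e2 := Finset.mem_range.1 hi1
    omega
  · rw [Finset.disjoint_left]
    intro w hw
    obtain ⟨i, hi, rfl⟩ := Finset.mem_image.1 hw
    exact (Finset.mem_filter.1 hi).2
  · rw [hcard]
    omega

/-- If the tree is not deep, then no vertex is far from the bases of all legs. -/
theorem wset_empty_of_ht (S : Setup X r k Λ B E h₀ σ) (h : ht X r r ≤ k + σ) :
    Wset X r k h₀ σ ∅ = ∅ := by
  rw [Finset.eq_empty_iff_forall_notMem]
  intro x hx
  obtain ⟨hout, hfar⟩ := mem_wset.1 hx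
  obtain ⟨y, hyx, hhy, hdy, -⟩ := out_core S hout
  obtain ⟨j, hj, hyj⟩ := leg_below (X := X) (r := r) hhy.le
  have hjd := hfar j hj (Finset.notMem_empty j)
  have hσ0 := RegC.σ_pos S
  have hhi := S.hi
  have t1 := tip_bel (X := X) (r := r) j
  have t2 := tip_dist (X := X) (r := r) j
  have t3 : ht X r j = h₀ := mem_legs.1 hj
  have t4 := ht_le (bel_root (X := X) (r := r) (tip X r j))
  have hyt := bel_trans hyj t1
  have hyt' := bel_trans' hyj t1
  have b1 : Bel X r (bt X r k j) (tip X r j) := up_bel _ _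
  have b2 : X.d (bt X r k j) (tip X r j) ≤ k := up_dist_le _ _
  have b3 : X.d r (bt X r k j) = X.d r (tip X r j) - k := up_depth _ _
  rcases le_total (X.d r (bt X r k j)) (X.d r y) with hc | hc
  · have c1 := bel_chain b1 hyt hc
    have c2 := bel_trans' c1 hyx
    have c3 := bel_trans' c1 hyt
    omega
  · have c1 := bel_chain hyt b1 hc
    unfold Bel at c1
    have c2 := X.tri (bt X r k j) y x
    have c3 := X.symm (bt X r k j) y
    omega

/-- With the mass of the arms: no vertex is far from the bases of all but three legs. -/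
theorem wset_three (S : Setup X r k Λ B E h₀ σ) {sl : ℕ}
    (hm : ∀ M : Finset V, Disjoint M (Sh X r k h₀ σ) →
      M.card + (legs X r h₀).card * k ≤ k ^ 2 + sl) (hsl : 4 * sl ≤ k)
    (hN : (legs X r h₀).card = k) {Q : Finset V} (hQ : Q.card ≤ 3) :
    Wset X r k h₀ σ Q = ∅ := by
  rw [Finset.eq_empty_iff_forall_notMem]
  intro x hx
  obtain ⟨M, -, h2, h3⟩ := reg_three S hQ hx
  have h4 := hm M h2
  have h5 := RegC.k_pos S
  rw [hN, ← sq] at h4
  omega

/-- Exactly `k - Y.card` legs and no exceptional legs: then `Y` is empty. -/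
theorem reg_empty (S : Setup X r k Λ B E h₀ σ) {P Y : Finset V}
    (R : Reg X r k h₀ σ ∅ P Y) (hN : (legs X r h₀).card + Y.card = k) {sl : ℕ}
    (hm : ∀ M : Finset V, Disjoint M (Sh X r k h₀ σ) →
      M.card + (legs X r h₀).card * k ≤ k ^ 2 + sl) (hsl : sl < 12 * σ) : Y = ∅ := by
  have h1 : ∀ x : V, ∃ M : Finset V, x ∈ Y → (∀ w ∈ M, X.d x w + 8 * σ ≤ k) ∧
      Disjoint M (Sh X r k h₀ σ) ∧ k + 12 * σ ≤ M.card := by
    intro x
    by_cases hx : x ∈ Y
    · obtain ⟨M, a1, a2, a3, -⟩ := reg_strong S (R.sub hx)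
      exact ⟨M, fun _ => ⟨fun w hw => by have := a1 w hw; omega, a2, a3⟩⟩
    · exact ⟨∅, fun h => absurd h hx⟩
  choose M hM using h1
  have h2 := RegC.mass hm M (fun x hx => (hM x hx).1) (fun x hx => (hM x hx).2.1) R.far
  have h3 : Y.card * (k + 12 * σ) ≤ ∑ x ∈ Y, (M x).card := by
    rw [← smul_eq_mul]
    exact Finset.card_nsmul_le_sum _ _ _ fun x hx => (hM x hx).2.2
  have h4 : (legs X r h₀).card * k + Y.card * k = k ^ 2 := by
    rw [← add_mul, hN, sq]
  have h5 : Y.card * (k + 12 * σ) = Y.card * k + Y.card * (12 * σ) := by ring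
  have h6 : Y.card * (12 * σ) ≤ sl := by omega
  rcases Nat.eq_zero_or_pos Y.card with h7 | h7
  · exact Finset.card_eq_zero.1 h7
  · have h8 : 1 * (12 * σ) ≤ Y.card * (12 * σ) := Nat.mul_le_mul_right _ h7
    omega

/-- One exceptional leg does not change the number of balls of radius `k - 8 * σ`. -/
theorem reg_one (S : Setup X r k Λ B E h₀ σ) {P Y : Finset V}
    (R : Reg X r k h₀ σ ∅ P Y) (hN : (legs X r h₀).card + Y.card = k) {sl : ℕ}
    (hm : ∀ M : Finset V, Disjoint M (Sh X r k h₀ σ) →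
      M.card + (legs X r h₀).card * k ≤ k ^ 2 + sl) (hsl : 4 * sl ≤ k) (l : V) :
    ∃ P' Y', Reg X r k h₀ σ {l} P' Y' ∧ P'.card ≤ Y.card := by
  obtain ⟨P', Y', R'⟩ := exists_reg S {l}
  refine ⟨P', Y', R', R'.le.trans ?_⟩
  by_contra hcon
  push Not at hcon
  obtain ⟨Z, hZ, hZc⟩ := Finset.exists_subset_card_eq (s := Y') (n := Y.card + 1) hcon
  have hk := RegC.k_pos S
  -- at most one element of `Z` is not far from the base of `l`
  have hone : (Z.filter (fun x => x ∉ Wset X r k h₀ σ ∅)).card ≤ 1 := by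
    rw [Finset.card_le_one]
    have key : ∀ x ∈ Z.filter (fun x => x ∉ Wset X r k h₀ σ ∅),
        X.d (bt X r k l) x + 16 * σ ≤ k := by
      intro x hx
      obtain ⟨hx1, hx2⟩ := Finset.mem_filter.1 hx
      obtain ⟨hout, hfar⟩ := mem_wset.1 (R'.sub (hZ hx1))
      by_contra hc
      push Not at hc
      apply hx2
      rw [mem_wset]
      refine ⟨hout, fun v hv _ => ?_⟩
      by_cases hvl : v = l
      · rw [hvl]
        exact hc
      · exact hfar v hv (by rw [Finset.mem_singleton]; exact hvl)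
    intro x hx y hy
    by_contra hxy
    have e1 := key x hx
    have e2 := key y hy
    have e3 := R'.far x (hZ (Finset.mem_filter.1 hx).1) y (hZ (Finset.mem_filter.1 hy).1) hxy
    have e4 := X.tri x (bt X r k l) y
    have e5 := X.symm x (bt X r k l)
    have e6 := RegC.σ_pos S
    omega
  have h1 : ∀ x : V, ∃ M : Finset V, x ∈ Z → (∀ w ∈ M, X.d x w + 8 * σ ≤ k) ∧
      Disjoint M (Sh X r k h₀ σ) ∧ k ≤ 2 * M.card ∧
        (x ∈ Wset X r k h₀ σ ∅ → k ≤ M.card) := by
    intro x
    by_cases hx : x ∈ Z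
    · by_cases hx' : x ∈ Wset X r k h₀ σ ∅
      · obtain ⟨M, a1, a2, a3, -⟩ := reg_strong S hx'
        exact ⟨M, fun _ => ⟨fun w hw => by have := a1 w hw; omega, a2, by omega,
          fun _ => by omega⟩⟩
      · obtain ⟨M, a1, a2, a3⟩ := reg_three S (Q := {l})
          (by rw [Finset.card_singleton]; omega) (R'.sub (hZ hx))
        exact ⟨M, fun _ => ⟨a1, a2, a3, fun h => absurd h hx'⟩⟩
    · exact ⟨∅, fun h => absurd h hx⟩
  choose M hM using h1
  have h2 := RegC.mass hm M (fun x hx => (hM x hx).1) (fun x hx => (hM x hx).2.1)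
    (fun x hx y hy hxy => R'.far x (hZ hx) y (hZ hy) hxy)
  have h3 : (Z.filter (fun x => x ∈ Wset X r k h₀ σ ∅)).card +
      (Z.filter (fun x => x ∉ Wset X r k h₀ σ ∅)).card = Y.card + 1 := by
    rw [Finset.card_filter_add_card_filter_not, hZc]
  have h4 : (Z.filter (fun x => x ∈ Wset X r k h₀ σ ∅)).card * k ≤
      ∑ x ∈ Z.filter (fun x => x ∈ Wset X r k h₀ σ ∅), (M x).card := by
    rw [← smul_eq_mul]
    refine Finset.card_nsmul_le_sum _ _ _ fun x hx => ?_
    exact (hM x (Finset.mem_filter.1 hx).1).2.2.2 (Finset.mem_filter.1 hx).2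
  have h5 : (Z.filter (fun x => x ∉ Wset X r k h₀ σ ∅)).card * k ≤
      ∑ x ∈ Z.filter (fun x => x ∉ Wset X r k h₀ σ ∅), 2 * (M x).card := by
    rw [← smul_eq_mul]
    refine Finset.card_nsmul_le_sum _ _ _ fun x hx => ?_
    exact (hM x (Finset.mem_filter.1 hx).1).2.2.1
  rw [← Finset.mul_sum] at h5
  have h6 : ∑ x ∈ Z.filter (fun x => x ∈ Wset X r k h₀ σ ∅), (M x).card +
      ∑ x ∈ Z.filter (fun x => x ∉ Wset X r k h₀ σ ∅), (M x).card = ∑ x ∈ Z, (M x).card :=
    Finset.sum_filter_add_sum_filter_not _ _ _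
  have h7 : (legs X r h₀).card * k + Y.card * k = k ^ 2 := by
    rw [← add_mul, hN, sq]
  generalize (Z.filter (fun x => x ∈ Wset X r k h₀ σ ∅)).card = a at *
  generalize (Z.filter (fun x => x ∉ Wset X r k h₀ σ ∅)).card = b at *
  rcases Nat.le_one_iff_eq_zero_or_eq_one.1 hone with hb | hb
  · subst hb
    have : a = Y.card + 1 := by omega
    subst this
    rw [add_mul] at h4
    omega
  · subst hb
    have : a = Y.card := by omega
    subst this
    omega

end Pool.Agent.Helper84.NC
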