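import Pool.Agent.Helper84.NC.HairSet

/-! # Project NC, module NC-33a: exactly `k` legs, the set of the remaining vertices -/

set_option autoImplicit false

namespace Pool.Agent.Helper84.NC

open Finset Classical

variable {V : Type*} [Fintype V] {X : TM V} {r : V} {k Λ B E h₀ σ : ℕ}

/-- The situation of the counting argument. -/
structure Seven (X : TM V) (r : V) (k h₀ Z : ℕ) (z : V) : Prop where
  card : (legs X r h₀).card = k
  out : h₀ < ht X r z
  near : ∀ v ∈ legs X r h₀, k ≤ X.d z (tip X r v)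
  far : ∀ g ∈ legs X r h₀, ∀ l ∈ legs X r h₀, g ≠ l →
    2 * k ≤ X.d (tip X r g) (tip X r l) + 2 * hz X r h₀ Z l + 2

/-- The vertex at distance `k - 1 - hz i` from the tip of `i` on the path to `z`. -/
noncomputable def cc (X : TM V) (r : V) (k h₀ Z : ℕ) (z i : V) : V :=
  pt X (tip X r i) z (k - 1 - hz X r h₀ Z i)

theorem sc1_hz_le {v : V} (hv : v ∈ legs X r h₀) (Z : ℕ) : hz X r h₀ Z v ≤ h₀ := by
  unfold hz
  refine Finset.sup_le fun x hx => ?_
  rw [Finset.mem_filter, mem_sub] at hx
  have h1 := ht_le hx.1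
  have h2 := mem_legs.1 hv
  have h3 := X.tri x v (tip X r v)
  have h4 := X.symm v x
  unfold hd
  omega

theorem sc1_B_pos (S : Setup X r k Λ B E h₀ σ) : 0 < B := by
  have h1 := S.hσ
  have h2 := S.hE'
  refine lt_of_lt_of_le ?_ h1
  have : 0 < σ := by omega
  positivity

/-- A vertex below `l` on the path from the tip of `l` to a vertex outside of the leg. -/
theorem sc1_hd_zero {l x z : V} (hz : ¬ Bel X r l z) (hx : Bel X r l x)
    (h : Bt X (tip X r l) x z) : hd X l (tip X r l) x = 0 := by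
  have h1 := out_dist hz hx
  have h2 := out_dist hz (tip_bel (X := X) (r := r) l)
  have h3 := X.symm x z
  have h4 := X.symm (tip X r l) z
  have h5 := X.symm (tip X r l) x
  unfold Bt at h
  refine hd_self ?_
  omega

/-- The path from a tip to `z` does not meet the other legs. -/
theorem sc1_other {i l x z : V} (hi : i ∈ legs X r h₀) (hl : l ∈ legs X r h₀)
    (hz : ¬ Bel X r l z) (hx : Bel X r l x) (h : Bt X (tip X r i) x z) : i = l := by
  by_contra hne
  have h1 : ¬ Bel X r l (tip X r i) := fun h2 => hne (leg_disj hi hl (tip_bel i) h2)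
  exact out_bt h1 hz hx h

/-- The vertices outside of the paths (with `k - 1 - hz i` vertices) and of the longest hairs. -/
theorem core_rest (S : Setup X r k Λ B E h₀ σ) {Z : ℕ} {z : V} (H : Seven X r k h₀ Z z) :
    ∃ Rest : Finset V, Rest.card ≤ k ∧ ∀ x,
      (∀ l ∈ legs X r h₀, Bt X (tip X r l) x z → k < X.d (tip X r l) x + hz X r h₀ Z l + 2) →
      (∀ l ∈ legs X r h₀, Bel X r l x → hd X l (tip X r l) x = 0) → x ∈ Rest := by
  have hzo : ∀ l ∈ legs X r h₀, ¬ Bel X r l z := out_of_ht H.out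
  choose! Hs τ hH using fun v (hv : v ∈ legs X r h₀) => exists_hair hv Z
  -- the paths
  obtain ⟨P, hP⟩ : ∃ P : V → Finset V, P = fun l =>
    (Finset.range (k - 1 - hz X r h₀ Z l)).image fun j => pt X (tip X r l) z j := ⟨_, rfl⟩
  have hPmem : ∀ l ∈ legs X r h₀, ∀ x ∈ P l, Bt X (tip X r l) x z ∧
      X.d (tip X r l) x < k - 1 - hz X r h₀ Z l := by
    intro l hl x hx
    rw [hP] at hx
    simp only [Finset.mem_image, Finset.mem_range] at hx
    obtain ⟨j, hj, rfl⟩ := hx
    refine ⟨pt_bt X _ _ _, ?_⟩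
    rw [pt_dist]
    omega
  have hPcard : ∀ l ∈ legs X r h₀, (P l).card = k - 1 - hz X r h₀ Z l := by
    intro l hl
    rw [hP]
    simp only
    rw [Finset.card_image_of_injOn, Finset.card_range]
    intro a ha b hb hab
    simp only [Finset.coe_range, Set.mem_Iio] at ha hb
    have h1 := pt_dist X (tip X r l) z a
    have h2 := pt_dist X (tip X r l) z b
    have h3 := H.near l hl
    have h4 := X.symm z (tip X r l)
    simp only at hab
    rw [hab] at h1
    omega
  obtain ⟨T, hT⟩ : ∃ T : V → Finset V, T = fun l => P l ∪ Hs l := ⟨_, rfl⟩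
  have hTcard : ∀ l ∈ legs X r h₀, k - 1 ≤ (T l).card := by
    intro l hl
    rw [hT]
    simp only
    rw [Finset.card_union_of_disjoint, hPcard l hl, (hH l hl).1]
    · omega
    · rw [Finset.disjoint_left]
      intro x hx hx'
      have h1 := (hPmem l hl x hx).1
      have h2 := (hH l hl).2 x hx'
      have h3 := sc1_hd_zero (hzo l hl) h2.1 h1
      omega
  have hdisj : ∀ i ∈ legs X r h₀, ∀ l ∈ legs X r h₀, i ≠ l → Disjoint (T i) (T l) := by
    intro i hi l hl hne
    rw [Finset.disjoint_left]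
    intro x hx hx'
    rw [hT] at hx hx'
    simp only [Finset.mem_union] at hx hx'
    rcases hx with hx | hx <;> rcases hx' with hx' | hx'
    · have h1 := (hPmem i hi x hx).2
      have h2 := (hPmem l hl x hx').2
      have h3 := H.far i hi l hl hne
      have h4 := H.far l hl i hi hne.symm
      have h5 := X.tri (tip X r i) x (tip X r l)
      have h6 := X.symm x (tip X r l)
      have h7 := X.symm (tip X r i) (tip X r l)
      omega
    · exact hne (sc1_other hi hl (hzo l hl) ((hH l hl).2 x hx').1 (hPmem i hi x hx).1)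
    · exact hne (sc1_other hl hi (hzo i hi) ((hH i hi).2 x hx).1 (hPmem l hl x hx').1).symm
    · exact hne (leg_disj hi hl ((hH i hi).2 x hx).1 ((hH l hl).2 x hx').1)
  have hbig : k * (k - 1) ≤ ((legs X r h₀).biUnion T).card := by
    rw [Finset.card_biUnion hdisj]
    calc k * (k - 1) = ∑ l ∈ legs X r h₀, (k - 1) := by
          rw [Finset.sum_const, H.card, smul_eq_mul]
      _ ≤ ∑ l ∈ legs X r h₀, (T l).card := Finset.sum_le_sum hTcard
  refine ⟨((legs X r h₀).biUnion T)ᶜ, ?_, ?_⟩
  · rw [Finset.card_compl]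
    have h1 := S.card
    have h2 : k * (k - 1) + k = k ^ 2 := by
      rcases Nat.eq_zero_or_pos k with h0 | h0
      · rw [h0]; rfl
      · obtain ⟨n, rfl⟩ : ∃ n, k = n + 1 := ⟨k - 1, by omega⟩
        rw [Nat.add_sub_cancel]
        ring
    omega
  · intro x h1 h2
    rw [Finset.mem_compl, Finset.mem_biUnion]
    rintro ⟨l, hl, hx⟩
    rw [hT] at hx
    simp only [Finset.mem_union] at hx
    rcases hx with hx | hx
    · have h3 := hPmem l hl x hx
      have h4 := h1 l hl h3.1
      omega
    · have h3 := (hH l hl).2 x hx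
      have h4 := h2 l hl h3.1
      omega

theorem cc_mem (S : Setup X r k Λ B E h₀ σ) {Z : ℕ} {z : V} (H : Seven X r k h₀ Z z) {i : V}
    (hi : i ∈ legs X r h₀) :
    X.d (tip X r i) (cc X r k h₀ Z z i) + hz X r h₀ Z i + 1 = k ∧
    Bt X (tip X r i) (cc X r k h₀ Z z i) z ∧ cc X r k h₀ Z z i ≠ z ∧
    (∀ l ∈ legs X r h₀, Bt X (tip X r l) (cc X r k h₀ Z z i) z →
      k < X.d (tip X r l) (cc X r k h₀ Z z i) + hz X r h₀ Z l + 2) ∧
    (∀ l ∈ legs X r h₀, Bel X r l (cc X r k h₀ Z z i) →
      l = i ∧ hd X l (tip X r l) (cc X r k h₀ Z z i) = 0) := by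
  have hzo : ∀ l ∈ legs X r h₀, ¬ Bel X r l z := out_of_ht H.out
  have hB := sc1_B_pos S
  have hh := sc1_hz_le hi Z
  have hk := S.hi
  have hn := H.near i hi
  have hs := X.symm z (tip X r i)
  obtain ⟨c, hc⟩ : ∃ c, c = cc X r k h₀ Z z i := ⟨_, rfl⟩
  rw [← hc]
  have h1 : X.d (tip X r i) c = min (k - 1 - hz X r h₀ Z i) (X.d (tip X r i) z) := by
    rw [hc]
    exact pt_dist X _ _ _
  have h2 : Bt X (tip X r i) c z := by
    rw [hc]
    exact pt_bt X _ _ _
  refine ⟨by omega, h2, ?_, ?_, ?_⟩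
  · intro h3
    rw [h3] at h1
    omega
  · intro l hl _
    by_cases hne : i = l
    · rw [← hne]
      omega
    · have h3 := H.far i hi l hl hne
      have h4 := H.far l hl i hi (Ne.symm hne)
      have h5 := X.tri (tip X r i) c (tip X r l)
      have h6 := X.symm c (tip X r l)
      have h7 := X.symm (tip X r i) (tip X r l)
      omega
  · intro l hl hbel
    have h3 := sc1_other hi hl (hzo l hl) hbel h2
    subst h3
    exact ⟨rfl, sc1_hd_zero (hzo _ hi) hbel h2⟩

end Pool.Agent.Helper84.NC
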