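import Pool.Agent.Helper84.NC.SevenC1

/-! # Project NC, module NC-33b: exactly `k` legs, two legs with the same centre -/

set_option autoImplicit false

namespace Pool.Agent.Helper84.NC

open Finset Classical

variable {V : Type*} [Fintype V] {X : TM V} {r : V} {k Λ B E h₀ σ : ℕ}

/-- One ball of radius `k - 1` which serves three legs. -/
def Triple (X : TM V) (r : V) (k h₀ σ : ℕ) : Prop :=
  ∃ i ∈ legs X r h₀, ∃ l ∈ legs X r h₀, ∃ l' ∈ legs X r h₀, i ≠ l ∧ i ≠ l' ∧ l ≠ l' ∧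
    ∃ c, X.d c i + h₀ + 1 ≤ k ∧ X.d c l + h₀ + 1 ≤ k ∧ Sv X r k h₀ l' c 1 2 ∧
      X.d c l' + h₀ + 1 ≤ k + 8 * σ

theorem core_pair (S : Setup X r k Λ B E h₀ σ) {Z : ℕ} {z : V} (H : Seven X r k h₀ Z z)
    {i l : V} (hi : i ∈ legs X r h₀) (hl : l ∈ legs X r h₀) (hne : i ≠ l)
    (hc : cc X r k h₀ Z z i = cc X r k h₀ Z z l) :
    hz X r h₀ Z i = hz X r h₀ Z l ∧
    X.d (tip X r i) (tip X r l) + 2 * hz X r h₀ Z i + 2 = 2 * k ∧
    (∀ v ∈ legs X r h₀, ¬ Bel X r v (cc X r k h₀ Z z i)) := by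
  have h1 := cc_mem S H hi
  have h2 := cc_mem S H hl
  have h3 := h2.1
  rw [← hc] at h3
  have h4 := h1.1
  have h5 := H.far i hi l hl hne
  have h6 := H.far l hl i hi hne.symm
  have h7 := X.tri (tip X r i) (cc X r k h₀ Z z i) (tip X r l)
  have h8 := X.symm (cc X r k h₀ Z z i) (tip X r l)
  have h9 := X.symm (tip X r i) (tip X r l)
  refine ⟨by omega, by omega, ?_⟩
  intro v hv hb
  have h10 := (h1.2.2.2.2 v hv hb).1
  have h11 := (h2.2.2.2.2 v hv (hc ▸ hb)).1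
  exact hne (h10.symm.trans h11)

/-- Three legs with the same centre. -/
theorem core_three (S : Setup X r k Λ B E h₀ σ) {Z : ℕ} {z : V} (H : Seven X r k h₀ Z z)
    {i l l' : V} (hi : i ∈ legs X r h₀) (hl : l ∈ legs X r h₀) (hl' : l' ∈ legs X r h₀)
    (hil : i ≠ l) (hil' : i ≠ l') (hll' : l ≠ l')
    (hc : cc X r k h₀ Z z i = cc X r k h₀ Z z l)
    (hc' : cc X r k h₀ Z z i = cc X r k h₀ Z z l') : Triple X r k h₀ σ := by
  have hb := (core_pair S H hi hl hil hc).2.2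
  have h1 := (cc_mem S H hi).1
  have h2 := (cc_mem S H hl).1
  have h3 := (cc_mem S H hl').1
  rw [← hc] at h2
  rw [← hc'] at h3
  have e1 := leg_dist hi (hb i hi)
  have e2 := leg_dist hl (hb l hl)
  have e3 := leg_dist hl' (hb l' hl')
  have s1 := X.symm (tip X r i) (cc X r k h₀ Z z i)
  have s2 := X.symm (tip X r l) (cc X r k h₀ Z z i)
  have s3 := X.symm (tip X r l') (cc X r k h₀ Z z i)
  refine ⟨i, hi, l, hl, l', hl', hil, hil', hll', cc X r k h₀ Z z i, by omega, by omega,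
    ⟨0, by omega, fix_zero l' hl' 2⟩, by omega⟩

omit [Fintype V] in
/-- An edge which separates `a` from `b`. -/
theorem sc2_edge {c w a b : V} (hw : X.d c w = 1) (ha : X.d w a = X.d c a + 1)
    (hb : X.d c b = X.d w b + 1) : X.d a b = X.d a c + X.d c b := by
  obtain ⟨m, h1, h2, h3⟩ := X.med a b c
  have s1 := X.symm b c
  have s2 := X.symm m b
  have s3 := X.symm m c
  have s4 := X.symm a c
  have s5 := X.symm a m
  by_cases hm : X.d c m = 0
  · have h4 := X.eq c m hm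
    rw [← h4] at h1
    exact h1.symm
  · exfalso
    have h5 : X.d c m + X.d m b = X.d c b := by omega
    have h6 : X.d c w + X.d w b = X.d c b := by omega
    have h7 := bt_of_bt h6 h5 (by omega)
    have h8 := X.tri w m a
    omega

/-- Two legs `i`, `l` with the same centre `c`, a neighbour `w` of `c` and a leg `l'` behind
`w`. -/
theorem core_serve (S : Setup X r k Λ B E h₀ σ) {Z : ℕ} (hZ : 4 ≤ Z) {z : V}
    (H : Seven X r k h₀ Z z) {i l l' w : V} (hi : i ∈ legs X r h₀) (hl : l ∈ legs X r h₀)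
    (hl' : l' ∈ legs X r h₀) (hil : i ≠ l) (hil' : i ≠ l') (hll' : l ≠ l')
    (hc : cc X r k h₀ Z z i = cc X r k h₀ Z z l)
    (hw : X.d (cc X r k h₀ Z z i) w = 1)
    (hwi : X.d w (tip X r i) = X.d (cc X r k h₀ Z z i) (tip X r i) + 1)
    (hwl : X.d w (tip X r l) = X.d (cc X r k h₀ Z z i) (tip X r l) + 1)
    (hwl' : X.d (cc X r k h₀ Z z i) (tip X r l') = X.d w (tip X r l') + 1) :
    Triple X r k h₀ σ ∨ (2 * k ≤ X.d (tip X r i) (tip X r l') + 1 ∧
      2 * k + 2 ≤ X.d (tip X r i) (tip X r l') + 2 * hz X r h₀ Z l' ∧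
      X.d (tip X r i) (tip X r l') + hz X r h₀ Z i = k + X.d w (tip X r l')) := by
  have hσ := S.hE'
  obtain ⟨hhz, -, hb⟩ := core_pair S H hi hl hil hc
  have h1 := (cc_mem S H hi).1
  have h2 := (cc_mem S H hl).1
  rw [← hc] at h2
  obtain ⟨c, hcd⟩ : ∃ c, c = cc X r k h₀ Z z i := ⟨_, rfl⟩
  rw [← hcd] at hb h1 h2 hw hwi hwl hwl'
  have hD := sc2_edge hw hwi hwl'
  have s1 := X.symm (tip X r i) c
  have s2 := X.symm (tip X r l) c
  have e3 := leg_dist hl' (hb l' hl')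
  by_cases hcase : 2 * k ≤ X.d (tip X r i) (tip X r l') + 1 ∧
      2 * k + 2 ≤ X.d (tip X r i) (tip X r l') + 2 * hz X r h₀ Z l'
  · exact Or.inr ⟨hcase.1, hcase.2, by omega⟩
  left
  -- the centre
  obtain ⟨c', hc'⟩ : ∃ c', c' = pt X c l' (hz X r h₀ Z i) := ⟨_, rfl⟩
  have g1 : X.d c c' = min (hz X r h₀ Z i) (X.d c l') := by
    rw [hc']
    exact pt_dist X _ _ _
  have g2 : X.d c c' + X.d c' l' = X.d c l' := by
    rw [hc']
    exact pt_bt X _ _ _
  have hci : ¬ Bel X r i c' := fun h =>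
    out_bt (hb i hi) (fun h' => hil' (leg_disj hi hl' h' (bel_refl l'))) h g2
  have hcl : ¬ Bel X r l c' := fun h =>
    out_bt (hb l hl) (fun h' => hll' (leg_disj hl hl' h' (bel_refl l'))) h g2
  have e1 := leg_dist hi hci
  have e2 := leg_dist hl hcl
  have t1 := X.tri c' c (tip X r i)
  have t2 := X.tri c' c (tip X r l)
  have s3 := X.symm c' c
  have hk := S.hi
  have hfix : ∃ m, m ≤ 3 ∧ X.d (tip X r i) (tip X r l') + 2 ≤ 2 * k + m ∧
      Fix X r h₀ l' m 2 := by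
    by_cases h5 : X.d (tip X r i) (tip X r l') + 2 ≤ 2 * k
    · exact ⟨0, by omega, by omega, fix_zero l' hl' 2⟩
    · refine ⟨X.d (tip X r i) (tip X r l') + 2 - 2 * k, by omega, by omega, ?_⟩
      have h6 := fix_hz hl' (X := X) (r := r)
        (m := X.d (tip X r i) (tip X r l') + 2 - 2 * k) (Z := Z) (by omega)
      exact fix_mono h6 le_rfl (by omega)
  obtain ⟨m, hm3, hm, hF⟩ := hfix
  refine ⟨i, hi, l, hl, l', hl', hil, hil', hll', c', by omega, by omega,
    ⟨m, by omega, hF⟩, by omega⟩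

end Pool.Agent.Helper84.NC
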