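import Pool.Agent.Helper84.NC.Serve
import Pool.Agent.Helper84.NC.RegC

/-! # Project NC, module NC-28a: assembly with a star -/

set_option autoImplicit false

namespace Pool.Agent.Helper84.NC

open Finset Classical

variable {V : Type*} [Fintype V] {X : TM V} {r : V} {k Λ B E h₀ σ : ℕ}

theorem Star.mono {Z κ ρ : ℕ} {z : V} {A A' : Finset V} (h : Star X r h₀ Z κ ρ z A)
    (hA : A' ⊆ A) : Star X r h₀ Z κ ρ z A' where
  sub := hA.trans h.sub
  bel := fun i hi => h.bel i (hA hi)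
  dist := fun i hi => h.dist i (hA hi)
  dir := fun i hi l hl hil => h.dir i (hA hi) l (hA hl) hil
  nice := fun i hi => h.nice i (hA hi)
  clean := fun i hi => h.clean i (hA hi)

private theorem star_bt_centre {Z κ ρ : ℕ} {z : V} {A : Finset V}
    (h : Star X r h₀ Z κ ρ z A) (hκ1 : κ ≤ k + 2 * ρ) (hκ2 : k ≤ κ + 2 * Λ + 1)
    {i : V} (hi : i ∈ A) : X.d (bt X r k i) z ≤ 2 * ρ + 2 * Λ + 1 := by
  have h1 := h.dist i hi
  have h2 := h.nice i hi
  have h3 := up_eq (h.bel i hi)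
  have h4 := up_up_le (X := X) (r := r) (tip X r i) k (X.d z (tip X r i))
  rw [h3] at h4
  change X.d (bt X r k i) z ≤ _ at h4
  omega

/-- The bases of the legs of a star are close to each other. -/
theorem Star.bt_dist (S : Setup X r k Λ B E h₀ σ) {Z κ ρ : ℕ} {z : V} {A : Finset V}
    (h : Star X r h₀ Z κ ρ z A) (hκ1 : κ ≤ k + 2 * ρ) (hκ2 : k ≤ κ + 2 * Λ + 1)
    {i l : V} (hi : i ∈ A) (hl : l ∈ A) :
    X.d (bt X r k i) (bt X r k l) ≤ 6 * ρ + 4 * Λ + 2 := by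
  have h1 := star_bt_centre h hκ1 hκ2 hi
  have h2 := star_bt_centre h hκ1 hκ2 hl
  have h3 := X.tri (bt X r k i) z (bt X r k l)
  have h4 := X.symm z (bt X r k l)
  omega

private theorem setup_num (S : Setup X r k Λ B E h₀ σ) :
    128 * σ ≤ B ∧ 12800 * σ ≤ k ∧ 1 ≤ k := by
  have h1 := S.hσ
  have h2 := S.hB
  have h3 := S.hE'
  have h4 : 64 * σ * 2 ≤ 64 * σ * (2 * Λ + E + 2) := Nat.mul_le_mul_left _ (by omega)
  refine ⟨by omega, by omega, by omega⟩

/-- At most two large balls `b 1`, `b 2`; at most four special legs `K` with needs `ν`; all other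
legs of the star have need at most `n₁`. -/
theorem star_asm (S : Setup X r k Λ B E h₀ σ) {ρ Mn Z κ t n₁ : ℕ} (hρ : 64 * (Λ + 1) ≤ ρ)
    (hρσ : 100 * (ρ + Mn) ≤ σ) (hΛσ : 2 * Λ * k ≤ σ * B) (hMn : Λ * k + 1 ≤ Mn * σ)
    (hκ1 : κ ≤ k + 2 * ρ) (hκ2 : k ≤ κ + 2 * Λ + 1) {z : V} {A : Finset V}
    (hA : Star X r h₀ Z κ ρ z A) (hA' : 2 * ρ + 2 * Λ + 12 ≤ A.card) (ht2 : t ≤ 2)
    {b : ℕ → V} {K Q P : Finset V} (hK : K ⊆ legs X r h₀) (hK4 : K.card ≤ 4) (hQK : Q ⊆ K)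
    {ν : V → ℕ} (hν : ∀ v ∈ K, ∃ a, 1 ≤ a ∧ a ≤ t ∧ Sv X r k h₀ v (b a) a (ν v))
    (harm : ∀ j ∈ A, j ∉ K → ∃ a, 1 ≤ a ∧ a ≤ t ∧ Sv X r k h₀ j (b a) a n₁)
    (hnear : ∀ v ∈ K, v ∉ Q → ∃ a, 1 ≤ a ∧ a ≤ t ∧ X.d (bt X r k v) (b a) ≤ 2 * σ)
    (hQ : ∀ v ∈ Q, ∃ a, 1 ≤ a ∧ a ≤ t ∧ X.d (b a) v + h₀ + a ≤ k + 8 * σ)
    (hP : ∀ x ∈ Wset X r k h₀ σ Q, ∃ c ∈ P, X.d c x + 8 * σ ≤ k)
    (hPN : P.card + (legs X r h₀).card ≤ k + 2 * Λ + 1)
    (hSC : ∀ n, n < n₁ →
      n + t + P.card + (legs X r h₀).card ≤ k + (K.filter fun v => ν v ≤ n).card) :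
    Cov X k := by
  obtain ⟨hs1, hs2, hs3⟩ := setup_num S
  have hE' := S.hE'
  have hB' := S.hB
  have hlo := card_legs_lo S
  have hMn2 : 12800 ≤ Mn := by
    by_contra hcon
    push Not at hcon
    have h1 : Mn * σ ≤ 12799 * σ := Nat.mul_le_mul_right _ (by omega)
    have h2 : k ≤ Λ * k := Nat.le_mul_of_pos_left _ S.hΛ
    omega
  -- the legs of the star outside of `K`
  have hAK : 2 * ρ + 2 * Λ + 8 ≤ (A \ K).card := by
    have h1 := Finset.le_card_sdiff K A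
    omega
  obtain ⟨A1, hA1, hA1c⟩ := Finset.exists_subset_card_eq (s := A \ K)
    (n := 2 * ρ + 2 * Λ + 7) (by omega)
  obtain ⟨js, hjs⟩ : A1.Nonempty := by
    rw [← Finset.card_pos]
    omega
  set A0 := A1.erase js with hA0
  have hA0c : A0.card = 2 * ρ + 2 * Λ + 6 := by
    rw [hA0, Finset.card_erase_of_mem hjs]
    omega
  have hA0A : ∀ v ∈ A0, v ∈ A ∧ v ∉ K := fun v hv => by
    have := hA1 (Finset.mem_of_mem_erase hv)
    rwa [Finset.mem_sdiff] at this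
  have hjsA : js ∈ A ∧ js ∉ K := by
    have := hA1 hjs
    rwa [Finset.mem_sdiff] at this
  have hdisj : Disjoint K A0 := by
    rw [Finset.disjoint_left]
    intro v hv hv'
    exact (hA0A v hv').2 hv
  set ν' : V → ℕ := fun v => if v ∈ K then ν v else n₁ with hν'
  refine asm1 S (M₁ := t) (t := t) (ρ := ρ) (Mn := Mn) hρ (by omega) hΛσ hMn
    (U := Finset.Icc 1 t) (b := b) ?_ (K := K ∪ A0) (Q := Q) (P := P) ?_ ?_ (ν := ν') ?_ ?_ ?_ hP
    ?_ ?_ ?_
  · intro a ha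
    rw [Finset.mem_Icc] at ha
    exact ⟨ha.1, ha.2, Or.inl ha.2⟩
  · refine Finset.union_subset hK fun v hv => hA.sub (hA0A v hv).1
  · exact hQK.trans Finset.subset_union_left
  · intro v hv
    rw [Finset.mem_union] at hv
    by_cases hvK : v ∈ K
    · obtain ⟨a, h1, h2, h3⟩ := hν v hvK
      refine ⟨a, Finset.mem_Icc.2 ⟨h1, h2⟩, ?_⟩
      simp only [hν', if_pos hvK]
      exact h3
    · have hvA := hA0A v (hv.resolve_left hvK)
      obtain ⟨a, h1, h2, h3⟩ := harm v hvA.1 hvA.2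
      refine ⟨a, Finset.mem_Icc.2 ⟨h1, h2⟩, ?_⟩
      simp only [hν', if_neg hvK]
      exact h3
  · intro v hv hvQ
    rw [Finset.mem_union] at hv
    by_cases hvK : v ∈ K
    · right
      obtain ⟨a, h1, h2, h3⟩ := hnear v hvK hvQ
      exact ⟨a, Finset.mem_Icc.2 ⟨h1, h2⟩, h3⟩
    · left
      have hvA := hA0A v (hv.resolve_left hvK)
      refine ⟨js, hA.sub hjsA.1, ?_, ?_⟩
      · rw [Finset.mem_union]
        rintro (h | h)
        · exact hjsA.2 h
        · exact (Finset.notMem_erase js A1) h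
      · have := Star.bt_dist S hA hκ1 hκ2 hvA.1 hjsA.1
        omega
  · intro v hv
    obtain ⟨a, h1, h2, h3⟩ := hQ v hv
    exact ⟨a, Finset.mem_Icc.2 ⟨h1, h2⟩, h3⟩
  · omega
  · have h1 := Finset.card_union_le K A0
    omega
  · intro n hn
    rw [Nat.card_Icc]
    by_cases hn1 : n < n₁
    · have h1 := hSC n hn1
      have h2 : (K.filter fun v => ν v ≤ n).card ≤
          ((K ∪ A0).filter fun v => ν' v ≤ n).card := by
        refine Finset.card_le_card fun v hv => ?_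
        rw [Finset.mem_filter] at hv ⊢
        refine ⟨Finset.mem_union_left _ hv.1, ?_⟩
        simp only [hν', if_pos hv.1]
        exact hv.2
      omega
    · push Not at hn1
      have h2 : A0.card ≤ ((K ∪ A0).filter fun v => ν' v ≤ n).card := by
        refine Finset.card_le_card fun v hv => ?_
        rw [Finset.mem_filter]
        refine ⟨Finset.mem_union_right _ hv, ?_⟩
        simp only [hν', if_neg (hA0A v hv).2]
        exact hn1
      omega

/-- Distances in a star. -/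
theorem Star.serve {Z κ ρ : ℕ} {z : V} {A : Finset V} (S : Setup X r k Λ B E h₀ σ)
    (h : Star X r h₀ Z κ ρ z A) (hρσ : 100 * ρ ≤ σ) (hκ2 : k ≤ κ + 2 * Λ + 1) :
    (∀ i ∈ A, h₀ < ht X r z ∧ z = up X r (tip X r i) (κ - hz X r h₀ Z i) ∧
      X.d z i + h₀ + hz X r h₀ Z i = κ) ∧
    (∀ g ∈ A, ∀ i ∈ A, g ≠ i → ∀ j, h₀ < j → j + hz X r h₀ Z g ≤ κ →
      X.d (up X r (tip X r g) j) i + h₀ + j + hz X r h₀ Z g + hz X r h₀ Z i = 2 * κ) := by
  obtain ⟨hs1, hs2, hs3⟩ := setup_num S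
  have hE' := S.hE'
  have hhi := S.hi
  have key : ∀ i ∈ A, h₀ < ht X r z ∧ z = up X r (tip X r i) (κ - hz X r h₀ Z i) ∧
      X.d z i + h₀ + hz X r h₀ Z i = κ := by
    intro i hi
    have h1 := h.dist i hi
    have h2 := h.nice i hi
    have h3 := h.bel i hi
    have h4 : ht X r i = h₀ := mem_legs.1 (h.sub hi)
    have h5 := tip_bel (X := X) (r := r) i
    have h6 := tip_dist (X := X) (r := r) i
    have h7 : Bel X r z i := by
      refine bel_chain h3 h5 ?_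
      unfold Bel at h3 h5
      omega
    have h8 := bel_trans' h7 h5
    have h9 := ht_bel h7
    refine ⟨by omega, ?_, by omega⟩
    have h10 := up_eq h3
    have h11 : κ - hz X r h₀ Z i = X.d z (tip X r i) := by omega
    rw [h11, h10]
  refine ⟨key, ?_⟩
  intro g hg i hi hgi j hj hjκ
  have hg1 := h.dist g hg
  have hi1 := h.dist i hi
  have hgb := h.bel g hg
  have hdir := h.dir g hg i hi hgi
  obtain ⟨-, -, ki⟩ := key i hi
  set p := up X r (tip X r g) j with hp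
  have hpb : Bel X r p (tip X r g) := up_bel _ _
  have hjd : j ≤ X.d r (tip X r g) := by
    unfold Bel at hgb
    omega
  have hpd : X.d p (tip X r g) = j := up_dist' hjd
  have hzp : Bel X r z p := by
    refine bel_chain hgb hpb ?_
    unfold Bel at hgb hpb
    omega
  have h1 := bel_trans' hzp hpb
  have h2 := X.tri (tip X r g) p (tip X r i)
  have h3 := X.tri p i (tip X r i)
  have h4 := X.tri p z i
  have h5 := X.symm (tip X r g) p
  have h6 := X.symm p z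
  have h7 := X.symm (tip X r g) z
  have h8 := tip_dist (X := X) (r := r) i
  have h9 : ht X r i = h₀ := mem_legs.1 (h.sub hi)
  unfold Bt at hdir
  omega

end Pool.Agent.Helper84.NC
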